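import Pool.Agent.Helper10.SE.Defs8

/-!
# Project SE, version 5: a good place from a good discriminant, with all elements of `E` integral
-/

universe u

namespace Pool.Agent.SE

open VC Polynomial Pool.Agent.LT Pool.Agent.SC Pool.Agent.GC Pool.Agent.Helper91.Sect Pool.Agent
  Pool.Agent.TWX Pool.Agent.TWT Pool.Agent.TWH

/-- **Block H2E**: `StmtH2` with the additional conclusion that the elements of `E` are integral. -/
def StmtH2E : Prop :=
  ∀ {F k : Type u} [Field F] [CharZero F] [Field k] [DecidableEq k] [Algebra F k]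
    (_ : ∃ S : Finset F, Subfield.closure (S : Set F) = ⊤)
    {v u : k} (_ : AlgebraicIndependent F ![v, u]) (_ : FiniteDimensional (k0 F v u) k)
    (_ : ∀ z : k, IsAlgebraic (IntermediateField.adjoin F {v}) z →
      z ∈ IntermediateField.adjoin F {v})
    {Δ : F[X][X]} (_ : GoodDisc Δ) {E : Finset k} (_ : IntermediateField.adjoin F (E : Set k) = ⊤)
    (_ : GoodAt F v u Δ E)
    {f : k[X]} (_ : 1 ≤ f.natDegree) (_ : f.Separable) (_ : goodElts f 1 ⊆ E)
    {U : Finset k} (_ : ∀ a ∈ U, a ≠ 0 ∧ a ∈ E ∧ a⁻¹ ∈ E),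
    ∃ W : ValuationSubring (AlgebraicClosure k),
      (∀ z : IntermediateField.adjoin F {u}, algebraMap k (AlgebraicClosure k) z ∈ W) ∧
      (∀ i, algebraMap k (AlgebraicClosure k) (f.coeff i) ∈ W) ∧
      W.valuation (algebraMap k (AlgebraicClosure k) f.leadingCoeff) = 1 ∧
      W.valuation (algebraMap k (AlgebraicClosure k) f.discr) = 1 ∧
      (∀ a ∈ U, W.valuation (algebraMap k (AlgebraicClosure k) a) = 1) ∧
      algebraMap k (AlgebraicClosure k) v ∈ W.nonunits ∧
      (∀ z : k, z ≠ 0 → ∃ i : ℤ, W.valuation (algebraMap k (AlgebraicClosure k) z) =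
        W.valuation (algebraMap k (AlgebraicClosure k) v) ^ i) ∧
      (∀ T : Finset (AlgebraicClosure k), (∀ b ∈ T, aeval b f = 0) → ∀ i : ℕ,
        (∀ z : k, algebraMap k (AlgebraicClosure k) z ≠ (∏ b ∈ T, (X - C b)).coeff i) →
        ∃ γ : AlgebraicClosure k ≃ₐ[k] AlgebraicClosure k, InDecomp W γ ∧
          γ ((∏ b ∈ T, (X - C b)).coeff i) ≠ (∏ b ∈ T, (X - C b)).coeff i) ∧
      ∀ a ∈ E, algebraMap k (AlgebraicClosure k) a ∈ W

end Pool.Agent.SE
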