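import Pool.Agent.Helper47.SE.H2
import Pool.Agent.Helper10.SE.Defs9

/-!
# Project SE, block H2E: a good place from a good discriminant (the proof of helper47's block H2, with one more
conclusion)
-/

universe u

namespace Pool.Agent.SE

open VC Polynomial Pool.Agent.LT Pool.Agent.SC Pool.Agent.GC Pool.Agent.Helper91.Sect Pool.Agent
  Pool.Agent.TWX Pool.Agent.TWT Pool.Agent.TWH

/-- **Block H2E.** -/
theorem h2e : StmtH2E.{u} := by
  intro F k _ _ _ _ _ hF v u hvu hfin hreg Δ hΔ E hEtop hgood f hdeg hsep hE U hU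
  classical
  have hk0 : CharZero k := charZero_of_injective_algebraMap (algebraMap F k).injective
  have hs : f.discr ≠ 0 := discr_ne_zero_of_separable hdeg hsep
  have hf0 : f ≠ 0 := by
    rintro rfl
    simp at hdeg
  have hlc0 : f.leadingCoeff ≠ 0 := leadingCoeff_ne_zero.2 hf0
  let R : Finset (AlgebraicClosure k) := (f.aroots (AlgebraicClosure k)).toFinset
  have hR : ∀ b, b ∈ R ↔ aeval b f = 0 := by
    intro b
    rw [Multiset.mem_toFinset, mem_aroots]
    exact ⟨fun h => h.2, fun h => ⟨hf0, h⟩⟩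
  let Q : Finset (AlgebraicClosure k) := (R.powerset ×ˢ Finset.range (R.card + 1)).image
    fun p => (∏ b ∈ p.1, (X - C b)).coeff p.2
  have hQ : ∀ (T : Finset (AlgebraicClosure k)) (i : ℕ), T ⊆ R → i ≤ R.card →
      (∏ b ∈ T, (X - C b)).coeff i ∈ Q := by
    intro T i hT hi
    exact Finset.mem_image.2 ⟨(T, i), Finset.mem_product.2 ⟨Finset.mem_powerset.2 hT,
      Finset.mem_range.2 (by omega)⟩, rfl⟩
  let E' : Finset (AlgebraicClosure k) := E.image (algebraMap k (AlgebraicClosure k)) ∪ Q
  let M : Finset k[X] := Q.image (minpoly k)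
  have hEE' : ∀ a ∈ E, algebraMap k (AlgebraicClosure k) a ∈ E' := fun a ha =>
    Finset.mem_union_left _ (Finset.mem_image_of_mem _ ha)
  have hgood' : GoodAt F (algebraMap k (AlgebraicClosure k) v)
      (algebraMap k (AlgebraicClosure k) u) Δ E' := by
    refine goodAt_roots hEtop hgood hdeg hs hE ?_
    intro b hb
    rcases Finset.mem_union.1 hb with hb | hb
    · obtain ⟨a, ha, rfl⟩ := Finset.mem_image.1 hb
      exact Or.inl ⟨a, ha, rfl⟩
    · obtain ⟨⟨T, i⟩, hTi, rfl⟩ := Finset.mem_image.1 hb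
      exact Or.inr ⟨T, i, fun b hb => (hR b).1 (Finset.mem_powerset.1
        (Finset.mem_product.1 hTi).1 hb), rfl⟩
  have hadj : ∀ a : k, algebraMap k (AlgebraicClosure k) a ∈
      IntermediateField.adjoin F (E' : Set (AlgebraicClosure k)) := by
    have h1 : (⊤ : IntermediateField F k).toSubfield ≤
        (IntermediateField.adjoin F (E' : Set (AlgebraicClosure k))).toSubfield.comap
          (algebraMap k (AlgebraicClosure k)) := by
      rw [← hEtop, IntermediateField.adjoin_toSubfield, Subfield.closure_le]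
      rintro a (⟨e, rfl⟩ | ha)
      · change algebraMap k (AlgebraicClosure k) (algebraMap F k e) ∈
          IntermediateField.adjoin F (E' : Set (AlgebraicClosure k))
        rw [← IsScalarTower.algebraMap_apply F k (AlgebraicClosure k)]
        exact IntermediateField.algebraMap_mem _ e
      · exact IntermediateField.subset_adjoin _ _ (hEE' a ha)
    intro a
    have h2 : a ∈ (⊤ : IntermediateField F k) := IntermediateField.mem_top
    exact h1 h2
  have hM : ∀ q ∈ M, ∀ b : AlgebraicClosure k,
      eval₂ ((algebraMap k (AlgebraicClosure k)).comp (RingHom.id k)) b q = 0 → b ∈ E' := by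
    intro q hq b hb
    obtain ⟨c, hc, rfl⟩ := Finset.mem_image.1 hq
    obtain ⟨⟨T, i⟩, hTi, rfl⟩ := Finset.mem_image.1 hc
    rw [RingHom.comp_id] at hb
    have h1 : IsConjRoot k ((∏ b ∈ T, (X - C b)).coeff i) b :=
      isConjRoot_of_aeval_eq_zero (Algebra.IsIntegral.isIntegral _) hb
    obtain ⟨γ, hγ⟩ := isConjRoot_iff_exists_algEquiv.1 h1
    have hTi1 : T ⊆ R := Finset.mem_powerset.1 (Finset.mem_product.1 hTi).1
    have hTi2 : i ≤ R.card := by
      have := Finset.mem_range.1 (Finset.mem_product.1 hTi).2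
      omega
    let δ : AlgebraicClosure k ≃ₐ[k] AlgebraicClosure k := γ.symm
    have h2 : b = δ ((∏ b ∈ T, (X - C b)).coeff i) := by
      rw [← hγ]
      exact (γ.symm_apply_apply b).symm
    have h3 : (∏ b ∈ T, (X - C b)).map (δ : AlgebraicClosure k →+* AlgebraicClosure k) =
        ∏ b ∈ T.image δ, (X - C b) := by
      rw [Polynomial.map_prod, Finset.prod_image δ.injective.injOn]
      refine Finset.prod_congr rfl fun b _ => ?_
      rw [Polynomial.map_sub, map_X, map_C]
      rfl
    have h4 : b = (∏ b ∈ T.image δ, (X - C b)).coeff i := by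
      rw [← h3, coeff_map]
      exact h2
    rw [h4]
    refine Finset.mem_union_right _ (hQ _ _ ?_ hTi2)
    intro b' hb'
    obtain ⟨b₁, hb₁, rfl⟩ := Finset.mem_image.1 hb'
    rw [hR]
    have h5 := (hR b₁).1 (hTi1 hb₁)
    have h6 : aeval (δ b₁) f = δ (aeval b₁ f) := by
      rw [← AlgEquiv.coe_toAlgHom, aeval_algHom_apply]
    rw [h6, h5, map_zero]
  obtain ⟨W, hEW, hG⟩ := goodPl_of_goodAt' hF hvu hfin hreg hΔ hadj hgood' (k₀ := k) (M := M)
    (U₀ := U) (ι := RingHom.id k) (fun a ha => ⟨(hU a ha).1, hEE' _ (hU a ha).2.1,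
      hEE' _ (hU a ha).2.2⟩) hM
  have hval : ∀ a : k, a ≠ 0 → algebraMap k (AlgebraicClosure k) a ∈ W →
      algebraMap k (AlgebraicClosure k) a⁻¹ ∈ W →
      W.valuation (algebraMap k (AlgebraicClosure k) a) = 1 := by
    intro a ha h1 h2
    have h3 := (W.valuation_le_one_iff _).2 h1
    have h4 := (W.valuation_le_one_iff _).2 h2
    rw [map_inv₀, map_inv₀] at h4
    have h5 : W.valuation (algebraMap k (AlgebraicClosure k) a) ≠ 0 :=
      (Valuation.ne_zero_iff _).2 ((_root_.map_ne_zero _).2 ha)
    exact le_antisymm h3 ((inv_le_one₀ (zero_lt_iff.2 h5)).1 h4)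
  have hcoef : ∀ i, algebraMap k (AlgebraicClosure k) (f.coeff i) ∈ W := by
    intro i
    by_cases hi : i < f.natDegree + 1
    · refine hEW _ (hEE' _ (hE ?_))
      unfold goodElts
      exact Finset.mem_union_left _ (Finset.mem_image_of_mem _ (Finset.mem_range.2 hi))
    · rw [coeff_eq_zero_of_natDegree_lt (by omega), map_zero]
      exact W.zero_mem
  have hlcW : W.valuation (algebraMap k (AlgebraicClosure k) f.leadingCoeff) = 1 :=
    hval _ hlc0 (hcoef _) (hEW _ (hEE' _ (hE (by unfold goodElts; simp))))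
  have hdW : algebraMap k (AlgebraicClosure k) f.discr ∈ W := by
    have h1 := discr_mem_valuation (W := W) (f := f.map (algebraMap k (AlgebraicClosure k)))
      (by rw [natDegree_map]; exact hdeg) (fun i => by rw [coeff_map]; exact hcoef i)
      (by
        rw [leadingCoeff_map, W.mem_nonunits_iff, hlcW]
        exact lt_irrefl _)
    rwa [discr_map_of_injective _ (algebraMap k (AlgebraicClosure k)).injective _ hdeg] at h1
  refine ⟨W, hG.const, hcoef, hlcW, hval _ hs hdW (hEW _ (hEE' _ (hE (by unfold goodElts; simp)))),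
    hG.unit, hG.v_mem, hG.disc, ?_, fun a ha => hEW _ (hEE' _ ha)⟩
  intro T hT i hz
  have hTR : T ⊆ R := fun b hb => (hR b).2 (hT b hb)
  by_cases hi : i ≤ R.card
  · refine hG.move (minpoly k ((∏ b ∈ T, (X - C b)).coeff i))
      (Finset.mem_image_of_mem _ (hQ T i hTR hi)) _ ?_ hz
    rw [RingHom.comp_id]
    exact minpoly.aeval k _
  · exfalso
    apply hz 0
    rw [map_zero]
    refine (coeff_eq_zero_of_natDegree_lt ?_).symm
    have h1 : (∏ b ∈ T, (X - C b)).natDegree = T.card := by
      rw [natDegree_prod_of_monic _ _ fun b _ => monic_X_sub_C b]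
      simp
    rw [h1]
    have h2 := Finset.card_le_card hTR
    omega

end Pool.Agent.SE
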