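import Pool.Agent.Helper10.SE.Defs4
import Pool.Agent.Helper37.TWH.A1

/-!
# Project SE: the radical of a family of polynomials
-/

universe u

namespace Pool.Agent.SE

open VC Polynomial Pool.Agent.LT Pool.Agent.SC Pool.Agent.GC Pool.Agent.Helper91.Sect Pool.Agent
  Pool.Agent.TWX Pool.Agent.TWT Pool.Agent.TWH

/-- the discriminant of a specialisation of the same degree -/
theorem discr_map_of_lc {R S : Type*} [CommRing R] [IsDomain R] [CommRing S] [IsDomain S]
    (φ : R →+* S) (f : R[X]) (hf : 0 < f.natDegree) (hlc : φ f.leadingCoeff ≠ 0) :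
    (f.map φ).discr = φ f.discr := by
  have h1 : (f.map φ).natDegree = f.natDegree := natDegree_map_of_leadingCoeff_ne_zero φ hlc
  have h2 := resultant_deriv (f := f) (natDegree_pos_iff_degree_pos.1 hf)
  have h3 := resultant_deriv (f := f.map φ) (natDegree_pos_iff_degree_pos.1 (by rw [h1]; exact hf))
  have h5 : (f.map φ).leadingCoeff = φ f.leadingCoeff := leadingCoeff_map_of_leadingCoeff_ne_zero φ hlc
  rw [h1, derivative_map, resultant_map_map, h2, map_mul, map_mul, map_pow, map_neg, map_one,
    h5] at h3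
  have h4 : ((-1 : S) ^ (f.natDegree * (f.natDegree - 1) / 2) * φ f.leadingCoeff) ≠ 0 :=
    mul_ne_zero (pow_ne_zero _ (neg_ne_zero.2 one_ne_zero)) hlc
  exact (mul_left_cancel₀ h4 h3).symm

/-- the specialisation is separable -/
theorem separable_map_of_discr {R S : Type*} [CommRing R] [IsDomain R] [Field S] [CharZero S]
    (φ : R →+* S) (f : R[X]) (hf : 0 < f.natDegree) (hlc : φ f.leadingCoeff ≠ 0)
    (hd : φ f.discr ≠ 0) : (f.map φ).Separable := by
  have h1 : (f.map φ).natDegree = f.natDegree := natDegree_map_of_leadingCoeff_ne_zero φ hlc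
  refine separable_of_discr ?_ ?_ <;> first | (rw [h1]; exact hf) | (rw [discr_map_of_lc φ f hf hlc]; exact hd)

/-- **The radical of a family of polynomials.** -/
theorem exists_rad {A : Type u} [CommRing A] [IsDomain A] [CharZero A] {Q : A[X]} (hQ : 1 ≤ Q.natDegree) :
    ∃ (ff R : A[X]) (b : A) (M : ℕ), b ≠ 0 ∧ 1 ≤ ff.natDegree ∧ ff.discr ≠ 0 ∧
      Q * R = C b * ff ^ M := by
  classical
  set L := FractionRing A with hL
  have hL0 : CharZero L := charZero_of_injective_algebraMap (IsFractionRing.injective A L)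
  have hinj := IsFractionRing.injective A L
  have hQ0 : Q.map (algebraMap A L) ≠ 0 := (Polynomial.map_ne_zero_iff hinj).2
    (ne_zero_of_natDegree_gt (n := 0) (by omega))
  set f : L[X] := UniqueFactorizationMonoid.radical (Q.map (algebraMap A L)) with hf
  obtain ⟨M, hM⟩ := UniqueFactorizationMonoid.exists_dvd_radical_self_pow hQ0
  obtain ⟨P, hP⟩ := hM
  rw [← hf] at hP
  have hf0 : f ≠ 0 := UniqueFactorizationMonoid.radical_ne_zero
  have hfsep : f.Separable := by
    rw [PerfectField.separable_iff_squarefree]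
    exact UniqueFactorizationMonoid.squarefree_radical
  have hfdeg : 1 ≤ f.natDegree := by
    have h1 : f ^ M ≠ 0 := pow_ne_zero _ hf0
    have h2 := natDegree_le_of_dvd (Dvd.intro _ hP.symm) h1
    rw [natDegree_map_eq_of_injective hinj, natDegree_pow] at h2
    by_contra h3
    have h4 : f.natDegree = 0 := by omega
    rw [h4, mul_zero] at h2
    omega
  obtain ⟨b₁, ff, hb₁, hff⟩ := clear1 (A := A) f
  obtain ⟨b₂, R, hb₂, hR⟩ := clear1 (A := A) P
  have hb₁' : algebraMap A L b₁ ≠ 0 := (map_ne_zero_iff _ hinj).2 hb₁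
  have hffd : ff.natDegree = f.natDegree := by
    have h1 := congrArg natDegree hff
    rwa [natDegree_map_eq_of_injective hinj, natDegree_C_mul hb₁'] at h1
  refine ⟨ff, C (b₁ ^ M) * R, b₂, M, hb₂, by rw [hffd]; exact hfdeg, ?_, ?_⟩
  · intro h0
    have h1 := discr_map_of_injective (algebraMap A L) hinj ff (by omega)
    rw [h0, map_zero, hff] at h1
    refine discr_ne_zero_of_separable (f := C (algebraMap A L b₁) * f) ?_ ?_ h1
    · rw [natDegree_C_mul hb₁']
      omega
    · exact Separable.unit_mul (isUnit_C.2 (isUnit_iff_ne_zero.2 hb₁')) hfsep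
  · apply map_injective _ hinj
    rw [Polynomial.map_mul, Polynomial.map_mul, Polynomial.map_mul, Polynomial.map_pow, hff, hR,
      map_C, map_C, mul_pow, hP, map_pow]
    simp only [C_pow]
    ring

end Pool.Agent.SE
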