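import Pool.Agent.Helper10.SE.M7
import Pool.Agent.Helper5.SE.P1
import Pool.Agent.Helper10.SE.R1

/-!
# Project SE, version 5: assembly of the core statement for families of curves
-/

universe u

set_option linter.unusedSectionVars false
set_option maxHeartbeats 1000000

namespace Pool.Agent.SE

open VC Polynomial Pool.Agent.LT Pool.Agent.SC Pool.Agent.GC Pool.Agent.Helper91.Sect Pool.Agent
  Pool.Agent.TW Pool.Agent.TWU Pool.Agent.TWX MulAction

theorem spec_aux {k₀ k K₁ L : Type u} [Field k₀] [Field k] [Field K₁] [Algebra k K₁] [Field L] {N : ℕ}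
    [Algebra (PF k₀ N) L] {ι : k₀ →+* k} {a : Fin N → k} {B : Subring L} {sp : B →+* K₁}
    (h : Spec ι a B sp) {d : MvPolynomial (Fin N) k₀} (hd : d ≠ 0)
    (hdB : (algebraMap (PF k₀ N) L (algebraMap (MvPolynomial (Fin N) k₀) (PF k₀ N) d))⁻¹ ∈ B)
    (r : MvPolynomial (Fin N) k₀) (P : Place k K₁) :
    ∃ h : algebraMap (PF k₀ N) L (algebraMap (MvPolynomial (Fin N) k₀) (PF k₀ N) r /
      algebraMap (MvPolynomial (Fin N) k₀) (PF k₀ N) d) ∈ B, sp ⟨_, h⟩ ∈ P.ring := by
  have hinj : Function.Injective (algebraMap (MvPolynomial (Fin N) k₀) (PF k₀ N)) :=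
    IsFractionRing.injective _ _
  have hd0 : algebraMap (PF k₀ N) L (algebraMap (MvPolynomial (Fin N) k₀) (PF k₀ N) d) ≠ 0 := by
    rw [Ne, map_eq_zero_iff _ (algebraMap (PF k₀ N) L).injective, map_eq_zero_iff _ hinj]
    exact hd
  have h1 : algebraMap (PF k₀ N) L (algebraMap (MvPolynomial (Fin N) k₀) (PF k₀ N) r /
      algebraMap (MvPolynomial (Fin N) k₀) (PF k₀ N) d) ∈ B := by
    rw [map_div₀, div_eq_mul_inv]
    exact B.mul_mem (h.mem r) hdB
  refine ⟨h1, ?_⟩
  have h2 : sp ⟨_, h1⟩ * algebraMap k K₁ (evp ι a d) = algebraMap k K₁ (evp ι a r) := by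
    rw [← h.map d, ← h.map r, ← map_mul]
    congr 1
    apply Subtype.ext
    change algebraMap (PF k₀ N) L (algebraMap (MvPolynomial (Fin N) k₀) (PF k₀ N) r /
      algebraMap (MvPolynomial (Fin N) k₀) (PF k₀ N) d) *
      algebraMap (PF k₀ N) L (algebraMap (MvPolynomial (Fin N) k₀) (PF k₀ N) d) =
      algebraMap (PF k₀ N) L (algebraMap (MvPolynomial (Fin N) k₀) (PF k₀ N) r)
    rw [map_div₀, div_mul_cancel₀ _ hd0]
  have h3 : algebraMap k K₁ (evp ι a d) ≠ 0 := by
    rw [← h.map d]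
    intro h0
    have h4 : (⟨_, h.mem d⟩ : B) * ⟨_, hdB⟩ = 1 := Subtype.ext (mul_inv_cancel₀ hd0)
    have h5 := congrArg sp h4
    rw [map_mul, h0, zero_mul, map_one] at h5
    exact zero_ne_one h5
  have h4 : sp ⟨_, h1⟩ = algebraMap k K₁ (evp ι a r / evp ι a d) := by
    rw [map_div₀ (algebraMap k K₁)]
    exact (eq_div_iff h3).2 h2
  rw [h4]
  exact P.algebraMap_mem _

/-- **Block CFM.** -/
theorem cfm (hLC : StmtLC.{u}) (hCert : StmtCert.{u}) (hSP : StmtSP.{u}) (hCh : StmtChart.{u}) :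
    StmtCFM.{u} := by
  classical
  intro k₀ _ _ N r M hM hM0 P hP
  obtain ⟨ff₁, E₁, U₁, hUE₁, h0U₁, hdeg1, hlc1, hdisc1, hcoef1, hcoord⟩ := exists_coordM hM hM0 hP
  obtain ⟨L, _, _, X₀, Z₀, hLF, hX₀, hgenL, hker, hspec⟩ := hSP hM hM0
  have hR0 : CharZero (PF k₀ N) := charZero_of_injective_algebraMap
    (IsFractionRing.injective (MvPolynomial (Fin N) k₀) (PF k₀ N))
  have hPs : ∀ s, evg X₀ Z₀ (P s) ≠ 0 := fun s h => hP s ((hker _).1 h)
  have hff₁0 : ff₁ ≠ 0 := ne_zero_of_natDegree_gt (n := 0) (by omega)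
  -- the charts
  obtain ⟨n, xc, zc, Φc, hxc, hgc, hmc, hic, h0c, hdc, hcov⟩ := exists_charts hLC hLF
  choose T fR EC UC hxT hdT hfR hUEC h0C hchart using fun i : Fin n =>
    hCh hLF hX₀ hgenL hPs hff₁0 (hxc i) (hgc i) (hmc i) (hic i) (h0c i)
  -- the covering
  let y : Fin n → Fin 2 → L := fun i => ![xc i, (ev2 (xc i) (zc i) (derivative (Φc i)))⁻¹]
  have hy0 : ∀ i j, y i j ≠ 0 := by
    intro i j
    fin_cases j
    · exact fun h => hxc i (by
        change xc i = 0 at h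
        rw [h]
        exact isAlgebraic_zero)
    · exact inv_ne_zero (hdc i)
  choose Qc hQ0 hQ1 using hCert hy0 (fun O hO => by
    obtain ⟨i, h1, h2⟩ := hcov O hO
    refine ⟨i, fun j => ?_⟩
    fin_cases j
    · exact h1
    · exact h2)
  -- numerators and denominators of the coefficients
  have hfrac : ∀ q : PF k₀ N, ∃ (r d : MvPolynomial (Fin N) k₀), d ≠ 0 ∧
      algebraMap (MvPolynomial (Fin N) k₀) (PF k₀ N) r /
        algebraMap (MvPolynomial (Fin N) k₀) (PF k₀ N) d = q := by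
    intro q
    obtain ⟨r, d, hd, hq⟩ := IsFractionRing.div_surjective (A := MvPolynomial (Fin N) k₀) q
    exact ⟨r, d, nonZeroDivisors.ne_zero hd, hq⟩
  choose nu de hde hnd using hfrac
  let TD : Finset L := Finset.univ.biUnion fun c : Fin n → Fin 2 => (Qc c).support.image fun ν =>
    algebraMap (PF k₀ N) L (algebraMap (MvPolynomial (Fin N) k₀) (PF k₀ N) (de ((Qc c).coeff ν)))
  obtain ⟨B, UB, hTB, hXB, hZB, h0B, hsp⟩ := hspec (Finset.univ.biUnion T ∪ TD)
  -- the polynomial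
  let Q : (MvPolynomial (Fin N) k₀)[X] := ff₁ * ∏ i, fR i
  have hprod0 : ∏ i, fR i ≠ 0 := Finset.prod_ne_zero_iff.2 fun i _ => hfR i
  have hQd : 1 ≤ Q.natDegree := by
    change 1 ≤ (ff₁ * ∏ i, fR i).natDegree
    rw [natDegree_mul hff₁0 hprod0]
    omega
  obtain ⟨ff, R, b, m, hb0, hffdeg, hffdisc, hQR⟩ := exists_rad hQd
  have hff0 : ff ≠ 0 := ne_zero_of_natDegree_gt (n := 0) (by omega)
  let cf : Finset (MvPolynomial (Fin N) k₀) := (Finset.range (ff.natDegree + 1)).image ff.coeff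
  let U : Finset (MvPolynomial (Fin N) k₀) :=
    U₁ ∪ (Finset.univ.biUnion UC ∪ (UB ∪ {ff.leadingCoeff, ff.discr, b}))
  let E : Finset (MvPolynomial (Fin N) k₀) := E₁ ∪ (Finset.univ.biUnion EC ∪ (insert 0 cf ∪ U))
  have hU1 : ∀ h ∈ U₁, h ∈ U := fun h hh => Finset.mem_union_left _ hh
  have hU2 : ∀ i, ∀ h ∈ UC i, h ∈ U := fun i h hh =>
    Finset.mem_union_right _ (Finset.mem_union_left _ (Finset.mem_biUnion.2 ⟨i, Finset.mem_univ _, hh⟩))
  have hU4 : ∀ h ∈ UB, h ∈ U := fun h hh =>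
    Finset.mem_union_right _ (Finset.mem_union_right _ (Finset.mem_union_left _ hh))
  have hU3 : ∀ h ∈ ({ff.leadingCoeff, ff.discr, b} : Finset (MvPolynomial (Fin N) k₀)), h ∈ U := fun h hh =>
    Finset.mem_union_right _ (Finset.mem_union_right _ (Finset.mem_union_right _ hh))
  have hE1 : ∀ h ∈ E₁, h ∈ E := fun h hh => Finset.mem_union_left _ hh
  have hE2 : ∀ i, ∀ h ∈ EC i, h ∈ E := fun i h hh =>
    Finset.mem_union_right _ (Finset.mem_union_left _ (Finset.mem_biUnion.2 ⟨i, Finset.mem_univ _, hh⟩))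
  have hE3 : ∀ i, ff.coeff i ∈ E := by
    intro i
    refine Finset.mem_union_right _ (Finset.mem_union_right _ (Finset.mem_union_left _ ?_))
    by_cases hi : ff.coeff i = 0
    · rw [hi]
      exact Finset.mem_insert_self _ _
    · refine Finset.mem_insert_of_mem (Finset.mem_image_of_mem _ (Finset.mem_range.2 ?_))
      have := le_natDegree_of_ne_zero hi
      omega
  refine ⟨ff, E, U, hffdeg, hU3 _ (by simp), hU3 _ (by simp), hE3,
    fun h hh => Finset.mem_union_right _ (Finset.mem_union_right _ (Finset.mem_union_right _ hh)), ?_, ?_⟩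
  · intro h0
    rcases Finset.mem_union.1 h0 with h1 | h1
    · exact h0U₁ h1
    rcases Finset.mem_union.1 h1 with h2 | h2
    · obtain ⟨i, -, h3⟩ := Finset.mem_biUnion.1 h2
      exact h0C i h3
    rcases Finset.mem_union.1 h2 with h3 | h3
    · exact h0B h3
    · simp only [Finset.mem_insert, Finset.mem_singleton] at h3
      rcases h3 with h2 | h2 | h2
      · exact leadingCoeff_ne_zero.2 hff0 h2.symm
      · exact hffdisc h2.symm
      · exact hb0 h2.symm
  intro F k K₁ _ _ _ _ _ _ hF t hfin x z hx hgen a hMa v hv0 W hW e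
  have hk0 : CharZero k := charZero_of_injective_algebraMap (algebraMap k₀ k).injective
  have hF0 : CharZero F := by
    refine ⟨fun m n hmn => ?_⟩
    have h1 := congrArg (algebraMap F k) hmn
    rw [map_natCast, map_natCast] at h1
    exact Nat.cast_injective h1
  set φ := evp (algebraMap k₀ k) a with hφ
  have hne : ∀ h ∈ U, φ h ≠ 0 := by
    intro h hh h0
    have h1 := hW.unit h hh
    rw [← hφ, h0, map_zero, map_zero] at h1
    exact zero_ne_one h1
  have hc := hcoord k K₁ (algebraMap k₀ k) x z hx hgen a hMa (fun h hh => hne h (hU1 h hh)) e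
  obtain ⟨sp, hsp1, hspX, hspZ⟩ := hsp k K₁ (algebraMap k₀ k) a x z hx hMa (fun h hh => hne h (hU4 h hh))
  -- the reduction of `ff(a)`
  have hlcff : φ ff.leadingCoeff ≠ 0 := hne _ (hU3 _ (by simp))
  have hred : Red5 W (ff.map φ) := by
    refine ⟨?_, ?_, ?_, ?_⟩
    · rw [natDegree_map_of_leadingCoeff_ne_zero φ hlcff]
      exact hffdeg
    · intro i
      rw [coeff_map]
      exact hW.mem _ (hE3 i)
    · rw [leadingCoeff_map_of_leadingCoeff_ne_zero φ hlcff]
      exact hW.unit _ (hU3 _ (by simp))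
    · rw [discr_map_of_lc φ ff (by omega) hlcff]
      exact hW.unit _ (hU3 _ (by simp))
  have hlcff₁ : φ ff₁.leadingCoeff ≠ 0 := hne _ (hU1 _ hlc1)
  -- roots of the factors of `Q` are roots of `ff(a)`
  have hroots : ∀ (c : AlgebraicClosure k) (q : (MvPolynomial (Fin N) k₀)[X]), q ∣ Q → aeval c (q.map φ) = 0 →
      aeval c (ff.map φ) = 0 := by
    rintro c q ⟨q', hq'⟩ hc1
    have h1 := congrArg (fun p : (MvPolynomial (Fin N) k₀)[X] => aeval c (p.map φ)) hQR
    simp only [hq', Polynomial.map_mul, map_mul, hc1, zero_mul, Polynomial.map_pow, map_pow, map_C, aeval_C] at h1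
    rcases mul_eq_zero.1 h1.symm with h2 | h2
    · exfalso
      rw [map_eq_zero_iff _ (algebraMap k (AlgebraicClosure k)).injective] at h2
      exact hne b (hU3 _ (by simp)) h2
    · exact eq_zero_of_pow_eq_zero h2
  have hTT : ∀ i, ∀ t ∈ T i, t ∈ B ∧ t⁻¹ ∈ B := fun i t ht =>
    hTB t (Finset.mem_union_left _ (Finset.mem_biUnion.2 ⟨i, Finset.mem_univ _, ht⟩))
  -- some chart is good at a place
  have hyB : ∀ i j, y i j ∈ B := by
    intro i j
    fin_cases j
    · exact (hTT i _ (hxT i)).1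
    · exact (hTT i _ (hdT i)).2
  have hyB' : ∀ i j, (y i j)⁻¹ ∈ B := by
    intro i j
    fin_cases j
    · exact (hTT i _ (hxT i)).2
    · change ((ev2 (xc i) (zc i) (derivative (Φc i)))⁻¹)⁻¹ ∈ B
      rw [inv_inv]
      exact (hTT i _ (hdT i)).1
  have hchartat : ∀ P₁ : Place k K₁, ∃ i, (∀ h, sp ⟨xc i, h⟩ ∈ P₁.ring) ∧
      ∀ h, sp ⟨ev2 (xc i) (zc i) (derivative (Φc i)), h⟩ ∉ P₁.ring.nonunits := by
    intro P₁
    obtain ⟨i, hi⟩ := spec_cover hy0 hyB hyB' hQ0 hQ1 sp P₁.ring (fun c ν => by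
      by_cases hν : ν ∈ (Qc c).support
      · have h1 : (algebraMap (PF k₀ N) L (algebraMap (MvPolynomial (Fin N) k₀) (PF k₀ N)
            (de ((Qc c).coeff ν))))⁻¹ ∈ B := (hTB _ (Finset.mem_union_right _
          (Finset.mem_biUnion.2 ⟨c, Finset.mem_univ _, Finset.mem_image_of_mem _ hν⟩))).2
        obtain ⟨h2, h3⟩ := spec_aux hsp1 (hde ((Qc c).coeff ν)) h1 (nu ((Qc c).coeff ν)) P₁
        have h4 := hnd ((Qc c).coeff ν)
        have h5 : algebraMap (PF k₀ N) L ((Qc c).coeff ν) ∈ B := by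
          rw [h4] at h2
          exact h2
        refine ⟨h5, ?_⟩
        have h6 : (⟨_, h5⟩ : B) = ⟨_, h2⟩ :=
          Subtype.ext (congrArg (algebraMap (PF k₀ N) L) h4.symm)
        rw [h6]
        exact h3
      · have h1 : (Qc c).coeff ν = 0 := MvPolynomial.notMem_support_iff.1 hν
        have h5 : algebraMap (PF k₀ N) L ((Qc c).coeff ν) ∈ B := by
          rw [h1, map_zero]
          exact B.zero_mem
        refine ⟨h5, ?_⟩
        have h6 : (⟨_, h5⟩ : B) = 0 :=
          Subtype.ext ((congrArg (algebraMap (PF k₀ N) L) h1).trans (map_zero _))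
        rw [h6, map_zero]
        exact P₁.ring.zero_mem)
    refine ⟨i, fun h => hi 0, fun h hn => ?_⟩
    have h1 := hi 1
    have h2 : sp ⟨ev2 (xc i) (zc i) (derivative (Φc i)), h⟩ * sp ⟨y i 1, hyB i 1⟩ = 1 := by
      rw [← map_mul, ← map_one sp]
      congr 1
      exact Subtype.ext (mul_inv_cancel₀ (hdc i))
    rw [ValuationSubring.mem_nonunits_iff_or] at hn
    rcases hn with hn | hn
    · rw [hn, zero_mul] at h2
      exact zero_ne_one h2
    · apply hn
      rw [← eq_inv_of_mul_eq_one_right h2]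
      exact h1
  -- the data of the places
  have hdat : ∀ P₁ : Place k K₁, ∃ (θ π : K₁) (q p : k[X]),
      PData (∏ s, ev3 (algebraMap k₀ k) a x z (P s) ^ e s) P₁ θ π q p ∧
      ((x⁻¹ ∈ P₁.ring.nonunits ∨ aeval x (ff₁.map φ) ∈ P₁.ring.nonunits) →
        (∀ i, algebraMap k (AlgebraicClosure k) (p.coeff i) ∈ W) ∧
        algebraMap k (AlgebraicClosure k) (p.coeff 0)⁻¹ ∈ W ∧
        ∀ c : AlgebraicClosure k, aeval c q = 0 → aeval c (ff.map φ) = 0) := by
    intro P₁
    by_cases h1 : (x⁻¹ ∈ P₁.ring.nonunits ∨ aeval x (ff₁.map φ) ∈ P₁.ring.nonunits)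
    · obtain ⟨i, hi1, hi2⟩ := hchartat P₁
      obtain ⟨θ, π, q, p, hp, h2, h3, h4⟩ := hchart i k K₁ hc.ff (algebraMap k₀ k) a x z hx hgen B sp
        hsp1 (hTT i) hXB hZB (hspX _) (hspZ _) (fun h hh => hne h (hU2 i h hh)) P₁ h1 hi1 hi2 W
        (fun h hh => hW.mem h (hE2 i h hh)) (fun h hh => hW.unit h (hU2 i h hh)) e
      refine ⟨θ, π, q, p, hp, fun _ => ⟨h3, h4, fun c hc1 => ?_⟩⟩
      exact hroots c (fR i) ((Finset.dvd_prod_of_mem _ (Finset.mem_univ i)).mul_left _) (h2 c hc1)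
    · obtain ⟨θ, π, q, p, hp⟩ := exists_pdata hc.ff P₁ hc.g_ne
      exact ⟨θ, π, q, p, hp, fun h4 => (h1 h4).elim⟩
  choose θf πf qf pf hd hbad using hdat
  have hunit : ∀ {z : k}, W.valuation (algebraMap k (AlgebraicClosure k) z) = 1 →
      algebraMap k (AlgebraicClosure k) z⁻¹ ∈ W := by
    intro z hz
    rw [map_inv₀]
    exact (unit_of5 hz).2.2.1
  have hcast : ∀ (P₁ : Place k K₁) (c : AlgebraicClosure k),
      eval₂ ((algebraMap k (AlgebraicClosure k)).comp (algebraMap k k)) c (qf P₁) = 0 → aeval c (qf P₁) = 0 := by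
    intro P₁ c h1
    rw [Algebra.algebraMap_self, RingHom.comp_id, ← aeval_def] at h1
    exact h1
  refine deg_place (k₀ := k) (K₀ := K₁) (C := AlgebraicClosure k) hc hd hF hfin hc.ff ?_ hc.x_tr hv0 hW.const ?_ ?_
    hW.v_mem hW.gen ?_ ?_
  · rw [eq_top_iff]
    intro z _
    exact IntermediateField.subset_adjoin _ _ ⟨z, rfl⟩
  · intro z hz
    change algebraMap k (AlgebraicClosure k) z ∈ W
    rcases Finset.mem_union.1 hz with h1 | h1
    · unfold goodElts at h1
      rcases Finset.mem_union.1 h1 with h2 | h2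
      · obtain ⟨i, -, rfl⟩ := Finset.mem_image.1 h2
        rw [coeff_map]
        exact hW.mem _ (hE1 _ (hcoef1 i))
      · simp only [Finset.mem_insert, Finset.mem_singleton] at h2
        rcases h2 with rfl | rfl | rfl | rfl
        · rw [leadingCoeff_map_of_leadingCoeff_ne_zero φ hlcff₁]
          exact hunit (hW.unit _ (hU1 _ hlc1))
        · rw [discr_map_of_lc φ ff₁ (by omega) hlcff₁]
          exact hunit (hW.unit _ (hU1 _ hdisc1))
        · rw [map_one]
          exact W.one_mem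
        · rw [inv_one, map_one]
          exact W.one_mem
    · rcases Finset.mem_union.1 h1 with h2 | h2
      · obtain ⟨h, hh, rfl⟩ := Finset.mem_image.1 h2
        exact hW.mem h (hE1 h hh)
      · obtain ⟨h, hh, rfl⟩ := Finset.mem_image.1 h2
        exact hunit (hW.unit h (hU1 h hh))
  · intro P₁ hP₁
    exact ⟨(hbad P₁ hP₁).1, (hbad P₁ hP₁).2.1⟩
  · intro P₁ hP₁ c hc1 σ hσ
    have h1 := (hbad P₁ hP₁).2.2 c (hcast P₁ c hc1)
    have h2 : aeval (σ c) (ff.map φ) = 0 := by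
      have h3 := aeval_algHom_apply (σ : AlgebraicClosure k →ₐ[k] AlgebraicClosure k) c (ff.map φ)
      rw [h1, map_zero] at h3
      exact h3
    by_contra hne'
    have h3 := hred.root_diff h2 h1 hne'
    exact (unit_of5 h3).2.1 (hσ.2 c (hred.root_mem h1))
  · intro P₁ hP₁ c hc1 σ
    exact full_orbit5 hW.move ((hbad P₁ hP₁).2.2 c (hcast P₁ c hc1)) σ

end Pool.Agent.SE
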