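import Pool.Agent.Helper10.SE.Defs8

/-!
# Project SE, version 5: the generic member of a family and its specialisations (block SP)
-/

universe u

set_option linter.unusedSectionVars false

namespace Pool.Agent.SE

open VC Polynomial Pool.Agent.LT Pool.Agent.SC Pool.Agent.GC Pool.Agent.Helper91.Sect Pool.Agent
  Pool.Agent.TWX Pool.Agent.TWT Pool.Agent.TWH

section aux76

variable {k K : Type u} [Field k] [Field K] [Algebra k K]

private theorem ev2_C76 (x z : K) (p : k[X]) : ev2 x z (C p) = aeval x p := by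
  unfold ev2
  rw [coe_eval₂RingHom, eval₂_C]
  rfl

private theorem ev2_X76 (x z : K) : ev2 (k := k) x z X = z := by
  unfold ev2
  rw [coe_eval₂RingHom, eval₂_X]

private theorem aeval_mem76 (S : IntermediateField k K) {x : K} (hx : x ∈ S) (p : k[X]) :
    aeval x p ∈ S := by
  rw [aeval_eq_sum_range]
  exact S.sum_mem fun i _ => S.smul_mem (pow_mem hx i)

private theorem ev2_mem76 (S : IntermediateField k K) {x z : K} (hx : x ∈ S) (hz : z ∈ S)
    (p : k[X][X]) : ev2 x z p ∈ S := by
  have h1 : ∀ p : k[X], aeval x p ∈ S := aeval_mem76 S hx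
  induction p using Polynomial.induction_on with
  | C p =>
    rw [ev2_C76]
    exact h1 p
  | add p q hp hq =>
    rw [map_add]
    exact S.add_mem hp hq
  | monomial n p _ =>
    rw [map_mul, map_pow, ev2_C76, ev2_X76]
    exact S.mul_mem (h1 p) (pow_mem hz _)

/-- function fields generated by two elements -/
private theorem ff_of_adjoin76 {x z : K} (hx : Transcendental k x)
    (hz : IsAlgebraic (IntermediateField.adjoin k {x}) z)
    (htop : IntermediateField.adjoin k {x, z} = ⊤) : IsFunctionField k K := by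
  refine ⟨x, hx, ?_⟩
  set E := IntermediateField.adjoin k {x} with hE
  have h1 : IntermediateField.adjoin E ({z} : Set K) = ⊤ := by
    have h2 : (IntermediateField.adjoin E ({z} : Set K)).restrictScalars k = ⊤ := by
      rw [hE, IntermediateField.adjoin_adjoin_left, Set.union_singleton, Set.pair_comm]
      exact htop
    exact (IntermediateField.restrictScalars_eq_top_iff (K := k)).1 h2
  have h3 : FiniteDimensional E (IntermediateField.adjoin E ({z} : Set K)) :=
    IntermediateField.adjoin.finiteDimensional hz.isIntegral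
  rw [h1] at h3
  exact Module.Finite.equiv (IntermediateField.topEquiv (F := E) (E := K)).toLinearEquiv

end aux76

set_option maxHeartbeats 1000000 in
/-- **The generic member of a family of curves and its specialisations.** -/
theorem sp : StmtSP.{u} := by
  classical
  intro k₀ _ _ N M hM hM0
  -- the coordinate ring
  have hMp : Prime M := hM.prime
  have hD : IsDomain (AdjoinRoot M) := AdjoinRoot.isDomain_of_prime hMp
  let L : Type u := FractionRing (AdjoinRoot M)
  let q : (MvPolynomial (Fin N) k₀)[X][X] →+* L :=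
    (algebraMap (AdjoinRoot M) (FractionRing (AdjoinRoot M))).comp (AdjoinRoot.mk M)
  have hinj : Function.Injective (algebraMap (AdjoinRoot M) (FractionRing (AdjoinRoot M))) :=
    IsFractionRing.injective _ _
  have hq : ∀ p, q p = 0 ↔ M ∣ p := by
    intro p
    change algebraMap (AdjoinRoot M) (FractionRing (AdjoinRoot M)) (AdjoinRoot.mk M p) = 0 ↔ _
    rw [map_eq_zero_iff _ hinj, AdjoinRoot.mk_eq_zero]
  have hqC : ∀ p : (MvPolynomial (Fin N) k₀)[X], p ≠ 0 → q (C p) ≠ 0 := by
    intro p hp h0
    have h1 := natDegree_le_of_dvd ((hq _).1 h0) (C_ne_zero.2 hp)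
    rw [natDegree_C] at h1
    omega
  have hqdiv : ∀ t : L, ∃ n d : (MvPolynomial (Fin N) k₀)[X][X], q d ≠ 0 ∧ t * q d = q n := by
    intro t
    obtain ⟨x, y, hy, hxy⟩ := IsFractionRing.div_surjective (A := AdjoinRoot M) t
    obtain ⟨n, rfl⟩ := AdjoinRoot.mk_surjective x
    obtain ⟨d, rfl⟩ := AdjoinRoot.mk_surjective y
    have hd : q d ≠ 0 := by
      intro h0
      have h1 : algebraMap (AdjoinRoot M) (FractionRing (AdjoinRoot M)) (AdjoinRoot.mk M d) = 0 := h0
      rw [map_eq_zero_iff _ hinj] at h1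
      exact nonZeroDivisors.ne_zero hy h1
    refine ⟨n, d, hd, ?_⟩
    rw [← hxy]
    exact div_mul_cancel₀ _ hd
  -- the field of the parameters
  let α : MvPolynomial (Fin N) k₀ →+* L := q.comp (C.comp C)
  have hα : Function.Injective α := by
    rw [injective_iff_map_eq_zero]
    intro h h0
    by_contra hh
    exact hqC (C h) (C_ne_zero.2 hh) h0
  let iP : Algebra (PF k₀ N) L :=
    (IsFractionRing.lift (A := MvPolynomial (Fin N) k₀) (K := PF k₀ N) hα).toAlgebra
  have hP : ∀ h : MvPolynomial (Fin N) k₀,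
      algebraMap (PF k₀ N) L (algebraMap (MvPolynomial (Fin N) k₀) (PF k₀ N) h) = q (C (C h)) :=
    fun h => IsFractionRing.lift_algebraMap hα h
  let X₀ : L := q (C X)
  let Z₀ : L := q X
  have hev : evg (k₀ := k₀) (N := N) X₀ Z₀ = q := by
    apply Polynomial.ringHom_ext'
    · apply Polynomial.ringHom_ext'
      · ext h
        · change ev2 X₀ Z₀ (Polynomial.map _ (C (C (MvPolynomial.C h)))) = q (C (C (MvPolynomial.C h)))
          rw [map_C, coe_mapRingHom, map_C, ev2_C76, aeval_C, hP]
        · change ev2 X₀ Z₀ (Polynomial.map _ (C (C (MvPolynomial.X h)))) = q (C (C (MvPolynomial.X h)))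
          rw [map_C, coe_mapRingHom, map_C, ev2_C76, aeval_C, hP]
      · change ev2 X₀ Z₀ (Polynomial.map _ (C X)) = q (C X)
        rw [map_C, coe_mapRingHom, map_X, ev2_C76, aeval_X]
    · change ev2 X₀ Z₀ (Polynomial.map _ X) = q X
      rw [map_X, ev2_X76]
  have hevC : ∀ p : (MvPolynomial (Fin N) k₀)[X],
      aeval X₀ (p.map (algebraMap (MvPolynomial (Fin N) k₀) (PF k₀ N))) = q (C p) := by
    intro p
    rw [← hev]
    change _ = ev2 X₀ Z₀ (Polynomial.map _ (C p))
    rw [map_C, coe_mapRingHom, ev2_C76]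
  have hX : Transcendental (PF k₀ N) X₀ := by
    intro h0
    obtain ⟨p₀, hp₀, hp₀X⟩ := h0
    obtain ⟨n, hn, hnp⟩ :=
      IsLocalization.integerNormalization_spec (nonZeroDivisors (MvPolynomial (Fin N) k₀)) p₀
    set p := IsLocalization.integerNormalization (nonZeroDivisors (MvPolynomial (Fin N) k₀)) p₀
      with hp
    have e1 : n • p₀ = C (algebraMap (MvPolynomial (Fin N) k₀) (PF k₀ N) n) * p₀ := by
      rw [← Polynomial.smul_eq_C_mul, algebraMap_smul]
    rw [e1] at hnp
    have hn0 : algebraMap (MvPolynomial (Fin N) k₀) (PF k₀ N) n ≠ 0 := by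
      rw [Ne, map_eq_zero_iff _ (IsFractionRing.injective _ _)]
      exact nonZeroDivisors.ne_zero hn
    refine hqC p ?_ ?_
    · intro h1
      rw [h1, Polynomial.map_zero] at hnp
      rcases mul_eq_zero.1 hnp.symm with h2 | h2
      · exact hn0 (C_eq_zero.1 h2)
      · exact hp₀ h2
    · rw [← hevC, hnp, map_mul, hp₀X, mul_zero]
  have hmemS : ∀ p, q p ∈ IntermediateField.adjoin (PF k₀ N) ({X₀, Z₀} : Set L) := by
    intro p
    rw [← hev]
    have hXm : X₀ ∈ IntermediateField.adjoin (PF k₀ N) ({X₀, Z₀} : Set L) :=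
      IntermediateField.subset_adjoin (PF k₀ N) _ (Set.mem_insert _ _)
    have hZm : Z₀ ∈ IntermediateField.adjoin (PF k₀ N) ({X₀, Z₀} : Set L) :=
      IntermediateField.subset_adjoin (PF k₀ N) _ (Set.mem_insert_of_mem _ (Set.mem_singleton _))
    exact ev2_mem76 (IntermediateField.adjoin (PF k₀ N) ({X₀, Z₀} : Set L)) hXm hZm
      (Polynomial.map (mapRingHom (algebraMap (MvPolynomial (Fin N) k₀) (PF k₀ N))) p)
  have htop : IntermediateField.adjoin (PF k₀ N) ({X₀, Z₀} : Set L) = ⊤ := by
    rw [eq_top_iff]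
    intro t _
    obtain ⟨n, d, hd, h⟩ := hqdiv t
    have h1 : t = q n / q d := by
      rw [eq_div_iff hd, h]
    rw [h1]
    exact IntermediateField.div_mem _ (hmemS n) (hmemS d)
  have hZ : IsAlgebraic (IntermediateField.adjoin (PF k₀ N) ({X₀} : Set L)) Z₀ := by
    have h1 : ∀ p : (MvPolynomial (Fin N) k₀)[X],
        q (C p) ∈ IntermediateField.adjoin (PF k₀ N) ({X₀} : Set L) := by
      intro p
      rw [← hevC]
      have hXm : X₀ ∈ IntermediateField.adjoin (PF k₀ N) ({X₀} : Set L) :=
        IntermediateField.subset_adjoin (PF k₀ N) _ (Set.mem_singleton _)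
      exact aeval_mem76 (IntermediateField.adjoin (PF k₀ N) ({X₀} : Set L)) hXm _
    let φ : (MvPolynomial (Fin N) k₀)[X] →+* IntermediateField.adjoin (PF k₀ N) ({X₀} : Set L) :=
      (q.comp C).codRestrict
        (IntermediateField.adjoin (PF k₀ N) ({X₀} : Set L)).toSubfield.toSubring h1
    have hφ : (algebraMap (IntermediateField.adjoin (PF k₀ N) ({X₀} : Set L)) L).comp φ =
        q.comp C := RingHom.ext fun _ => rfl
    refine ⟨M.map φ, ?_, ?_⟩
    · intro h0
      have h2 := congrArg (fun p => p.coeff M.natDegree) h0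
      simp only [coeff_map, coeff_zero] at h2
      have h3 : q (C (M.coeff M.natDegree)) = 0 := congrArg Subtype.val h2
      exact hqC _ (leadingCoeff_ne_zero.2 hM.ne_zero) h3
    · rw [aeval_def, eval₂_map, hφ]
      have h2 : eval₂ (q.comp C) Z₀ M = q M := by
        have h4 := hom_eval₂ M C q X
        rw [eval₂_C_X] at h4
        exact h4.symm
      rw [h2]
      exact (hq M).2 dvd_rfl
  refine ⟨L, inferInstance, iP, X₀, Z₀, ff_of_adjoin76 hX hZ htop, hX, htop, fun p => ?_, fun T => ?_⟩
  · rw [hev]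
    exact hq p
  -- the specialisations
  choose nn dd hdd hnd using hqdiv
  have hnn : ∀ t, t ≠ 0 → q (nn t) ≠ 0 := by
    intro t ht
    rw [← hnd]
    exact mul_ne_zero ht (hdd t)
  set g : (MvPolynomial (Fin N) k₀)[X][X] := ∏ t ∈ T.erase 0, (nn t * dd t) with hg
  have hqg : q g ≠ 0 := by
    rw [hg, map_prod]
    refine Finset.prod_ne_zero_iff.2 fun t ht => ?_
    rw [map_mul]
    exact mul_ne_zero (hnn t (Finset.ne_of_mem_erase ht)) (hdd t)
  have hgT : ∀ t ∈ T, t ≠ 0 → ∃ g', g = nn t * dd t * g' := fun t ht h0 =>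
    Finset.dvd_prod_of_mem (fun t => nn t * dd t) (Finset.mem_erase.2 ⟨h0, ht⟩)
  let B : Subring L :=
    { carrier := {b | ∃ (p : (MvPolynomial (Fin N) k₀)[X][X]) (j : ℕ), b * q g ^ j = q p}
      mul_mem' := by
        rintro b b' ⟨p, j, h⟩ ⟨p', j', h'⟩
        refine ⟨p * p', j + j', ?_⟩
        rw [map_mul, ← h, ← h', pow_add]
        ring
      one_mem' := ⟨1, 0, by rw [pow_zero, mul_one, map_one]⟩
      add_mem' := by
        rintro b b' ⟨p, j, h⟩ ⟨p', j', h'⟩
        refine ⟨p * g ^ j' + p' * g ^ j, j + j', ?_⟩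
        rw [map_add, map_mul, map_mul, map_pow, map_pow, ← h, ← h', pow_add]
        ring
      zero_mem' := ⟨0, 0, by rw [zero_mul, map_zero]⟩
      neg_mem' := by
        rintro b ⟨p, j, h⟩
        exact ⟨-p, j, by rw [neg_mul, h]; exact (RingHom.map_neg q p).symm⟩ }
  have hB : ∀ b : L, b ∈ B ↔ ∃ (p : (MvPolynomial (Fin N) k₀)[X][X]) (j : ℕ), b * q g ^ j = q p :=
    fun _ => Iff.rfl
  have hBq : ∀ p, q p ∈ B := fun p => ⟨p, 0, by rw [pow_zero, mul_one]⟩
  obtain ⟨a₁, b₁, n₁, hn₁, hbez⟩ := exists_bezout hM hM0 (P := g) fun h => hqg ((hq g).2 h)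
  refine ⟨B, {n₁.leadingCoeff}, ?_, hBq _, hBq _, ?_, ?_⟩
  · intro t ht
    by_cases h0 : t = 0
    · rw [h0, inv_zero]
      exact ⟨B.zero_mem, B.zero_mem⟩
    · obtain ⟨g', hg'⟩ := hgT t ht h0
      constructor
      · refine ⟨nn t * nn t * g', 1, ?_⟩
        rw [pow_one, hg', map_mul, map_mul, map_mul, map_mul, ← hnd t]
        ring
      · refine ⟨dd t * dd t * g', 1, ?_⟩
        rw [pow_one, hg', map_mul, map_mul, map_mul, map_mul, ← hnd t,
          show t * q (dd t) * q (dd t) * q g' = t * (q (dd t) * q (dd t) * q g') by ring,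
          inv_mul_cancel_left₀ h0]
  · rw [Finset.mem_singleton]
    exact (leadingCoeff_ne_zero.2 hn₁).symm
  · intro k K₁ _ _ _ ι a x z hx hMe hU
    set e : (MvPolynomial (Fin N) k₀)[X][X] →+* K₁ := ev3 ι a x z with he
    have heC : ∀ p : (MvPolynomial (Fin N) k₀)[X], e (C p) = aeval x (p.map (evp ι a)) := by
      intro p
      change ev2 x z (Polynomial.map _ (C p)) = _
      rw [map_C, coe_mapRingHom, ev2_C76]
    have heX : e X = z := by
      change ev2 x z (Polynomial.map _ X) = _
      rw [map_X, ev2_X76]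
    have heg : e g ≠ 0 := by
      intro h0
      have h1 := congrArg e hbez
      rw [map_add, map_mul, map_mul, hMe, h0, mul_zero, mul_zero, add_zero, heC] at h1
      have h2 := transcendental_iff.1 hx _ h1.symm
      apply hU n₁.leadingCoeff (Finset.mem_singleton_self _)
      have h3 := congrArg (fun p => p.coeff n₁.natDegree) h2
      simp only [coeff_map, coeff_zero] at h3
      exact h3
    have heq : ∀ p p', q p = q p' → e p = e p' := by
      intro p p' h
      have h1 : M ∣ p - p' := (hq _).1 ((RingHom.map_sub q p p').trans (by rw [h, sub_self]))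
      obtain ⟨c, hc⟩ := h1
      have h2 := congrArg e hc
      rw [map_mul, hMe, zero_mul] at h2
      exact sub_eq_zero.1 ((RingHom.map_sub e p p').symm.trans h2)
    choose pp jj hpj using fun b : B => b.2
    let f : B → K₁ := fun b => e (pp b) / e g ^ jj b
    have hf : ∀ (b : B) (p : (MvPolynomial (Fin N) k₀)[X][X]) (j : ℕ), (b : L) * q g ^ j = q p →
        f b = e p / e g ^ j := by
      intro b p j h
      have h1 : q (pp b * g ^ j) = q (p * g ^ jj b) := by
        have h2 : (b : L) * q g ^ jj b = q (pp b) := hpj b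
        rw [map_mul, map_mul, map_pow, map_pow, ← h, ← h2]
        ring
      have h2 := heq _ _ h1
      rw [map_mul, map_mul, map_pow, map_pow] at h2
      change e (pp b) / e g ^ jj b = _
      rw [div_eq_div_iff (pow_ne_zero _ heg) (pow_ne_zero _ heg)]
      exact h2
    have hfq : ∀ (p : (MvPolynomial (Fin N) k₀)[X][X]) (hp : q p ∈ B), f ⟨q p, hp⟩ = e p := by
      intro p hp
      rw [hf ⟨q p, hp⟩ p 0 (by rw [pow_zero, mul_one]), pow_zero, div_one]
    let s : B →+* K₁ :=
      { toFun := f
        map_one' := by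
          rw [hf 1 1 0 (by rw [pow_zero, mul_one, map_one]; rfl), map_one, pow_zero, div_one]
        map_mul' := by
          intro b b'
          have h1 : (b : L) * q g ^ jj b = q (pp b) := hpj b
          have h2 : (b' : L) * q g ^ jj b' = q (pp b') := hpj b'
          rw [hf (b * b') (pp b * pp b') (jj b + jj b') (by
            rw [map_mul, ← h1, ← h2, pow_add]
            change (b : L) * (b' : L) * _ = _
            ring)]
          change _ = e (pp b) / e g ^ jj b * (e (pp b') / e g ^ jj b')
          rw [map_mul, pow_add, mul_div_mul_comm]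
        map_zero' := by
          rw [hf 0 0 0 (by rw [map_zero]; exact zero_mul _), map_zero, zero_div]
        map_add' := by
          intro b b'
          have h1 : (b : L) * q g ^ jj b = q (pp b) := hpj b
          have h2 : (b' : L) * q g ^ jj b' = q (pp b') := hpj b'
          rw [hf (b + b') (pp b * g ^ jj b' + pp b' * g ^ jj b) (jj b + jj b') (by
            rw [map_add, map_mul, map_mul, map_pow, map_pow, ← h1, ← h2, pow_add]
            change ((b : L) + (b' : L)) * _ = _
            ring)]
          change _ = e (pp b) / e g ^ jj b + e (pp b') / e g ^ jj b'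
          rw [map_add, map_mul, map_mul, map_pow, map_pow, pow_add]
          field_simp }
    have hs : ∀ (p : (MvPolynomial (Fin N) k₀)[X][X]) (hp : q p ∈ B), s ⟨q p, hp⟩ = e p := hfq
    refine ⟨s, ⟨fun h => ?_, fun h => ?_⟩, fun h => ?_, fun h => ?_⟩
    · rw [hP]
      exact hBq _
    · have h1 : (⟨algebraMap (PF k₀ N) L (algebraMap (MvPolynomial (Fin N) k₀) (PF k₀ N) h),
          by rw [hP]; exact hBq _⟩ : B) = ⟨q (C (C h)), hBq _⟩ := Subtype.ext (hP h)
      rw [h1, hs, heC, map_C, aeval_C]
    · rw [hs, heC, map_X, aeval_X]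
    · rw [hs, heX]

end Pool.Agent.SE
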