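import Pool.Agent.Helper10.SE.Defs2
import Pool.Agent.Helper10.TWT.A6

/-!
# Project SE: statements of the blocks on families
-/

universe u

namespace Pool.Agent.SE

open Polynomial Pool.Agent.LT Pool.Agent.Helper37.UL UL Pool.Agent.OPN Pool.Agent.OPG Pool.Agent.TWT

/-- **Block T1**: good places exist, for families: as `TWT.exists_good_place`, but the elements of `B` and `U0` depend
on the other parameters `a'`. -/
def StmtT1 : Prop :=
  ∀ {E C : Type u} [Field E] [IsAlgClosed E] [CharZero E] [Field C]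
    [IsAlgClosed C] [Algebra E C] {A : Subfield C} (_ : A ≤ (algebraMap E C).fieldRange) {T q : C}
    (_ : Transcendental E T) (_ : ∀ z : C, IsAlgebraic (IntermediateField.adjoin E {T}) z)
    (_ : IsAlgebraic (ad A {T}) q) {m : ℕ} {J : Type u} {U : Ultrafilter J} {S : Type u} [Field S]
    {π : (J → C) →+* S} (h : UP U π) {I' : Type} [Fintype I'] {a' : J → I' → E}
    {a : J → Fin (m + 1) → E}
    (_ : AlgebraicIndependent (A.map (UP.cst π))
      (xg π fun j (i : I' ⊕ Fin (m + 1)) => algebraMap E C (Sum.elim (a' j) (a j) i)))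
    {Fv : J → Subfield C} (_ : ∀ j, A ≤ Fv j) (_ : ∀ j, Fv j ≤ (algebraMap E C).fieldRange)
    (_ : ∀ j e, algebraMap E C (a' j e) ∈ Fv j) (_ : ∀ j e, algebraMap E C (a j e) ∈ Fv j)
    (_ : ∀ z ∈ h.fsub Fv,
      IsAlgebraic (gn (A.map (UP.cst π))
        (xg π fun j (i : I' ⊕ Fin (m + 1)) => algebraMap E C (Sum.elim (a' j) (a j) i))) z →
      z ∈ gn ((acl A).map (UP.cst π))
        (xg π fun j (i : I' ⊕ Fin (m + 1)) => algebraMap E C (Sum.elim (a' j) (a j) i)))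
    {u : Fin (m + 1) → C} (_ : u 0 = 1) {i₁ : Fin m} (_ : u i₁.succ = T)
    (_ : ∀ e, u e ∈ ad A {T, q}) (B U0 : Finset (J → C))
    (_ : ∀ b ∈ B, π b ∈ acl (ad (gn (A.map (UP.cst π)) (xg π fun j i => algebraMap E C (a' j i)))
      {UP.cst π T}))
    (_ : ∀ z ∈ U0, π z ∈ acl (ad (gn (A.map (UP.cst π)) (xg π fun j i => algebraMap E C (a' j i)))
      {UP.cst π T}) ∧ π z ≠ 0),
    ∃ (j : J) (W : ValuationSubring C), W ≠ ⊤ ∧ (∀ e : E, algebraMap E C e ∈ W) ∧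
      (∀ z ∈ U0, W.valuation (z j) = 1) ∧ (∀ b ∈ B, b j ∈ W) ∧
      (∑ e, algebraMap E C (a j e) * u e) ≠ 0 ∧
      W.valuation (∑ e, algebraMap E C (a j e) * u e) < 1 ∧
      (∀ z ∈ ad (algebraMap E C).fieldRange {T, q}, z ≠ 0 → ∃ i : ℤ, W.valuation z =
        W.valuation (∑ e, algebraMap E C (a j e) * u e) ^ i) ∧
      ∀ b ∈ B, b j ∉ ad (Fv j) {T, q} → ∃ γ : C ≃+* C, (∀ z ∈ ad (Fv j) {T, q}, γ z = z) ∧
        (∀ z, γ z ∈ W ↔ z ∈ W) ∧ γ (b j) ≠ b j

end Pool.Agent.SE
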