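import Pool.Agent.Helper10.SE.Defs5
import Pool.Agent.Helper10.TWX.X15
import Pool.Agent.Helper10.SE.Defs3

/-!
# Project SE: the key statement at the level of the parameters (block TP)
-/

universe u v w

namespace Pool.Agent.SE

open Polynomial Pool.Agent.Helper37.UL UL Pool.Agent.OPN Pool.Agent.OPG Pool.Agent.BT Pool.Agent.TW
  Pool.Agent.TWT Pool.Agent.TWX Pool.Agent.LT Pool.Agent.SC Pool.Agent.Helper91.Sect Pool.Agent Pool.Agent.GC

section aux34

/-- the roots of a polynomial over an algebraically closed field, enumerated -/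
private theorem roots_enum34 {C : Type u} [Field C] [IsAlgClosed C] {f : C[X]} (hf : f ≠ 0) :
    ∃ ρ : Fin f.natDegree → C, (∀ l, f.eval (ρ l) = 0) ∧ ∀ b, f.eval b = 0 → ∃ l, ρ l = b := by
  have h1 : f.roots.toList.length = f.natDegree := by
    rw [Multiset.length_toList]
    exact (splits_iff_card_roots.1 (IsAlgClosed.splits f))
  refine ⟨fun l => f.roots.toList.get (Fin.cast h1.symm l), fun l => ?_, fun b hb => ?_⟩
  · have h2 : f.roots.toList.get (Fin.cast h1.symm l) ∈ f.roots.toList := List.get_mem _ _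
    rw [Multiset.mem_toList, mem_roots hf] at h2
    exact h2
  · have h2 : b ∈ f.roots.toList := by
      rw [Multiset.mem_toList, mem_roots hf]
      exact hb
    obtain ⟨i, hi⟩ := List.get_of_mem h2
    exact ⟨Fin.cast h1 i, hi⟩

/-- the product over a set of roots, in terms of the enumeration -/
private theorem prod_enum34 {A C : Type u} [Field A] [Field C] (ψ : A →+* C) {d : ℕ} {ρ : Fin d → C}
    {T : Finset A} (hT : ∀ b ∈ T, ∃ l, ρ l = ψ b) :
    ∃ T' : Finset (Fin d), T'.card = T.card ∧
      (∏ b ∈ T, (X - Polynomial.C b)).map ψ = ∏ l ∈ T', (X - Polynomial.C (ρ l)) := by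
  classical
  rcases T.eq_empty_or_nonempty with rfl | ⟨b₀, hb₀⟩
  · exact ⟨∅, rfl, by simp⟩
  have hne : Nonempty (Fin d) := ⟨(hT b₀ hb₀).choose⟩
  choose! g hg using hT
  have hinj : Set.InjOn g (T : Set A) := by
    intro b hb b' hb' hbb
    apply ψ.injective
    rw [← hg b hb, ← hg b' hb', hbb]
  refine ⟨T.image g, Finset.card_image_of_injOn hinj, ?_⟩
  rw [Finset.prod_image hinj, Polynomial.map_prod]
  refine Finset.prod_congr rfl fun b hb => ?_
  rw [Polynomial.map_sub, map_X, map_C, hg b hb]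

variable {S : Type u} [Field S]

/-- evaluation at independent elements -/
private theorem ev_ne34 {L : Subfield S} {k₀ : Type u} [Field k₀] {τ : k₀ →+* S} (hτ : ∀ a, τ a ∈ L)
    {N : ℕ} {z : Fin N → S} (hz : AlgebraicIndependent L z) {p : MvPolynomial (Fin N) k₀}
    (hp : p ≠ 0) : MvPolynomial.eval₂Hom τ z p ≠ 0 := by
  let τ' : k₀ →+* L := τ.codRestrict L.toSubring hτ
  have h1 : MvPolynomial.aeval z (MvPolynomial.map τ' p) = MvPolynomial.eval₂Hom τ z p := by
    rw [MvPolynomial.aeval_def, MvPolynomial.eval₂_map]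
    rfl
  rw [← h1]
  intro h0
  have h2 : Function.Injective (MvPolynomial.aeval z : MvPolynomial (Fin N) L →ₐ[L] S) := hz
  have h3 := h2 (h0.trans (map_zero _).symm)
  exact hp (MvPolynomial.map_injective τ' τ'.injective (h3.trans (map_zero _).symm))

/-- the values are in the field generated -/
private theorem ev_mem34 {M : Subfield S} {k₀ : Type u} [Field k₀] {τ : k₀ →+* S} (hτ : ∀ a, τ a ∈ M)
    {N : ℕ} {z : Fin N → S} (hz : ∀ i, z i ∈ M) (p : MvPolynomial (Fin N) k₀) :
    MvPolynomial.eval₂Hom τ z p ∈ M := by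
  induction p using MvPolynomial.induction_on with
  | C a =>
    rw [MvPolynomial.eval₂Hom_C]
    exact hτ a
  | add p q hp hq =>
    rw [map_add]
    exact M.add_mem hp hq
  | mul_X p i hp =>
    rw [map_mul, MvPolynomial.eval₂Hom_X']
    exact M.mul_mem hp (hz i)

/-- the coefficients of a product of linear factors -/
private theorem coeff_mem34 {M : Subfield S} {κ : Type v} {T : Finset κ} {s : κ → S}
    (hs : ∀ l ∈ T, s l ∈ M) (i : ℕ) : (∏ l ∈ T, (X - C (s l))).coeff i ∈ M := by
  classical
  induction T using Finset.induction_on generalizing i with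
  | empty =>
    rw [Finset.prod_empty, coeff_one]
    split_ifs
    · exact M.one_mem
    · exact M.zero_mem
  | insert l T hl ih =>
    rw [Finset.prod_insert hl, sub_mul, coeff_sub, coeff_C_mul]
    have h1 : ∀ i, (∏ l ∈ T, (X - C (s l))).coeff i ∈ M :=
      fun i => ih (fun l hl => hs l (Finset.mem_insert_of_mem hl)) i
    refine M.sub_mem ?_ (M.mul_mem (hs l (Finset.mem_insert_self _ _)) (h1 i))
    cases i with
    | zero =>
      rw [coeff_X_mul_zero]
      exact M.zero_mem
    | succ i =>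
      rw [coeff_X_mul]
      exact h1 i

end aux34

/-- **The key statement at the level of the parameters.** -/
theorem tp (hT1 : StmtT1.{u}) : StmtTP.{u} := by
  classical
  intro k₀ _ N P ff E₀ U₀ hff hU₀ hcore J F k C _ _ _ _ _ _ _ _ _ ι T q hT htop κ hκ Fs κs hκs Fv hFsv hFvF
    hFsF hq hι m w hw0 hw1 Uf S _ π h vv hvFv hx hwr Kb hKF hKT hKq hKv hFvK hKFv hmod
  have hC0 : CharZero C := charZero_of_injective_algebraMap (algebraMap F C).injective
  have hCa : IsAlgClosed C := IsAlgClosure.isAlgClosed k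
  have hCk : Algebra.IsAlgebraic k C := IsAlgClosure.isAlgebraic
  set TC : C := algebraMap k C T with hTC
  set qC : C := algebraMap k C q with hqC
  -- the field `κ`
  have hκF : ∀ c : F, algebraMap F C c ∈ κ := fun c => (hκ _).2 (isAlgebraic_algebraMap c)
  have hFκ : (algebraMap F C).fieldRange ≤ κ := by
    rintro _ ⟨c, rfl⟩
    exact hκF c
  let iFκ : Algebra F κ := ((algebraMap F C).codRestrict κ.toSubring hκF).toAlgebra
  have sFκ : IsScalarTower F κ C := IsScalarTower.of_algebraMap_eq fun _ => rfl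
  have hκalg : Algebra.IsAlgebraic F κ := ⟨fun z => by
    have h1 : IsAlgebraic F (algebraMap κ C z) := (hκ _).1 z.2
    exact (isAlgebraic_algebraMap_iff (algebraMap κ C).injective).1 h1⟩
  have hκ0 : CharZero κ := inferInstance
  have hκr : (algebraMap κ C).fieldRange = κ := by
    ext z
    constructor
    · rintro ⟨c, rfl⟩
      exact c.2
    · intro hz
      exact ⟨⟨z, hz⟩, rfl⟩
  have hκacl : IsAlgClosed κ := by
    refine IsAlgClosed.of_exists_root κ fun p hpm hpi => ?_
    obtain ⟨z, hz⟩ := IsAlgClosed.exists_root (p.map (algebraMap κ C)) (by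
      rw [degree_map]
      exact hpi.degree_pos.ne')
    rw [IsRoot.def, eval_map] at hz
    have hzκ : IsAlgebraic κ z := ⟨p, hpi.ne_zero, hz⟩
    have hzF : IsAlgebraic F z := hzκ.restrictScalars F
    refine ⟨⟨z, (hκ z).2 hzF⟩, ?_⟩
    apply (algebraMap κ C).injective
    rw [map_zero, ← hz]
    exact (eval₂_at_apply (algebraMap κ C) _).symm
  -- transcendence
  have hTF : Transcendental F TC := (transcendental_algebraMap_iff (algebraMap k C).injective).2 hT
  have hTκ : Transcendental κ TC := fun h0 => hTF (h0.restrictScalars F)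
  have hq' : IsAlgebraic (ad Fs {TC}) qC := by
    rw [← gen_one]
    exact hq
  have hFsκ : Fs ≤ (algebraMap κ C).fieldRange := by
    rw [hκr]
    exact hFsF.trans hFκ
  have halg : ∀ z : C, IsAlgebraic (IntermediateField.adjoin κ {TC}) z := by
    have h1 : ∀ x : k, algebraMap k C x ∈ acl (ad κ {TC}) := by
      intro x
      have h2 : (IntermediateField.adjoin F {T, q}).toSubfield ≤
          (acl (ad κ {TC})).comap (algebraMap k C) := by
        rw [adjoin_sub]
        refine ad_le ?_ ?_
        · rintro _ ⟨c, rfl⟩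
          change algebraMap k C (algebraMap F k c) ∈ acl (ad κ {TC})
          rw [← IsScalarTower.algebraMap_apply]
          exact le_acl (le_ad (hκF c))
        · rintro z (hz | hz)
          · rw [hz]
            exact le_acl mem_adE
          · rw [Set.mem_singleton_iff.1 hz]
            exact mem_acl.2 (isAlgebraic_mono (ad_mono (hFsF.trans hFκ) le_rfl) hq')
      rw [htop] at h2
      exact h2 (Subfield.mem_top x)
    intro z
    have h3 : IsAlgebraic (acl (ad κ {TC})) z := by
      obtain ⟨P, hP0, hP⟩ := hCk.isAlgebraic z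
      let φ : k →+* acl (ad κ {TC}) :=
        (algebraMap k C).codRestrict (acl (ad κ {TC})).toSubring h1
      refine ⟨P.map φ, (Polynomial.map_ne_zero_iff φ.injective).2 hP0, ?_⟩
      rw [aeval_def, eval₂_map]
      exact hP
    exact alg_adjoin_iff.2 (mem_acl.1 (acl_closed h3))
  -- the coefficients
  let σ : k₀ →+* C := (algebraMap k C).comp ι
  have hσ : ∀ a, σ a ∈ ad Fs {TC, qC} := hι
  have hσ0 : σ (w 0) ≠ 0 := (map_ne_zero σ).2 hw0
  let u : Fin (m + 2) → C := fun e => σ (w e) / σ (w 0)
  have hu0 : u 0 = 1 := div_self hσ0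
  have hu1 : u ((0 : Fin (m + 1)).succ) = TC := by
    change σ (w 1) / σ (w 0) = TC
    rw [div_eq_iff hσ0]
    change algebraMap k C (ι (w 1)) = _
    rw [hw1, map_mul]
    rfl
  have hu : ∀ e, u e ∈ ad Fs {TC, qC} := fun e => (ad Fs {TC, qC}).div_mem (hσ _) (hσ _)
  let a : J → Fin (m + 2) → κ := fun j e => ⟨algebraMap F C (vv j (Sum.inr e)), hκF _⟩
  let a' : J → Fin N → κ := fun j i => ⟨algebraMap F C (vv j (Sum.inl i)), hκF _⟩
  -- the generators
  have hxe : (xg π fun j (i : Fin N ⊕ Fin (m + 2)) => algebraMap κ C (Sum.elim (a' j) (a j) i)) =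
      xg π fun j i => algebraMap F C (vv j i) := by
    funext i
    rcases i with i | i <;> rfl
  have hx' : AlgebraicIndependent (Fs.map (UP.cst π)) (xg π fun j
      (i : Fin N ⊕ Fin (m + 2)) => algebraMap κ C (Sum.elim (a' j) (a j) i)) := by
    rw [hxe]
    exact hx
  have hκsacl : κs = acl Fs := by
    ext z
    rw [hκs, mem_acl]
  have hwr' : ∀ z ∈ h.fsub Fv,
      IsAlgebraic (gn (Fs.map (UP.cst π)) (xg π fun j (i : Fin N ⊕ Fin (m + 2)) =>
        algebraMap κ C (Sum.elim (a' j) (a j) i))) z →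
      z ∈ gn ((acl Fs).map (UP.cst π)) (xg π fun j (i : Fin N ⊕ Fin (m + 2)) =>
        algebraMap κ C (Sum.elim (a' j) (a j) i)) := by
    intro z hz hza
    rw [hxe] at hza ⊢
    rw [← hκsacl]
    exact hwr z hz hza
  -- the small field
  set K0 : Subfield S := Fs.map (UP.cst π) with hK0
  set x' : Fin N → S := xg π fun j i => algebraMap κ C (a' j i) with hx'def
  set G : Subfield S := gn K0 x' with hG
  set A1 : Subfield S := acl (ad G {UP.cst π TC}) with hA1
  set L : Subfield S := acl (ad K0 {UP.cst π TC}) with hL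
  have hLA : L ≤ A1 := acl_mono (ad_mono le_gn le_rfl)
  have hadL : ∀ z ∈ ad Fs {TC, qC}, UP.cst π z ∈ L := by
    have h1 : ad Fs {TC, qC} ≤ L.comap (UP.cst π) := by
      refine ad_le ?_ ?_
      · intro z hz
        exact le_acl (le_ad ⟨z, hz, rfl⟩)
      · rintro z (hz | hz)
        · rw [hz]
          exact le_acl mem_adE
        · rw [Set.mem_singleton_iff.1 hz]
          refine mem_acl.2 (alg_map' (UP.cst π) (fun y hy => ?_) hq')
          have h2 : ad Fs {TC} ≤ (ad K0 {UP.cst π TC}).comap (UP.cst π) := by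
            refine ad_le (fun z hz => le_ad ⟨z, hz, rfl⟩) (fun z hz => ?_)
            rw [Set.mem_singleton_iff.1 hz]
            exact mem_adE
          exact h2 hy
    exact h1
  have hσL : ∀ z, UP.cst π (σ z) ∈ L := fun z => hadL _ (hσ z)
  have hx'A : ∀ i, x' i ∈ A1 := fun i => le_acl (le_ad (mem_gn i))
  -- independence
  have hTS : Transcendental (h.fsub fun _ => κ) (UP.cst π TC) := by
    have h3 := h.algIndV (A := fun _ => κ) (τ := ![TC])
      (fun _ => algebraicIndependent_unique_type_iff.2 hTκ)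
    exact algebraicIndependent_unique_type_iff.1 h3
  have hx1 : AlgebraicIndependent K0 x' := by
    have h1 := hx'.comp _ (Sum.inl_injective (α := Fin N) (β := Fin (m + 2)))
    exact h1
  have hGκ : G ≤ h.fsub fun _ => κ := by
    refine gn_le ?_ ?_
    · rintro _ ⟨z, hz, rfl⟩
      exact h.const_mem_fsub fun _ => hFκ (hFsF hz)
    · intro i
      exact ⟨fun j => algebraMap κ C (a' j i), fun j => (a' j i).2, rfl⟩
  have hxL : AlgebraicIndependent L x' :=
    indep_acl (Pool.Agent.OPG.indep_ad hx1 (tr_mono hGκ hTS))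
  -- the members of the family
  let c : J → Option (Fin N) → C := fun j q => algebraMap k C (prm (ι ∘ w) (vv j) q)
  have hcs : ∀ j q, c j (some q) = algebraMap κ C (a' j q) := by
    intro j q
    change algebraMap k C (algebraMap F k (vv j (Sum.inl q))) = algebraMap F C (vv j (Sum.inl q))
    rw [← IsScalarTower.algebraMap_apply]
  have hcn : ∀ j, c j none = ∑ e, algebraMap F C (vv j (Sum.inr e)) * σ (w e) := by
    intro j
    change algebraMap k C (∑ e, algebraMap F k (vv j (Sum.inr e)) * ι (w e)) = _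
    rw [map_sum]
    refine Finset.sum_congr rfl fun e _ => ?_
    rw [map_mul, ← IsScalarTower.algebraMap_apply]
    rfl
  let ec : J → MvPolynomial (Fin N) k₀ →+* C := fun j => MvPolynomial.eval₂Hom σ fun q => c j (some q)
  let eJ : MvPolynomial (Fin N) k₀ →+* (J → C) := RingHom.pi ec
  set z0 : Fin N → S := x' with hz0
  have hcz : ∀ q, π (fun j => c j (some q)) = z0 q := by
    intro q
    have h3 : (fun j => c j (some q)) = fun j => algebraMap κ C (a' j q) := funext fun j => hcs j q
    rw [h3]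
    rfl
  have heS : π.comp eJ = MvPolynomial.eval₂Hom ((UP.cst π).comp σ) z0 := by
    apply MvPolynomial.ringHom_ext
    · intro r
      rw [MvPolynomial.eval₂Hom_C, RingHom.comp_apply, RingHom.comp_apply]
      have h4 : eJ (MvPolynomial.C r) = fun _ => σ r := by
        funext j
        exact MvPolynomial.eval₂Hom_C σ _ r
      rw [h4]
      rfl
    · intro q
      rw [MvPolynomial.eval₂Hom_X', RingHom.comp_apply, ← hcz]
      have h4 : eJ (MvPolynomial.X q) = fun j => c j (some q) := by
        funext j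
        exact MvPolynomial.eval₂Hom_X' σ _ q
      rw [h4]
  have hz0L : AlgebraicIndependent L z0 := hxL
  have heS0 : ∀ p, p ≠ 0 → π (eJ p) ≠ 0 := by
    intro p hp
    have h4 : π (eJ p) = MvPolynomial.eval₂Hom ((UP.cst π).comp σ) z0 p := by
      rw [← heS]
      rfl
    rw [h4]
    exact ev_ne34 (L := L) (fun r => hσL r) hz0L hp
  have heSA : ∀ p, π (eJ p) ∈ A1 := by
    intro p
    have h4 : π (eJ p) = MvPolynomial.eval₂Hom ((UP.cst π).comp σ) z0 p := by
      rw [← heS]
      rfl
    rw [h4]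
    exact ev_mem34 (fun r => hLA (hσL r)) (fun q => hx'A q) p
  -- the roots
  set d : ℕ := ff.natDegree with hd
  have hρ : ∀ j, ∃ ρ : Fin d → C, (∀ l, ρ l * eval₂ (ec j) (ρ l) ff = 0) ∧
      (ec j ff.leadingCoeff ≠ 0 → ∀ b, eval₂ (ec j) b ff = 0 → ∃ l, ρ l = b) := by
    intro j
    by_cases h0 : ec j ff.leadingCoeff = 0
    · exact ⟨fun _ => 0, fun l => zero_mul _, fun h1 => absurd h0 h1⟩
    · have h1 : (ff.map (ec j)).natDegree = d := natDegree_map_of_leadingCoeff_ne_zero _ h0
      have h2 : ff.map (ec j) ≠ 0 := by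
        intro h3
        apply h0
        have h4 := congrArg (fun p => p.coeff ff.natDegree) h3
        simp only [coeff_map, coeff_zero] at h4
        exact h4
      obtain ⟨ρ, hρ1, hρ2⟩ := roots_enum34 h2
      refine ⟨fun l => ρ (Fin.cast h1.symm l), fun l => ?_, fun _ b hb => ?_⟩
      · have h3 := hρ1 (Fin.cast h1.symm l)
        rw [eval_map] at h3
        rw [h3, mul_zero]
      · obtain ⟨l, hl⟩ := hρ2 b (by rw [eval_map]; exact hb)
        exact ⟨Fin.cast h1 l, hl⟩
  choose ρ hρ1 hρ2 using hρ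
  let r : Fin d → J → C := fun l j => ρ j l
  have hrA : ∀ l, π (r l) ∈ A1 := by
    intro l
    have h1 : IsAlgebraic A1 (π (r l)) := by
      let eA : MvPolynomial (Fin N) k₀ →+* A1 := (π.comp eJ).codRestrict A1.toSubring heSA
      have heA : ∀ p, ((eA p : A1) : S) = π (eJ p) := fun _ => rfl
      refine ⟨X * ff.map eA, mul_ne_zero X_ne_zero ?_, ?_⟩
      · intro h2
        have h4 := congrArg (fun p => p.coeff ff.natDegree) h2
        simp only [coeff_map, coeff_zero] at h4
        exact heS0 _ (leadingCoeff_ne_zero.2 hff) (congrArg Subtype.val h4)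
      · rw [map_mul, aeval_X, aeval_def, eval₂_map]
        have h2 : (algebraMap A1 S).comp eA = π.comp eJ := RingHom.ext fun _ => rfl
        rw [h2, ← hom_eval₂, ← map_mul]
        have h3 : r l * eval₂ eJ (r l) ff = 0 := by
          funext j
          have h4 : (eval₂ eJ (r l) ff) j = eval₂ (ec j) (ρ j l) ff := by
            have h5 := hom_eval₂ ff eJ (Pi.evalRingHom (fun _ : J => C) j) (r l)
            exact h5
          rw [Pi.mul_apply, h4]
          exact hρ1 j l
        rw [h3, map_zero]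
    exact acl_closed h1
  -- the finite sets
  let pr : Finset (Fin d) → ℕ → J → C := fun Tt i => (∏ l ∈ Tt, (X - Polynomial.C (r l))).coeff i
  have hpr : ∀ Tt i j, pr Tt i j = (∏ l ∈ Tt, (X - Polynomial.C (ρ j l))).coeff i := by
    intro Tt i j
    have h1 : (∏ l ∈ Tt, (X - Polynomial.C (r l))).map (Pi.evalRingHom (fun _ : J => C) j) =
        ∏ l ∈ Tt, (X - Polynomial.C (ρ j l)) := by
      rw [Polynomial.map_prod]
      refine Finset.prod_congr rfl fun l _ => ?_
      rw [Polynomial.map_sub, map_X, map_C]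
      rfl
    rw [← h1, coeff_map]
    rfl
  have hprA : ∀ Tt i, π (pr Tt i) ∈ A1 := by
    intro Tt i
    have h1 : (∏ l ∈ Tt, (X - Polynomial.C (r l))).map π =
        ∏ l ∈ Tt, (X - Polynomial.C (π (r l))) := by
      rw [Polynomial.map_prod]
      refine Finset.prod_congr rfl fun l _ => ?_
      rw [Polynomial.map_sub, map_X, map_C]
    have h2 : π (pr Tt i) = (∏ l ∈ Tt, (X - Polynomial.C (π (r l)))).coeff i := by
      rw [← h1, coeff_map]
    rw [h2]
    exact coeff_mem34 (fun l _ => hrA l) i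
  let B : Finset (J → C) := E₀.image (fun p => eJ p) ∪
    ((Finset.univ : Finset (Finset (Fin d))) ×ˢ Finset.range (d + 1)).image (fun p => pr p.1 p.2)
  let U0 : Finset (J → C) := (insert ff.leadingCoeff U₀).image (fun p => eJ p) ∪ {fun _ => σ (w 0)}
  have hB : ∀ b ∈ B, π b ∈ A1 := by
    intro b hb
    rcases Finset.mem_union.1 hb with hb | hb
    · obtain ⟨i, -, rfl⟩ := Finset.mem_image.1 hb
      exact heSA _
    · obtain ⟨p, -, rfl⟩ := Finset.mem_image.1 hb
      exact hprA _ _
  have hU0 : ∀ z ∈ U0, π z ∈ A1 ∧ π z ≠ 0 := by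
    intro z hz
    rcases Finset.mem_union.1 hz with hz | hz
    · obtain ⟨p, hp, rfl⟩ := Finset.mem_image.1 hz
      refine ⟨heSA _, heS0 _ ?_⟩
      rcases Finset.mem_insert.1 hp with hp | hp
      · rw [hp]
        exact leadingCoeff_ne_zero.2 hff
      · rintro rfl
        exact hU₀ hp
    · rw [Finset.mem_singleton.1 hz]
      exact ⟨hLA (hσL _), (map_ne_zero (UP.cst π)).2 hσ0⟩
  obtain ⟨j, W, -, hWE, hWU, hWB, hv0, hvW, hWd, hWγ⟩ := hT1 (E := κ) (A := Fs) (C := C)
    hFsκ (T := TC) (q := qC) hTκ halg hq' h (a' := a') (a := a) hx' (Fv := Fv) hFsv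
    (fun j => by rw [hκr]; exact (hFvF j).trans hFκ) (fun j i => hvFv j (Sum.inl i))
    (fun j e => hvFv j (Sum.inr e)) hwr' (u := u) hu0 hu1 hu B U0 hB hU0
  obtain ⟨k₁, k', i1, i2, i3, i4, T', ψ, ι', f', hk₁, hfin, hKb, hconst, hι', hf', hbad⟩ := hmod j
  have hcf : ∀ q, ψ (algebraMap k' (AlgebraicClosure k') (f' q)) = c j q := by
    intro q
    exact (hf' q).symm
  have hev : ∀ p, ψ (algebraMap k' (AlgebraicClosure k') (evp ι' (fun q => f' (some q)) p)) = ec j p := by
    have h1 : (ψ.comp (algebraMap k' (AlgebraicClosure k'))).comp (evp ι' fun q => f' (some q)) = ec j := by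
      apply MvPolynomial.ringHom_ext
      · intro x
        rw [RingHom.comp_apply]
        unfold evp
        rw [MvPolynomial.eval₂Hom_C]
        refine (hι' x).symm.trans ?_
        exact (MvPolynomial.eval₂Hom_C σ _ x).symm
      · intro q
        rw [RingHom.comp_apply]
        unfold evp
        rw [MvPolynomial.eval₂Hom_X']
        refine (hcf (some q)).trans ?_
        exact (MvPolynomial.eval₂Hom_X' σ (fun q => c j (some q)) q).symm
    intro p
    exact congrArg (fun g => g p) h1
  have hsum : ψ (algebraMap k' (AlgebraicClosure k') (f' none)) =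
      σ (w 0) * ∑ e, algebraMap κ C (a j e) * u e := by
    rw [hcf, hcn, Finset.mul_sum]
    refine Finset.sum_congr rfl fun e _ => ?_
    change algebraMap F C (vv j (Sum.inr e)) * σ (w e) =
      σ (w 0) * (algebraMap F C (vv j (Sum.inr e)) * (σ (w e) / σ (w 0)))
    field_simp
  have hW0 : W.valuation (σ (w 0)) = 1 :=
    hWU _ (Finset.mem_union_right _ (Finset.mem_singleton_self _))
  have hWU' : ∀ p ∈ insert ff.leadingCoeff U₀, W.valuation (ec j p) = 1 := fun p hp =>
    hWU _ (Finset.mem_union_left _ (Finset.mem_image_of_mem _ hp))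
  have hval : W.valuation (ψ (algebraMap k' (AlgebraicClosure k') (f' none))) =
      W.valuation (∑ e, algebraMap κ C (a j e) * u e) := by
    rw [hsum, map_mul, hW0, one_mul]
  have hne : ψ (algebraMap k' (AlgebraicClosure k') (f' none)) ≠ 0 := by
    rw [hsum]
    exact mul_ne_zero hσ0 hv0
  have hf0 : f' none ≠ 0 := by
    intro h0
    apply hne
    rw [h0, map_zero, map_zero]
  have hf0' : algebraMap k' (AlgebraicClosure k') (f' none) ≠ 0 := (_root_.map_ne_zero _).2 hf0
  have hKeq : (Kb j).map (algebraMap k C) = ad (Fv j) {TC, qC} := by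
    apply le_antisymm (hKFv j)
    refine ad_le (hFvK j) ?_
    rintro z (hz | hz)
    · rw [hz]
      exact ⟨T, hKT j, rfl⟩
    · rw [Set.mem_singleton_iff.1 hz]
      exact ⟨q, hKq j, rfl⟩
  have hk'K : ∀ z : k', ψ (algebraMap k' (AlgebraicClosure k') z) ∈ ad (Fv j) {TC, qC} := by
    intro z
    rw [← hKeq, hKb]
    exact ⟨z, rfl⟩
  have hlc : ec j ff.leadingCoeff ≠ 0 := by
    intro h0
    have h1 := hWU' _ (Finset.mem_insert_self _ _)
    rw [h0, map_zero] at h1
    exact zero_ne_one h1
  refine hcore k₁ k' ι' hk₁ T' hfin f' hf0 (W.comap ψ) ⟨?_, ?_, ?_, ?_, ?_, ?_⟩ hbad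
  · intro z
    obtain ⟨b, hb⟩ := hconst z
    change ψ (algebraMap k' (AlgebraicClosure k') (algebraMap k₁ k' z)) ∈ W
    rw [← hb, ← IsScalarTower.algebraMap_apply]
    exact hWE ⟨_, hκF b⟩
  · intro p hp
    change ψ (algebraMap k' (AlgebraicClosure k') (evp ι' (fun q => f' (some q)) p)) ∈ W
    rw [hev]
    exact hWB _ (Finset.mem_union_left _ (Finset.mem_image_of_mem _ hp))
  · intro p hp
    rw [comap_eq_one, hev]
    exact hWU' _ (Finset.mem_insert_of_mem hp)
  · rw [ValuationSubring.mem_nonunits_iff, comap_lt_one, hval]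
    exact hvW
  · intro z hz
    obtain ⟨i, hi⟩ : ∃ i : ℤ, W.valuation (ψ (algebraMap k' (AlgebraicClosure k') z)) =
        W.valuation (ψ (algebraMap k' (AlgebraicClosure k') (f' none))) ^ i := by
      rw [hval]
      refine hWd _ ?_ ?_
      · rw [hκr]
        exact ad_mono ((hFvF j).trans hFκ) le_rfl (hk'K z)
      · exact (map_ne_zero ψ).2 ((_root_.map_ne_zero _).2 hz)
    refine ⟨i, ?_⟩
    rw [← map_zpow₀, comap_eq _ _ (zpow_ne_zero i hf0'), map_zpow₀, map_zpow₀]
    exact hi
  · intro Tt hTt i hik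
    -- the roots in `C`
    have h1 : ∀ b ∈ Tt, ∃ l, ρ j l = ψ b := by
      intro b hb
      refine hρ2 j hlc _ ?_
      have h2 := congrArg ψ (hTt b hb)
      rw [aeval_def, eval₂_map, hom_eval₂, map_zero] at h2
      have h3 : ψ.comp ((algebraMap k' (AlgebraicClosure k')).comp (evp ι' fun q => f' (some q))) = ec j :=
        RingHom.ext hev
      rw [h3] at h2
      exact h2
    obtain ⟨T₁, hT₁c, hT₁⟩ := prod_enum34 ψ h1
    have hi : i < d + 1 := by
      by_contra hcon
      have h2 : Tt.card ≤ d := by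
        rw [← hT₁c]
        exact (Finset.card_le_univ _).trans (by rw [Fintype.card_fin])
      have h3 : (∏ b ∈ Tt, (X - Polynomial.C b)).coeff i = 0 := by
        apply coeff_eq_zero_of_natDegree_lt
        rw [natDegree_prod_of_monic _ _ fun b _ => monic_X_sub_C b]
        simp only [natDegree_X_sub_C, Finset.sum_const, smul_eq_mul, mul_one]
        omega
      exact hik 0 (by rw [map_zero, h3])
    have h2 : ψ ((∏ b ∈ Tt, (X - Polynomial.C b)).coeff i) = pr T₁ i j := by
      rw [hpr, ← hT₁, coeff_map]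
    have h3 : pr T₁ i ∈ B := Finset.mem_union_right _ (Finset.mem_image.2
      ⟨(T₁, i), Finset.mem_product.2 ⟨Finset.mem_univ _, Finset.mem_range.2 hi⟩, rfl⟩)
    have h4 : pr T₁ i j ∉ ad (Fv j) {TC, qC} := by
      intro h0
      rw [← hKeq, hKb] at h0
      obtain ⟨z, hz⟩ := h0
      rw [← h2] at hz
      exact hik z (ψ.injective hz)
    obtain ⟨γ, hγ1, hγ2, hγ3⟩ := hWγ _ h3 h4
    obtain ⟨γ', hγ'⟩ := GS.exists_restr (k' := k') ψ (γ : C →+* C) (fun z => hγ1 _ (hk'K z))
    have hγ'' : ∀ y, ψ (γ' y) = γ (ψ y) := hγ'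
    refine ⟨γ', ?_, ?_⟩
    · intro z
      change ψ (γ' z) ∈ W ↔ ψ z ∈ W
      rw [hγ'']
      exact hγ2 _
    · intro h5
      apply hγ3
      rw [← h2, ← hγ'', h5]

end Pool.Agent.SE
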