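import Pool.Agent.Helper10.SE.Defs6

/-!
# Project SE, version 4: the block CFV
-/

universe u

namespace Pool.Agent.SE

open VC Polynomial Pool.Agent.LT Pool.Agent.SC Pool.Agent.GC Pool.Agent.Helper91.Sect Pool.Agent
  Pool.Agent.TWX Pool.Agent.TWT Pool.Agent.TWH

/-- The value of a polynomial in two variables at the point `(x, z)`. -/
noncomputable def ev2 {k K : Type u} [Field k] [Field K] [Algebra k K] (x z : K) : k[X][X] →+* K :=
  eval₂RingHom (aeval x : k[X] →ₐ[k] K).toRingHom z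

/-- **Block CFV**: the residues at the places over the roots of `f` which are not roots of the discriminant `D` of
the plane equation `Φ(x, z₀) = 0`. -/
def StmtCFV : Prop :=
  ∀ {k K₁ : Type u} [Field k] [CharZero k] [Field K₁] [Algebra k K₁], IsFunctionField k K₁ →
    ∀ {x z₀ : K₁}, Transcendental k x → IntermediateField.adjoin k {x, z₀} = ⊤ →
    ∀ {Φ : k[X][X]}, Φ.Monic → ev2 x z₀ Φ = 0 →
    ∀ {f D : k[X]} {A B : k[X][X]}, A * Φ + B * derivative Φ = C D → f ≠ 0 → D ≠ 0 →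
    ∀ {r : ℕ} {G G' G'' : Fin r → k[X][X]} {N : Fin r → k[X]},
    (∀ s, G s * G' s + Φ * G'' s = C (N s)) → (∀ s, N s ≠ 0) →
    (∀ c : AlgebraicClosure k, aeval c D = 0 → aeval c f = 0) →
    (∀ s (c : AlgebraicClosure k), aeval c (N s) = 0 → aeval c f = 0) →
    ∀ P₁ : Place k K₁, x ∈ P₁.ring → aeval x D ∉ P₁.ring.nonunits → aeval x f ∈ P₁.ring.nonunits →
    ∀ e : Fin r → ℤ, ∃ (l : ℕ) (π : K₁) (q p : k[X]), l ≤ (f.natDegree * Φ.natDegree) ^ 2 ∧
      PData (∏ s, ev2 x z₀ (G s) ^ e s) P₁ (x + l * z₀) π q p ∧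
      (∀ c : AlgebraicClosure k, aeval c q = 0 →
        ∃ ξ ζ : AlgebraicClosure k, aeval ξ f = 0 ∧ ev2 ξ ζ Φ = 0 ∧ c = ξ + l * ζ) ∧
      ∀ W : ValuationSubring (AlgebraicClosure k),
        (∀ i, algebraMap k (AlgebraicClosure k) (f.coeff i) ∈ W) →
        W.valuation (algebraMap k (AlgebraicClosure k) f.leadingCoeff) = 1 →
        W.valuation (algebraMap k (AlgebraicClosure k) f.discr) = 1 →
        (∀ i, algebraMap k (AlgebraicClosure k) (D.coeff i) ∈ W) →
        W.valuation (algebraMap k (AlgebraicClosure k) D.leadingCoeff) = 1 →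
        (∀ s i, algebraMap k (AlgebraicClosure k) ((N s).coeff i) ∈ W) →
        (∀ s, W.valuation (algebraMap k (AlgebraicClosure k) (N s).leadingCoeff) = 1) →
        (∀ i j, algebraMap k (AlgebraicClosure k) ((Φ.coeff i).coeff j) ∈ W) →
        (∀ i j, algebraMap k (AlgebraicClosure k) ((A.coeff i).coeff j) ∈ W) →
        (∀ i j, algebraMap k (AlgebraicClosure k) ((B.coeff i).coeff j) ∈ W) →
        (∀ s i j, algebraMap k (AlgebraicClosure k) (((G s).coeff i).coeff j) ∈ W) →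
        (∀ s i j, algebraMap k (AlgebraicClosure k) (((G' s).coeff i).coeff j) ∈ W) →
        (∀ s i j, algebraMap k (AlgebraicClosure k) (((G'' s).coeff i).coeff j) ∈ W) →
        (∀ i, algebraMap k (AlgebraicClosure k) (p.coeff i) ∈ W) ∧
          algebraMap k (AlgebraicClosure k) (p.coeff 0)⁻¹ ∈ W

end Pool.Agent.SE
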