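import Pool.Agent.Helper10.SE.Defs5
import Pool.Agent.Helper13.GC.D2

/-!
# Project SE, version 4: the parts of block CF
-/

universe u

namespace Pool.Agent.SE

open VC Polynomial Pool.Agent.LT Pool.Agent.SC Pool.Agent.GC Pool.Agent.Helper91.Sect Pool.Agent
  Pool.Agent.TWX Pool.Agent.TWT Pool.Agent.TWH

/-- **Block CFA**: the places of the members of a family over the moving points. -/
def StmtCFA : Prop :=
  ∀ {k₀ K₀ : Type u} [Field k₀] [CharZero k₀] [Field K₀] [Algebra k₀ K₀], IsFunctionField k₀ K₀ →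
    ∀ {x : K₀}, Transcendental k₀ x →
    ∀ {N r : ℕ} (g : Fin r → MvPolynomial (Fin N) K₀), (∀ s, g s ≠ 0) →
    ∃ (z₀ : K₀) (f₀ : k₀[X]) (ff₁ fR : (MvPolynomial (Fin N) k₀)[X])
      (E U : Finset (MvPolynomial (Fin N) k₀)), f₀ ≠ 0 ∧ fR ≠ 0 ∧
      1 ≤ ff₁.natDegree ∧ ff₁.leadingCoeff ∈ U ∧ ff₁.discr ∈ U ∧ (∀ i, ff₁.coeff i ∈ E) ∧
      U ⊆ E ∧ 0 ∉ U ∧
      ∀ (k K₁ : Type u) [Field k] [DecidableEq k] [Field K₁] [Algebra k₀ k] [Algebra k K₁]
        [Algebra K₀ K₁] [Algebra k₀ K₁] [IsScalarTower k₀ k K₁] [IsScalarTower k₀ K₀ K₁],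
        IntermediateField.adjoin k (Set.range (algebraMap K₀ K₁)) = ⊤ →
        (∃ y : K₀, Transcendental k (algebraMap K₀ K₁ y)) →
        ∀ a : Fin N → k, (∀ h ∈ U, evp (algebraMap k₀ k) a h ≠ 0) →
        (∀ e : Fin r → ℤ, Coord (∏ s, famp (K₁ := K₁) a (g s) ^ e s) (algebraMap K₀ K₁ x)
          (algebraMap K₀ K₁ z₀) (ff₁.map (evp (algebraMap k₀ k) a))
          (E.image (evp (algebraMap k₀ k) a) ∪ U.image fun h => (evp (algebraMap k₀ k) a h)⁻¹)) ∧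
        ∀ W : ValuationSubring (AlgebraicClosure k),
        (∀ h ∈ E, algebraMap k (AlgebraicClosure k) (evp (algebraMap k₀ k) a h) ∈ W) →
        (∀ h ∈ U, W.valuation (algebraMap k (AlgebraicClosure k) (evp (algebraMap k₀ k) a h)) = 1) →
        ∀ P₁ : Place k K₁, algebraMap K₀ K₁ x ∈ P₁.ring →
        aeval (algebraMap K₀ K₁ x) (f₀.map (algebraMap k₀ k)) ∉ P₁.ring.nonunits →
        aeval (algebraMap K₀ K₁ x) (ff₁.map (evp (algebraMap k₀ k) a)) ∈ P₁.ring.nonunits →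
        ∀ e : Fin r → ℤ, ∃ (θ π : K₁) (q p : k[X]),
          PData (∏ s, famp (K₁ := K₁) a (g s) ^ e s) P₁ θ π q p ∧
          (∀ c : AlgebraicClosure k, aeval c q = 0 →
            aeval c (fR.map (evp (algebraMap k₀ k) a)) = 0) ∧
          (∀ i, algebraMap k (AlgebraicClosure k) (p.coeff i) ∈ W) ∧
          algebraMap k (AlgebraicClosure k) (p.coeff 0)⁻¹ ∈ W

/-- **Block CFB**: the places of the members of a family over a fixed place. -/
def StmtCFB : Prop :=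
  ∀ {k₀ K₀ : Type u} [Field k₀] [CharZero k₀] [Field K₀] [Algebra k₀ K₀], IsFunctionField k₀ K₀ →
    ∀ {N r : ℕ} (g : Fin r → MvPolynomial (Fin N) K₀), (∀ s, g s ≠ 0) → ∀ P₀ : Place k₀ K₀,
    ∃ (q₀ : k₀[X]) (E U : Finset (MvPolynomial (Fin N) k₀)), q₀ ≠ 0 ∧ U ⊆ E ∧ 0 ∉ U ∧
      ∀ (k K₁ : Type u) [Field k] [Field K₁] [Algebra k₀ k] [Algebra k K₁]
        [Algebra K₀ K₁] [Algebra k₀ K₁] [IsScalarTower k₀ k K₁] [IsScalarTower k₀ K₀ K₁],
        IsFunctionField k K₁ →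
        IntermediateField.adjoin k (Set.range (algebraMap K₀ K₁)) = ⊤ →
        ∀ (a : Fin N → k) (W : ValuationSubring (AlgebraicClosure k)),
        (∀ h ∈ E, algebraMap k (AlgebraicClosure k) (evp (algebraMap k₀ k) a h) ∈ W) →
        (∀ h ∈ U, W.valuation (algebraMap k (AlgebraicClosure k) (evp (algebraMap k₀ k) a h)) = 1) →
        ∀ P₁ : Place k K₁, (∀ z : K₀, z ∈ P₀.ring ↔ algebraMap K₀ K₁ z ∈ P₁.ring) →
        ∀ e : Fin r → ℤ, ∃ (θ π : K₁) (q p : k[X]),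
          PData (∏ s, famp (K₁ := K₁) a (g s) ^ e s) P₁ θ π q p ∧
          (∀ c : AlgebraicClosure k, aeval c q = 0 →
            eval₂ ((algebraMap k (AlgebraicClosure k)).comp (algebraMap k₀ k)) c q₀ = 0) ∧
          (∀ i, algebraMap k (AlgebraicClosure k) (p.coeff i) ∈ W) ∧
          algebraMap k (AlgebraicClosure k) (p.coeff 0)⁻¹ ∈ W

end Pool.Agent.SE
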