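import Pool.Agent.Helper10.SE.M3
import Pool.Agent.Helper29.SE.CFB
import Pool.Agent.Helper10.SE.Defs7

/-!
# Project SE, version 5: the degrees of the section fields for all families of curves
-/

universe u

namespace Pool.Agent.SE

open VC Polynomial Pool.Agent.LT Pool.Agent.SC Pool.Agent.GC Pool.Agent.Helper91.Sect Pool.Agent
  Pool.Agent.TWX Pool.Agent.TWT Pool.Agent.TWH

/-- The value of a polynomial of the family at the parameters `a` and the point `(x, z)`. -/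
noncomputable def ev3 {k₀ k K : Type u} [Field k₀] [Field k] [Field K] [Algebra k K] {N : ℕ}
    (ι : k₀ →+* k) (a : Fin N → k) (x z : K) : (MvPolynomial (Fin N) k₀)[X][X] →+* K :=
  (ev2 x z).comp (mapRingHom (mapRingHom (evp ι a)))

/-- **Block CFVL**: the residues at the places over the roots of `f`, in local coordinates: the plane equation
`Φ(x, z₀) = 0` has a derivative which is a unit at the place. -/
def StmtCFVL : Prop :=
  ∀ {k K₁ : Type u} [Field k] [CharZero k] [Field K₁] [Algebra k K₁], IsFunctionField k K₁ →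
    ∀ {x z₀ : K₁}, Transcendental k x → IntermediateField.adjoin k {x, z₀} = ⊤ →
    ∀ {Φ : k[X][X]}, Φ.Monic → ev2 x z₀ Φ = 0 → ∀ {f : k[X]}, f ≠ 0 →
    ∀ {r : ℕ} {G G' G'' : Fin r → k[X][X]} {N : Fin r → k[X]},
    (∀ s, G s * G' s + Φ * G'' s = C (N s)) → (∀ s, N s ≠ 0) →
    (∀ s (c : AlgebraicClosure k), aeval c (N s) = 0 → aeval c f = 0) →
    ∀ P₁ : Place k K₁, x ∈ P₁.ring → ev2 x z₀ (derivative Φ) ∉ P₁.ring.nonunits →
    aeval x f ∈ P₁.ring.nonunits →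
    ∀ e : Fin r → ℤ, ∃ (l : ℕ) (π : K₁) (q p : k[X]), l ≤ (f.natDegree * Φ.natDegree) ^ 2 ∧
      PData (∏ s, ev2 x z₀ (G s) ^ e s) P₁ (x + l * z₀) π q p ∧
      (∀ c : AlgebraicClosure k, aeval c q = 0 →
        ∃ ξ ζ : AlgebraicClosure k, aeval ξ f = 0 ∧ ev2 ξ ζ Φ = 0 ∧ c = ξ + l * ζ) ∧
      ∀ W : ValuationSubring (AlgebraicClosure k),
        (∀ i, algebraMap k (AlgebraicClosure k) (f.coeff i) ∈ W) →
        W.valuation (algebraMap k (AlgebraicClosure k) f.leadingCoeff) = 1 →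
        W.valuation (algebraMap k (AlgebraicClosure k) f.discr) = 1 →
        (∀ s i, algebraMap k (AlgebraicClosure k) ((N s).coeff i) ∈ W) →
        (∀ s, W.valuation (algebraMap k (AlgebraicClosure k) (N s).leadingCoeff) = 1) →
        (∀ i j, algebraMap k (AlgebraicClosure k) ((Φ.coeff i).coeff j) ∈ W) →
        (∀ s i j, algebraMap k (AlgebraicClosure k) (((G s).coeff i).coeff j) ∈ W) →
        (∀ s i j, algebraMap k (AlgebraicClosure k) (((G' s).coeff i).coeff j) ∈ W) →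
        (∀ s i j, algebraMap k (AlgebraicClosure k) (((G'' s).coeff i).coeff j) ∈ W) →
        (∀ ψ : P₁.ring →+* AlgebraicClosure k, ResMap P₁ ψ → ∀ z : P₁.ring,
          (z : K₁) = ev2 x z₀ (derivative Φ) → W.valuation (ψ z) = 1) →
        (∀ i, algebraMap k (AlgebraicClosure k) (p.coeff i) ∈ W) ∧
          algebraMap k (AlgebraicClosure k) (p.coeff 0)⁻¹ ∈ W

/-- **Block LC**: local coordinates at a place. -/
def StmtLC : Prop :=
  ∀ {κ L : Type u} [Field κ] [CharZero κ] [Field L] [Algebra κ L], IsFunctionField κ L →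
    ∀ P₀ : Place κ L, ∃ (x z₀ : L) (Φ : κ[X][X]), Transcendental κ x ∧
      IntermediateField.adjoin κ {x, z₀} = ⊤ ∧ Φ.Monic ∧ Irreducible Φ ∧ ev2 x z₀ Φ = 0 ∧
      x ∈ P₀.ring ∧ ev2 x z₀ (derivative Φ) ∉ P₀.ring.nonunits

/-- **Block CERT**: finitely many conditions such that one of them holds in each valuation ring. -/
def StmtCert : Prop :=
  ∀ {κ L : Type u} [Field κ] [Field L] [Algebra κ L] {n : ℕ} {y : Fin n → Fin 2 → L},
    (∀ i j, y i j ≠ 0) →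
    (∀ O : ValuationSubring L, (∀ c : κ, algebraMap κ L c ∈ O) → ∃ i, ∀ j, y i j ∈ O) →
    ∀ c : Fin n → Fin 2, ∃ Q : MvPolynomial (Fin n) κ, MvPolynomial.constantCoeff Q = 0 ∧
      MvPolynomial.aeval (fun i => (y i (c i))⁻¹) Q = 1

/-- The field of rational functions of the parameters. -/
abbrev PF (k₀ : Type u) [Field k₀] (N : ℕ) : Type u := FractionRing (MvPolynomial (Fin N) k₀)

/-- The value of a polynomial of the family at the generic parameters and the point `(X₀, Z₀)`. -/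
noncomputable def evg {k₀ L : Type u} [Field k₀] [Field L] {N : ℕ} [Algebra (PF k₀ N) L] (X₀ Z₀ : L) :
    (MvPolynomial (Fin N) k₀)[X][X] →+* L :=
  (ev2 X₀ Z₀).comp (mapRingHom (mapRingHom (algebraMap (MvPolynomial (Fin N) k₀) (PF k₀ N))))

/-- A specialisation `sp : B → K₁` over the evaluation at the parameters `a`, where `B` is a subring of `L` which
contains `k₀[A]`. -/
structure Spec {k₀ k K₁ L : Type u} [Field k₀] [Field k] [Field K₁] [Algebra k K₁] [Field L] {N : ℕ}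
    [Algebra (PF k₀ N) L] (ι : k₀ →+* k) (a : Fin N → k) (B : Subring L) (sp : B →+* K₁) :
    Prop where
  mem : ∀ h : MvPolynomial (Fin N) k₀,
    algebraMap (PF k₀ N) L (algebraMap (MvPolynomial (Fin N) k₀) (PF k₀ N) h) ∈ B
  map : ∀ h : MvPolynomial (Fin N) k₀, sp ⟨_, mem h⟩ = algebraMap k K₁ (evp ι a h)

/-- **Block SP**: the generic member `L` of a family of curves, and its specialisations. -/
def StmtSP : Prop :=
  ∀ {k₀ : Type u} [Field k₀] [CharZero k₀] {N : ℕ} {M : (MvPolynomial (Fin N) k₀)[X][X]},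
    Irreducible M → 0 < M.natDegree →
    ∃ (L : Type u) (_ : Field L) (_ : Algebra (PF k₀ N) L) (X₀ Z₀ : L),
      IsFunctionField (PF k₀ N) L ∧ Transcendental (PF k₀ N) X₀ ∧
      IntermediateField.adjoin (PF k₀ N) {X₀, Z₀} = ⊤ ∧
      (∀ p : (MvPolynomial (Fin N) k₀)[X][X], evg X₀ Z₀ p = 0 ↔ M ∣ p) ∧
      ∀ T : Finset L, ∃ (B : Subring L) (U : Finset (MvPolynomial (Fin N) k₀)),
        (∀ t ∈ T, t ∈ B ∧ t⁻¹ ∈ B) ∧ X₀ ∈ B ∧ Z₀ ∈ B ∧ 0 ∉ U ∧
        ∀ (k K₁ : Type u) [Field k] [Field K₁] [Algebra k K₁] (ι : k₀ →+* k) (a : Fin N → k)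
          (x z : K₁), Transcendental k x → ev3 ι a x z M = 0 → (∀ h ∈ U, evp ι a h ≠ 0) →
          ∃ sp : B →+* K₁, Spec ι a B sp ∧ (∀ h, sp ⟨X₀, h⟩ = x) ∧ ∀ h, sp ⟨Z₀, h⟩ = z

/-- **Block CHART**: the places in the domain of a chart `(x', z')`. -/
def StmtChart : Prop :=
  ∀ {k₀ : Type u} [Field k₀] [CharZero k₀] {N r : ℕ} {L : Type u} [Field L]
    [Algebra (PF k₀ N) L] {X₀ Z₀ : L}, IsFunctionField (PF k₀ N) L → Transcendental (PF k₀ N) X₀ →
    IntermediateField.adjoin (PF k₀ N) {X₀, Z₀} = ⊤ →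
    ∀ {P : Fin r → (MvPolynomial (Fin N) k₀)[X][X]}, (∀ s, evg X₀ Z₀ (P s) ≠ 0) →
    ∀ {ff₁ : (MvPolynomial (Fin N) k₀)[X]}, ff₁ ≠ 0 →
    ∀ {x' z' : L} {Φ : (PF k₀ N)[X][X]}, Transcendental (PF k₀ N) x' →
    IntermediateField.adjoin (PF k₀ N) {x', z'} = ⊤ → Φ.Monic → Irreducible Φ → ev2 x' z' Φ = 0 →
    ∃ (T : Finset L) (fR : (MvPolynomial (Fin N) k₀)[X]) (E U : Finset (MvPolynomial (Fin N) k₀)),
      x' ∈ T ∧ ev2 x' z' (derivative Φ) ∈ T ∧ fR ≠ 0 ∧ U ⊆ E ∧ 0 ∉ U ∧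
      ∀ (k K₁ : Type u) [Field k] [CharZero k] [Field K₁] [Algebra k K₁], IsFunctionField k K₁ →
        ∀ (ι : k₀ →+* k) (a : Fin N → k) (x z : K₁), Transcendental k x →
        IntermediateField.adjoin k {x, z} = ⊤ →
        ∀ (B : Subring L) (sp : B →+* K₁), Spec ι a B sp → (∀ t ∈ T, t ∈ B ∧ t⁻¹ ∈ B) →
        ∀ (hX : X₀ ∈ B) (hZ : Z₀ ∈ B), sp ⟨X₀, hX⟩ = x → sp ⟨Z₀, hZ⟩ = z →
        (∀ h ∈ U, evp ι a h ≠ 0) →
        ∀ P₁ : Place k K₁, (x⁻¹ ∈ P₁.ring.nonunits ∨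
          aeval x (ff₁.map (evp ι a)) ∈ P₁.ring.nonunits) →
        (∀ h, sp ⟨x', h⟩ ∈ P₁.ring) →
        (∀ h, sp ⟨ev2 x' z' (derivative Φ), h⟩ ∉ P₁.ring.nonunits) →
        ∀ W : ValuationSubring (AlgebraicClosure k),
        (∀ h ∈ E, algebraMap k (AlgebraicClosure k) (evp ι a h) ∈ W) →
        (∀ h ∈ U, W.valuation (algebraMap k (AlgebraicClosure k) (evp ι a h)) = 1) →
        ∀ e : Fin r → ℤ, ∃ (θ π : K₁) (q p : k[X]),
          PData (∏ s, ev3 ι a x z (P s) ^ e s) P₁ θ π q p ∧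
          (∀ c : AlgebraicClosure k, aeval c q = 0 → aeval c (fR.map (evp ι a)) = 0) ∧
          (∀ i, algebraMap k (AlgebraicClosure k) (p.coeff i) ∈ W) ∧
          algebraMap k (AlgebraicClosure k) (p.coeff 0)⁻¹ ∈ W

/-- **Block CFM**: the core statement for families of curves (compare `StmtCF`). -/
def StmtCFM : Prop :=
  ∀ {k₀ : Type u} [Field k₀] [CharZero k₀] {N r : ℕ} {M : (MvPolynomial (Fin N) k₀)[X][X]},
    Irreducible M → 0 < M.natDegree →
    ∀ {P : Fin r → (MvPolynomial (Fin N) k₀)[X][X]}, (∀ s, ¬ M ∣ P s) →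
    ∃ (ff : (MvPolynomial (Fin N) k₀)[X]) (E U : Finset (MvPolynomial (Fin N) k₀)),
      1 ≤ ff.natDegree ∧ ff.leadingCoeff ∈ U ∧ ff.discr ∈ U ∧ (∀ i, ff.coeff i ∈ E) ∧ U ⊆ E ∧ 0 ∉ U ∧
      ∀ (F k K₁ : Type u) [Field F] [Field k] [Field K₁] [Algebra F k] [Algebra k₀ k] [Algebra k K₁],
        (∃ S : Finset F, Subfield.closure (S : Set F) = ⊤) →
        ∀ t : k, FiniteDimensional (IntermediateField.adjoin F {t}) k →
        ∀ x z : K₁, Transcendental k x → IntermediateField.adjoin k {x, z} = ⊤ →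
        ∀ (a : Fin N → k), ev3 (algebraMap k₀ k) a x z M = 0 → ∀ v : k, v ≠ 0 →
        ∀ W : ValuationSubring (AlgebraicClosure k),
        PlP (F := F) ff E U (algebraMap k₀ k) a v W → ∀ e : Fin r → ℤ,
          DegTwist (∏ s, ev3 (algebraMap k₀ k) a x z (P s) ^ e s) v

end Pool.Agent.SE
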