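import Pool.Agent.Helper10.SE.D2
import Pool.Agent.Helper10.SE.M8
import Pool.Agent.Helper34.SE.LC
import Pool.Agent.Helper34.SE.Cert
import Pool.Agent.Helper10.SE.SP
import Pool.Agent.Helper5.SE.Chart
import Pool.Agent.Helper88.SE.CFVL
import Pool.Agent.Helper10.SE.TP
import Pool.Agent.Helper34.SE.T1
import Pool.Agent.Helper54.SE.EP
import Pool.Agent.Helper10.SE.H2E

/-!
# Project SE, version 5: all blocks
-/

universe u

namespace Pool.Agent.SE

theorem cfmF : StmtCFM.{u} := cfm lc cert sp (chart cfvl)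

theorem tpF : StmtTP.{u} := tp t1

theorem epF : StmtEP.{u} := ep

theorem h2F : StmtH2E.{u} := h2e

end Pool.Agent.SE
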