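import Pool.Agent.Helper10.TWX.X1

/-!
# Project SE, block C1: the places of `k(x)`
-/

universe u

set_option linter.unusedSectionVars false

namespace Pool.Agent.SE

open VC Polynomial Pool.Agent.LT Pool.Agent.SC Pool.Agent.GC Pool.Agent.Helper91.Sect Pool.Agent
  Pool.Agent.TW Pool.Agent.TWU Pool.Agent.TWX

section

variable {k K₁ : Type u} [Field k] [Field K₁] [Algebra k K₁] {x : K₁}
  (hx : Transcendental k x) (hgen : IntermediateField.adjoin k {x} = ⊤)

include hx in
theorem aeval_ne {p : k[X]} (hp : p ≠ 0) : aeval x p ≠ 0 := fun h =>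
  hp ((transcendental_iff.1 hx) p h)

include hx hgen in
/-- reduced fractions -/
theorem exists_frac (z : K₁) : ∃ a b : k[X], IsCoprime a b ∧ b ≠ 0 ∧ z * aeval x b = aeval x a := by
  classical
  obtain ⟨r, s, hrs⟩ := (IntermediateField.mem_adjoin_simple_iff k z).1 (by
    rw [hgen]
    trivial)
  by_cases hs : s = 0
  · refine ⟨0, 1, isCoprime_zero_left.2 isUnit_one, one_ne_zero, ?_⟩
    rw [hrs, hs, map_zero, div_zero, zero_mul]
  · obtain ⟨a, ha⟩ := EuclideanDomain.gcd_dvd_left r s
    obtain ⟨b, hb⟩ := EuclideanDomain.gcd_dvd_right r s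
    set g := EuclideanDomain.gcd r s with hg
    have hg0 : g ≠ 0 := by
      rw [hg, Ne, EuclideanDomain.gcd_eq_zero_iff]
      exact fun h => hs h.2
    have hb0 : b ≠ 0 := by
      rintro rfl
      rw [mul_zero] at hb
      exact hs hb
    refine ⟨a, b, ?_, hb0, ?_⟩
    · have h1 := EuclideanDomain.gcd_eq_gcd_ab r s
      rw [← hg] at h1
      refine ⟨EuclideanDomain.gcdA r s, EuclideanDomain.gcdB r s, ?_⟩
      apply mul_left_cancel₀ hg0
      calc g * (EuclideanDomain.gcdA r s * a + EuclideanDomain.gcdB r s * b)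
          = (g * a) * EuclideanDomain.gcdA r s + (g * b) * EuclideanDomain.gcdB r s := by ring
        _ = r * EuclideanDomain.gcdA r s + s * EuclideanDomain.gcdB r s := by rw [← ha, ← hb]
        _ = g * 1 := by rw [← h1, mul_one]
    · have hgx : aeval x g ≠ 0 := aeval_ne hx hg0
      have hbx : aeval x b ≠ 0 := aeval_ne hx hb0
      have h1 : aeval x r = aeval x g * aeval x a := by rw [← map_mul, ← ha]
      have h2 : aeval x s = aeval x g * aeval x b := by rw [← map_mul, ← hb]
      rw [hrs, h1, h2]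
      field_simp

theorem isFF (hx : Transcendental k x) (hgen : IntermediateField.adjoin k {x} = ⊤) :
    IsFunctionField k K₁ := by
  refine ⟨x, hx, ?_⟩
  rw [hgen]
  exact Module.Finite.of_surjective (Algebra.linearMap (⊤ : IntermediateField k K₁) K₁)
    fun y => ⟨⟨y, trivial⟩, rfl⟩

end

section finite

variable {k K₁ : Type u} [Field k] [CharZero k] [Field K₁] [Algebra k K₁] {x : K₁}
  (hx : Transcendental k x) (hgen : IntermediateField.adjoin k {x} = ⊤) {P : Place k K₁}
  (hxP : x ∈ P.ring) {h : k[X]} (hh : Irreducible h) (hhx : aeval x h ∈ P.ring.nonunits)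

include hx hgen hxP hh hhx

/-- the denominator of an element of the ring of the place is a unit -/
theorem den_unit {z : K₁} {a b : k[X]} (hab : IsCoprime a b) (hz : z * aeval x b = aeval x a)
    (hzP : z ∈ P.ring) : ¬ h ∣ b := by
  intro hb
  have h1 : aeval x b ∈ P.ring.nonunits := (val_iff_dvd hxP hh hhx b).2 hb
  have h2 : aeval x a ∈ P.ring.nonunits := by
    rw [← hz, mul_comm]
    exact nonunit_mul h1 hzP
  have h3 : h ∣ a := (val_iff_dvd hxP hh hhx a).1 h2
  exact hh.not_isUnit (hab.isUnit_of_dvd' h3 hb)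

theorem hall_x : ∀ z ∈ P.ring, ∃ p : k[X], z - aeval x p ∈ P.ring.nonunits := by
  intro z hz
  obtain ⟨a, b, hab, hb0, hzab⟩ := exists_frac hx hgen z
  have hb := den_unit hx hgen hxP hh hhx hab hzab hz
  obtain ⟨u, v, huv⟩ := hh.coprime_iff_not_dvd.2 hb
  refine ⟨a * v, ?_⟩
  have h1 : z - aeval x (a * v) = aeval x h * (aeval x u * z) := by
    have h2 : aeval x u * aeval x h + aeval x v * aeval x b = 1 := by
      rw [← map_mul, ← map_mul, ← map_add, huv, map_one]
    rw [map_mul, ← hzab]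
    linear_combination (-z) * h2
  rw [h1]
  exact nonunit_mul hhx (P.ring.mul_mem _ _ (aeval_mem_ring P hxP u) hz)

theorem ord_h : ord P.ring (aeval x h) = 1 := by
  have hF := isFF hx hgen
  have hh0 : aeval x h ≠ 0 := aeval_ne hx hh.ne_zero
  have h1 : 0 < ord P.ring (aeval x h) := (nonunit_iff_ord hF P hh0).1 hhx
  obtain ⟨π, hπ0, hπ1⟩ := exists_unif hF P
  have hπn : π ∈ P.ring.nonunits := (nonunit_iff_ord hF P hπ0).2 (by omega)
  have hπP : π ∈ P.ring := P.ring.nonunits_subset hπn
  obtain ⟨a, b, hab, hb0, hzab⟩ := exists_frac hx hgen π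
  have hb := den_unit hx hgen hxP hh hhx hab hzab hπP
  have hbP : aeval x b ∉ P.ring.nonunits := fun h2 => hb ((val_iff_dvd hxP hh hhx b).1 h2)
  have hb0' : aeval x b ≠ 0 := aeval_ne hx hb0
  have ha : aeval x a ∈ P.ring.nonunits := by
    rw [← hzab]
    exact nonunit_mul hπn (aeval_mem_ring P hxP b)
  obtain ⟨a', ha'⟩ := (val_iff_dvd hxP hh hhx a).1 ha
  have ha0 : a ≠ 0 := by
    rintro rfl
    rw [map_zero] at hzab
    exact (mul_ne_zero hπ0 hb0') hzab
  have ha'0 : a' ≠ 0 := by
    rintro rfl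
    rw [mul_zero] at ha'
    exact ha0 ha'
  have ho1 : ord P.ring (aeval x a) = ord P.ring (aeval x h) + ord P.ring (aeval x a') := by
    rw [ha', map_mul, ord_mul' hF P hh0 (aeval_ne hx ha'0)]
  have ho2 : ord P.ring (aeval x a) = 1 + ord P.ring (aeval x b) := by
    rw [← hzab, ord_mul' hF P hπ0 hb0', hπ1]
  have ho3 : 0 ≤ ord P.ring (aeval x a') :=
    (mem_iff_ord hF P (aeval_ne hx ha'0)).1 (aeval_mem_ring P hxP a')
  have ho4 : ord P.ring (aeval x b) ≤ 0 := by
    by_contra h2
    exact hbP ((nonunit_iff_ord hF P hb0').2 (by omega))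
  omega

theorem ord_notDvd {p : k[X]} (hp : ¬ h ∣ p) : ord P.ring (aeval x p) = 0 := by
  have hF := isFF hx hgen
  have hp0 : p ≠ 0 := by
    rintro rfl
    exact hp (dvd_zero h)
  have hp0' : aeval x p ≠ 0 := aeval_ne hx hp0
  have h1 : 0 ≤ ord P.ring (aeval x p) := (mem_iff_ord hF P hp0').1 (aeval_mem_ring P hxP p)
  by_contra h2
  exact hp ((val_iff_dvd hxP hh hhx p).1 ((nonunit_iff_ord hF P hp0').2 (by omega)))

end finite

section infty

variable {k K₁ : Type u} [Field k] [CharZero k] [Field K₁] [Algebra k K₁] {x : K₁}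

theorem transc_inv (hx : Transcendental k x) : Transcendental k x⁻¹ :=
  fun h => hx (by rw [← inv_inv x]; exact h.inv)

theorem gen_inv (hgen : IntermediateField.adjoin k {x} = ⊤) : IntermediateField.adjoin k {x⁻¹} = ⊤ := by
  rw [eq_top_iff, ← hgen, IntermediateField.adjoin_simple_le_iff]
  have h1 := IntermediateField.inv_mem _ (IntermediateField.mem_adjoin_simple_self k x⁻¹)
  rwa [inv_inv] at h1

theorem ord_x {P : Place k K₁} (hx : Transcendental k x) (hgen : IntermediateField.adjoin k {x} = ⊤)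
    (hxP : x⁻¹ ∈ P.ring.nonunits) : ord P.ring x = -1 := by
  have h1 := ord_h (transc_inv hx) (gen_inv hgen) (P.ring.nonunits_subset hxP) irreducible_X (by
    rw [aeval_X]
    exact hxP)
  rw [aeval_X, ord_inv' (isFF hx hgen) P (by rintro rfl; exact hx isAlgebraic_zero)] at h1
  omega

end infty

end Pool.Agent.SE
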