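import Pool.Agent.Helper10.SE.R3

/-!
# Project SE: families on the projective line
-/

universe u

set_option linter.unusedSectionVars false

namespace Pool.Agent.SE

open VC Polynomial Pool.Agent.LT Pool.Agent.SC Pool.Agent.GC Pool.Agent.Helper91.Sect Pool.Agent
  Pool.Agent.TWX Pool.Agent.TWT

/-- **The polynomials of a family on the projective line.** -/
theorem exists_ffP {k₀ K₀ : Type u} [Field k₀] [CharZero k₀] [Field K₀] [Algebra k₀ K₀] {x : K₀}
    (hx : Transcendental k₀ x) (hgen : IntermediateField.adjoin k₀ {x} = ⊤) {N r : ℕ}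
    (g : Fin r → MvPolynomial (Fin N) K₀) (hg : ∀ s, g s ≠ 0) :
    ∃ (ff : (MvPolynomial (Fin N) k₀)[X]) (P : Fin (r + 1) → (MvPolynomial (Fin N) k₀)[X])
      (b : MvPolynomial (Fin N) k₀) (M : ℕ),
      1 ≤ ff.natDegree ∧ ff.discr ≠ 0 ∧ (∀ s, P s ≠ 0) ∧ b ≠ 0 ∧
      (∀ s, P s ∣ C b * ff ^ M) ∧ ∀ s, Th x N (P s.succ) = Th x N (P 0) * g s := by
  classical
  obtain ⟨D, n, hD, hn⟩ := exists_num hx g (fun s ν => by rw [hgen]; trivial)
  have hCinj : Function.Injective (MvPolynomial.C : k₀ →+* MvPolynomial (Fin N) k₀) :=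
    MvPolynomial.C_injective _ _
  have hD0 : D.map (MvPolynomial.C : k₀ →+* MvPolynomial (Fin N) k₀) ≠ 0 :=
    (Polynomial.map_ne_zero_iff hCinj).2 hD
  have hn0 : ∀ s, n s ≠ 0 := by
    intro s h0
    have h1 := hn s
    rw [h0, map_zero] at h1
    refine mul_ne_zero ?_ (hg s) h1.symm
    rw [Ne, MvPolynomial.C_eq_zero]
    exact fun h0 => hD ((transcendental_iff.1 hx) D h0)
  set P : Fin (r + 1) → (MvPolynomial (Fin N) k₀)[X] := Fin.cons (D.map MvPolynomial.C) n with hP
  have hP0 : ∀ s, P s ≠ 0 := by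
    intro s
    refine Fin.cases ?_ (fun s => ?_) s
    · rw [hP, Fin.cons_zero]
      exact hD0
    · rw [hP, Fin.cons_succ]
      exact hn0 s
  have hpr : ∏ s, P s ≠ 0 := Finset.prod_ne_zero_iff.2 fun s _ => hP0 s
  obtain ⟨ff, R, b, M, hb, hffd, hdisc, hrad⟩ := exists_rad (Q := X * ∏ s, P s) (by
    rw [natDegree_mul X_ne_zero hpr, natDegree_X]
    omega)
  refine ⟨ff, P, b, M, hffd, hdisc, hP0, hb, fun s => ?_, fun s => ?_⟩
  · rw [← hrad]
    exact dvd_mul_of_dvd_left (dvd_mul_of_dvd_right (Finset.dvd_prod_of_mem _ (Finset.mem_univ s)) _) _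
  · rw [hP, Fin.cons_succ, Fin.cons_zero, hn, Th_map]

/-- the data of a family on the projective line -/
structure FamP {k₀ K₀ : Type u} [Field k₀] [Field K₀] [Algebra k₀ K₀] {N r : ℕ} (x : K₀)
    (g : Fin r → MvPolynomial (Fin N) K₀) (ff : (MvPolynomial (Fin N) k₀)[X])
    (P : Fin (r + 1) → (MvPolynomial (Fin N) k₀)[X]) (b : MvPolynomial (Fin N) k₀) (M : ℕ)
    (U : Finset (MvPolynomial (Fin N) k₀)) : Prop where
  deg : 1 ≤ ff.natDegree
  lc : ff.leadingCoeff ∈ U
  discr : ff.discr ∈ U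
  lcP : ∀ s, (P s).leadingCoeff ∈ U
  b_mem : b ∈ U
  dvd : ∀ s, P s ∣ C b * ff ^ M
  num : ∀ s, Th x N (P s.succ) = Th x N (P 0) * g s
  zero : 0 ∉ U
  gen : IntermediateField.adjoin k₀ {x} = ⊤

theorem exists_famP {k₀ K₀ : Type u} [Field k₀] [CharZero k₀] [Field K₀] [Algebra k₀ K₀] {x : K₀}
    (hx : Transcendental k₀ x) (hgen : IntermediateField.adjoin k₀ {x} = ⊤) {N r : ℕ}
    (g : Fin r → MvPolynomial (Fin N) K₀) (hg : ∀ s, g s ≠ 0) :
    ∃ (ff : (MvPolynomial (Fin N) k₀)[X]) (P : Fin (r + 1) → (MvPolynomial (Fin N) k₀)[X])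
      (b : MvPolynomial (Fin N) k₀) (M : ℕ) (U : Finset (MvPolynomial (Fin N) k₀)),
      FamP x g ff P b M U := by
  classical
  obtain ⟨ff, P, b, M, h1, h2, h3, h4, h5, h6⟩ := exists_ffP hx hgen g hg
  refine ⟨ff, P, b, M, {b, ff.leadingCoeff, ff.discr} ∪ Finset.univ.image fun s => (P s).leadingCoeff,
    ⟨h1, by simp, by simp, fun s => Finset.mem_union_right _ (Finset.mem_image_of_mem
      (fun s => (P s).leadingCoeff) (Finset.mem_univ s)), by simp, h5, h6, ?_, hgen⟩⟩
  intro h0
  rcases Finset.mem_union.1 h0 with h0 | h0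
  · simp only [Finset.mem_insert, Finset.mem_singleton] at h0
    rcases h0 with h0 | h0 | h0
    · exact h4 h0.symm
    · exact leadingCoeff_ne_zero.2 (ne_zero_of_natDegree_gt (n := 0) (by omega)) h0.symm
    · exact h2 h0.symm
  · obtain ⟨s, -, h0⟩ := Finset.mem_image.1 h0
    exact leadingCoeff_ne_zero.2 (h3 s) h0

/-- **The degrees for a member of a family with a good place.** -/
theorem deg_of_plF (hP1 : StmtP1.{u}) {k₀ K₀ : Type u} [Field k₀] [CharZero k₀] [Field K₀] [Algebra k₀ K₀]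
    {N r : ℕ} {x : K₀} {g : Fin r → MvPolynomial (Fin N) K₀} {ff : (MvPolynomial (Fin N) k₀)[X]}
    {P : Fin (r + 1) → (MvPolynomial (Fin N) k₀)[X]} {b : MvPolynomial (Fin N) k₀} {M : ℕ}
    {U : Finset (MvPolynomial (Fin N) k₀)} (hf : FamP x g ff P b M U)
    {F k K₁ : Type u} [Field F] [Field k] [Field K₁] [Algebra F k] [Algebra k₀ k] [Algebra k K₁]
    [Algebra K₀ K₁] [Algebra k₀ K₁] [IsScalarTower k₀ k K₁] [IsScalarTower k₀ K₀ K₁]
    (hF : ∃ S : Finset F, Subfield.closure (S : Set F) = ⊤)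
    {t : k} (ht : FiniteDimensional (IntermediateField.adjoin F {t}) k)
    (hgen : IntermediateField.adjoin k (Set.range (algebraMap K₀ K₁)) = ⊤)
    (htr : ∃ y : K₀, Transcendental k (algebraMap K₀ K₁ y))
    {c : Option (Fin N) → k} (hc : c none ≠ 0) {W : ValuationSubring (AlgebraicClosure k)}
    (hW : PlF (F := F) ff U (algebraMap k₀ k) c W) (e : Fin r → ℤ) :
    DegTwist (∏ s, fam (K₁ := K₁) c (g s) ^ e s) (c none) := by
  have hk0 : CharZero k := charZero_of_injective_algebraMap (algebraMap k₀ k).injective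
  have hF0 : CharZero F := by
    refine ⟨fun a b hab => ?_⟩
    have h1 := congrArg (algebraMap F k) hab
    rw [map_natCast, map_natCast] at h1
    exact Nat.cast_injective h1
  set ev := evc (algebraMap k₀ k) c with hev
  have hU : ∀ h ∈ U, ev h ≠ 0 := by
    intro h hh h0
    have h1 := hW.unit h hh
    rw [← hev, h0, map_zero, map_zero] at h1
    exact zero_ne_one h1
  -- the generator
  set x' := algebraMap K₀ K₁ x with hx'
  have hgen' : IntermediateField.adjoin k {x'} = ⊤ := by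
    have h1 : ∀ a : K₀, algebraMap K₀ K₁ a ∈ IntermediateField.adjoin k {x'} := by
      have h2 : (IntermediateField.adjoin k₀ {x}).toSubfield ≤
          (IntermediateField.adjoin k {x'}).toSubfield.comap (algebraMap K₀ K₁) := by
        rw [IntermediateField.adjoin_toSubfield, Subfield.closure_le]
        rintro _ (⟨c, rfl⟩ | hz)
        · change algebraMap K₀ K₁ (algebraMap k₀ K₀ c) ∈ IntermediateField.adjoin k {x'}
          rw [← IsScalarTower.algebraMap_apply, IsScalarTower.algebraMap_apply k₀ k K₁]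
          exact IntermediateField.algebraMap_mem _ _
        · rw [Set.mem_singleton_iff.1 hz]
          exact IntermediateField.mem_adjoin_simple_self k x'
      rw [hf.gen] at h2
      exact fun a => h2 (show a ∈ (⊤ : IntermediateField k₀ K₀) from trivial)
    rw [eq_top_iff, ← hgen, IntermediateField.adjoin_le_iff]
    rintro _ ⟨a, rfl⟩
    exact h1 a
  have htx : Transcendental k x' := by
    intro h0
    obtain ⟨y, hy⟩ := htr
    apply hy
    have h1 : algebraMap K₀ K₁ y ∈ IntermediateField.adjoin k {x'} := by rw [hgen']; trivial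
    have h2 : Algebra.IsAlgebraic k (IntermediateField.adjoin k {x'}) :=
      IntermediateField.isAlgebraic_adjoin_simple h0.isIntegral
    exact (isAlgebraic_algebraMap_iff
      (algebraMap (IntermediateField.adjoin k {x'}) K₁).injective).2 (h2.isAlgebraic ⟨_, h1⟩)
  have hlcff := hU _ hf.lc
  have hPs0 : ∀ s, (P s).map ev ≠ 0 := by
    intro s h0
    have h1 : ((P s).map ev).coeff (P s).natDegree = 0 := by rw [h0, coeff_zero]
    rw [coeff_map] at h1
    exact hU _ (hf.lcP s) h1
  have hroot : ∀ s (β : AlgebraicClosure k), aeval β ((P s).map ev) = 0 → aeval β (ff.map ev) = 0 := by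
    intro s β hβ
    obtain ⟨R, hR⟩ := hf.dvd s
    have h1 : (C b * ff ^ M).map ev = (P s * R).map ev := by rw [hR]
    rw [Polynomial.map_mul, Polynomial.map_mul, Polynomial.map_pow, Polynomial.map_C] at h1
    have h2 := congrArg (aeval β) h1
    rw [map_mul, map_mul, hβ, zero_mul, aeval_C, map_pow] at h2
    have h3 : algebraMap k (AlgebraicClosure k) (ev b) ≠ 0 :=
      (_root_.map_ne_zero _).2 (hU _ hf.b_mem)
    by_contra h4
    exact pow_ne_zero M h4 ((mul_eq_zero.1 h2).resolve_left h3)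
  have hdeg := hP1 hF t ht (c none) hc (ff.map ev)
    (by rw [natDegree_map_of_leadingCoeff_ne_zero ev hlcff]; exact hf.deg)
    (separable_map_of_discr ev ff (by have := hf.deg; omega) hlcff (hU _ hf.discr)) W hW.const hW.coef
    (by rw [leadingCoeff_map_of_leadingCoeff_ne_zero ev hlcff]; exact hW.unit _ hf.lc)
    (by rw [discr_map_of_lc ev ff (by have := hf.deg; omega) hlcff]; exact hW.unit _ hf.discr)
    hW.v_mem hW.gen hW.move (r + 1) (fun s => (P s).map ev) hPs0
    (fun s => by rw [leadingCoeff_map_of_leadingCoeff_ne_zero ev (hU _ (hf.lcP s))]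
                 exact hW.unit _ (hf.lcP s)) hroot K₁ x' htx hgen'
    (Fin.cons (- ∑ s, e s) e)
  have hnum : ∀ s : Fin r, aeval x' ((P s.succ).map ev) =
      aeval x' ((P 0).map ev) * fam (K₁ := K₁) c (g s) := by
    intro s
    rw [← famH_Th, ← famH_Th, hf.num, map_mul]
    rfl
  have h0 : aeval x' ((P 0).map ev) ≠ 0 := fun h0 => hPs0 0 ((transcendental_iff.1 htx) _ h0)
  have hprod : ∏ s, aeval x' ((P s).map ev) ^ (Fin.cons (- ∑ s, e s) e : Fin (r + 1) → ℤ) s =
      ∏ s, fam (K₁ := K₁) c (g s) ^ e s := by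
    rw [Fin.prod_univ_succ, Fin.cons_zero]
    simp only [Fin.cons_succ, hnum, mul_zpow]
    rw [Finset.prod_mul_distrib, ← mul_assoc]
    have h1 : aeval x' ((P 0).map ev) ^ (- ∑ s, e s) * ∏ s, aeval x' ((P 0).map ev) ^ e s = 1 := by
      have h2 : ∀ T : Finset (Fin r), ∏ s ∈ T, aeval x' ((P 0).map ev) ^ e s =
          aeval x' ((P 0).map ev) ^ (∑ s ∈ T, e s) := by
        classical
        intro T
        induction T using Finset.induction_on with
        | empty => simp
        | insert s T hs ih => rw [Finset.prod_insert hs, Finset.sum_insert hs, ih, zpow_add₀ h0]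
      rw [h2, zpow_neg]
      exact inv_mul_cancel₀ (zpow_ne_zero _ h0)
    rw [h1, one_mul]
  rw [← hprod]
  exact hdeg

end Pool.Agent.SE
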