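import Pool.Agent.Helper10.SE.G2
import Pool.Agent.Helper10.SE.R5
import Pool.Agent.Helper10.TWX.X16

/-!
# Project SE: the degrees for families on the projective line
-/

universe u

set_option linter.unusedSectionVars false

namespace Pool.Agent.SE

open VC Polynomial Pool.Agent.LT Pool.Agent.SC Pool.Agent.GC Pool.Agent.Helper91.Sect Pool.Agent
  Pool.Agent.TW Pool.Agent.TWH Pool.Agent.TWU Pool.Agent.TWX Pool.Agent.TWT

/-- Some member of a family has a section over a field of a wrong degree. -/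
def BadDegF {k₀ K₀ : Type u} [Field k₀] [Field K₀] [Algebra k₀ K₀] {N r : ℕ}
    (g : Fin r → MvPolynomial (Fin N) K₀) (k' : Type u) [Field k'] (ι : k₀ →+* k')
    (c : Option (Fin N) → k') : Prop :=
  ∃ (K₁ : Type u) (_ : Field K₁) (_ : Algebra k' K₁) (τ : K₀ →+* K₁) (e : Fin r → ℤ),
    (∀ c : k₀, τ (algebraMap k₀ K₀ c) = algebraMap k' K₁ (ι c)) ∧
    IntermediateField.adjoin k' (Set.range τ) = ⊤ ∧
    (∃ y : K₀, Transcendental k' (τ y)) ∧
    ¬ DegTwist (∏ s, MvPolynomial.eval₂ τ (fun q => algebraMap k' K₁ (c (some q))) (g s) ^ e s)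
      (c none)

/-- **The key statement for the degrees of families on the projective line.** -/
theorem keyT_degF (hP1 : StmtP1.{u}) (hT2 : StmtT2.{u}) {k₀ K₀ : Type u} [Field k₀] [CharZero k₀]
    [Field K₀] [Algebra k₀ K₀] {x : K₀} (hx : Transcendental k₀ x)
    (hgen : IntermediateField.adjoin k₀ {x} = ⊤) {N r : ℕ} {g : Fin r → MvPolynomial (Fin N) K₀}
    (hg : ∀ s, g s ≠ 0) : KeyT k₀ (I := Option (Fin N)) (BadDegF g) := by
  obtain ⟨ff, P, b, M, U, hf⟩ := exists_famP hx hgen g hg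
  have hff : ff ≠ 0 := ne_zero_of_natDegree_gt (n := 0) (by have := hf.deg; omega)
  refine @hT2 k₀ _ N (BadDegF g) ff U hff hf.zero ?_
  intro F k _ _ _ ι hF t hfin c hc W hW hbad
  obtain ⟨K₁, _, _, τ, e, hτ, hgenK, htr, hno⟩ := hbad
  apply hno
  let i1 : Algebra k₀ k := ι.toAlgebra
  let i2 : Algebra K₀ K₁ := τ.toAlgebra
  let i3 : Algebra k₀ K₁ := (τ.comp (algebraMap k₀ K₀)).toAlgebra
  have s1 : IsScalarTower k₀ k K₁ := IsScalarTower.of_algebraMap_eq hτ
  have s2 : IsScalarTower k₀ K₀ K₁ := IsScalarTower.of_algebraMap_eq fun _ => rfl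
  exact deg_of_plF hP1 hf hF hfin hgenK htr hc hW e

/-- **The degrees for families on the projective line, outside a thin set.** -/
theorem degs_thinF (hP1 : StmtP1.{u}) (hT2 : StmtT2.{u}) {F₀ k₀ K₀ : Type u} [Field F₀]
    [CharZero F₀] [Field k₀] [Algebra F₀ k₀] [Field K₀] [Algebra k₀ K₀]
    (hk₀ : ∃ S : Finset k₀, Subfield.closure (S : Set k₀) = ⊤) {m : ℕ} {w : Fin (m + 1) → k₀}
    {i l : Fin (m + 1)} (hw : Transcendental F₀ (w i / w l)) {x : K₀} (hx : Transcendental k₀ x)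
    (hgen : IntermediateField.adjoin k₀ {x} = ⊤) {N r : ℕ} {g : Fin r → MvPolynomial (Fin N) K₀}
    (hg : ∀ s, g s ≠ 0) :
    ∃ Φ : Polynomial (MvPolynomial (Option (Fin N) × Fin (m + 1)) F₀), UT.NoRoot Φ ∧
      ∀ (F k K₁ : Type u) [Field F] [Field k] [Field K₁] [Algebra F₀ F] [Algebra F k] [Algebra k₀ k]
        [Algebra F₀ k] [IsScalarTower F₀ F k] [IsScalarTower F₀ k₀ k] [Algebra k K₁] [Algebra K₀ K₁]
        [Algebra k₀ K₁] [IsScalarTower k₀ k K₁] [IsScalarTower k₀ K₀ K₁],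
        (∃ S : Finset F, Subfield.closure (S : Set F) = ⊤) →
        IntermediateField.adjoin F (Set.range (algebraMap k₀ k)) = ⊤ →
        (∀ {n : ℕ} {x : Fin n → k₀}, AlgebraicIndependent F₀ x →
          AlgebraicIndependent F (algebraMap k₀ k ∘ x)) →
        IntermediateField.adjoin k (Set.range (algebraMap K₀ K₁)) = ⊤ →
        (∃ y : K₀, Transcendental k (algebraMap K₀ K₁ y)) →
        ∀ a : Option (Fin N) × Fin (m + 1) → F,
          (∀ x : F, Polynomial.eval₂ (UT.aeR a) x Φ ≠ 0) → ∀ e : Fin r → ℤ,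
          DegTwist (∏ s, fam (K₁ := K₁) (PL.sysW (fun e => algebraMap k₀ k (w e)) a) (g s) ^ e s)
            (PL.sysW (fun e => algebraMap k₀ k (w e)) a none) := by
  have hk₀0 : CharZero k₀ := charZero_of_injective_algebraMap (algebraMap F₀ k₀).injective
  obtain ⟨Φ, hΦ, h1⟩ := thin_of_keyT (keyT_degF hP1 hT2 hx hgen hg) hk₀ (w := w) hw
  refine ⟨Φ, hΦ, ?_⟩
  intro F k K₁ _ _ _ _ _ _ _ _ _ _ _ _ _ _ hF hgenk hfree hgenK htr a ha e
  by_contra hcon
  obtain ⟨x, hx⟩ := h1 F k hF hgenk (fun hx => hfree hx) a ⟨K₁, inferInstance,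
    inferInstance, algebraMap K₀ K₁, e, fun c => by
      rw [← IsScalarTower.algebraMap_apply, IsScalarTower.algebraMap_apply k₀ k K₁], hgenK, htr,
      hcon⟩
  exact ha x hx

/-- **The degrees for families on the projective line, outside a hypersurface.** -/
theorem degs_hypersurfaceF (hP1 : StmtP1.{u}) (hH2 : StmtH2.{u}) {F₀ k₀ K₀ : Type u} [Field F₀]
    [CharZero F₀] [Field k₀] [Algebra F₀ k₀] [Field K₀] [Algebra k₀ K₀]
    (hk₀ : ∃ S : Finset k₀, Subfield.closure (S : Set k₀) = ⊤) {m : ℕ} {w : Fin (m + 1) → k₀}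
    {i j l : Fin (m + 1)} (hw : AlgebraicIndependent F₀ ![w i / w l, w j / w l])
    {x : K₀} (hx : Transcendental k₀ x) (hgen : IntermediateField.adjoin k₀ {x} = ⊤) {N r : ℕ}
    {g : Fin r → MvPolynomial (Fin N) K₀} (hg : ∀ s, g s ≠ 0) :
    ∃ Ψ : MvPolynomial (Option (Fin N) × Fin (m + 1)) F₀, Ψ ≠ 0 ∧
      ∀ (F k K₁ : Type u) [Field F] [Field k] [Field K₁] [Algebra F₀ F] [Algebra F k] [Algebra k₀ k]
        [Algebra F₀ k] [IsScalarTower F₀ F k] [IsScalarTower F₀ k₀ k] [Algebra k K₁] [Algebra K₀ K₁]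
        [Algebra k₀ K₁] [IsScalarTower k₀ k K₁] [IsScalarTower k₀ K₀ K₁],
        (∃ S : Finset F, Subfield.closure (S : Set F) = ⊤) →
        IntermediateField.adjoin F (Set.range (algebraMap k₀ k)) = ⊤ →
        (∀ {n : ℕ} {x : Fin n → k₀}, AlgebraicIndependent F₀ x →
          AlgebraicIndependent F (algebraMap k₀ k ∘ x)) →
        IntermediateField.adjoin k (Set.range (algebraMap K₀ K₁)) = ⊤ →
        (∃ y : K₀, Transcendental k (algebraMap K₀ K₁ y)) →
        ∀ a : Option (Fin N) × Fin (m + 1) → F, MvPolynomial.aeval a Ψ ≠ 0 → ∀ e : Fin r → ℤ,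
          DegTwist (∏ s, fam (K₁ := K₁) (PL.sysW (fun e => algebraMap k₀ k (w e)) a) (g s) ^ e s)
            (PL.sysW (fun e => algebraMap k₀ k (w e)) a none) := by
  classical
  have hk₀0 : CharZero k₀ := charZero_of_injective_algebraMap (algebraMap F₀ k₀).injective
  obtain ⟨ff, P, b₀, M, U, hf⟩ := exists_famP hx hgen g hg
  set E : Finset (MvPolynomial (Fin N) k₀) := insert 1 (insert 0 (ff.support.image ff.coeff) ∪ U) with hE
  have hcE : ∀ i, ff.coeff i ∈ E := by
    intro i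
    refine Finset.mem_insert_of_mem (Finset.mem_union_left _ ?_)
    by_cases h0 : ff.coeff i = 0
    · rw [h0]
      exact Finset.mem_insert_self _ _
    · exact Finset.mem_insert_of_mem (Finset.mem_image_of_mem _ (mem_support_iff.2 h0))
  have hUE : U ⊆ E := fun z hz => Finset.mem_insert_of_mem (Finset.mem_union_right _ hz)
  obtain ⟨Ψ, hΨ, h⟩ := exists_goodF hk₀ hw E U hUE hf.zero
  refine ⟨Ψ, hΨ, ?_⟩
  intro F k K₁ _ _ _ _ _ _ _ _ _ _ _ _ _ _ hF hgenk hfree hgenK htr a ha e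
  have hF0 : CharZero F := charZero_of_injective_algebraMap (algebraMap F₀ F).injective
  have hk0 : CharZero k := charZero_of_injective_algebraMap (algebraMap F k).injective
  have hk := fg_composite hF hk₀ hgenk
  obtain ⟨⟨F', v, u, b, Δ, E', hF', hvu, hfin', hreg, hΔ, hgood, hE1, hTE, hb0, hbE, hbiE, hc0⟩, hne⟩ :=
    h F k hF hgenk (fun hx => hfree hx) a ha
  set c := PL.sysW (fun e => algebraMap k₀ k (w e)) a with hc
  set ev := evc (algebraMap k₀ k) c with hev
  have hF'0 : CharZero F' := charZero_of_injective_algebraMap (algebraMap F F').injective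
  have hv0 : v ≠ 0 := by
    rintro h0
    rw [h0] at hvu
    exact transc_F_t hvu isAlgebraic_zero
  have hinv : ∀ h ∈ U, ev h ≠ 0 ∧ ev h ∈ E' ∧ (ev h)⁻¹ ∈ E' := fun h hh =>
    ⟨hne h hh, hTE (Finset.mem_union_left _ (Finset.mem_image_of_mem _ (hUE hh))),
      hTE (Finset.mem_union_right _ (Finset.mem_image_of_mem (fun h => (evc (algebraMap k₀ k) c h)⁻¹) hh))⟩
  obtain ⟨W, hW1, hW2, hW3, hW4, hW5, hW6, hW7, hW8⟩ := hH2 hF' hvu hfin' hreg hΔ hE1 hgood
    (f := ff.map ev)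
    (by rw [natDegree_map_of_leadingCoeff_ne_zero ev (hne _ hf.lc)]; exact hf.deg)
    (separable_map_of_discr ev ff (by have := hf.deg; omega) (hne _ hf.lc) (hne _ hf.discr))
    ((goodElts_evc hf.deg hf.lc hf.discr hcE (Finset.mem_insert_self _ _) hne).trans hTE)
    (U := insert b (U.image ev)) (by
      intro z hz
      rcases Finset.mem_insert.1 hz with rfl | hz
      · exact ⟨hb0, hbE, hbiE⟩
      · obtain ⟨h, hh, rfl⟩ := Finset.mem_image.1 hz
        exact hinv h hh)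
  have hcne : c none ≠ 0 := by
    rw [hc0]
    exact mul_ne_zero hb0 hv0
  have hval : W.valuation (algebraMap k (AlgebraicClosure k) (c none)) =
      W.valuation (algebraMap k (AlgebraicClosure k) v) := by
    rw [hc0, map_mul, map_mul, hW5 b (Finset.mem_insert_self _ _), one_mul]
  have hPl : PlF (F := IntermediateField.adjoin F' {u}) ff U (algebraMap k₀ k) c W := by
    refine ⟨fun z => hW1 z, fun h hh => hW5 _ (Finset.mem_insert_of_mem (Finset.mem_image_of_mem _ hh)),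
      hW2, ?_, fun z hz => ?_, hW8⟩
    · rw [ValuationSubring.mem_nonunits_iff, hval]
      exact hW6
    · obtain ⟨i, hi⟩ := hW7 z hz
      exact ⟨i, by rw [hval, hi]⟩
  exact deg_of_plF hP1 hf (fg_adjoin hF' _) (fin_adjoin0' hfin') hgenK htr hcne hPl e

end Pool.Agent.SE
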