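import Pool.Agent.Helper10.SE.M5
import Pool.Agent.Helper10.SE.Defs9
import Pool.Agent.Helper10.TWX.X16

/-!
# Project SE, version 5: the degrees for families of curves
-/

universe u

set_option linter.unusedSectionVars false

namespace Pool.Agent.SE

open VC Polynomial Pool.Agent.LT Pool.Agent.SC Pool.Agent.GC Pool.Agent.Helper91.Sect Pool.Agent
  Pool.Agent.TW Pool.Agent.TWH Pool.Agent.TWU Pool.Agent.TWX Pool.Agent.TWT

/-- Some member of a family has a section over a field of a wrong degree. -/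
def BadDegM {k₀ : Type u} [Field k₀] {N r : ℕ} (M : (MvPolynomial (Fin N) k₀)[X][X])
    (P : Fin r → (MvPolynomial (Fin N) k₀)[X][X]) (k' : Type u) [Field k'] (ι : k₀ →+* k')
    (c : Option (Fin N) → k') : Prop :=
  ∃ (K₁ : Type u) (_ : Field K₁) (_ : Algebra k' K₁) (x z : K₁) (e : Fin r → ℤ),
    Transcendental k' x ∧ IntermediateField.adjoin k' {x, z} = ⊤ ∧
    ev3 ι (fun q => c (some q)) x z M = 0 ∧
    ¬ DegTwist (∏ s, ev3 ι (fun q => c (some q)) x z (P s) ^ e s) (c none)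

/-- **The key statement for the degrees of families of curves.** -/
theorem keyP_degM (hC : StmtCFM.{u}) (hTP : StmtTP.{u}) {k₀ : Type u} [Field k₀] [CharZero k₀]
    {N r : ℕ} {M : (MvPolynomial (Fin N) k₀)[X][X]} (hM : Irreducible M) (hM0 : 0 < M.natDegree)
    {P : Fin r → (MvPolynomial (Fin N) k₀)[X][X]} (hP : ∀ s, ¬ M ∣ P s) :
    KeyP k₀ (BadDegM M P) := by
  obtain ⟨ff, E, U, hdeg, -, -, -, -, hU0, hcore⟩ := hC hM hM0 hP
  have hff : ff ≠ 0 := ne_zero_of_natDegree_gt (n := 0) (by omega)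
  refine @hTP k₀ _ N (BadDegM M P) ff E U hff hU0 ?_
  intro F k _ _ _ ι hF t hfin c hc W hW hbad
  obtain ⟨K₁, _, _, x, z, e, hx, hgen, hMa, hno⟩ := hbad
  apply hno
  let i1 : Algebra k₀ k := ι.toAlgebra
  exact hcore F k K₁ hF t hfin x z hx hgen _ hMa (c none) hc W hW e

/-- **The degrees for families of curves, outside a thin set.** -/
theorem degs_thinM (hC : StmtCFM.{u}) (hTP : StmtTP.{u}) (hEP : StmtEP.{u}) {F₀ k₀ : Type u}
    [Field F₀] [CharZero F₀] [Field k₀] [Algebra F₀ k₀]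
    (hk₀ : ∃ S : Finset k₀, Subfield.closure (S : Set k₀) = ⊤) {m : ℕ} {w : Fin (m + 1) → k₀}
    {i l : Fin (m + 1)} (hw : Transcendental F₀ (w i / w l))
    {N r : ℕ} {M : (MvPolynomial (Fin N) k₀)[X][X]} (hM : Irreducible M) (hM0 : 0 < M.natDegree)
    {P : Fin r → (MvPolynomial (Fin N) k₀)[X][X]} (hP : ∀ s, ¬ M ∣ P s) :
    ∃ Φ : Polynomial (MvPolynomial (Fin N ⊕ Fin (m + 1)) F₀), UT.NoRoot Φ ∧
      ∀ (F k K₁ : Type u) [Field F] [Field k] [Field K₁] [Algebra F₀ F] [Algebra F k] [Algebra k₀ k]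
        [Algebra F₀ k] [IsScalarTower F₀ F k] [IsScalarTower F₀ k₀ k] [Algebra k K₁],
        (∃ S : Finset F, Subfield.closure (S : Set F) = ⊤) →
        IntermediateField.adjoin F (Set.range (algebraMap k₀ k)) = ⊤ →
        (∀ {n : ℕ} {x : Fin n → k₀}, AlgebraicIndependent F₀ x →
          AlgebraicIndependent F (algebraMap k₀ k ∘ x)) →
        ∀ x z : K₁, Transcendental k x → IntermediateField.adjoin k {x, z} = ⊤ →
        ∀ a : Fin N ⊕ Fin (m + 1) → F, (∀ x : F, Polynomial.eval₂ (UT.aeR a) x Φ ≠ 0) →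
          ev3 (algebraMap k₀ k) (fun q => algebraMap F k (a (Sum.inl q))) x z M = 0 →
          ∀ e : Fin r → ℤ,
          DegTwist (∏ s, ev3 (algebraMap k₀ k) (fun q => algebraMap F k (a (Sum.inl q))) x z (P s) ^ e s)
            (∑ e, algebraMap F k (a (Sum.inr e)) * algebraMap k₀ k (w e)) := by
  have hk₀0 : CharZero k₀ := charZero_of_injective_algebraMap (algebraMap F₀ k₀).injective
  obtain ⟨Φ, hΦ, h1⟩ := hEP (keyP_degM hC hTP hM hM0 hP) hk₀ (w := w) hw
  refine ⟨Φ, hΦ, ?_⟩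
  intro F k K₁ _ _ _ _ _ _ _ _ _ _ hF hgenk hfree x z hx hgen a ha hMa e
  by_contra hcon
  obtain ⟨y, hy⟩ := h1 F k hF hgenk (fun hx => hfree hx) a ⟨K₁, inferInstance,
    inferInstance, x, z, e, hx, hgen, hMa, hcon⟩
  exact ha y hy

/-- **The degrees for families of curves, outside a hypersurface.** -/
theorem degs_hypersurfaceM (hC : StmtCFM.{u}) (hH2 : StmtH2E.{u}) {F₀ k₀ : Type u} [Field F₀]
    [CharZero F₀] [Field k₀] [Algebra F₀ k₀]
    (hk₀ : ∃ S : Finset k₀, Subfield.closure (S : Set k₀) = ⊤) {m : ℕ} {w : Fin (m + 1) → k₀}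
    {i j l : Fin (m + 1)} (hw : AlgebraicIndependent F₀ ![w i / w l, w j / w l])
    {N r : ℕ} {M : (MvPolynomial (Fin N) k₀)[X][X]} (hM : Irreducible M) (hM0 : 0 < M.natDegree)
    {P : Fin r → (MvPolynomial (Fin N) k₀)[X][X]} (hP : ∀ s, ¬ M ∣ P s) :
    ∃ Ψ : MvPolynomial (Fin N ⊕ Fin (m + 1)) F₀, Ψ ≠ 0 ∧
      ∀ (F k K₁ : Type u) [Field F] [Field k] [Field K₁] [Algebra F₀ F] [Algebra F k] [Algebra k₀ k]
        [Algebra F₀ k] [IsScalarTower F₀ F k] [IsScalarTower F₀ k₀ k] [Algebra k K₁],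
        (∃ S : Finset F, Subfield.closure (S : Set F) = ⊤) →
        IntermediateField.adjoin F (Set.range (algebraMap k₀ k)) = ⊤ →
        (∀ {n : ℕ} {x : Fin n → k₀}, AlgebraicIndependent F₀ x →
          AlgebraicIndependent F (algebraMap k₀ k ∘ x)) →
        ∀ x z : K₁, Transcendental k x → IntermediateField.adjoin k {x, z} = ⊤ →
        ∀ a : Fin N ⊕ Fin (m + 1) → F, MvPolynomial.aeval a Ψ ≠ 0 →
          ev3 (algebraMap k₀ k) (fun q => algebraMap F k (a (Sum.inl q))) x z M = 0 →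
          ∀ e : Fin r → ℤ,
          DegTwist (∏ s, ev3 (algebraMap k₀ k) (fun q => algebraMap F k (a (Sum.inl q))) x z (P s) ^ e s)
            (∑ e, algebraMap F k (a (Sum.inr e)) * algebraMap k₀ k (w e)) := by
  classical
  have hk₀0 : CharZero k₀ := charZero_of_injective_algebraMap (algebraMap F₀ k₀).injective
  obtain ⟨ff, E, U, hdeg, hlc, hd, hcE, hUE, hU0, hcore⟩ := hC hM hM0 hP
  obtain ⟨Ψ, hΨ, h⟩ := exists_goodM hk₀ hw (insert 1 E) U (fun z hz =>
    Finset.mem_insert_of_mem (hUE hz)) hU0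
  refine ⟨Ψ, hΨ, ?_⟩
  intro F k K₁ _ _ _ _ _ _ _ _ _ _ hF hgenk hfree x z hx hgen a ha hMa e
  have hF0 : CharZero F := charZero_of_injective_algebraMap (algebraMap F₀ F).injective
  have hk0 : CharZero k := charZero_of_injective_algebraMap (algebraMap F k).injective
  obtain ⟨⟨F', v, u, b, Δ, E', hF', hvu, hfin', hreg, hΔ, hgood, hE1, hTE, hb0, hbE, hbiE, hc0⟩, hne⟩ :=
    h F k hF hgenk (fun hx => hfree hx) a ha
  set a' : Fin N → k := fun q => algebraMap F k (a (Sum.inl q)) with ha'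
  set ev := evp (algebraMap k₀ k) a' with hev
  set v' : k := ∑ e, algebraMap F k (a (Sum.inr e)) * algebraMap k₀ k (w e) with hv'
  have hF'0 : CharZero F' := charZero_of_injective_algebraMap (algebraMap F F').injective
  have hv0 : v ≠ 0 := by
    rintro h0
    rw [h0] at hvu
    exact transc_F_t hvu isAlgebraic_zero
  have hmemE : ∀ h ∈ E, ev h ∈ E' := fun h hh => hTE (Finset.mem_union_left _
    (Finset.mem_image_of_mem _ (Finset.mem_insert_of_mem hh)))
  have hinv : ∀ h ∈ U, ev h ≠ 0 ∧ ev h ∈ E' ∧ (ev h)⁻¹ ∈ E' := fun h hh =>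
    ⟨hne h hh, hmemE h (hUE hh),
      hTE (Finset.mem_union_right _ (Finset.mem_image_of_mem (fun h => (evp (algebraMap k₀ k) a' h)⁻¹) hh))⟩
  obtain ⟨W, hW1, hW2, hW3, hW4, hW5, hW6, hW7, hW8, hW9⟩ := hH2 hF' hvu hfin' hreg hΔ hE1 hgood
    (f := ff.map ev)
    (by rw [natDegree_map_of_leadingCoeff_ne_zero ev (hne _ hlc)]; exact hdeg)
    (separable_map_of_discr ev ff (by omega) (hne _ hlc) (hne _ hd))
    ((goodElts_evp hdeg hlc hd (fun i => Finset.mem_insert_of_mem (hcE i))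
      (Finset.mem_insert_self _ _) hne).trans hTE)
    (U := insert b (U.image ev)) (by
      intro z hz
      rcases Finset.mem_insert.1 hz with rfl | hz
      · exact ⟨hb0, hbE, hbiE⟩
      · obtain ⟨h, hh, rfl⟩ := Finset.mem_image.1 hz
        exact hinv h hh)
  have hcne : v' ≠ 0 := by
    rw [hc0]
    exact mul_ne_zero hb0 hv0
  have hval : W.valuation (algebraMap k (AlgebraicClosure k) v') =
      W.valuation (algebraMap k (AlgebraicClosure k) v) := by
    rw [hc0, map_mul, map_mul, hW5 b (Finset.mem_insert_self _ _), one_mul]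
  have hPl : PlP (F := IntermediateField.adjoin F' {u}) ff E U (algebraMap k₀ k) a' v' W := by
    refine ⟨fun z => hW1 z, fun h hh => hW9 _ (hmemE h hh), fun h hh => hW5 _
      (Finset.mem_insert_of_mem (Finset.mem_image_of_mem _ hh)), ?_, fun z hz => ?_, hW8⟩
    · rw [ValuationSubring.mem_nonunits_iff, hval]
      exact hW6
    · obtain ⟨i, hi⟩ := hW7 z hz
      exact ⟨i, by rw [hval, hi]⟩
  exact hcore _ k K₁ (fg_adjoin hF' _) _ (fin_adjoin0' hfin') x z hx hgen a' hMa v' hcne W hPl e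

end Pool.Agent.SE
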