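import Pool.Agent.Helper10.TWX.X19

/-!
# Project SE: general cyclic covers of the projective line: definitions

`v = c none` and `f_s = ∑_i c_{s,i} x^i`, `s < r`, `i ≤ d_s`; the curves `v^j yⁿ = ∏ f_s(x)^{e_s}`.
-/

universe u

namespace Pool.Agent.SE

open VC Polynomial Pool.Agent.LT Pool.Agent.SC Pool.Agent.GC Pool.Agent.Helper91.Sect Pool.Agent
  Pool.Agent.TWX

/-- The indices of the coefficients: `none` for the twist `v`, and `(s, i)` for the coefficient of `x^i` in `f_s`. -/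
abbrev Idx {r : ℕ} (d : Fin r → ℕ) : Type := Option (Σ s : Fin r, Fin (d s + 1))

section

variable {r : ℕ} {d : Fin r → ℕ} {R : Type*} [CommRing R]

/-- The polynomial `f_s = ∑_i c_{s,i} X^i`. -/
noncomputable def pol (c : Idx d → R) (s : Fin r) : R[X] :=
  ∑ i : Fin (d s + 1), C (c (some ⟨s, i⟩)) * X ^ (i : ℕ)

/-- The product of the `f_s`. -/
noncomputable def polT (c : Idx d → R) : R[X] := ∏ s, pol c s

/-- The product `∏ f_s ^ e_s`. -/
noncomputable def polE (c : Idx d → R) (e : Fin r → ℕ) : R[X] := ∏ s, pol c s ^ e s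

end

/-- The explicit degrees: `n / gcd(n, j)`, `d_s δ_s / gcd(δ_s, j)` for `δ_s = gcd(n, e_s)`, and `δ / gcd(δ, j)` for
`δ = gcd(n, ∑ e_s d_s)`. -/
def expl {r : ℕ} (d e : Fin r → ℕ) (n j : ℕ) : Set ℕ :=
  {q | q = n / Nat.gcd n j ∨
    (∃ s, q = d s * (Nat.gcd n (e s) / Nat.gcd (Nat.gcd n (e s)) j)) ∨
    q = Nat.gcd n (∑ s, e s * d s) / Nat.gcd (Nat.gcd n (∑ s, e s * d s)) j}

/-- A good place for the coefficients `c`. -/
structure PlW {r : ℕ} {d : Fin r → ℕ} {F k : Type u} [Field F] [Field k] [Algebra F k] (c : Idx d → k)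
    (W : ValuationSubring (AlgebraicClosure k)) : Prop where
  const : ∀ z : F, algebraMap k (AlgebraicClosure k) (algebraMap F k z) ∈ W
  coef : ∀ i, algebraMap k (AlgebraicClosure k) (c i) ∈ W
  lc : ∀ s, W.valuation (algebraMap k (AlgebraicClosure k) (c (some ⟨s, Fin.last (d s)⟩))) = 1
  disc : W.valuation (algebraMap k (AlgebraicClosure k) (polT c).discr) = 1
  v_mem : algebraMap k (AlgebraicClosure k) (c none) ∈ W.nonunits
  gen : ∀ z : k, z ≠ 0 → ∃ i : ℤ, W.valuation (algebraMap k (AlgebraicClosure k) z) =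
    W.valuation (algebraMap k (AlgebraicClosure k) (c none)) ^ i
  move : ∀ (T : Finset (AlgebraicClosure k)), (∀ b ∈ T, aeval b (polT c) = 0) → ∀ i : ℕ,
    (∀ z : k, algebraMap k (AlgebraicClosure k) z ≠ (∏ b ∈ T, (X - C b)).coeff i) →
    ∃ γ : AlgebraicClosure k ≃ₐ[k] AlgebraicClosure k, InDecomp W γ ∧
      γ ((∏ b ∈ T, (X - C b)).coeff i) ≠ (∏ b ∈ T, (X - C b)).coeff i

end Pool.Agent.SE
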