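import Pool.Agent.Helper10.SE.C1
import Pool.Agent.Helper10.TWX.X14

/-!
# Project SE (TwistsUniform v3): definitions and statements of the blocks
-/

universe u

namespace Pool.Agent.SE

open VC Polynomial Pool.Agent.LT Pool.Agent.SC Pool.Agent.GC Pool.Agent.Helper91.Sect Pool.Agent
  Pool.Agent.TWX

/-- The member of the family `g ∈ K₀[C_1, …, C_N]` with the coefficients `c`. -/
noncomputable def fam {K₀ k K₁ : Type u} [Field K₀] [Field k] [Field K₁] [Algebra K₀ K₁] [Algebra k K₁]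
    {N : ℕ} (c : Option (Fin N) → k) (g : MvPolynomial (Fin N) K₀) : K₁ :=
  MvPolynomial.eval₂ (algebraMap K₀ K₁) (fun q => algebraMap k K₁ (c (some q))) g

/-- **Block P1**: the core statement for the projective line, for one good place. -/
def StmtP1 : Prop :=
  ∀ {F k : Type u} [Field F] [CharZero F] [Field k] [Algebra F k],
    (∃ S : Finset F, Subfield.closure (S : Set F) = ⊤) →
    ∀ t : k, FiniteDimensional (IntermediateField.adjoin F {t}) k → ∀ v : k, v ≠ 0 →
    ∀ f : k[X], 1 ≤ f.natDegree → f.Separable →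
    ∀ W : ValuationSubring (AlgebraicClosure k),
    (∀ z : F, algebraMap k (AlgebraicClosure k) (algebraMap F k z) ∈ W) →
    (∀ i, algebraMap k (AlgebraicClosure k) (f.coeff i) ∈ W) →
    W.valuation (algebraMap k (AlgebraicClosure k) f.leadingCoeff) = 1 →
    W.valuation (algebraMap k (AlgebraicClosure k) f.discr) = 1 →
    algebraMap k (AlgebraicClosure k) v ∈ W.nonunits →
    (∀ z : k, z ≠ 0 → ∃ i : ℤ, W.valuation (algebraMap k (AlgebraicClosure k) z) =
      W.valuation (algebraMap k (AlgebraicClosure k) v) ^ i) →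
    (∀ T : Finset (AlgebraicClosure k), (∀ b ∈ T, aeval b f = 0) → ∀ i : ℕ,
      (∀ z : k, algebraMap k (AlgebraicClosure k) z ≠ (∏ b ∈ T, (X - C b)).coeff i) →
      ∃ γ : AlgebraicClosure k ≃ₐ[k] AlgebraicClosure k, InDecomp W γ ∧
        γ ((∏ b ∈ T, (X - C b)).coeff i) ≠ (∏ b ∈ T, (X - C b)).coeff i) →
    ∀ (r : ℕ) (P : Fin r → k[X]), (∀ s, P s ≠ 0) →
    (∀ s, W.valuation (algebraMap k (AlgebraicClosure k) (P s).leadingCoeff) = 1) →
    (∀ s (b : AlgebraicClosure k), aeval b (P s) = 0 → aeval b f = 0) →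
    ∀ (K₁ : Type u) [Field K₁] [Algebra k K₁] (x : K₁), Transcendental k x →
    IntermediateField.adjoin k {x} = ⊤ → ∀ e : Fin r → ℤ,
      DegTwist (∏ s, aeval x (P s) ^ e s) v

/-- **Block CG**: the core statement of `TWX/X14` for all products of powers of finitely many functions. -/
def StmtCG : Prop :=
  ∀ {k₀ K₀ : Type u} [Field k₀] [CharZero k₀] [Field K₀] [Algebra k₀ K₀], IsFunctionField k₀ K₀ →
    ∀ (r : ℕ) (g : Fin r → K₀), (∀ s, g s ≠ 0) →
    ∃ (M : Finset k₀[X]) (U₀ : Finset k₀), (∀ q ∈ M, q ≠ 0) ∧ 0 ∉ U₀ ∧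
      ∀ (F k K₁ : Type u) [Field F] [Field k] [Field K₁] [Algebra F k] [Algebra k₀ k] [Algebra k K₁]
        [Algebra K₀ K₁] [Algebra k₀ K₁] [IsScalarTower k₀ k K₁] [IsScalarTower k₀ K₀ K₁],
        (∃ S : Finset F, Subfield.closure (S : Set F) = ⊤) →
        ∀ t : k, FiniteDimensional (IntermediateField.adjoin F {t}) k →
        IntermediateField.adjoin k (Set.range (algebraMap K₀ K₁)) = ⊤ →
        (∃ y : K₀, Transcendental k (algebraMap K₀ K₁ y)) →
        ∀ v : k, v ≠ 0 → ∀ W : ValuationSubring (AlgebraicClosure k),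
        GoodPl (F := F) M U₀ (algebraMap k₀ k) v W → ∀ e : Fin r → ℤ,
          DegTwist (∏ s, algebraMap K₀ K₁ (g s) ^ e s) v

end Pool.Agent.SE
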