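import Pool.Agent.Helper10.TWT.KeyT
import Pool.Agent.Helper10.TWX.X13
import Pool.Agent.Helper37.TWH.Defs

/-!
# Project SE: statements of the blocks on families, part 2
-/

universe u

namespace Pool.Agent.SE

open VC Polynomial Pool.Agent.LT Pool.Agent.SC Pool.Agent.GC Pool.Agent.Helper91.Sect Pool.Agent
  Pool.Agent.TWX Pool.Agent.TWT Pool.Agent.TWH

/-- The evaluation of the polynomials in the coefficients. -/
noncomputable def evc {k₀ k : Type u} [Field k₀] [Field k] {N : ℕ} (ι : k₀ →+* k)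
    (c : Option (Fin N) → k) : MvPolynomial (Fin N) k₀ →+* k :=
  MvPolynomial.eval₂Hom ι fun q => c (some q)

/-- A good place for the coefficients `c`: `c none` has a simple zero, the roots of `ff(c)` are distinct there and not
infinite, and the elements `h(c)`, `h ∈ U`, are units. -/
structure PlF {N : ℕ} {k₀ F k : Type u} [Field k₀] [Field F] [Field k] [Algebra F k]
    (ff : (MvPolynomial (Fin N) k₀)[X]) (U : Finset (MvPolynomial (Fin N) k₀)) (ι : k₀ →+* k)
    (c : Option (Fin N) → k) (W : ValuationSubring (AlgebraicClosure k)) : Prop where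
  const : ∀ z : F, algebraMap k (AlgebraicClosure k) (algebraMap F k z) ∈ W
  unit : ∀ h ∈ U, W.valuation (algebraMap k (AlgebraicClosure k) (evc ι c h)) = 1
  coef : ∀ i, algebraMap k (AlgebraicClosure k) ((ff.map (evc ι c)).coeff i) ∈ W
  v_mem : algebraMap k (AlgebraicClosure k) (c none) ∈ W.nonunits
  gen : ∀ z : k, z ≠ 0 → ∃ i : ℤ, W.valuation (algebraMap k (AlgebraicClosure k) z) =
    W.valuation (algebraMap k (AlgebraicClosure k) (c none)) ^ i
  move : ∀ (T : Finset (AlgebraicClosure k)), (∀ b ∈ T, aeval b (ff.map (evc ι c)) = 0) → ∀ i : ℕ,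
    (∀ z : k, algebraMap k (AlgebraicClosure k) z ≠ (∏ b ∈ T, (X - C b)).coeff i) →
    ∃ γ : AlgebraicClosure k ≃ₐ[k] AlgebraicClosure k, InDecomp W γ ∧
      γ ((∏ b ∈ T, (X - C b)).coeff i) ≠ (∏ b ∈ T, (X - C b)).coeff i

/-- **Block T2**: the key statement for families (compare `TWX.keyT_of_coreP`). -/
def StmtT2 : Prop :=
  ∀ {k₀ : Type u} [Field k₀] {N : ℕ}
    {P : ∀ (k' : Type u) [Field k'], (k₀ →+* k') → (Option (Fin N) → k') → Prop}
    {ff : (MvPolynomial (Fin N) k₀)[X]} {U : Finset (MvPolynomial (Fin N) k₀)} (_ : ff ≠ 0)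
    (_ : 0 ∉ U)
    (_ : ∀ (F k : Type u) [Field F] [Field k] [Algebra F k] (ι : k₀ →+* k),
      (∃ S : Finset F, Subfield.closure (S : Set F) = ⊤) →
      ∀ t : k, FiniteDimensional (IntermediateField.adjoin F {t}) k →
      ∀ c : Option (Fin N) → k, c none ≠ 0 → ∀ W : ValuationSubring (AlgebraicClosure k),
      PlF (F := F) ff U ι c W → ¬ P k ι c), KeyT k₀ (I := Option (Fin N)) P

/-- **Block H2**: a good place from a good discriminant (compare `TWX.goodPl_of_goodAt`). -/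
def StmtH2 : Prop :=
  ∀ {F k : Type u} [Field F] [CharZero F] [Field k] [DecidableEq k] [Algebra F k]
    (_ : ∃ S : Finset F, Subfield.closure (S : Set F) = ⊤)
    {v u : k} (_ : AlgebraicIndependent F ![v, u]) (_ : FiniteDimensional (k0 F v u) k)
    (_ : ∀ z : k, IsAlgebraic (IntermediateField.adjoin F {v}) z →
      z ∈ IntermediateField.adjoin F {v})
    {Δ : F[X][X]} (_ : GoodDisc Δ) {E : Finset k} (_ : IntermediateField.adjoin F (E : Set k) = ⊤)
    (_ : GoodAt F v u Δ E)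
    {f : k[X]} (_ : 1 ≤ f.natDegree) (_ : f.Separable) (_ : goodElts f 1 ⊆ E)
    {U : Finset k} (_ : ∀ a ∈ U, a ≠ 0 ∧ a ∈ E ∧ a⁻¹ ∈ E),
    ∃ W : ValuationSubring (AlgebraicClosure k),
      (∀ z : IntermediateField.adjoin F {u}, algebraMap k (AlgebraicClosure k) z ∈ W) ∧
      (∀ i, algebraMap k (AlgebraicClosure k) (f.coeff i) ∈ W) ∧
      W.valuation (algebraMap k (AlgebraicClosure k) f.leadingCoeff) = 1 ∧
      W.valuation (algebraMap k (AlgebraicClosure k) f.discr) = 1 ∧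
      (∀ a ∈ U, W.valuation (algebraMap k (AlgebraicClosure k) a) = 1) ∧
      algebraMap k (AlgebraicClosure k) v ∈ W.nonunits ∧
      (∀ z : k, z ≠ 0 → ∃ i : ℤ, W.valuation (algebraMap k (AlgebraicClosure k) z) =
        W.valuation (algebraMap k (AlgebraicClosure k) v) ^ i) ∧
      ∀ T : Finset (AlgebraicClosure k), (∀ b ∈ T, aeval b f = 0) → ∀ i : ℕ,
        (∀ z : k, algebraMap k (AlgebraicClosure k) z ≠ (∏ b ∈ T, (X - C b)).coeff i) →
        ∃ γ : AlgebraicClosure k ≃ₐ[k] AlgebraicClosure k, InDecomp W γ ∧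
          γ ((∏ b ∈ T, (X - C b)).coeff i) ≠ (∏ b ∈ T, (X - C b)).coeff i

/-- **Block CT**: the degrees, outside a thin set, for all products of powers of finitely many functions (compare
`TWX.degs_thinU`). -/
def StmtCT : Prop :=
  ∀ {F₀ k₀ K₀ : Type u} [Field F₀] [CharZero F₀] [Field k₀] [Algebra F₀ k₀]
    [Field K₀] [Algebra k₀ K₀]
    (_ : ∃ S : Finset k₀, Subfield.closure (S : Set k₀) = ⊤) {m : ℕ} {w : Fin (m + 1) → k₀}
    {i l : Fin (m + 1)} (_ : Transcendental F₀ (w i / w l))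
    (_ : IsFunctionField k₀ K₀) {r : ℕ} {g : Fin r → K₀} (_ : ∀ s, g s ≠ 0),
    ∃ Φ : Polynomial (MvPolynomial (Fin (m + 1)) F₀), UT.NoRoot Φ ∧
      ∀ (F k K₁ : Type u) [Field F] [Field k] [Field K₁] [Algebra F₀ F] [Algebra F k] [Algebra k₀ k]
        [Algebra F₀ k] [IsScalarTower F₀ F k] [IsScalarTower F₀ k₀ k] [Algebra k K₁] [Algebra K₀ K₁]
        [Algebra k₀ K₁] [IsScalarTower k₀ k K₁] [IsScalarTower k₀ K₀ K₁],
        (∃ S : Finset F, Subfield.closure (S : Set F) = ⊤) →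
        IntermediateField.adjoin F (Set.range (algebraMap k₀ k)) = ⊤ →
        (∀ {n : ℕ} {x : Fin n → k₀}, AlgebraicIndependent F₀ x →
          AlgebraicIndependent F (algebraMap k₀ k ∘ x)) →
        IntermediateField.adjoin k (Set.range (algebraMap K₀ K₁)) = ⊤ →
        (∃ y : K₀, Transcendental k (algebraMap K₀ K₁ y)) →
        ∀ a : Fin (m + 1) → F, (∀ x : F, Polynomial.eval₂ (UT.aeR a) x Φ ≠ 0) → ∀ e : Fin r → ℤ,
          DegTwist (∏ s, algebraMap K₀ K₁ (g s) ^ e s)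
            (∑ e, algebraMap F k (a e) * algebraMap k₀ k (w e))

/-- **Block CH**: the degrees, outside a hypersurface, for all products of powers of finitely many functions (compare
`TWX.degs_hypersurfaceU`). -/
def StmtCH : Prop :=
  ∀ {F₀ k₀ K₀ : Type u} [Field F₀] [CharZero F₀] [Field k₀] [Algebra F₀ k₀]
    [Field K₀] [Algebra k₀ K₀]
    (_ : ∃ S : Finset k₀, Subfield.closure (S : Set k₀) = ⊤) {m : ℕ} {w : Fin (m + 1) → k₀}
    {i j l : Fin (m + 1)} (_ : AlgebraicIndependent F₀ ![w i / w l, w j / w l])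
    (_ : IsFunctionField k₀ K₀) {r : ℕ} {g : Fin r → K₀} (_ : ∀ s, g s ≠ 0),
    ∃ Ψ : MvPolynomial (Fin (m + 1)) F₀, Ψ ≠ 0 ∧
      ∀ (F k K₁ : Type u) [Field F] [Field k] [Field K₁] [Algebra F₀ F] [Algebra F k] [Algebra k₀ k]
        [Algebra F₀ k] [IsScalarTower F₀ F k] [IsScalarTower F₀ k₀ k] [Algebra k K₁] [Algebra K₀ K₁]
        [Algebra k₀ K₁] [IsScalarTower k₀ k K₁] [IsScalarTower k₀ K₀ K₁],
        (∃ S : Finset F, Subfield.closure (S : Set F) = ⊤) →
        IntermediateField.adjoin F (Set.range (algebraMap k₀ k)) = ⊤ →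
        (∀ {n : ℕ} {x : Fin n → k₀}, AlgebraicIndependent F₀ x →
          AlgebraicIndependent F (algebraMap k₀ k ∘ x)) →
        IntermediateField.adjoin k (Set.range (algebraMap K₀ K₁)) = ⊤ →
        (∃ y : K₀, Transcendental k (algebraMap K₀ K₁ y)) →
        ∀ a : Fin (m + 1) → F, MvPolynomial.aeval a Ψ ≠ 0 → ∀ e : Fin r → ℤ,
          DegTwist (∏ s, algebraMap K₀ K₁ (g s) ^ e s)
            (∑ e, algebraMap F k (a e) * algebraMap k₀ k (w e))

end Pool.Agent.SE
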