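import Pool.Agent.Helper10.SE.Defs4
import Pool.Agent.Helper10.TWT.E6

/-!
# Project SE, version 4: statements of the blocks at the level of the parameters
-/

universe u

namespace Pool.Agent.SE

open VC Polynomial Pool.Agent.LT Pool.Agent.SC Pool.Agent.GC Pool.Agent.Helper91.Sect Pool.Agent
  Pool.Agent.TWX Pool.Agent.TWT Pool.Agent.TWH
open Pool.Agent.Helper37.UL UL Pool.Agent.OPN Pool.Agent.OPG Pool.Agent.BT Pool.Agent.UT

/-- The evaluation of the polynomials in the parameters. -/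
noncomputable def evp {k₀ k : Type u} [Field k₀] [Field k] {N : ℕ} (ι : k₀ →+* k)
    (a : Fin N → k) : MvPolynomial (Fin N) k₀ →+* k :=
  MvPolynomial.eval₂Hom ι a

/-- The member of the family `g ∈ K₀[A_1, …, A_N]` with the parameters `a`. -/
noncomputable def famp {K₀ k K₁ : Type u} [Field K₀] [Field k] [Field K₁] [Algebra K₀ K₁] [Algebra k K₁]
    {N : ℕ} (a : Fin N → k) (g : MvPolynomial (Fin N) K₀) : K₁ :=
  MvPolynomial.eval₂ (algebraMap K₀ K₁) (fun q => algebraMap k K₁ (a q)) g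

/-- A good place for the parameters `a` and for `v`: `v` has a simple zero, the elements `h(a)`, `h ∈ E`, are integral,
the elements `h(a)`, `h ∈ U`, are units, and the coefficients of the factors of `ff(a)` which are not in `k` are moved
by the decomposition group. -/
structure PlP {N : ℕ} {k₀ F k : Type u} [Field k₀] [Field F] [Field k] [Algebra F k]
    (ff : (MvPolynomial (Fin N) k₀)[X]) (E U : Finset (MvPolynomial (Fin N) k₀)) (ι : k₀ →+* k)
    (a : Fin N → k) (v : k) (W : ValuationSubring (AlgebraicClosure k)) : Prop where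
  const : ∀ z : F, algebraMap k (AlgebraicClosure k) (algebraMap F k z) ∈ W
  mem : ∀ h ∈ E, algebraMap k (AlgebraicClosure k) (evp ι a h) ∈ W
  unit : ∀ h ∈ U, W.valuation (algebraMap k (AlgebraicClosure k) (evp ι a h)) = 1
  v_mem : algebraMap k (AlgebraicClosure k) v ∈ W.nonunits
  gen : ∀ z : k, z ≠ 0 → ∃ i : ℤ, W.valuation (algebraMap k (AlgebraicClosure k) z) =
    W.valuation (algebraMap k (AlgebraicClosure k) v) ^ i
  move : ∀ (T : Finset (AlgebraicClosure k)), (∀ b ∈ T, aeval b (ff.map (evp ι a)) = 0) → ∀ i : ℕ,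
    (∀ z : k, algebraMap k (AlgebraicClosure k) z ≠ (∏ b ∈ T, (X - C b)).coeff i) →
    ∃ γ : AlgebraicClosure k ≃ₐ[k] AlgebraicClosure k, InDecomp W γ ∧
      γ ((∏ b ∈ T, (X - C b)).coeff i) ≠ (∏ b ∈ T, (X - C b)).coeff i

/-- **Block CF**: the core statement for families of functions on a fixed curve (compare `StmtCG`, `StmtP1`). -/
def StmtCF : Prop :=
  ∀ {k₀ K₀ : Type u} [Field k₀] [CharZero k₀] [Field K₀] [Algebra k₀ K₀], IsFunctionField k₀ K₀ →
    ∀ {N r : ℕ} (g : Fin r → MvPolynomial (Fin N) K₀), (∀ s, g s ≠ 0) →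
    ∃ (ff : (MvPolynomial (Fin N) k₀)[X]) (E U : Finset (MvPolynomial (Fin N) k₀)),
      1 ≤ ff.natDegree ∧ ff.leadingCoeff ∈ U ∧ ff.discr ∈ U ∧ (∀ i, ff.coeff i ∈ E) ∧ U ⊆ E ∧ 0 ∉ U ∧
      ∀ (F k K₁ : Type u) [Field F] [Field k] [Field K₁] [Algebra F k] [Algebra k₀ k] [Algebra k K₁]
        [Algebra K₀ K₁] [Algebra k₀ K₁] [IsScalarTower k₀ k K₁] [IsScalarTower k₀ K₀ K₁],
        (∃ S : Finset F, Subfield.closure (S : Set F) = ⊤) →
        ∀ t : k, FiniteDimensional (IntermediateField.adjoin F {t}) k →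
        IntermediateField.adjoin k (Set.range (algebraMap K₀ K₁)) = ⊤ →
        (∃ y : K₀, Transcendental k (algebraMap K₀ K₁ y)) →
        ∀ (a : Fin N → k) (v : k), v ≠ 0 → ∀ W : ValuationSubring (AlgebraicClosure k),
        PlP (F := F) ff E U (algebraMap k₀ k) a v W → ∀ e : Fin r → ℤ,
          DegTwist (∏ s, famp (K₁ := K₁) a (g s) ^ e s) v

/-- The element `v = ∑ b_e w_e` (at `none`) and the parameters `a_q` as elements of `k`. -/
noncomputable def prm {F k : Type u} [Field F] [Field k] [Algebra F k] {Q : Type} {m : ℕ}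
    (w : Fin (m + 1) → k) (a : Q ⊕ Fin (m + 1) → F) : Option Q → k
  | none => ∑ e, algebraMap F k (a (Sum.inr e)) * w e
  | some q => algebraMap F k (a (Sum.inl q))

/-- **The key statement** at the level of the parameters (compare `TWT.KeyT`). -/
def KeyP (k₀ : Type u) [Field k₀] {N : ℕ}
    (P : ∀ (k' : Type u) [Field k'], (k₀ →+* k') → (Option (Fin N) → k') → Prop) : Prop :=
  ∀ {J F k C : Type u} [Field F] [CharZero F] [Field k] [Algebra F k] [Field C]
    [Algebra k C] [Algebra F C] [IsScalarTower F k C] [IsAlgClosure k C]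
    (ι : k₀ →+* k) {T q : k} (_ : Transcendental F T)
    (_ : IntermediateField.adjoin F {T, q} = ⊤)
    {κ : Subfield C} (_ : ∀ c : C, c ∈ κ ↔ IsAlgebraic F c)
    {Fs κs : Subfield C} (_ : ∀ c : C, c ∈ κs ↔ IsAlgebraic Fs c)
    {Fv : J → Subfield C} (_ : ∀ j, Fs ≤ Fv j) (_ : ∀ j, Fv j ≤ (algebraMap F C).fieldRange)
    (_ : Fs ≤ (algebraMap F C).fieldRange)
    (_ : IsAlgebraic (gen Fs ![algebraMap k C T]) (algebraMap k C q))
    (_ : ∀ a : k₀, algebraMap k C (ι a) ∈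
      Subfield.closure ((Fs : Set C) ∪ {algebraMap k C T, algebraMap k C q})) {m : ℕ}
    {w : Fin (m + 2) → k₀} (_ : w 0 ≠ 0) (_ : ι (w 1) = T * ι (w 0))
    {Uf : Ultrafilter J} {S : Type u} [Field S] {π : (J → C) →+* S} (h : UP Uf π)
    {vv : J → Fin N ⊕ Fin (m + 2) → F} (_ : ∀ j i, algebraMap F C (vv j i) ∈ Fv j)
    (_ : AlgebraicIndependent (Fs.map (UP.cst π)) (xg π fun j i => algebraMap F C (vv j i)))
    (_ : ∀ z ∈ h.fsub Fv,
      IsAlgebraic (gn (Fs.map (UP.cst π)) (xg π fun j i => algebraMap F C (vv j i))) z →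
      z ∈ gn (κs.map (UP.cst π)) (xg π fun j i => algebraMap F C (vv j i)))
    {Kb : J → Subfield k} (_ : ∀ a (y : k), algebraMap k C y ∈ Fs → y ∈ Kb a)
    (_ : ∀ a, T ∈ Kb a) (_ : ∀ a, q ∈ Kb a) (_ : ∀ a i, algebraMap F k (vv a i) ∈ Kb a)
    (_ : ∀ j, Fv j ≤ (Kb j).map (algebraMap k C))
    (_ : ∀ j, (Kb j).map (algebraMap k C) ≤
      Subfield.closure ((Fv j : Set C) ∪ {algebraMap k C T, algebraMap k C q}))
    (_ : ∀ j, Mod (F := F) (C := C) ι (Kb j) P (prm (ι ∘ w) (vv j))), False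

/-- **Block EP**: the reduction to the key statement (compare `TWT.thin_of_keyT`). -/
def StmtEP : Prop :=
  ∀ {F₀ k₀ : Type u} [Field F₀] [CharZero F₀] [Field k₀] [Algebra F₀ k₀] {N : ℕ}
    {P : ∀ (k' : Type u) [Field k'], (k₀ →+* k') → (Option (Fin N) → k') → Prop}
    (_ : KeyP k₀ P)
    (_ : ∃ S : Finset k₀, Subfield.closure (S : Set k₀) = ⊤) {m : ℕ} {w : Fin (m + 1) → k₀}
    {i l : Fin (m + 1)} (_ : Transcendental F₀ (w i / w l)),
    ∃ Φ : Polynomial (MvPolynomial (Fin N ⊕ Fin (m + 1)) F₀), NoRoot Φ ∧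
      ∀ (F k : Type u) [Field F] [Field k] [Algebra F₀ F] [Algebra F k] [Algebra k₀ k]
        [Algebra F₀ k] [IsScalarTower F₀ F k] [IsScalarTower F₀ k₀ k],
        (∃ S : Finset F, Subfield.closure (S : Set F) = ⊤) →
        IntermediateField.adjoin F (Set.range (algebraMap k₀ k)) = ⊤ →
        (∀ {n : ℕ} {x : Fin n → k₀}, AlgebraicIndependent F₀ x →
          AlgebraicIndependent F (algebraMap k₀ k ∘ x)) →
        ∀ a : Fin N ⊕ Fin (m + 1) → F,
          P k (algebraMap k₀ k) (prm (algebraMap k₀ k ∘ w) a) →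
          ∃ x : F, Polynomial.eval₂ (aeR a) x Φ = 0

/-- **Block TP**: the key statement from a core statement (compare `StmtT2`, `TWX.keyT_of_coreP`). -/
def StmtTP : Prop :=
  ∀ {k₀ : Type u} [Field k₀] {N : ℕ}
    {P : ∀ (k' : Type u) [Field k'], (k₀ →+* k') → (Option (Fin N) → k') → Prop}
    {ff : (MvPolynomial (Fin N) k₀)[X]} {E U : Finset (MvPolynomial (Fin N) k₀)} (_ : ff ≠ 0)
    (_ : 0 ∉ U)
    (_ : ∀ (F k : Type u) [Field F] [Field k] [Algebra F k] (ι : k₀ →+* k),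
      (∃ S : Finset F, Subfield.closure (S : Set F) = ⊤) →
      ∀ t : k, FiniteDimensional (IntermediateField.adjoin F {t}) k →
      ∀ c : Option (Fin N) → k, c none ≠ 0 → ∀ W : ValuationSubring (AlgebraicClosure k),
      PlP (F := F) ff E U ι (fun q => c (some q)) (c none) W → ¬ P k ι c), KeyP k₀ P

end Pool.Agent.SE
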