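import Pool.Agent.Helper10.SE.Defs

/-!
# Project SE, block X: the degrees of the special points are explicit
-/

universe u

set_option linter.unusedSectionVars false

namespace Pool.Agent.SE

open VC Polynomial Pool.Agent.LT Pool.Agent.SC Pool.Agent.GC Pool.Agent.Helper91.Sect Pool.Agent
  Pool.Agent.TWX

section place

variable {k K : Type u} [Field k] [Field K] [Algebra k K] {O : ValuationSubring K}

theorem aeval_mem_O (hk : ∀ c : k, algebraMap k K c ∈ O) {w : K} (hw : w ∈ O) (h : k[X]) :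
    aeval w h ∈ O := by
  induction h using Polynomial.induction_on' with
  | add p q hp hq => rw [map_add]; exact O.add_mem _ _ hp hq
  | monomial n a =>
    rw [aeval_monomial]
    exact O.mul_mem _ _ (hk a) (pow_mem hw n)

theorem val_eq_one_of {z : K} (hz : z ∈ O) (hz' : z ∉ O.nonunits) : O.valuation z = 1 := by
  refine le_antisymm ((O.valuation_le_one_iff _).2 hz) ?_
  rw [ValuationSubring.mem_nonunits_iff, not_lt] at hz'
  exact hz'

theorem exists_frac {w : K} (hgen : IntermediateField.adjoin k {w} = ⊤) (z : K) :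
    ∃ a b : k[X], z = aeval w a / aeval w b := by
  have hz : z ∈ IntermediateField.adjoin k {w} := by rw [hgen]; trivial
  exact (IntermediateField.mem_adjoin_simple_iff k z).1 hz

/-- The prime polynomial of a nontrivial valuation ring of `k(w)` containing `k` and `w`. -/
theorem exists_irr (hk : ∀ c : k, algebraMap k K c ∈ O) (hO : O ≠ ⊤) {w : K} (hw : w ∈ O)
    (hgen : IntermediateField.adjoin k {w} = ⊤) :
    ∃ p : k[X], Irreducible p ∧ ∀ h : k[X], aeval w h ∈ O.nonunits ↔ p ∣ h := by
  classical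
  let φ : k[X] →+* O := (aeval w : k[X] →ₐ[k] K).toRingHom.codRestrict O.toSubring
    (fun h => aeval_mem_O hk hw h)
  have hφ : ∀ h, ((φ h : O) : K) = aeval w h := fun _ => rfl
  let I : Ideal k[X] := (IsLocalRing.maximalIdeal O).comap φ
  have hI : ∀ h, h ∈ I ↔ aeval w h ∈ O.nonunits := by
    intro h
    rw [← hφ, ValuationSubring.coe_mem_nonunits_iff]
    rfl
  have hIp : I.IsPrime := Ideal.comap_isPrime φ _
  have hI0 : I ≠ ⊥ := by
    intro hbot
    refine hO ?_
    rw [eq_top_iff]
    rintro z -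
    obtain ⟨a, b, rfl⟩ := exists_frac hgen z
    by_cases hb : aeval w b = 0
    · rw [hb, div_zero]; exact O.zero_mem
    have hb0 : b ≠ 0 := by rintro rfl; exact hb (map_zero _)
    have h1 : aeval w b ∉ O.nonunits := by
      intro h
      have h2 := (hI b).2 h
      rw [hbot] at h2
      exact hb0 h2
    have h2 := val_eq_one_of (aeval_mem_O hk hw b) h1
    rw [← O.valuation_le_one_iff, map_div₀, h2, div_one, O.valuation_le_one_iff]
    exact aeval_mem_O hk hw a
  have hpr : Submodule.IsPrincipal I := IsPrincipalIdealRing.principal I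
  set p := Submodule.IsPrincipal.generator I with hp
  have hspan : I = Ideal.span {p} := (Ideal.span_singleton_generator I).symm
  have hprime : Prime p := by
    have := Submodule.IsPrincipal.prime_generator_of_isPrime I hI0
    exact this
  refine ⟨p, hprime.irreducible, fun h => ?_⟩
  rw [← hI, hspan, Ideal.mem_span_singleton]

theorem exists_factor {p : k[X]} (hp : Irreducible p) {a : k[X]} (ha : a ≠ 0) :
    ∃ (m : ℕ) (a' : k[X]), ¬ p ∣ a' ∧ a = p ^ m * a' := by
  have h1 : FiniteMultiplicity p a := FiniteMultiplicity.of_prime_left hp.prime ha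
  obtain ⟨c, hc, hc'⟩ := h1.exists_eq_pow_mul_and_not_dvd
  exact ⟨_, c, hc', hc⟩

theorem val_unit (hk : ∀ c : k, algebraMap k K c ∈ O) {w : K} (hw : w ∈ O)
    {p : k[X]} (hpO : ∀ h : k[X], aeval w h ∈ O.nonunits ↔ p ∣ h) {a : k[X]} (ha : ¬ p ∣ a) :
    O.valuation (aeval w a) = 1 :=
  val_eq_one_of (aeval_mem_O hk hw a) fun h => ha ((hpO a).1 h)

theorem val_poly (hk : ∀ c : k, algebraMap k K c ∈ O) {w : K} (hw : w ∈ O)
    {p : k[X]} (hp : Irreducible p) (hpO : ∀ h : k[X], aeval w h ∈ O.nonunits ↔ p ∣ h)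
    {a : k[X]} (ha : a ≠ 0) : ∃ m : ℕ, O.valuation (aeval w a) = O.valuation (aeval w p) ^ m := by
  obtain ⟨m, a', ha', rfl⟩ := exists_factor hp ha
  refine ⟨m, ?_⟩
  rw [map_mul, map_pow, map_mul, map_pow, val_unit hk hw hpO ha', mul_one]

/-- The values are the powers of the value of the prime polynomial. -/
theorem val_pow (hk : ∀ c : k, algebraMap k K c ∈ O) {w : K} (hw : w ∈ O)
    (hgen : IntermediateField.adjoin k {w} = ⊤)
    {p : k[X]} (hp : Irreducible p) (hpO : ∀ h : k[X], aeval w h ∈ O.nonunits ↔ p ∣ h)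
    {z : K} (hz : z ≠ 0) (hv0 : O.valuation (aeval w p) ≠ 0) :
    ∃ i : ℤ, O.valuation z = O.valuation (aeval w p) ^ i := by
  obtain ⟨a, b, rfl⟩ := exists_frac hgen z
  have ha : a ≠ 0 := by rintro rfl; exact hz (by rw [map_zero, zero_div])
  have hb : b ≠ 0 := by rintro rfl; exact hz (by rw [map_zero, div_zero])
  obtain ⟨m, hm⟩ := val_poly hk hw hp hpO ha
  obtain ⟨l, hl⟩ := val_poly hk hw hp hpO hb
  refine ⟨(m : ℤ) - l, ?_⟩
  rw [map_div₀, hm, hl, zpow_sub₀ hv0, zpow_natCast, zpow_natCast]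

/-- The residues are polynomials in the residue of `w`. -/
theorem res_poly (hk : ∀ c : k, algebraMap k K c ∈ O) {w : K} (hw : w ∈ O)
    (hgen : IntermediateField.adjoin k {w} = ⊤)
    {p : k[X]} (hp : Irreducible p) (hpO : ∀ h : k[X], aeval w h ∈ O.nonunits ↔ p ∣ h)
    (hv0 : O.valuation (aeval w p) ≠ 0) {z : K} (hz : z ∈ O) :
    ∃ h : k[X], z - aeval w h ∈ O.nonunits := by
  by_cases hz0 : z = 0
  · refine ⟨0, ?_⟩
    rw [hz0, map_zero, sub_zero, ValuationSubring.mem_nonunits_iff, map_zero]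
    exact zero_lt_one
  have hv1 : O.valuation (aeval w p) < 1 :=
    (ValuationSubring.mem_nonunits_iff _).1 ((hpO p).2 dvd_rfl)
  have hp0 : aeval w p ≠ 0 := (Valuation.ne_zero_iff _).1 hv0
  obtain ⟨a, b, rfl⟩ := exists_frac hgen z
  have ha : a ≠ 0 := by rintro rfl; exact hz0 (by rw [map_zero, zero_div])
  have hb : b ≠ 0 := by rintro rfl; exact hz0 (by rw [map_zero, div_zero])
  obtain ⟨m, a', ha', rfl⟩ := exists_factor hp ha
  obtain ⟨l, b', hb', rfl⟩ := exists_factor hp hb
  have hva := val_unit hk hw hpO ha'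
  have hvb := val_unit hk hw hpO hb'
  have hb0 : aeval w b' ≠ 0 := (Valuation.ne_zero_iff O.valuation).1 (by rw [hvb]; exact one_ne_zero)
  have hlm : l ≤ m := by
    by_contra hlm
    push Not at hlm
    have h1 := (O.valuation_le_one_iff _).2 hz
    rw [map_div₀, map_mul, map_pow, map_mul, map_pow, map_mul, map_pow, map_mul, map_pow, hva, hvb,
      mul_one, mul_one, div_le_one₀ (pow_pos (zero_lt_iff.2 hv0) _)] at h1
    exact absurd h1 (not_le.2 (pow_lt_pow_right_of_lt_one₀ (zero_lt_iff.2 hv0) hv1 hlm))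
  obtain ⟨u, t, hut⟩ : IsCoprime b' p := (hp.coprime_iff_not_dvd.2 hb').symm
  refine ⟨p ^ (m - l) * a' * u, ?_⟩
  have h1 : aeval w (p ^ m * a') / aeval w (p ^ l * b') - aeval w (p ^ (m - l) * a' * u) =
      aeval w (p ^ (m - l) * a' * t * p) / aeval w b' := by
    have h2 : aeval w u * aeval w b' + aeval w t * aeval w p = 1 := by
      rw [← map_mul, ← map_mul, ← map_add, hut, map_one]
    have h3 : aeval w (p ^ m * a') / aeval w (p ^ l * b') =
        aeval w (p ^ (m - l) * a') / aeval w b' := by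
      obtain ⟨i, rfl⟩ := Nat.exists_eq_add_of_le hlm
      rw [Nat.add_sub_cancel_left]
      simp only [map_mul, map_pow]
      field_simp
      ring
    rw [h3, div_sub' hb0]
    congr 1
    simp only [map_mul, map_pow]
    linear_combination (-(aeval w p) ^ (m - l) * aeval w a') * h2
  rw [h1, ValuationSubring.mem_nonunits_iff, map_div₀, hvb, div_one, map_mul, map_mul]
  calc O.valuation (aeval w (p ^ (m - l) * a' * t)) * O.valuation (aeval w p)
      ≤ 1 * O.valuation (aeval w p) :=
        mul_le_mul_left ((O.valuation_le_one_iff _).2 (aeval_mem_O hk hw _)) _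
    _ < 1 := by rw [one_mul]; exact hv1

/-- The degree of a place is the dimension of the residue field. -/
theorem finrank_of_data (hk : ∀ c : k, algebraMap k K c ∈ O)
    [Algebra k (IsLocalRing.ResidueField O)]
    (hkO : ∀ c : k, algebraMap k (IsLocalRing.ResidueField O) c =
      IsLocalRing.residue O ⟨algebraMap k K c, hk c⟩)
    {θ : K} (hθ : θ ∈ O) {q : k[X]} (hq : Irreducible q) (hqθ : aeval θ q ∈ O.nonunits)
    (hall : ∀ z ∈ O, ∃ h : k[X], z - aeval θ h ∈ O.nonunits) :
    Module.finrank k (IsLocalRing.ResidueField O) = q.natDegree := by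
  classical
  set θ' : IsLocalRing.ResidueField O := IsLocalRing.residue O ⟨θ, hθ⟩ with hθ'
  have hae : ∀ h : k[X], aeval θ' h = IsLocalRing.residue O ⟨aeval θ h, aeval_mem_O hk hθ h⟩ := by
    intro h
    let i : k →+* O := (algebraMap k K).codRestrict O.toSubring hk
    have h1 : algebraMap k (IsLocalRing.ResidueField O) = (IsLocalRing.residue O).comp i :=
      RingHom.ext hkO
    rw [aeval_def, h1, hθ', ← hom_eval₂]
    congr 1
    apply Subtype.ext
    have h2 : O.subtype (eval₂ i (⟨θ, hθ⟩ : O) h) = eval₂ (O.subtype.comp i) θ h := hom_eval₂ h i O.subtype _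
    exact h2
  have hroot : aeval θ' q = 0 := by
    rw [hae, IsLocalRing.residue_eq_zero_iff]
    exact (ValuationSubring.coe_mem_nonunits_iff (a := (⟨aeval θ q, aeval_mem_O hk hθ q⟩ : O))).1 hqθ
  have htop : IntermediateField.adjoin k {θ'} = ⊤ := by
    rw [eq_top_iff]
    rintro z -
    obtain ⟨y, rfl⟩ := IsLocalRing.residue_surjective z
    obtain ⟨h, hh⟩ := hall (y : K) y.2
    have h1 : IsLocalRing.residue O y = aeval θ' h := by
      rw [hae, ← sub_eq_zero, ← map_sub, IsLocalRing.residue_eq_zero_iff]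
      refine (ValuationSubring.coe_mem_nonunits_iff
        (a := (y - ⟨aeval θ h, aeval_mem_O hk hθ h⟩ : O))).1 ?_
      exact hh
    rw [h1]
    exact (IntermediateField.mem_adjoin_simple_iff k _).2 ⟨h, 1, by rw [map_one, div_one]⟩
  have hint : IsIntegral k θ' := by
    refine (isAlgebraic_iff_isIntegral).1 ⟨q, hq.ne_zero, hroot⟩
  have h2 := IntermediateField.adjoin.finrank hint
  rw [htop, IntermediateField.finrank_top'] at h2
  rw [h2, ← minpoly.eq_of_irreducible hq hroot, natDegree_mul_C]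
  exact inv_ne_zero (leadingCoeff_ne_zero.2 hq.ne_zero)

theorem deg_unique (hk : ∀ c : k, algebraMap k K c ∈ O) {ρ : ℕ} (h : HasDeg k O ρ)
    {θ : K} (hθ : θ ∈ O) {q : k[X]} (hq : Irreducible q) (hqθ : aeval θ q ∈ O.nonunits)
    (hall : ∀ z ∈ O, ∃ h : k[X], z - aeval θ h ∈ O.nonunits) : ρ = q.natDegree := by
  obtain ⟨θ₁, hθ₁, q₁, hq₁, hρ, hqθ₁, hall₁⟩ := h
  let i : k →+* O := (algebraMap k K).codRestrict O.toSubring hk
  let : Algebra k (IsLocalRing.ResidueField O) := ((IsLocalRing.residue O).comp i).toAlgebra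
  have hkO : ∀ c : k, algebraMap k (IsLocalRing.ResidueField O) c =
      IsLocalRing.residue O ⟨algebraMap k K c, hk c⟩ := fun _ => rfl
  rw [← hρ, ← finrank_of_data hk hkO hθ hq hqθ hall, finrank_of_data hk hkO hθ₁ hq₁ hqθ₁ hall₁]

theorem ordGcd_eq {ϖ g : K} (hv0 : O.valuation ϖ ≠ 0) (hv1 : O.valuation ϖ < 1)
    (hall : ∀ z : K, z ≠ 0 → ∃ i : ℤ, O.valuation z = O.valuation ϖ ^ i) {M : ℤ}
    (hg : O.valuation g = O.valuation ϖ ^ M) {n δ : ℕ} (hn : 0 < n) (h : OrdGcd O g n δ) :
    δ = Int.gcd n M := by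
  have key : ∀ e : ℕ, e ∣ δ ↔ e ∣ Int.gcd n M := by
    intro e
    rw [h e]
    constructor
    · rintro ⟨h1, x, hx⟩
      have he : 0 < e := Nat.pos_of_dvd_of_pos h1 hn
      have hx0 : x ≠ 0 := by
        rintro rfl
        rw [zero_pow he.ne', map_zero, hg] at hx
        exact zpow_ne_zero _ hv0 hx
      obtain ⟨i, hi⟩ := hall x hx0
      rw [map_pow, hi, hg, ← zpow_natCast, ← zpow_mul] at hx
      have h2 := zpow_val_ne_one hv0 hv1 hx
      have h3 : (e : ℤ) ∣ M := ⟨i, by rw [h2, mul_comm]⟩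
      exact Int.natCast_dvd_natCast.1 (Int.dvd_coe_gcd (Int.natCast_dvd_natCast.2 h1) h3)
    · intro h1
      have h2 : (e : ℤ) ∣ (Int.gcd n M : ℤ) := Int.natCast_dvd_natCast.2 h1
      refine ⟨Int.natCast_dvd_natCast.1 (h2.trans (Int.gcd_dvd_left ..)), ?_⟩
      obtain ⟨i, hi⟩ := h2.trans (Int.gcd_dvd_right ..)
      refine ⟨ϖ ^ i, ?_⟩
      rw [hg, map_pow, map_zpow₀, hi, ← zpow_natCast, ← zpow_mul, mul_comm]
  exact Nat.dvd_antisymm ((key δ).1 dvd_rfl) ((key _).2 dvd_rfl)

end place

section pols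

variable {r : ℕ} {d : Fin r → ℕ} {k : Type u} [Field k]

theorem pol_coeff (c : Idx d → k) (s : Fin r) (i : ℕ) (hi : i < d s + 1) :
    (pol c s).coeff i = c (some ⟨s, ⟨i, hi⟩⟩) := by
  rw [pol, finsetSum_coeff]
  rw [Finset.sum_eq_single (⟨i, hi⟩ : Fin (d s + 1))]
  · rw [coeff_C_mul, coeff_X_pow, if_pos rfl, mul_one]
  · intro b _ hb
    rw [coeff_C_mul, coeff_X_pow, if_neg, mul_zero]
    intro h
    exact hb (Fin.ext h.symm)
  · intro h; exact absurd (Finset.mem_univ _) h

theorem pol_natDegree {c : Idx d → k} {s : Fin r} (h : c (some ⟨s, Fin.last (d s)⟩) ≠ 0) :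
    (pol c s).natDegree = d s := by
  refine natDegree_eq_of_le_of_coeff_ne_zero ?_ ?_
  · rw [pol]
    refine natDegree_sum_le_of_forall_le _ _ fun i _ => ?_
    refine (natDegree_C_mul_X_pow_le _ _).trans ?_
    exact Nat.lt_succ_iff.1 i.2
  · rw [pol_coeff c s (d s) (Nat.lt_succ_self _)]
    exact h

end pols

/-- **The degrees of the special points are explicit.** -/
theorem ptDeg_explicit {r : ℕ} {d : Fin r → ℕ} {k K₁ : Type u} [Field k] [CharZero k] [Field K₁] [Algebra k K₁]
    {x : K₁} (hx : Transcendental k x) (hgen : IntermediateField.adjoin k {x} = ⊤) {c : Idx d → k}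
    (hlc : ∀ s, c (some ⟨s, Fin.last (d s)⟩) ≠ 0) (hirr : ∀ s, Irreducible (pol c s))
    (hsep : (polT c).Separable) (e : Fin r → ℕ) {n j q : ℕ} (hn : 0 < n)
    (h : PtDeg k (aeval x (polE c e)) n j q) : q ∈ AddSubmonoid.closure (expl d e n j) := by
  classical
  rcases h with h | ⟨O, ρ, δ, hO, hk, hdeg, hδ, rfl⟩
  · exact AddSubmonoid.subset_closure (Or.inl h)
  by_cases hxO : x ∈ O
  · -- a finite place
    obtain ⟨p, hp, hpO⟩ := exists_irr hk hO hxO hgen
    have hgv : O.valuation (aeval x (polE c e)) = ∏ s, O.valuation (aeval x (pol c s)) ^ e s := by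
      rw [polE, map_prod, map_prod]
      exact Finset.prod_congr rfl fun s _ => by rw [map_pow, map_pow]
    by_cases hs : ∃ s, p ∣ pol c s
    · obtain ⟨s, hs⟩ := hs
      have hass : Associated p (pol c s) := hp.associated_of_dvd (hirr s) hs
      have hsO : ∀ h : k[X], aeval x h ∈ O.nonunits ↔ pol c s ∣ h := fun h => by
        rw [hpO, hass.dvd_iff_dvd_left]
      have hne : ∀ s', s' ≠ s → ¬ pol c s ∣ pol c s' := by
        intro s' hs' hd
        have h1 : pol c s * pol c s ∣ polT c := by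
          rw [polT, ← Finset.mul_prod_erase Finset.univ _ (Finset.mem_univ s)]
          refine mul_dvd_mul_left _ (hd.trans (Finset.dvd_prod_of_mem _ ?_))
          exact Finset.mem_erase.2 ⟨hs', Finset.mem_univ _⟩
        exact (hirr s).not_isUnit (hsep.squarefree _ h1)
      have hvp0 : O.valuation (aeval x (pol c s)) ≠ 0 := by
        rw [Valuation.ne_zero_iff]
        intro h0
        exact (hirr s).ne_zero ((transcendental_iff.1 hx) _ h0)
      have hvp1 : O.valuation (aeval x (pol c s)) < 1 :=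
        (ValuationSubring.mem_nonunits_iff _).1 ((hsO _).2 dvd_rfl)
      have hρ : ρ = d s := by
        rw [← pol_natDegree (hlc s)]
        exact deg_unique hk hdeg hxO (hirr s) ((hsO _).2 dvd_rfl)
          fun z hz => res_poly hk hxO hgen (hirr s) hsO hvp0 hz
      have hgv' : O.valuation (aeval x (polE c e)) =
          O.valuation (aeval x (pol c s)) ^ ((e s : ℕ) : ℤ) := by
        rw [hgv, zpow_natCast]
        refine Finset.prod_eq_single s (fun s' _ hs' => ?_) (fun h => absurd (Finset.mem_univ _) h)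
        rw [val_unit hk hxO hsO (hne s' hs'), one_pow]
      have hδ' : δ = Int.gcd n (e s) := ordGcd_eq hvp0 hvp1
        (fun z hz => val_pow hk hxO hgen (hirr s) hsO hz hvp0) hgv' hn hδ
      rw [Int.gcd_natCast_natCast] at hδ'
      refine AddSubmonoid.subset_closure (Or.inr (Or.inl ⟨s, ?_⟩))
      rw [hρ, hδ']
    · push Not at hs
      have hvp0 : O.valuation (aeval x p) ≠ 0 := by
        rw [Valuation.ne_zero_iff]
        intro h0
        exact hp.ne_zero ((transcendental_iff.1 hx) _ h0)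
      have hvp1 : O.valuation (aeval x p) < 1 :=
        (ValuationSubring.mem_nonunits_iff _).1 ((hpO _).2 dvd_rfl)
      have hgv' : O.valuation (aeval x (polE c e)) = O.valuation (aeval x p) ^ (0 : ℤ) := by
        rw [hgv, zpow_zero]
        exact Finset.prod_eq_one fun s _ => by rw [val_unit hk hxO hpO (hs s), one_pow]
      have hδ' : δ = Int.gcd n 0 := ordGcd_eq hvp0 hvp1
        (fun z hz => val_pow hk hxO hgen hp hpO hz hvp0) hgv' hn hδ
      rw [Int.gcd_zero_right, Int.natAbs_natCast] at hδ'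
      rw [hδ', ← smul_eq_mul]
      have hmem : n / Nat.gcd n j ∈ AddSubmonoid.closure (expl d e n j) :=
        AddSubmonoid.subset_closure (Or.inl rfl)
      exact nsmul_mem hmem ρ
  · -- the place at infinity
    have hx0 : x ≠ 0 := by
      rintro rfl
      exact hxO O.zero_mem
    have hvx : 1 < O.valuation x := by
      rw [← not_le, O.valuation_le_one_iff]
      exact hxO
    have hvx0 : O.valuation x ≠ 0 := (Valuation.ne_zero_iff _).2 hx0
    have hvw1 : O.valuation x⁻¹ < 1 := by
      rw [map_inv₀]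
      exact inv_lt_one_of_one_lt₀ hvx
    have hvw0 : O.valuation x⁻¹ ≠ 0 := (Valuation.ne_zero_iff _).2 (inv_ne_zero hx0)
    have hwN : x⁻¹ ∈ O.nonunits := (ValuationSubring.mem_nonunits_iff _).2 hvw1
    have hwO : x⁻¹ ∈ O := (O.valuation_le_one_iff _).1 hvw1.le
    have hgen' : IntermediateField.adjoin k {x⁻¹} = ⊤ := by
      rw [eq_top_iff, ← hgen, IntermediateField.adjoin_simple_le_iff]
      have h1 := inv_mem (IntermediateField.mem_adjoin_simple_self k x⁻¹)
      rwa [inv_inv] at h1
    obtain ⟨p, hp, hpO⟩ := exists_irr hk hO hwO hgen'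
    have hpX : p ∣ X := by
      rw [← hpO, aeval_X]
      exact hwN
    have hass : Associated p X := hp.associated_of_dvd irreducible_X hpX
    have hXO : ∀ h : k[X], aeval x⁻¹ h ∈ O.nonunits ↔ X ∣ h := fun h => by
      rw [hpO, hass.dvd_iff_dvd_left]
    have hvX0 : O.valuation (aeval x⁻¹ (X : k[X])) ≠ 0 := by
      rw [aeval_X]; exact hvw0
    have hρ : ρ = 1 := by
      rw [← natDegree_X (R := k)]
      exact deg_unique hk hdeg hwO irreducible_X ((hXO _).2 dvd_rfl)
        fun z hz => res_poly hk hwO hgen' irreducible_X hXO hvX0 hz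
    have hfs : ∀ s, O.valuation (aeval x (pol c s)) = O.valuation x⁻¹ ^ (-(d s : ℤ)) := by
      intro s
      have : Invertible x := invertibleOfNonzero hx0
      have h1 := eval₂_reverse_mul_pow (algebraMap k K₁) x (pol c s)
      rw [invOf_eq_inv] at h1
      have h2 : ¬ X ∣ (pol c s).reverse := by
        rw [X_dvd_iff, coeff_zero_reverse, leadingCoeff_eq_zero]
        exact (hirr s).ne_zero
      have h3 := val_unit hk hwO hXO h2
      rw [aeval_def] at h3 ⊢
      rw [← h1, map_mul, h3, one_mul, map_pow, pol_natDegree (hlc s), map_inv₀, inv_zpow', neg_neg,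
        zpow_natCast]
    have hgv' : O.valuation (aeval x (polE c e)) =
        O.valuation x⁻¹ ^ (-((∑ s, e s * d s : ℕ) : ℤ)) := by
      rw [polE, map_prod, map_prod]
      have h1 : ∀ s ∈ (Finset.univ : Finset (Fin r)), O.valuation (aeval x (pol c s ^ e s)) =
          (O.valuation x) ^ (e s * d s) := by
        intro s _
        rw [map_pow, map_pow, hfs, map_inv₀, inv_zpow', neg_neg, zpow_natCast, ← pow_mul, mul_comm]
      rw [Finset.prod_congr rfl h1, Finset.prod_pow_eq_pow_sum, map_inv₀, inv_zpow', neg_neg,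
        zpow_natCast]
    have hall : ∀ z : K₁, z ≠ 0 → ∃ i : ℤ, O.valuation z = O.valuation x⁻¹ ^ i := by
      intro z hz
      have h1 := val_pow hk hwO hgen' irreducible_X hXO hz hvX0
      rwa [aeval_X] at h1
    have hδ' := ordGcd_eq hvw0 hvw1 hall hgv' hn hδ
    rw [Int.gcd_neg, Int.gcd_natCast_natCast] at hδ'
    refine AddSubmonoid.subset_closure (Or.inr (Or.inr ?_))
    rw [hρ, one_mul, hδ']

end Pool.Agent.SE
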