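import Pool.Agent.Helper37.TWH.A5

/-!
# Project SE, block H1: good discriminants for the members of a family
-/

universe u

set_option linter.unusedSectionVars false

namespace Pool.Agent.SE

open Polynomial Pool.Agent.LT Pool.Agent.GC Pool.Agent.SC Pool.Agent.TWH

/-- A certificate for units: a relation whose constant term divides `D`. -/
def HasU {B R : Type u} [CommRing B] [CommRing R] (φ : B →+* R) (e : R) (D : B) : Prop :=
  ∃ M : B[X], M.eval₂ φ e = 0 ∧ M.coeff 0 ∣ D

theorem HasU.map {B R S : Type u} [CommRing B] [CommRing R] [CommRing S] {φ : B →+* R} {e : R}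
    {D : B} (h : HasU φ e D) (ρ : R →+* S) : HasU (ρ.comp φ) (ρ e) D := by
  obtain ⟨M, h1, h2⟩ := h
  refine ⟨M, ?_, h2⟩
  rw [← Polynomial.hom_eval₂, h1, map_zero]

theorem HasU.of_map {B R S : Type u} [CommRing B] [CommRing R] [CommRing S] {φ : B →+* R} {e : R}
    {D : B} {ρ : R →+* S} (h : HasU (ρ.comp φ) (ρ e) D) (hρ : Function.Injective ρ) :
    HasU φ e D := by
  obtain ⟨M, h1, h2⟩ := h
  refine ⟨M, ?_, h2⟩
  apply hρ
  rw [Polynomial.hom_eval₂, h1, map_zero]

theorem HasU.mul_left {B R : Type u} [CommRing B] [CommRing R] {φ : B →+* R} {e : R} {D : B}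
    (h : HasU φ e D) (D' : B) : HasU φ e (D' * D) := by
  obtain ⟨M, h1, h2⟩ := h
  exact ⟨M, h1, h2.mul_left D'⟩

theorem HasU.ne_zero {B k : Type u} [CommRing B] [CommRing k] {φ : B →+* k} {e : k} {D : B}
    (h : HasU φ e D) (hD : φ D ≠ 0) : e ≠ 0 := by
  rintro rfl
  obtain ⟨M, h1, d, hd⟩ := h
  rw [eval₂_at_zero] at h1
  apply hD
  rw [hd, map_mul, h1, zero_mul]

theorem HasU.unit {B Ω : Type u} [CommRing B] [Field Ω] {φ : B →+* Ω} {e : Ω} {D : B}
    (h : HasU φ e D) {W : ValuationSubring Ω} (hφ : ∀ b, φ b ∈ W) (he : e ∈ W)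
    (hD : φ D ∉ W.nonunits) : e ∉ W.nonunits := by
  obtain ⟨M, h1, d, hd⟩ := h
  intro hen
  apply hD
  have h2 : φ (M.coeff 0) = -(M.divX.eval₂ φ e * e) := by
    have h3 := congrArg (fun p : B[X] => p.eval₂ φ e) (divX_mul_X_add M)
    simp only [eval₂_add, eval₂_mul, eval₂_X, eval₂_C] at h3
    rw [h1] at h3
    linear_combination h3
  have h4 : M.divX.eval₂ φ e ∈ W := by
    rw [eval₂_eq_sum_range]
    exact sum_mem fun i _ => W.mul_mem _ _ (hφ _) (pow_mem he i)
  rw [ValuationSubring.mem_nonunits_iff] at hen ⊢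
  rw [hd, map_mul, h2, neg_mul, ← mul_neg, map_mul, map_mul]
  have h5 := (W.valuation_le_one_iff _).2 h4
  have h6 := (W.valuation_le_one_iff _).2 (W.neg_mem _ (hφ d))
  calc W.valuation (M.divX.eval₂ φ e) * W.valuation e * W.valuation (-φ d)
      ≤ 1 * W.valuation e * 1 := by gcongr
    _ < 1 := by rw [one_mul, mul_one]; exact hen

/-- Unit certificates for finitely many nonzero elements. -/
theorem exists_us {B L : Type u} [CommRing B] [IsDomain B] [Field L] (φ : B →+* L)
    (E : Finset L) (hE : 0 ∉ E)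
    (he : ∀ e ∈ E, ∃ p : B[X], p ≠ 0 ∧ p.eval₂ φ e = 0) :
    ∃ D : B, D ≠ 0 ∧ ∀ e ∈ E, HasU φ e D := by
  classical
  induction E using Finset.induction_on with
  | empty => exact ⟨1, one_ne_zero, fun e he => absurd he (Finset.notMem_empty e)⟩
  | insert e E heE ih =>
    obtain ⟨D, hD, h⟩ := ih (fun h0 => hE (Finset.mem_insert_of_mem h0))
      fun e he' => he e (Finset.mem_insert_of_mem he')
    obtain ⟨p, hp0, hp⟩ := he e (Finset.mem_insert_self _ _)
    have he0 : e ≠ 0 := by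
      rintro rfl
      exact hE (Finset.mem_insert_self _ _)
    obtain ⟨p₂, hp₂⟩ : X ^ p.natTrailingDegree ∣ p :=
      X_pow_dvd_iff.2 fun i hi => coeff_eq_zero_of_lt_natTrailingDegree hi
    have hp₂0 : p₂.coeff 0 ≠ 0 := by
      have h1 : p.coeff p.natTrailingDegree ≠ 0 := trailingCoeff_nonzero_iff_nonzero.2 hp0
      have h2 : p.coeff p.natTrailingDegree = p₂.coeff 0 := by
        have h3 := coeff_X_pow_mul p₂ p.natTrailingDegree 0
        rwa [zero_add, ← hp₂] at h3
      rwa [h2] at h1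
    have hp₂e : p₂.eval₂ φ e = 0 := by
      rw [hp₂, eval₂_mul, eval₂_X_pow] at hp
      exact (mul_eq_zero.1 hp).resolve_left (pow_ne_zero _ he0)
    refine ⟨p₂.coeff 0 * D, mul_ne_zero hp₂0 hD, fun e' he' => ?_⟩
    rcases Finset.mem_insert.1 he' with rfl | he'
    · exact ⟨p₂, hp₂e, dvd_mul_right _ _⟩
    · exact (h e' he').mul_left _

/-- the universal certificates for elements of the polynomial ring -/
theorem exists_univ_certsF' (L : Type u) {F₁ k₀ : Type u} [Field F₁] [CharZero F₁] [Field k₀]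
    [Algebra F₁ k₀] {ι : Type}
    [Field L] [Algebra (MvPolynomial ι k₀) L] [IsFractionRing (MvPolynomial ι k₀) L] [Algebra k₀ L]
    [IsScalarTower k₀ (MvPolynomial ι k₀) L] [Algebra F₁ L] [IsScalarTower F₁ k₀ L] [DecidableEq ι]
    {t u : k₀} {i : ι} {s : Finset ι} {w : ι → k₀} (htu : AlgebraicIndependent F₁ ![t, u])
    (hi : i ∈ s) (hw : w i = t)
    (hk : ∀ z : k₀, IsAlgebraic (IntermediateField.adjoin F₁ {t, u}) z)
    (E U : Finset (MvPolynomial ι k₀)) (hU : 0 ∉ U) :
    ∃ D : (MvPolynomial ι F₁)[X][X], D ≠ 0 ∧ (∀ e ∈ E, HasCert (B := (MvPolynomial ι F₁)[X][X])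
      (phi F₁ s w u) e D) ∧ ∀ e ∈ U, HasU (B := (MvPolynomial ι F₁)[X][X]) (phi F₁ s w u) e D := by
  classical
  have hinj : Function.Injective (algebraMap (MvPolynomial ι k₀) L) := IsFractionRing.injective _ _
  have hL0 : CharZero L := charZero_of_injective_algebraMap (algebraMap F₁ L).injective
  obtain ⟨D, hD, hcert⟩ := exists_certs (B := (MvPolynomial ι F₁)[X][X])
    ((algebraMap (MvPolynomial ι k₀) L).comp (phi F₁ s w u)) (phi_injective L htu hi hw)
    (E.image fun e => algebraMap (MvPolynomial ι k₀) L e)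
    (fun e _ => phi_algebraic L htu hi hw hk e)
  obtain ⟨D', hD', hu⟩ := exists_us (B := (MvPolynomial ι F₁)[X][X])
    ((algebraMap (MvPolynomial ι k₀) L).comp (phi F₁ s w u))
    (U.image fun e => algebraMap (MvPolynomial ι k₀) L e) (by
      intro h0
      obtain ⟨p, hp, hp0⟩ := Finset.mem_image.1 h0
      apply hU
      have h1 : p = 0 := hinj (by rw [hp0, map_zero])
      rwa [h1] at hp)
    (fun e _ => phi_algebraic L htu hi hw hk e)
  refine ⟨D' * D, mul_ne_zero hD' hD, fun e he => ?_, fun e he => ?_⟩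
  · obtain ⟨M, P, N, h1, h2, h3⟩ := (hcert _ (Finset.mem_image_of_mem _ he)).of_map hinj
    refine ⟨M, C D' * P, C D' * N, h1, ?_, dvd_mul_of_dvd_right h3 D'⟩
    rw [C_mul, ← h2]
    ring
  · obtain ⟨M, h1, h2⟩ := (hu _ (Finset.mem_image_of_mem _ he)).of_map hinj
    exact ⟨M, h1, dvd_mul_of_dvd_left h2 D⟩

theorem exists_univ_certsF {F₁ k₀ : Type u} [Field F₁] [CharZero F₁] [Field k₀]
    [Algebra F₁ k₀] {ι : Type} [DecidableEq ι]
    {t u : k₀} {i : ι} {s : Finset ι} {w : ι → k₀} (htu : AlgebraicIndependent F₁ ![t, u])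
    (hi : i ∈ s) (hw : w i = t)
    (hk : ∀ z : k₀, IsAlgebraic (IntermediateField.adjoin F₁ {t, u}) z)
    (E U : Finset (MvPolynomial ι k₀)) (hU : 0 ∉ U) :
    ∃ D : (MvPolynomial ι F₁)[X][X], D ≠ 0 ∧ (∀ e ∈ E, HasCert (B := (MvPolynomial ι F₁)[X][X])
      (phi F₁ s w u) e D) ∧ ∀ e ∈ U, HasU (B := (MvPolynomial ι F₁)[X][X]) (phi F₁ s w u) e D :=
  exists_univ_certsF' (FractionRing (MvPolynomial ι k₀)) htu hi hw hk E U hU

/-- **Good discriminants for the members of a family**, outside a hypersurface. -/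
theorem exists_goodAtF {F₁ k₀ : Type u} [Field F₁] [CharZero F₁] [Field k₀] [Algebra F₁ k₀]
    {ι κ : Type} [Fintype ι] [DecidableEq ι] [Fintype κ] [DecidableEq κ] {w : ι → k₀} {i j l : ι}
    (hl : w l = 1) (hij : AlgebraicIndependent F₁ ![w i, w j])
    (hk : ∀ z : k₀, IsAlgebraic (IntermediateField.adjoin F₁ {w i, w j}) z)
    (E U : Finset (MvPolynomial κ k₀)) (hUE : U ⊆ E) (hU : 0 ∉ U) :
    ∃ Ψ : MvPolynomial (ι ⊕ κ) F₁, Ψ ≠ 0 ∧ ∃ Ψ' : MvPolynomial (ι ⊕ κ) k₀, Ψ' ≠ 0 ∧
      ∀ (F' k : Type u) [Field F'] [Field k] [Algebra F₁ F'] [Algebra F' k] [Algebra k₀ k]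
        [Algebra F₁ k] [IsScalarTower F₁ F' k] [IsScalarTower F₁ k₀ k] [DecidableEq k]
        (a : ι ⊕ κ → F'),
        MvPolynomial.aeval a Ψ ≠ 0 → MvPolynomial.aeval (fun e => algebraMap F' k (a e)) Ψ' ≠ 0 →
        (∃ Δ : F'[X][X], GoodDisc Δ ∧
          GoodAt F' (∑ e, algebraMap F' k (a (Sum.inl e)) * algebraMap k₀ k (w e))
            (algebraMap k₀ k (w j)) Δ
            (E.image (MvPolynomial.aeval fun q => algebraMap F' k (a (Sum.inr q))) ∪
              U.image fun p => (MvPolynomial.aeval (fun q => algebraMap F' k (a (Sum.inr q))) p)⁻¹)) ∧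
        (∀ p ∈ U, MvPolynomial.aeval (fun q => algebraMap F' k (a (Sum.inr q))) p ≠ 0) ∧
        ∀ e ∈ E, IsAlgebraic (IntermediateField.adjoin F'
          {∑ e, algebraMap F' k (a (Sum.inl e)) * algebraMap k₀ k (w e), algebraMap k₀ k (w j)})
            (MvPolynomial.aeval (fun q => algebraMap F' k (a (Sum.inr q))) e) := by
  classical
  -- the three indices are different
  have hlj : j ≠ l := by
    rintro rfl
    rw [hl] at hij
    exact transc_F_u hij isAlgebraic_one
  have hli : i ≠ l := by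
    rintro rfl
    rw [hl] at hij
    exact transc_F_t hij isAlgebraic_one
  have hne : i ≠ j := by
    rintro rfl
    have h1 := hij.injective (show ![w i, w i] 0 = ![w i, w i] 1 from rfl)
    exact absurd h1 (by decide)
  set w' : ι ⊕ κ → k₀ := Sum.elim w (fun _ => 0) with hw'
  set s : Finset (ι ⊕ κ) := Finset.univ \ {Sum.inl l, Sum.inl j} with hs
  have his : Sum.inl i ∈ s := by
    rw [hs, Finset.mem_sdiff, Finset.mem_insert, Finset.mem_singleton]
    exact ⟨Finset.mem_univ _, fun h => h.elim (fun h => hli (Sum.inl_injective h))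
      fun h => hne (Sum.inl_injective h)⟩
  have hes : ∀ e ∈ s, e ≠ Sum.inl l ∧ e ≠ Sum.inl j := by
    intro e he
    rw [hs, Finset.mem_sdiff, Finset.mem_insert, Finset.mem_singleton, not_or] at he
    exact he.2
  let rn : MvPolynomial κ k₀ → MvPolynomial (ι ⊕ κ) k₀ := MvPolynomial.rename Sum.inr
  have hrn0 : ∀ p, rn p = 0 → p = 0 := fun p hp =>
    MvPolynomial.rename_injective _ Sum.inr_injective (hp.trans (map_zero _).symm)
  obtain ⟨D, hD, hcert, hu⟩ := exists_univ_certsF (ι := ι ⊕ κ) (w := w') hij his rfl hk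
    (E.image rn) (U.image rn) (by
      intro h0
      obtain ⟨p, hp, hp0⟩ := Finset.mem_image.1 h0
      apply hU
      rwa [hrn0 p hp0] at hp)
  have hlj' : (Sum.inl j : ι ⊕ κ) ≠ Sum.inl l := fun h => hlj (Sum.inl_injective h)
  obtain ⟨Ψ, hΨ, c, c', Δ, N, hspread⟩ := exists_spread hD hlj'
  refine ⟨Ψ, hΨ, shiftP k₀ (Sum.inl j) (algebraMap F₁ k₀ c) (shiftP k₀ (Sum.inl l)
    (algebraMap F₁ k₀ c') (phi F₁ s w' (w j) D)), shiftP_ne_zero _ _ (shiftP_ne_zero _ _
      (phi_ne_zero hij his rfl hD)), ?_⟩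
  intro F' k _ _ _ _ _ _ _ _ _ a ha ha'
  set b : ι ⊕ κ → F' := fun e => (a e + if e = Sum.inl j then algebraMap F₁ F' c else 0) +
    if e = Sum.inl l then algebraMap F₁ F' c' else 0 with hb
  have hbr : ∀ q, b (Sum.inr q) = a (Sum.inr q) := by
    intro q
    rw [hb]
    simp only [reduceCtorEq, if_false, add_zero]
  set f : MvPolynomial (ι ⊕ κ) F₁ →ₐ[F₁] F' := MvPolynomial.aeval b with hf
  obtain ⟨hΔ, hdvd⟩ := hspread F' a ha f hf
  set v : k := ∑ e, algebraMap F' k (a (Sum.inl e)) * algebraMap k₀ k (w e) with hv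
  set T : k := ∑ e ∈ s, algebraMap F' k (b e) * algebraMap k₀ k (w' e) with hT
  have hvT : v = T - algebraMap F' k (-a (Sum.inl j)) * algebraMap k₀ k (w j) -
      algebraMap F' k (-a (Sum.inl l)) := by
    have h0 : v = ∑ e, algebraMap F' k (a e) * algebraMap k₀ k (w' e) := by
      rw [hv, Fintype.sum_sum_type]
      have h3 : ∑ q : κ, algebraMap F' k (a (Sum.inr q)) * algebraMap k₀ k (w' (Sum.inr q)) = 0 := by
        refine Finset.sum_eq_zero fun q _ => ?_
        rw [hw', Sum.elim_inr, map_zero, mul_zero]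
      rw [h3, add_zero]
      rfl
    have h1 : v = ∑ e ∈ s, algebraMap F' k (a e) * algebraMap k₀ k (w' e) +
        ∑ e ∈ ({Sum.inl l, Sum.inl j} : Finset (ι ⊕ κ)),
          algebraMap F' k (a e) * algebraMap k₀ k (w' e) := by
      rw [h0, hs, Finset.sum_sdiff (Finset.subset_univ _)]
    have h2 : T = ∑ e ∈ s, algebraMap F' k (a e) * algebraMap k₀ k (w' e) := by
      rw [hT]
      refine Finset.sum_congr rfl fun e he => ?_
      obtain ⟨h3, h4⟩ := hes e he
      rw [hb]
      simp only [if_neg h3, if_neg h4, add_zero]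
    rw [h1, ← h2, Finset.sum_pair hlj'.symm, hw', Sum.elim_inl, Sum.elim_inl, hl, map_one, map_neg,
      map_neg]
    ring
  set φ : (MvPolynomial (ι ⊕ κ) F₁)[X][X] →+* k := (ev F' T (algebraMap k₀ k (w j))).comp
    (mapRingHom (mapRingHom f.toRingHom)) with hφ
  have hspec : (MvPolynomial.aeval (fun e => algebraMap F' k (b e)) :
      MvPolynomial (ι ⊕ κ) k₀ →ₐ[k₀] k).toRingHom.comp (phi F₁ s w' (w j)) = φ :=
    spec_phi s w' (w j) b f hf
  have hevr : ∀ p : MvPolynomial κ k₀, (MvPolynomial.aeval (fun e => algebraMap F' k (b e)) :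
      MvPolynomial (ι ⊕ κ) k₀ →ₐ[k₀] k).toRingHom (rn p) =
      MvPolynomial.aeval (fun q => algebraMap F' k (a (Sum.inr q))) p := by
    intro p
    change MvPolynomial.aeval (fun e => algebraMap F' k (b e)) (MvPolynomial.rename Sum.inr p) = _
    rw [MvPolynomial.aeval_rename]
    congr 2
    funext q
    rw [Function.comp_apply, hbr]
  have hφD0 : φ D ≠ 0 := by
    rw [aeval_shiftP, aeval_shiftP] at ha'
    have h6 : (fun e => (algebraMap F' k (a e) +
        if e = Sum.inl j then algebraMap k₀ k (algebraMap F₁ k₀ c) else 0) +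
          if e = Sum.inl l then algebraMap k₀ k (algebraMap F₁ k₀ c') else 0) =
        fun e => algebraMap F' k (b e) := by
      funext e
      rw [hb, map_add, map_add]
      congr 1
      · congr 1
        split_ifs
        · rw [← IsScalarTower.algebraMap_apply F₁ k₀ k, ← IsScalarTower.algebraMap_apply F₁ F' k]
        · rw [map_zero]
      · split_ifs
        · rw [← IsScalarTower.algebraMap_apply F₁ k₀ k, ← IsScalarTower.algebraMap_apply F₁ F' k]
        · rw [map_zero]
    rw [h6] at ha'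
    have h7 := congrArg (fun g : (MvPolynomial (ι ⊕ κ) F₁)[X][X] →+* k => g D) hspec
    change MvPolynomial.aeval (fun e => algebraMap F' k (b e)) (phi F₁ s w' (w j) D) = φ D at h7
    rw [← h7]
    exact ha'
  have hcertk : ∀ p ∈ E, HasCert (B := (MvPolynomial (ι ⊕ κ) F₁)[X][X]) φ
      (MvPolynomial.aeval (fun q => algebraMap F' k (a (Sum.inr q))) p) D := by
    intro p hp
    have h4 := (hcert _ (Finset.mem_image_of_mem rn hp)).map
      (MvPolynomial.aeval (fun e => algebraMap F' k (b e)) :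
        MvPolynomial (ι ⊕ κ) k₀ →ₐ[k₀] k).toRingHom
    rw [hspec, hevr] at h4
    exact h4
  have huk : ∀ p ∈ U, HasU (B := (MvPolynomial (ι ⊕ κ) F₁)[X][X]) φ
      (MvPolynomial.aeval (fun q => algebraMap F' k (a (Sum.inr q))) p) D := by
    intro p hp
    have h4 := (hu _ (Finset.mem_image_of_mem rn hp)).map
      (MvPolynomial.aeval (fun e => algebraMap F' k (b e)) :
        MvPolynomial (ι ⊕ κ) k₀ →ₐ[k₀] k).toRingHom
    rw [hspec, hevr] at h4
    exact h4
  refine ⟨⟨_, hΔ, ?_⟩, fun p hp => (huk p hp).ne_zero hφD0, fun e he => ?_⟩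
  swap
  · refine (hcertk e he).algebraic hφD0 ?_
    intro b'
    have hTM : T ∈ IntermediateField.adjoin F' {v, algebraMap k₀ k (w j)} := by
      have h1 : T = v + algebraMap F' k (-a (Sum.inl j)) * algebraMap k₀ k (w j) +
          algebraMap F' k (-a (Sum.inl l)) := by
        rw [hvT]; ring
      rw [h1]
      refine add_mem (add_mem (IntermediateField.subset_adjoin _ _ (Or.inl rfl))
        (mul_mem (IntermediateField.algebraMap_mem _ _)
          (IntermediateField.subset_adjoin _ _ (Or.inr rfl)))) (IntermediateField.algebraMap_mem _ _)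
    exact ⟨⟨_, ev_mem_field hTM (IntermediateField.subset_adjoin _ _ (Or.inr rfl)) _⟩, rfl⟩
  intro Ω _ _ W hFW hvW huW hunit
  have hTW : algebraMap k Ω T ∈ W := by
    have h1 : T = v + algebraMap F' k (-a (Sum.inl j)) * algebraMap k₀ k (w j) +
        algebraMap F' k (-a (Sum.inl l)) := by
      rw [hvT]; ring
    rw [h1, map_add, map_add, map_mul]
    exact W.add_mem _ _ (W.add_mem _ _ hvW (W.mul_mem _ _ (hFW _) huW)) (hFW _)
  have hunit' : algebraMap k Ω (ev F' T (algebraMap k₀ k (w j)) (D.map (mapRingHom f.toRingHom))) ∉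
      W.nonunits := by
    obtain ⟨Z, hZ⟩ := hdvd
    have h1 := pow_notMem_nonunits hunit N
    rw [← map_pow, ← map_pow, hZ, map_mul, map_mul] at h1
    have h2 := (notMem_nonunits_of_mul (ev_mem hFW hvW huW _) (ev_mem hFW hvW huW _) h1).1
    rwa [hvT, ev_shear] at h2
  have hφW : ∀ b, algebraMap k Ω (φ b) ∈ W := fun b => by
    rw [hφ, RingHom.comp_apply]
    exact ev_mem hFW hTW huW _
  have hφD : algebraMap k Ω (φ D) ∉ W.nonunits := by
    rw [hφ, RingHom.comp_apply]
    exact hunit'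
  have hτφ : ∀ τ : Ω →+* Ω, (∀ c : F', τ (algebraMap k Ω (algebraMap F' k c)) =
      algebraMap k Ω (algebraMap F' k c)) → τ (algebraMap k Ω v) = algebraMap k Ω v →
      τ (algebraMap k Ω (algebraMap k₀ k (w j))) = algebraMap k Ω (algebraMap k₀ k (w j)) →
      ∀ b, τ (algebraMap k Ω (φ b)) = algebraMap k Ω (φ b) := by
    intro τ hτF hτv hτu
    have hτT : τ (algebraMap k Ω T) = algebraMap k Ω T := by
      have h1 : T = v + algebraMap F' k (-a (Sum.inl j)) * algebraMap k₀ k (w j) +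
          algebraMap F' k (-a (Sum.inl l)) := by
        rw [hvT]; ring
      rw [h1]
      simp only [map_add, map_mul, hτF, hτv, hτu]
    have h6 : τ.comp ((algebraMap k Ω).comp (ev F' T (algebraMap k₀ k (w j)))) =
        (algebraMap k Ω).comp (ev F' T (algebraMap k₀ k (w j))) := by
      refine ringHom_ext₂ (fun c => ?_) ?_ ?_
      · rw [RingHom.comp_apply, RingHom.comp_apply, ev_C, aeval_C]
        exact hτF c
      · rw [RingHom.comp_apply, RingHom.comp_apply, ev_C, aeval_X]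
        exact hτT
      · rw [RingHom.comp_apply, RingHom.comp_apply, ev_X]
        exact hτu
    intro b
    have h7 := congrArg (fun g : F'[X][X] →+* Ω => g (mapRingHom (mapRingHom f.toRingHom) b)) h6
    rw [hφ, RingHom.comp_apply]
    exact h7
  clear_value φ
  have hall : ∀ p ∈ E, algebraMap k Ω
      (MvPolynomial.aeval (fun q => algebraMap F' k (a (Sum.inr q))) p) ∈ W ∧ ∀ τ : Ω →+* Ω,
      (∀ b, τ (algebraMap k Ω (φ b)) = algebraMap k Ω (φ b)) →
      (∀ z ∈ W, τ z - z ∈ W.nonunits) →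
      τ (algebraMap k Ω (MvPolynomial.aeval (fun q => algebraMap F' k (a (Sum.inr q))) p)) =
        algebraMap k Ω (MvPolynomial.aeval (fun q => algebraMap F' k (a (Sum.inr q))) p) := by
    intro p hp
    exact cert_good (B := (MvPolynomial (ι ⊕ κ) F₁)[X][X]) φ (hcertk p hp) W hφW hφD
  have hinvW : ∀ p ∈ U, algebraMap k Ω
      (MvPolynomial.aeval (fun q => algebraMap F' k (a (Sum.inr q))) p)⁻¹ ∈ W := by
    intro p hp
    have h1 := (hall p (hUE hp)).1
    have h2 : algebraMap k Ω (MvPolynomial.aeval (fun q => algebraMap F' k (a (Sum.inr q))) p) ∉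
        W.nonunits :=
      ((huk p hp).map (algebraMap k Ω)).unit (W := W) hφW h1 hφD
    rw [ValuationSubring.mem_nonunits_iff, not_lt] at h2
    rw [map_inv₀, ← W.valuation_le_one_iff, map_inv₀]
    exact inv_le_one_of_one_le₀ h2
  refine ⟨fun x hx => ?_, fun τ hτF hτv hτu hτW x hx => ?_⟩
  · rcases Finset.mem_union.1 hx with hx | hx
    · obtain ⟨p, hp, rfl⟩ := Finset.mem_image.1 hx
      exact (hall p hp).1
    · obtain ⟨p, hp, rfl⟩ := Finset.mem_image.1 hx
      exact hinvW p hp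
  · rcases Finset.mem_union.1 hx with hx | hx
    · obtain ⟨p, hp, rfl⟩ := Finset.mem_image.1 hx
      exact (hall p hp).2 τ (hτφ τ hτF hτv hτu) hτW
    · obtain ⟨p, hp, rfl⟩ := Finset.mem_image.1 hx
      rw [map_inv₀, map_inv₀, (hall p (hUE hp)).2 τ (hτφ τ hτF hτv hτu) hτW]

end Pool.Agent.SE
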