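import Pool.Agent.Helper10.SE.R4
import Pool.Agent.Helper10.SE.H1
import Pool.Agent.Helper37.TWU.G

/-!
# Project SE: good discriminants for families, outside a hypersurface
-/

universe u

set_option linter.unusedSectionVars false

namespace Pool.Agent.SE

open VC Polynomial Pool.Agent.LT Pool.Agent.SC Pool.Agent.GC Pool.Agent.Helper91.Sect Pool.Agent
  Pool.Agent.TWH Pool.Agent.TWU

/-- The data of a good discriminant for `c₀`, for the finite set `T`. -/
def HasGood {F k : Type u} [Field F] [Field k] [Algebra F k] (c₀ : k) (T : Finset k) : Prop :=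
  ∃ (F' : IntermediateField F k) (v u b : k) (Δ : F'[X][X]) (E : Finset k),
    (∃ S : Finset F', Subfield.closure (S : Set F') = ⊤) ∧ AlgebraicIndependent F' ![v, u] ∧
    FiniteDimensional (k0 F' v u) k ∧
    (∀ z : k, IsAlgebraic (IntermediateField.adjoin F' {v}) z →
      z ∈ IntermediateField.adjoin F' {v}) ∧
    GoodDisc Δ ∧ GoodAt F' v u Δ E ∧ IntermediateField.adjoin F' (E : Set k) = ⊤ ∧
    T ⊆ E ∧ b ≠ 0 ∧ b ∈ E ∧ b⁻¹ ∈ E ∧ c₀ = b * v

section subst

variable {k₀ : Type u} [Field k₀] {m N : ℕ} (w : Fin (m + 1) → k₀)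

/-- The substitution `C_q ↦ ∑_e w_e C_{q,e}`. -/
noncomputable def sub : MvPolynomial (Fin N) k₀ →+* MvPolynomial (Fin N × Fin (m + 1)) k₀ :=
  MvPolynomial.eval₂Hom MvPolynomial.C fun q => ∑ e, MvPolynomial.C (w e) * MvPolynomial.X (q, e)

theorem sub_C (z : k₀) : sub (N := N) w (MvPolynomial.C z) = MvPolynomial.C z :=
  MvPolynomial.eval₂_C _ _ _

theorem sub_X (q : Fin N) :
    sub w (MvPolynomial.X q) = ∑ e, MvPolynomial.C (w e) * MvPolynomial.X (q, e) :=
  MvPolynomial.eval₂_X _ _ _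

theorem sub_injective {l : Fin (m + 1)} (hl : w l ≠ 0) :
    Function.Injective (sub (N := N) w) := by
  classical
  let ρ : MvPolynomial (Fin N × Fin (m + 1)) k₀ →+* MvPolynomial (Fin N) k₀ :=
    MvPolynomial.eval₂Hom MvPolynomial.C fun p =>
      if p.2 = l then MvPolynomial.C (w l)⁻¹ * MvPolynomial.X p.1 else 0
  have h1 : ρ.comp (sub w) = RingHom.id _ := by
    apply MvPolynomial.ringHom_ext
    · intro z
      rw [RingHom.comp_apply, sub_C]
      exact MvPolynomial.eval₂_C _ _ _
    · intro q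
      rw [RingHom.comp_apply, sub_X, map_sum, Finset.sum_eq_single l]
      · rw [map_mul]
        have h2 : ρ (MvPolynomial.C (w l)) = MvPolynomial.C (w l) := MvPolynomial.eval₂_C _ _ _
        have h3 : ρ (MvPolynomial.X (q, l)) = MvPolynomial.C (w l)⁻¹ * MvPolynomial.X q := by
          change MvPolynomial.eval₂ _ _ _ = _
          rw [MvPolynomial.eval₂_X, if_pos rfl]
        rw [h2, h3, ← mul_assoc, ← map_mul, mul_inv_cancel₀ hl, map_one, one_mul]
        rfl
      · intro e _ he
        have h3 : ρ (MvPolynomial.X (q, e)) = 0 := by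
          change MvPolynomial.eval₂ _ _ _ = _
          rw [MvPolynomial.eval₂_X, if_neg he]
        rw [map_mul, h3, mul_zero]
      · intro h
        exact absurd (Finset.mem_univ _) h
  intro a b hab
  have h2 := congrArg ρ hab
  change (ρ.comp (sub w)) a = (ρ.comp (sub w)) b at h2
  rwa [h1] at h2

theorem eval_sub {F k : Type u} [Field F] [Field k] [Algebra F k] [Algebra k₀ k]
    (a : Option (Fin N) × Fin (m + 1) → F) (h : MvPolynomial (Fin N) k₀) :
    MvPolynomial.aeval (fun q : Fin N × Fin (m + 1) => algebraMap F k (a (some q.1, q.2))) (sub w h) =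
      evc (algebraMap k₀ k) (PL.sysW (fun e => algebraMap k₀ k (w e)) a) h := by
  have h1 : (MvPolynomial.aeval (fun q : Fin N × Fin (m + 1) => algebraMap F k (a (some q.1, q.2))) :
      MvPolynomial (Fin N × Fin (m + 1)) k₀ →ₐ[k₀] k).toRingHom.comp (sub w) =
      evc (algebraMap k₀ k) (PL.sysW (fun e => algebraMap k₀ k (w e)) a) := by
    apply MvPolynomial.ringHom_ext
    · intro z
      rw [RingHom.comp_apply, sub_C]
      unfold evc
      rw [MvPolynomial.coe_eval₂Hom, MvPolynomial.eval₂_C]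
      exact MvPolynomial.aeval_C _ _
    · intro q
      rw [RingHom.comp_apply, sub_X]
      unfold evc
      rw [MvPolynomial.coe_eval₂Hom, MvPolynomial.eval₂_X]
      change MvPolynomial.aeval _ (∑ e, MvPolynomial.C (w e) * MvPolynomial.X (q, e)) = _
      rw [map_sum]
      unfold PL.sysW
      refine Finset.sum_congr rfl fun e _ => ?_
      rw [map_mul, MvPolynomial.aeval_C, MvPolynomial.aeval_X, mul_comm]
  exact congrArg (fun f : MvPolynomial (Fin N) k₀ →+* k => f h) h1

end subst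

/-- **Good discriminants for families, outside a hypersurface.** -/
theorem exists_goodF {F₀ k₀ : Type u} [Field F₀] [CharZero F₀] [Field k₀] [Algebra F₀ k₀]
    (hk₀ : ∃ S : Finset k₀, Subfield.closure (S : Set k₀) = ⊤) {m : ℕ} {w : Fin (m + 1) → k₀}
    {i j l : Fin (m + 1)} (hw : AlgebraicIndependent F₀ ![w i / w l, w j / w l]) {N : ℕ}
    (E U : Finset (MvPolynomial (Fin N) k₀)) (hUE : U ⊆ E) (hU : 0 ∉ U) :
    ∃ Ψ : MvPolynomial (Option (Fin N) × Fin (m + 1)) F₀, Ψ ≠ 0 ∧
      ∀ (F k : Type u) [Field F] [Field k] [DecidableEq k] [Algebra F₀ F] [Algebra F k] [Algebra k₀ k]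
        [Algebra F₀ k] [IsScalarTower F₀ F k] [IsScalarTower F₀ k₀ k],
        (∃ S : Finset F, Subfield.closure (S : Set F) = ⊤) →
        IntermediateField.adjoin F (Set.range (algebraMap k₀ k)) = ⊤ →
        (∀ {n : ℕ} {x : Fin n → k₀}, AlgebraicIndependent F₀ x →
          AlgebraicIndependent F (algebraMap k₀ k ∘ x)) →
        ∀ a : Option (Fin N) × Fin (m + 1) → F, MvPolynomial.aeval a Ψ ≠ 0 →
          HasGood (F := F) (PL.sysW (fun e => algebraMap k₀ k (w e)) a none)
            (E.image (evc (algebraMap k₀ k) (PL.sysW (fun e => algebraMap k₀ k (w e)) a)) ∪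
              U.image fun h =>
                (evc (algebraMap k₀ k) (PL.sysW (fun e => algebraMap k₀ k (w e)) a) h)⁻¹) ∧
          ∀ h ∈ U, evc (algebraMap k₀ k) (PL.sysW (fun e => algebraMap k₀ k (w e)) a) h ≠ 0 := by
  classical
  have hk₀0 : CharZero k₀ := charZero_of_injective_algebraMap (algebraMap F₀ k₀).injective
  have hl0 : w l ≠ 0 := by
    intro h
    rw [h, div_zero] at hw
    exact transc_F_t hw isAlgebraic_zero
  obtain ⟨F₁, htu, hall, hbase⟩ := exists_base_fieldU hk₀ hw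
  have hF₁0 : CharZero F₁ := charZero_of_injective_algebraMap (algebraMap F₀ F₁).injective
  obtain ⟨Sk, hSk⟩ := id hk₀
  set Uκ : Finset (MvPolynomial (Fin N × Fin (m + 1)) k₀) := U.image (sub w) with hUκ
  set E₀ : Finset k₀ := Sk ∪ {w i / w l} ∪ {w l, (w l)⁻¹} with hE₀
  set Eκ : Finset (MvPolynomial (Fin N × Fin (m + 1)) k₀) :=
    E.image (sub w) ∪ E₀.image MvPolynomial.C with hEκ
  have hUEκ : Uκ ⊆ Eκ := fun z hz =>
    Finset.mem_union_left _ (Finset.image_subset_image hUE hz)
  have hU0κ : (0 : MvPolynomial (Fin N × Fin (m + 1)) k₀) ∉ Uκ := by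
    intro h0
    obtain ⟨h, hh, h1⟩ := Finset.mem_image.1 h0
    apply hU
    have h2 : h = 0 := sub_injective w hl0 (h1.trans (map_zero _).symm)
    rwa [h2] at hh
  obtain ⟨Ψ₁, hΨ₁, Ψ₂, hΨ₂, h12⟩ := exists_goodAtF (ι := Fin (m + 1))
    (κ := Fin N × Fin (m + 1)) (w := fun e => w e / w l)
    (i := i) (j := j) (l := l) (div_self hl0) htu hall Eκ Uκ hUEκ hU0κ
  have hΨ₁k : MvPolynomial.map (algebraMap F₁ k₀) Ψ₁ ≠ 0 := fun h0 =>
    hΨ₁ (MvPolynomial.map_injective _ (algebraMap F₁ k₀).injective (by rw [h0, map_zero]))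
  obtain ⟨Ψ₁', hΨ₁', h1⟩ := OPG.exists_restrictU (F₀ := F₀) hk₀ hΨ₁k
  obtain ⟨Ψ₂', hΨ₂', h2⟩ := OPG.exists_restrictU (F₀ := F₀) hk₀ hΨ₂
  let ix : Fin (m + 1) ⊕ (Fin N × Fin (m + 1)) → Option (Fin N) × Fin (m + 1) :=
    Sum.elim (fun e => (none, e)) fun p => (some p.1, p.2)
  have hix : Function.Injective ix := by
    rintro (e | ⟨q, e⟩) (e' | ⟨q', e'⟩) h
    · simp only [ix, Sum.elim_inl, Prod.mk.injEq] at h
      rw [h.2]
    · simp [ix] at h
    · simp [ix] at h
    · simp only [ix, Sum.elim_inr, Prod.mk.injEq, Option.some.injEq] at h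
      rw [h.1, h.2]
  refine ⟨MvPolynomial.rename ix (Ψ₁' * Ψ₂'), fun h0 => mul_ne_zero hΨ₁' hΨ₂'
    (MvPolynomial.rename_injective _ hix (h0.trans (map_zero _).symm)), ?_⟩
  intro F k _ _ _ _ _ _ _ _ _ hF hgenk hfree a ha
  rw [MvPolynomial.aeval_rename, map_mul] at ha
  obtain ⟨ha1, ha2⟩ := mul_ne_zero_iff.1 ha
  have hF0 : CharZero F := charZero_of_injective_algebraMap (algebraMap F₀ F).injective
  have hk0 : CharZero k := charZero_of_injective_algebraMap (algebraMap F k).injective
  have hk := fg_composite hF hk₀ hgenk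
  obtain ⟨F', hF', hF'k, htu', hfin, hF₁F'⟩ := hbase F k hF hgenk (fun hx => hfree hx)
  let i1 : Algebra F₁ F' :=
    (((algebraMap k₀ k).comp (algebraMap F₁ k₀)).codRestrict F'.toSubring
      fun z => hF₁F' _ z.2).toAlgebra
  have s1 : IsScalarTower F₁ F' k := IsScalarTower.of_algebraMap_eq fun _ => rfl
  have s2 : IsScalarTower F₁ k₀ k := IsScalarTower.of_algebraMap_eq fun _ => rfl
  set b : Fin (m + 1) ⊕ (Fin N × Fin (m + 1)) → F' := fun e => algebraMap F F' (a (ix e)) with hb
  have hbk : ∀ e, algebraMap F' k (b e) = algebraMap F k (a (ix e)) := fun e => rfl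
  have hb1 : MvPolynomial.aeval b Ψ₁ ≠ 0 := by
    intro h0
    apply h1 F k (fun hx => hfree hx) (a ∘ ix) ha1
    have h3 := congrArg (algebraMap F' k) h0
    rw [map_zero] at h3
    rw [MvPolynomial.eval₂_map, ← h3, ← MvPolynomial.aeval_algebraMap_apply,
      MvPolynomial.aeval_def]
    rfl
  have hb2 : MvPolynomial.aeval (fun e => algebraMap F' k (b e)) Ψ₂ ≠ 0 := by
    have h3 := h2 F k (fun hx => hfree hx) (a ∘ ix) ha2
    rw [MvPolynomial.aeval_def]
    exact h3
  obtain ⟨⟨Δ, hΔ, hgoodAt⟩, hne, halg⟩ := h12 F' k b hb1 hb2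
  have hsub : ∀ h : MvPolynomial (Fin N) k₀,
      MvPolynomial.aeval (fun q => algebraMap F' k (b (Sum.inr q))) (sub w h) =
      evc (algebraMap k₀ k) (PL.sysW (fun e => algebraMap k₀ k (w e)) a) h := fun h => eval_sub w a h
  have hconst : ∀ z : k₀, MvPolynomial.aeval (fun q => algebraMap F' k (b (Sum.inr q)))
      (MvPolynomial.C z : MvPolynomial (Fin N × Fin (m + 1)) k₀) = algebraMap k₀ k z :=
    fun z => MvPolynomial.aeval_C _ _
  set Ek : Finset k := Eκ.image (MvPolynomial.aeval fun q => algebraMap F' k (b (Sum.inr q))) ∪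
    Uκ.image (fun p => (MvPolynomial.aeval (fun q => algebraMap F' k (b (Sum.inr q))) p)⁻¹) with hEk
  have hE₀k : ∀ z ∈ E₀, algebraMap k₀ k z ∈ Ek := by
    intro z hz
    rw [hEk, ← hconst]
    exact Finset.mem_union_left _ (Finset.mem_image_of_mem _ (Finset.mem_union_right _
      (Finset.mem_image_of_mem _ hz)))
  set v : k := ∑ e, algebraMap F' k (b (Sum.inl e)) * algebraMap k₀ k (w e / w l) with hv
  set c' : k := algebraMap k₀ k (w l) with hc'
  have hc'0 : c' ≠ 0 := (_root_.map_ne_zero _).2 hl0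
  have hsum : PL.sysW (fun e => algebraMap k₀ k (w e)) a none = c' * v := by
    rw [hv, Finset.mul_sum]
    refine Finset.sum_congr rfl fun e _ => ?_
    rw [hbk, map_div₀, hc']
    have h3 : algebraMap k₀ k (w l) ≠ 0 := hc'0
    change algebraMap F k (a (none, e)) * _ = _ * (algebraMap F k (a (none, e)) * _)
    field_simp
  have hti : IsAlgebraic (IntermediateField.adjoin F' {v, algebraMap k₀ k (w j / w l)})
      (algebraMap k₀ k (w i / w l)) := by
    have h3 := halg (MvPolynomial.C (w i / w l)) (Finset.mem_union_right _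
      (Finset.mem_image_of_mem _ (by rw [hE₀]; simp)))
    rwa [hconst] at h3
  have hall1 : ∀ z : k, IsAlgebraic (IntermediateField.adjoin F'
      {algebraMap k₀ k (w i / w l), algebraMap k₀ k (w j / w l)}) z :=
    fun z => Algebra.IsAlgebraic.isAlgebraic z
  obtain ⟨hvu, hall'⟩ := algInd_exchange htu' hall1 hti
  have hfin' := finite_k0 hk hall'
  have hE1 : IntermediateField.adjoin F' (Ek : Set k) = ⊤ := by
    have h3 : ∀ z : k₀, algebraMap k₀ k z ∈ IntermediateField.adjoin F' (Ek : Set k) := by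
      have h4 : (⊤ : Subfield k₀) ≤
          (IntermediateField.adjoin F' (Ek : Set k)).toSubfield.comap (algebraMap k₀ k) := by
        rw [← hSk, Subfield.closure_le]
        intro z hz
        refine IntermediateField.subset_adjoin _ _ (Finset.mem_coe.2 (hE₀k z ?_))
        rw [hE₀]
        exact Finset.mem_union_left _ (Finset.mem_union_left _ hz)
      exact fun z => h4 trivial
    have h4 : IntermediateField.adjoin F (Set.range (algebraMap k₀ k)) ≤
        (IntermediateField.adjoin F' (Ek : Set k)).restrictScalars F := by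
      rw [IntermediateField.adjoin_le_iff]
      rintro _ ⟨z, rfl⟩
      exact h3 z
    rw [eq_top_iff]
    intro z _
    rw [hgenk] at h4
    exact h4 (IntermediateField.mem_top (x := z))
  have hreg : ∀ z : k, IsAlgebraic (IntermediateField.adjoin F' {v}) z →
      z ∈ IntermediateField.adjoin F' {v} := fun z hz =>
    algClosed_of_goodAt hvu hfin' (fun z hz => ⟨⟨z, hF'k z hz⟩, rfl⟩) hΔ hE1 hgoodAt z hz
  refine ⟨⟨F', v, _, c', Δ, Ek, hF', hvu, hfin', hreg, hΔ, hgoodAt, hE1, ?_, hc'0,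
    hE₀k _ (by rw [hE₀]; simp), ?_, hsum⟩, fun h hh => ?_⟩
  · intro z hz
    rcases Finset.mem_union.1 hz with hz | hz
    · obtain ⟨h, hh, rfl⟩ := Finset.mem_image.1 hz
      rw [← hsub]
      exact Finset.mem_union_left _ (Finset.mem_image_of_mem _ (Finset.mem_union_left _
        (Finset.mem_image_of_mem _ hh)))
    · obtain ⟨h, hh, rfl⟩ := Finset.mem_image.1 hz
      rw [← hsub]
      exact Finset.mem_union_right _ (Finset.mem_image_of_mem
        (fun p => (MvPolynomial.aeval (fun q => algebraMap F' k (b (Sum.inr q))) p)⁻¹)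
        (Finset.mem_image_of_mem _ hh))
  · rw [hc', ← map_inv₀]
    exact hE₀k _ (by rw [hE₀]; simp)
  · rw [← hsub]
    exact hne _ (Finset.mem_image_of_mem _ hh)

end Pool.Agent.SE
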