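import Pool.Agent.Helper10.SE.G1

/-!
# Project SE: all sections of the members of a family are geometric, outside a hypersurface
-/

universe u

set_option linter.unusedSectionVars false

namespace Pool.Agent.SE

open VC Polynomial Pool.Agent.LT Pool.Agent.SC Pool.Agent.GC Pool.Agent.Helper91.Sect Pool.Agent
  Pool.Agent.TWH Pool.Agent.TWU

/-- the elements which have to be regular at the good places -/
theorem goodElts_evc {k₀ k : Type u} [Field k₀] [Field k] [DecidableEq k] {N : ℕ} {ι : k₀ →+* k}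
    {c : Option (Fin N) → k} {ff : (MvPolynomial (Fin N) k₀)[X]}
    {E U : Finset (MvPolynomial (Fin N) k₀)} (hdeg : 1 ≤ ff.natDegree)
    (hlc : ff.leadingCoeff ∈ U) (hd : ff.discr ∈ U) (hE : ∀ i, ff.coeff i ∈ E) (h1 : 1 ∈ E)
    (hU : ∀ h ∈ U, evc ι c h ≠ 0) :
    goodElts (ff.map (evc ι c)) 1 ⊆ E.image (evc ι c) ∪ U.image fun h => (evc ι c h)⁻¹ := by
  intro z hz
  unfold goodElts at hz
  rcases Finset.mem_union.1 hz with hz | hz
  · obtain ⟨i, -, rfl⟩ := Finset.mem_image.1 hz
    rw [coeff_map]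
    exact Finset.mem_union_left _ (Finset.mem_image_of_mem _ (hE i))
  · have hone : (1 : k) ∈ E.image (evc ι c) := Finset.mem_image.2 ⟨1, h1, map_one _⟩
    simp only [Finset.mem_insert, Finset.mem_singleton, inv_one, or_self] at hz
    rcases hz with rfl | rfl | rfl
    · rw [leadingCoeff_map_of_leadingCoeff_ne_zero _ (hU _ hlc)]
      exact Finset.mem_union_right _ (Finset.mem_image_of_mem (fun h => (evc ι c h)⁻¹) hlc)
    · rw [discr_map_of_lc _ _ (by omega) (hU _ hlc)]
      exact Finset.mem_union_right _ (Finset.mem_image_of_mem (fun h => (evc ι c h)⁻¹) hd)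
    · exact Finset.mem_union_left _ hone

/-- **All sections of the members of a family of twists are geometric, outside a hypersurface.** -/
theorem twists_hypersurfaceF {F₀ k₀ K₀ : Type u} [Field F₀] [CharZero F₀] [Field k₀] [Algebra F₀ k₀]
    [Field K₀] [Algebra k₀ K₀]
    (hk₀ : ∃ S : Finset k₀, Subfield.closure (S : Set k₀) = ⊤) {m : ℕ} {w : Fin (m + 1) → k₀}
    {i j l : Fin (m + 1)} (hw : AlgebraicIndependent F₀ ![w i / w l, w j / w l])
    (hK₀ : IsFunctionField k₀ K₀) {N r : ℕ} {g : Fin r → MvPolynomial (Fin N) K₀}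
    (hg : ∀ s, g s ≠ 0) :
    ∃ Ψ : MvPolynomial (Option (Fin N) × Fin (m + 1)) F₀, Ψ ≠ 0 ∧
      ∀ (F k K₁ : Type u) [Field F] [Field k] [Field K₁] [Algebra F₀ F] [Algebra F k] [Algebra k₀ k]
        [Algebra F₀ k] [IsScalarTower F₀ F k] [IsScalarTower F₀ k₀ k] [Algebra k K₁] [Algebra K₀ K₁]
        [Algebra k₀ K₁] [IsScalarTower k₀ k K₁] [IsScalarTower k₀ K₀ K₁],
        (∃ S : Finset F, Subfield.closure (S : Set F) = ⊤) →
        IntermediateField.adjoin F (Set.range (algebraMap k₀ k)) = ⊤ →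
        (∀ {n : ℕ} {x : Fin n → k₀}, AlgebraicIndependent F₀ x →
          AlgebraicIndependent F (algebraMap k₀ k ∘ x)) →
        IntermediateField.adjoin k (Set.range (algebraMap K₀ K₁)) = ⊤ →
        (∃ y : K₀, Transcendental k (algebraMap K₀ K₁ y)) →
        ∀ a : Option (Fin N) × Fin (m + 1) → F, MvPolynomial.aeval a Ψ ≠ 0 → ∀ e : Fin r → ℤ,
          GoodTwist (∏ s, fam (K₁ := K₁) (PL.sysW (fun e => algebraMap k₀ k (w e)) a) (g s) ^ e s)
            (PL.sysW (fun e => algebraMap k₀ k (w e)) a none) := by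
  classical
  have hk₀0 : CharZero k₀ := charZero_of_injective_algebraMap (algebraMap F₀ k₀).injective
  obtain ⟨x, z₀, ff, E, U, hUE, hU0, hdeg, hlc, hd, hcE, -, hcoord⟩ := exists_coordF hK₀ g hg
  obtain ⟨Ψ, hΨ, h⟩ := exists_goodF hk₀ hw (insert 1 E) U (fun z hz =>
    Finset.mem_insert_of_mem (hUE hz)) hU0
  refine ⟨Ψ, hΨ, ?_⟩
  intro F k K₁ _ _ _ _ _ _ _ _ _ _ _ _ _ _ hF hgenk hfree hgenK htr a ha e
  have hF0 : CharZero F := charZero_of_injective_algebraMap (algebraMap F₀ F).injective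
  have hk := fg_composite hF hk₀ hgenk
  obtain ⟨⟨F', v, u, b, Δ, E', hF', hvu, hfin', hreg, hΔ, hgood, hE1, hTE, hb0, hbE, hbiE, hc0⟩, hne⟩ :=
    h F k hF hgenk (fun hx => hfree hx) a ha
  have hc1 := hcoord k K₁ hgenK htr (PL.sysW (fun e => algebraMap k₀ k (w e)) a) hne e
  rw [hc0]
  refine goodTwist_of_goodAt hF' hk hvu hfin' hreg hc1 hb0 hΔ hE1 ?_ hgood
  refine Finset.union_subset ?_ (Finset.union_subset ?_ ?_)
  · exact (goodElts_evc hdeg hlc hd (fun i => Finset.mem_insert_of_mem (hcE i))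
      (Finset.mem_insert_self _ _) hne).trans hTE
  · refine Finset.Subset.trans ?_ hTE
    exact Finset.union_subset_union (Finset.image_subset_image (Finset.subset_insert _ _))
      (Finset.Subset.refl _)
  · intro z hz
    rw [Finset.mem_insert, Finset.mem_singleton] at hz
    rcases hz with rfl | rfl
    · exact hbE
    · exact hbiE

end Pool.Agent.SE
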