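import Pool.Agent.Helper10.SE.Irr0

/-!
# Project SE, block I: irreducibility of general polynomials outside a hypersurface
-/

universe u

set_option linter.unusedSectionVars false

namespace Pool.Agent.SE

open VC Polynomial Pool.Agent.LT Pool.Agent.SC Pool.Agent.GC Pool.Agent.Helper91.Sect Pool.Agent
  Pool.Agent.TWX Pool.Agent.TWH Pool.Agent.TWU

section L1

variable {F k K : Type u} [Field F] [Field k] [Algebra F k] [Field K] [Algebra k K] [Algebra F K]
  [IsScalarTower F k K] [Algebra k[X] K] [IsScalarTower k k[X] K] [IsFractionRing k[X] K]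

theorem transc_X54 : Transcendental k (algebraMap k[X] K X) := by
  rw [transcendental_algebraMap_iff (IsFractionRing.injective k[X] K)]
  exact transcendental_X k

/-- the field generated by constants consists of constants -/
theorem const_of_adjoin54 {S : Set K} (hS : ∀ z ∈ S, ∃ c : k, algebraMap k K c = z) {z : K}
    (hz : z ∈ IntermediateField.adjoin F S) : ∃ c : k, algebraMap k K c = z := by
  have h1 : IntermediateField.adjoin F S ≤ (IsScalarTower.toAlgHom F k K).fieldRange := by
    rw [IntermediateField.adjoin_le_iff]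
    intro z hz
    exact hS z hz
  exact h1 hz

/-- `X` and `u` are a transcendence basis of `k(X)` over `F` -/
theorem basis54 {u : k} (hu : Transcendental F u)
    (hall : ∀ z : k, IsAlgebraic (IntermediateField.adjoin F {u}) z) :
    AlgebraicIndependent F ![algebraMap k[X] K X, algebraMap k K u] ∧
      ∀ z : K, IsAlgebraic (IntermediateField.adjoin F {algebraMap k[X] K X, algebraMap k K u}) z := by
  refine ⟨algInd_of ?_ ?_, ?_⟩
  · rw [transcendental_algebraMap_iff (algebraMap k K).injective]
    exact hu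
  · intro h
    refine transc_X54 (k := k) (K := K) (isAlgebraic_of_range_le (fun a => ?_) h)
    exact const_of_adjoin54 (k := k) (fun z hz => ⟨u, (Set.mem_singleton_iff.1 hz).symm⟩) a.2
  · set L := IntermediateField.adjoin F {algebraMap k[X] K X, algebraMap k K u} with hL
    set D := algebraicClosure L K with hD
    have hXD : algebraMap k[X] K X ∈ D :=
      D.algebraMap_mem ⟨_, IntermediateField.subset_adjoin _ _ (Or.inl rfl)⟩
    have hcD : ∀ c : k, algebraMap k K c ∈ D := by
      intro c
      refine mem_algebraicClosure_iff.2 ?_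
      have h1 : IsAlgebraic (IntermediateField.adjoin F {u}) (algebraMap k K c) :=
        (hall c).algebraMap
      refine isAlgebraic_of_range_le (fun a => ?_) h1
      have h2 : (IntermediateField.adjoin F {u}).map (IsScalarTower.toAlgHom F k K) ≤ L := by
        rw [IntermediateField.adjoin_map, Set.image_singleton,
          IntermediateField.adjoin_simple_le_iff]
        exact IntermediateField.subset_adjoin _ _ (Or.inr rfl)
      exact ⟨⟨_, h2 ⟨a, a.2, rfl⟩⟩, rfl⟩
    have hpD : ∀ p : k[X], algebraMap k[X] K p ∈ D := by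
      intro p
      induction p using Polynomial.induction_on with
      | C a =>
        have h1 : algebraMap k[X] K (C a) = algebraMap k K a :=
          (IsScalarTower.algebraMap_apply k k[X] K a).symm
        rw [h1]
        exact hcD a
      | add p q hp hq => rw [map_add]; exact D.add_mem hp hq
      | monomial n a ih =>
        rw [pow_succ, ← mul_assoc, map_mul]
        exact D.mul_mem ih hXD
    intro z
    obtain ⟨p, q, -, rfl⟩ := IsFractionRing.div_surjective (A := k[X]) z
    exact mem_algebraicClosure_iff.1 (D.div_mem (hpD p) (hpD q))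

end L1

/-- **Irreducibility outside a hypersurface.** -/
theorem irr_hypersurface {F₀ k₀ : Type u} [Field F₀] [CharZero F₀] [Field k₀] [Algebra F₀ k₀]
    (hk₀ : ∃ S : Finset k₀, Subfield.closure (S : Set k₀) = ⊤) {m : ℕ} {w : Fin (m + 1) → k₀}
    {i l : Fin (m + 1)} (hw : Transcendental F₀ (w i / w l)) {d : ℕ} (hd : 1 ≤ d) :
    ∃ Ψ : MvPolynomial (Fin (d + 1) × Fin (m + 1)) F₀, Ψ ≠ 0 ∧
      ∀ (F k : Type u) [Field F] [Field k] [Algebra F₀ F] [Algebra F k] [Algebra k₀ k]
        [Algebra F₀ k] [IsScalarTower F₀ F k] [IsScalarTower F₀ k₀ k],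
        (∃ S : Finset F, Subfield.closure (S : Set F) = ⊤) →
        IntermediateField.adjoin F (Set.range (algebraMap k₀ k)) = ⊤ →
        (∀ {n : ℕ} {x : Fin n → k₀}, AlgebraicIndependent F₀ x →
          AlgebraicIndependent F (algebraMap k₀ k ∘ x)) →
        ∀ a : Fin (d + 1) × Fin (m + 1) → F, MvPolynomial.aeval a Ψ ≠ 0 →
          Irreducible (∑ q : Fin (d + 1), C (∑ e : Fin (m + 1), algebraMap F k (a (q, e)) *
            algebraMap k₀ k (w e)) * X ^ (q : ℕ)) := by
  classical
  have hk₀0 : CharZero k₀ := charZero_of_injective_algebraMap (algebraMap F₀ k₀).injective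
  have hl0 : w l ≠ 0 := by
    intro h
    rw [h, div_zero] at hw
    exact hw isAlgebraic_zero
  obtain ⟨F₁, hu₁, hall₁, hbase⟩ := exists_base54 hk₀ hw
  have hF₁0 : CharZero F₁ := charZero_of_injective_algebraMap (algebraMap F₀ F₁).injective
  obtain ⟨Sk, hSk⟩ := id hk₀
  let K₀ := FractionRing k₀[X]
  let x₀ : K₀ := algebraMap k₀[X] K₀ X
  let W : Fin (d + 1) × Fin (m + 1) → K₀ := fun q =>
    algebraMap k₀ K₀ (w q.2 / w l) * x₀ ^ (q.1 : ℕ)
  let ix : Fin (d + 1) × Fin (m + 1) := (⟨1, by omega⟩, l)
  let iu : Fin (d + 1) × Fin (m + 1) := (0, i)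
  let il : Fin (d + 1) × Fin (m + 1) := (0, l)
  have hWx : W ix = x₀ := by
    change algebraMap k₀ K₀ (w l / w l) * x₀ ^ 1 = x₀
    rw [div_self hl0, map_one, one_mul, pow_one]
  have hWu : W iu = algebraMap k₀ K₀ (w i / w l) := by
    change algebraMap k₀ K₀ (w i / w l) * x₀ ^ 0 = _
    rw [pow_zero, mul_one]
  have hWl : W il = 1 := by
    change algebraMap k₀ K₀ (w l / w l) * x₀ ^ 0 = _
    rw [div_self hl0, map_one, one_mul, pow_zero]
  obtain ⟨hind₀, hallK₀⟩ := basis54 (F := F₁) (k := k₀) (K := K₀) hu₁ hall₁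
  set E : Finset K₀ := Sk.image (algebraMap k₀ K₀) ∪ {x₀} with hE
  obtain ⟨Ψ₁, hΨ₁, Ψ₂, hΨ₂, h12⟩ := exists_goodAt (F₁ := F₁) (k₀ := K₀)
    (ι := Fin (d + 1) × Fin (m + 1)) (w := W) (i := ix) (j := iu) (l := il) hWl
    (by rw [hWx, hWu]; exact hind₀) (by rw [hWx, hWu]; exact hallK₀) E
  obtain ⟨Φ₂, hΦ₂, hcoef⟩ := exists_coeff54 (k₀ := k₀) (K₀ := K₀) hΨ₂
  have hΨ₁k : MvPolynomial.map (algebraMap F₁ k₀) Ψ₁ ≠ 0 := fun h0 =>
    hΨ₁ (MvPolynomial.map_injective _ (algebraMap F₁ k₀).injective (by rw [h0, map_zero]))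
  obtain ⟨Ψ₁', hΨ₁', h1⟩ := OPG.exists_restrictU (F₀ := F₀) hk₀ hΨ₁k
  obtain ⟨Ψ₂', hΨ₂', h2⟩ := OPG.exists_restrictU (F₀ := F₀) hk₀ hΦ₂
  refine ⟨Ψ₁' * Ψ₂', mul_ne_zero hΨ₁' hΨ₂', ?_⟩
  intro F k _ _ _ _ _ _ _ _ hF hgenk hfree a ha
  rw [map_mul] at ha
  obtain ⟨ha1, ha2⟩ := mul_ne_zero_iff.1 ha
  have hF0 : CharZero F := charZero_of_injective_algebraMap (algebraMap F₀ F).injective
  have hk0 : CharZero k := charZero_of_injective_algebraMap (algebraMap F k).injective
  have hk := fg_composite hF hk₀ hgenk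
  obtain ⟨F', hF', hu', hall', hF₁F'⟩ := hbase F k hF hgenk (fun hx => hfree hx)
  have hF'0 : CharZero F' := charZero_of_injective_algebraMap (algebraMap F F').injective
  let K := FractionRing k[X]
  have hmapinj : Function.Injective (mapRingHom (algebraMap k₀ k)) :=
    Polynomial.map_injective _ (algebraMap k₀ k).injective
  let φ : K₀ →+* K := IsFractionRing.map hmapinj
  let iK : Algebra K₀ K := φ.toAlgebra
  have hφ : ∀ p : k₀[X], algebraMap K₀ K (algebraMap k₀[X] K₀ p) =
      algebraMap k[X] K (p.map (algebraMap k₀ k)) := fun p =>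
    IsLocalization.map_eq (M := nonZeroDivisors k₀[X]) (T := nonZeroDivisors k[X]) (S := K₀) (Q := K)
      (nonZeroDivisors_le_comap_nonZeroDivisors_of_injective _ hmapinj) p
  have hφc : ∀ c : k₀, algebraMap K₀ K (algebraMap k₀ K₀ c) = algebraMap k K (algebraMap k₀ k c) := by
    intro c
    have h3 := hφ (C c)
    rw [map_C] at h3
    exact h3
  have hφx : algebraMap K₀ K x₀ = algebraMap k[X] K X := by
    have h3 := hφ X
    rw [map_X] at h3
    exact h3
  let i1 : Algebra F₁ F' :=
    (((algebraMap k₀ k).comp (algebraMap F₁ k₀)).codRestrict F'.toSubring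
      fun z => hF₁F' _ z.2).toAlgebra
  have s1 : IsScalarTower F₁ F' K := IsScalarTower.of_algebraMap_eq fun _ => rfl
  have s2 : IsScalarTower F₁ K₀ K := IsScalarTower.of_algebraMap_eq fun z => (hφc z).symm
  set b : Fin (d + 1) × Fin (m + 1) → F' := fun e => algebraMap F F' (a e) with hb
  have hb1 : MvPolynomial.aeval b Ψ₁ ≠ 0 := by
    intro h0
    apply h1 F k (fun hx => hfree hx) a ha1
    have h3 := congrArg (algebraMap F' k) h0
    rw [map_zero] at h3
    rw [MvPolynomial.eval₂_map, ← h3, MvPolynomial.aeval_def, MvPolynomial.eval₂_comp_left]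
    rfl
  have hb2 : MvPolynomial.aeval (fun e => algebraMap F' K (b e)) Ψ₂ ≠ 0 :=
    hcoef k K hφ (fun e => algebraMap F k (a e)) (h2 F k (fun hx => hfree hx) a ha2)
  obtain ⟨⟨Δ, hΔ, hgoodAt⟩, halg⟩ := h12 F' K b hb1 hb2
  set f : k[X] := ∑ q : Fin (d + 1), C (∑ e : Fin (m + 1), algebraMap F k (a (q, e)) *
    algebraMap k₀ k (w e / w l)) * X ^ (q : ℕ) with hf
  have hv : ∑ e, algebraMap F' K (b e) * algebraMap K₀ K (W e) = algebraMap k[X] K f := by
    rw [hf, map_sum, Fintype.sum_prod_type]
    refine Finset.sum_congr rfl fun q _ => ?_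
    rw [map_mul, map_sum, map_sum, Finset.sum_mul, map_pow]
    refine Finset.sum_congr rfl fun e _ => ?_
    have h3 : algebraMap K₀ K (W (q, e)) =
        algebraMap k K (algebraMap k₀ k (w e / w l)) * algebraMap k[X] K X ^ (q : ℕ) := by
      change algebraMap K₀ K (algebraMap k₀ K₀ (w e / w l) * x₀ ^ (q : ℕ)) = _
      rw [map_mul, map_pow, hφc, hφx]
    rw [h3, ← mul_assoc]
    congr 1
    rw [map_mul, map_mul]
    rfl
  have hju : algebraMap K₀ K (W iu) = algebraMap k K (algebraMap k₀ k (w i / w l)) := by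
    rw [hWu, hφc]
  rw [hv, hju] at hgoodAt
  rw [hv, hju] at halg
  set u : k := algebraMap k₀ k (w i / w l) with hu
  obtain ⟨hind, hallK⟩ := basis54 (F := F') (k := k) (K := K) hu' hall'
  have hti : IsAlgebraic (IntermediateField.adjoin F' {algebraMap k[X] K f, algebraMap k K u})
      (algebraMap k[X] K X) := by
    have h3 := halg x₀ (Finset.mem_union_right _ (Finset.mem_singleton_self _))
    rwa [hφx] at h3
  obtain ⟨hvu, hall''⟩ := algInd_exchange hind hallK hti
  -- `k(X)` is finitely generated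
  have hpmem : ∀ (M : Subfield K), (∀ c : k, algebraMap k K c ∈ M) → algebraMap k[X] K X ∈ M →
      ∀ z : K, z ∈ M := by
    intro M hM hX z
    have hp : ∀ p : k[X], algebraMap k[X] K p ∈ M := by
      intro p
      induction p using Polynomial.induction_on with
      | C a => exact hM a
      | add p q hp hq => rw [map_add]; exact M.add_mem hp hq
      | monomial n a ih =>
        rw [pow_succ, ← mul_assoc, map_mul]
        exact M.mul_mem ih hX
    obtain ⟨p, q, -, rfl⟩ := IsFractionRing.div_surjective (A := k[X]) z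
    exact M.div_mem (hp p) (hp q)
  have hK : ∃ S : Finset K, Subfield.closure (S : Set K) = ⊤ := by
    obtain ⟨S, hS⟩ := hk
    refine ⟨S.image (algebraMap k K) ∪ {algebraMap k[X] K X}, ?_⟩
    rw [eq_top_iff]
    intro z _
    refine hpmem _ (fun c => ?_) ?_ z
    · have h3 : (⊤ : Subfield k) ≤ (Subfield.closure ((S.image (algebraMap k K) ∪
          {algebraMap k[X] K X} : Finset K) : Set K)).comap (algebraMap k K) := by
        rw [← hS, Subfield.closure_le]
        intro z hz
        refine Subfield.subset_closure ?_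
        rw [Finset.mem_coe]
        exact Finset.mem_union_left _ (Finset.mem_image_of_mem _ hz)
      exact h3 trivial
    · refine Subfield.subset_closure ?_
      rw [Finset.mem_coe]
      exact Finset.mem_union_right _ (Finset.mem_singleton_self _)
  have hfin := finite_k0 hK hall''
  -- the finite set generates
  have hE1 : IntermediateField.adjoin F' ((E.image (algebraMap K₀ K) : Finset K) : Set K) = ⊤ := by
    set M := IntermediateField.adjoin F' ((E.image (algebraMap K₀ K) : Finset K) : Set K) with hM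
    have hk₀M : ∀ z : k₀, algebraMap k K (algebraMap k₀ k z) ∈ M := by
      have h4 : (⊤ : Subfield k₀) ≤ M.toSubfield.comap ((algebraMap k K).comp (algebraMap k₀ k)) := by
        rw [← hSk, Subfield.closure_le]
        intro z hz
        refine IntermediateField.subset_adjoin _ _ ?_
        rw [Finset.mem_coe]
        refine Finset.mem_image.2 ⟨algebraMap k₀ K₀ z, ?_, hφc z⟩
        exact Finset.mem_union_left _ (Finset.mem_image_of_mem _ hz)
      exact fun z => h4 trivial
    have hkM : ∀ z : k, algebraMap k K z ∈ M := by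
      let Z : IntermediateField F k :=
        { M.toSubfield.comap (algebraMap k K) with
          algebraMap_mem' := fun c => by
            change algebraMap k K (algebraMap F k c) ∈ M
            exact M.algebraMap_mem (algebraMap F F' c) }
      have h4 : IntermediateField.adjoin F (Set.range (algebraMap k₀ k)) ≤ Z := by
        rw [IntermediateField.adjoin_le_iff]
        rintro _ ⟨z, rfl⟩
        exact hk₀M z
      intro z
      rw [hgenk] at h4
      exact h4 (IntermediateField.mem_top (x := z))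
    rw [eq_top_iff]
    intro z _
    refine hpmem M.toSubfield hkM ?_ z
    refine IntermediateField.subset_adjoin _ _ ?_
    rw [Finset.mem_coe]
    exact Finset.mem_image.2 ⟨x₀, Finset.mem_union_right _ (Finset.mem_singleton_self _), hφx⟩
  -- `f` is not constant
  have hinj : Function.Injective (algebraMap k[X] K) := IsFractionRing.injective k[X] K
  have hf0 : f ≠ 0 := by
    intro h0
    rw [h0, map_zero] at hvu
    exact transc_F_t hvu isAlgebraic_zero
  have hconst : ∀ c ∈ IntermediateField.adjoin F' {algebraMap k K u}, ∃ c' : k,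
      algebraMap k K c' = c := fun c hc =>
    const_of_adjoin54 (k := k) (fun z hz => ⟨u, (Set.mem_singleton_iff.1 hz).symm⟩) hc
  have hfu : ¬ IsUnit f := by
    intro hfu
    obtain ⟨c, -, hc⟩ := Polynomial.isUnit_iff.1 hfu
    refine transc_X54 (k := k) (K := K) (isAlgebraic_of_range_le (fun a => ?_) hti)
    refine const_of_adjoin54 (k := k) (fun z hz => ?_) a.2
    rcases hz with hz | hz
    · exact ⟨c, by rw [hz, ← hc]; rfl⟩
    · exact ⟨u, (Set.mem_singleton_iff.1 hz).symm⟩
  have hirr : Irreducible f := by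
    refine irred_of_unique54 (K := K) hf0 hfu fun O₁ hO₁ hv₁ => ?_
    have hO : ∀ O : ValuationSubring K, (∀ p : k[X], algebraMap k[X] K p ∈ O) →
        ∀ c ∈ IntermediateField.adjoin F' {algebraMap k K u}, c ∈ O := by
      intro O hO c hc
      obtain ⟨c', rfl⟩ := hconst c hc
      exact hO (C c')
    obtain ⟨h3, h4⟩ := unique_zero54 hF' hvu hfin hΔ hE1 hgoodAt (hO O₁ hO₁) hv₁
    exact ⟨h3, fun O₂ hO₂ hv₂ => h4 O₂ (hO O₂ hO₂) hv₂⟩
  have hlast : (∑ q : Fin (d + 1), C (∑ e : Fin (m + 1), algebraMap F k (a (q, e)) *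
      algebraMap k₀ k (w e)) * X ^ (q : ℕ)) = C (algebraMap k₀ k (w l)) * f := by
    rw [hf, Finset.mul_sum]
    refine Finset.sum_congr rfl fun q _ => ?_
    rw [← mul_assoc, ← C_mul, Finset.mul_sum]
    congr 2
    refine Finset.sum_congr rfl fun e _ => ?_
    rw [map_div₀]
    have h3 : algebraMap k₀ k (w l) ≠ 0 := (_root_.map_ne_zero _).2 hl0
    field_simp
  rw [hlast]
  refine (irreducible_isUnit_mul (isUnit_C.2 ?_)).2 hirr
  exact ((_root_.map_ne_zero (algebraMap k₀ k)).2 hl0).isUnit

end Pool.Agent.SE
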