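import Pool.Agent.Helper10.SE.Defs

/-!
# Project SE, block I: preparations

* `unique_zero54`: the place `v = 0` of a field with a good discriminant is unique and unramified (Lefschetz theorem).
* `irred_of_unique54`: a polynomial with a unique zero, which is simple, is irreducible.
* `exists_coeff54`: descent of a hypersurface from `k₀(X)` to `k₀`.
* `exists_base54`: the base fields for one element.
-/

universe u

set_option linter.unusedSectionVars false

namespace Pool.Agent.SE

section PartA

open VC Polynomial Pool.Agent.LT Pool.Agent.SC Pool.Agent.GC Pool.Agent.Helper91.Sect Pool.Agent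
  Pool.Agent.TWX Pool.Agent.TWH Pool.Agent.TWU

/-- extension of valuation rings -/
theorem exists_ext54 {k C : Type u} [Field k] [Field C] [Algebra k C] (O : ValuationSubring k) :
    ∃ W : ValuationSubring C, ∀ z : k, algebraMap k C z ∈ W ↔ z ∈ O := by
  let φ : O →+* C := (algebraMap k C).comp O.subtype
  have hφ : Function.Injective φ := (algebraMap k C).injective.comp Subtype.val_injective
  obtain ⟨V, hV1, hV2⟩ := Pool.Agent.SC.exists_val_ker φ hφ (IsLocalRing.residue O)
  refine ⟨V, fun z => ⟨fun hz => ?_, fun hz => hV1 ⟨z, hz⟩⟩⟩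
  by_contra hzO
  have hz0 : z ≠ 0 := by
    rintro rfl
    exact hzO O.zero_mem
  have hinv : z⁻¹ ∈ O := (O.mem_or_inv_mem z).resolve_left hzO
  have h1 : V.valuation (φ ⟨z⁻¹, hinv⟩) < 1 := by
    rw [hV2, IsLocalRing.residue_eq_zero_iff, IsLocalRing.mem_maximalIdeal, _root_.mem_nonunits_iff]
    intro hu
    obtain ⟨y, hy⟩ := hu.exists_right_inv
    have h2 := congrArg (fun y : O => (y : k)) hy
    have h3 : z⁻¹ * (y : k) = 1 := h2
    have h4 : (y : k) = z := by
      field_simp at h3
      exact h3
    exact hzO (h4 ▸ y.2)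
  have h2 : φ ⟨z⁻¹, hinv⟩ = (algebraMap k C z)⁻¹ := map_inv₀ (algebraMap k C) z
  rw [h2, map_inv₀] at h1
  have h3 := (V.valuation_le_one_iff _).2 hz
  have h4 : V.valuation (algebraMap k C z) ≠ 0 :=
    (Valuation.ne_zero_iff _).2 ((_root_.map_ne_zero _).2 hz0)
  exact absurd ((inv_lt_one₀ (zero_lt_iff.2 h4)).1 h1) (not_lt.2 h3)

section A

variable {F k : Type u} [Field F] [CharZero F] [Field k] [Algebra F k]

/-- the automorphisms which preserve the traces of the conjugates of `W` on `k` -/
def stab54 (F : Type u) {k : Type u} [Field F] [Field k] [Algebra F k] (v u : k)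
    (W : ValuationSubring (AlgebraicClosure k)) :
    Subgroup (AlgebraicClosure k ≃ₐ[k0 F v u] AlgebraicClosure k) where
  carrier := {τ | ∀ (g : AlgebraicClosure k ≃ₐ[k0 F v u] AlgebraicClosure k) (a : k),
    τ (g (algebraMap k (AlgebraicClosure k) a)) ∈ W ↔ g (algebraMap k (AlgebraicClosure k) a) ∈ W}
  mul_mem' := by
    intro τ₁ τ₂ h1 h2 g a
    exact (h1 (τ₂ * g) a).trans (h2 g a)
  one_mem' := fun _ _ => Iff.rfl
  inv_mem' := by
    intro τ h g a
    have h1 := h (τ⁻¹ * g) a
    have h2 : τ ((τ⁻¹ * g) (algebraMap k (AlgebraicClosure k) a)) =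
        g (algebraMap k (AlgebraicClosure k) a) := τ.apply_symm_apply _
    rw [h2] at h1
    exact h1.symm

theorem isClosed_stab54 {v u : k} (halg : Algebra.IsAlgebraic (k0 F v u) (AlgebraicClosure k))
    (W : ValuationSubring (AlgebraicClosure k)) :
    IsClosed (stab54 F v u W : Set (AlgebraicClosure k ≃ₐ[k0 F v u] AlgebraicClosure k)) := by
  have hopen : ∀ (w : AlgebraicClosure k) (A : Set (AlgebraicClosure k)),
      IsOpen {γ : AlgebraicClosure k ≃ₐ[k0 F v u] AlgebraicClosure k | γ w ∈ A} := by
    intro w A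
    have h1 : IsOpen (MulAction.stabilizer (AlgebraicClosure k ≃ₐ[k0 F v u] AlgebraicClosure k) w :
        Set (AlgebraicClosure k ≃ₐ[k0 F v u] AlgebraicClosure k)) :=
      stabilizer_isOpen_of_isIntegral (K := k0 F v u) (L := AlgebraicClosure k) w
    rw [isOpen_iff_mem_nhds]
    intro γ hγ
    have h2 : IsOpen ((fun γ' : AlgebraicClosure k ≃ₐ[k0 F v u] AlgebraicClosure k => γ⁻¹ * γ') ⁻¹'
        (MulAction.stabilizer (AlgebraicClosure k ≃ₐ[k0 F v u] AlgebraicClosure k) w :
        Set (AlgebraicClosure k ≃ₐ[k0 F v u] AlgebraicClosure k))) :=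
      h1.preimage (continuous_const.mul continuous_id)
    refine Filter.mem_of_superset (h2.mem_nhds ?_) ?_
    · change γ⁻¹ * γ ∈ MulAction.stabilizer _ w
      rw [inv_mul_cancel]
      exact Subgroup.one_mem _
    · intro γ' hγ'
      have h3 : (γ⁻¹ * γ') • w = w := hγ'
      have h4 : γ' w = γ w := by
        have h5 := congrArg γ h3
        rw [mul_smul] at h5
        exact (γ.apply_symm_apply (γ' w)).symm.trans h5
      change γ' w ∈ A
      rw [h4]
      exact hγ
  have hset : (stab54 F v u W : Set (AlgebraicClosure k ≃ₐ[k0 F v u] AlgebraicClosure k)) =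
      ⋂ (g : AlgebraicClosure k ≃ₐ[k0 F v u] AlgebraicClosure k), ⋂ (a : k),
        {τ : AlgebraicClosure k ≃ₐ[k0 F v u] AlgebraicClosure k |
          τ (g (algebraMap k (AlgebraicClosure k) a)) ∈ W ↔
            g (algebraMap k (AlgebraicClosure k) a) ∈ W} := by
    ext γ
    simp only [Set.mem_iInter]
    exact Iff.rfl
  rw [hset]
  refine isClosed_iInter fun g => isClosed_iInter fun a => ?_
  by_cases h : g (algebraMap k (AlgebraicClosure k) a) ∈ W
  · have h1 : {τ : AlgebraicClosure k ≃ₐ[k0 F v u] AlgebraicClosure k |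
          τ (g (algebraMap k (AlgebraicClosure k) a)) ∈ W ↔
            g (algebraMap k (AlgebraicClosure k) a) ∈ W} =
        {τ | τ (g (algebraMap k (AlgebraicClosure k) a)) ∈ {z | z ∈ W}ᶜ}ᶜ := by
      ext τ
      simp [h]
    rw [h1, isClosed_compl_iff]
    exact hopen _ _
  · have h1 : {τ : AlgebraicClosure k ≃ₐ[k0 F v u] AlgebraicClosure k |
          τ (g (algebraMap k (AlgebraicClosure k) a)) ∈ W ↔
            g (algebraMap k (AlgebraicClosure k) a) ∈ W} =
        {τ | τ (g (algebraMap k (AlgebraicClosure k) a)) ∈ {z | z ∈ W}}ᶜ := by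
      ext τ
      simp [h]
    rw [h1, isClosed_compl_iff]
    exact hopen _ _

/-- **The place `v = 0` is unique in `k`, and unramified.** -/
theorem unique_zero54 (hF : ∃ S : Finset F, Subfield.closure (S : Set F) = ⊤)
    {v u : k} (hvu : AlgebraicIndependent F ![v, u]) (hfin : FiniteDimensional (k0 F v u) k)
    {Δ : F[X][X]} (hΔ : GoodDisc Δ) {E : Finset k}
    (hE : IntermediateField.adjoin F (E : Set k) = ⊤) (h : GoodAt F v u Δ E)
    {O₁ : ValuationSubring k} (hO₁ : ∀ c ∈ IntermediateField.adjoin F {u}, c ∈ O₁)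
    (hv₁ : v ∈ O₁.nonunits) :
    (∀ z : k, z ≠ 0 → ∃ i : ℤ, z * v ^ i ∈ O₁ ∧ (z * v ^ i)⁻¹ ∈ O₁) ∧
      ∀ O₂ : ValuationSubring k, (∀ c ∈ IntermediateField.adjoin F {u}, c ∈ O₂) →
        v ∈ O₂.nonunits → ∀ z, z ∈ O₁ ↔ z ∈ O₂ := by
  classical
  let C := AlgebraicClosure k
  have hk0 : CharZero k := charZero_of_injective_algebraMap (algebraMap F k).injective
  have h00 : CharZero (k0 F v u) :=
    charZero_of_injective_algebraMap (algebraMap F (k0 F v u)).injective
  have halg0 : Algebra.IsAlgebraic (k0 F v u) C := Algebra.IsAlgebraic.trans (k0 F v u) k C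
  have hcl0 : IsAlgClosure (k0 F v u) C := ⟨inferInstance, halg0⟩
  have hnor0 : Normal (k0 F v u) C := IsAlgClosure.normal (k0 F v u) C
  have hgal : IsGalois (k0 F v u) C := ⟨⟩
  have htu0 := algInd0 hvu
  have hv0 : v ≠ 0 := by
    rintro rfl
    exact transc_F_t hvu isAlgebraic_zero
  -- the conditions at good places
  have hgoodE : ∀ W' : ValuationSubring C,
      (∀ c : F, algebraMap k C (algebraMap F k c) ∈ W') →
      algebraMap k C v ∈ W' → algebraMap k C u ∈ W' →
      algebraMap k C (ev F v u Δ) ∉ W'.nonunits →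
      ∀ τ : C ≃ₐ[k0 F v u] C, InInert W' τ →
          ∀ a : k, τ (algebraMap k C a) = algebraMap k C a := by
    intro W' hFW hvW huW hunit τ hτ
    obtain ⟨-, h2⟩ := h C W' hFW hvW huW hunit
    have h3 : ∀ a ∈ E, τ (algebraMap k C a) = algebraMap k C a := by
      refine h2 τ.toRingEquiv.toRingHom (fun c => ?_) ?_ ?_ hτ.2
      · exact τ.commutes ⟨algebraMap F k c, IntermediateField.algebraMap_mem _ c⟩
      · exact τ.commutes ⟨v, IntermediateField.subset_adjoin _ _ (Or.inl rfl)⟩
      · exact τ.commutes ⟨u, IntermediateField.subset_adjoin _ _ (Or.inr rfl)⟩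
    have hL : (IntermediateField.adjoin F (E : Set k)).toSubfield ≤
        ((τ.toRingEquiv.toRingHom).eqLocusField (RingHom.id C)).comap (algebraMap k C) := by
      rw [IntermediateField.adjoin_toSubfield, Subfield.closure_le]
      rintro a (⟨e, rfl⟩ | ha)
      · exact τ.commutes ⟨algebraMap F k e, IntermediateField.algebraMap_mem _ e⟩
      · exact h3 a ha
    intro a
    have ha : a ∈ (IntermediateField.adjoin F (E : Set k)).toSubfield := by
      rw [hE]
      trivial
    exact hL ha
  have hunit0 : ∀ W' : ValuationSubring C, algebraMap (k0 F v u) C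
      (ev F (t0 F v u) (u0 F v u) Δ) ∉ W'.nonunits → algebraMap k C (ev F v u Δ) ∉ W'.nonunits := by
    intro W' h1
    rw [← ev0]
    exact h1
  -- places over places of `k`
  have hext : ∀ O : ValuationSubring k, (∀ c ∈ IntermediateField.adjoin F {u}, c ∈ O) →
      v ∈ O.nonunits → ∃ W : ValuationSubring C, (∀ z : k, algebraMap k C z ∈ W ↔ z ∈ O) ∧
        AtZero F (t0 F v u) (u0 F v u) W := by
    intro O hO hv
    obtain ⟨W, hW⟩ := exists_ext54 (C := C) O
    refine ⟨W, hW, fun c hc => ?_, ?_⟩
    · exact (hW _).2 (hO _ (coe_mem_adjoin0 (F := F) (t := v) (u := u) (v := u)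
        (v' := u0 F v u) rfl hc))
    · have h1 : algebraMap k C v ∈ W.nonunits := by
        rw [ValuationSubring.mem_nonunits_iff_or] at hv ⊢
        rcases hv with hv | hv
        · exact absurd hv hv0
        · right
          rw [← map_inv₀, hW]
          exact hv
      exact h1
  obtain ⟨W, hWO, hW0⟩ := hext O₁ hO₁ hv₁
  have hconstW : ∀ c ∈ IntermediateField.adjoin F {u}, algebraMap k C c ∈ W := fun c hc =>
    (hWO _).2 (hO₁ _ hc)
  have hFW : ∀ c : F, algebraMap k C (algebraMap F k c) ∈ W := fun c =>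
    hconstW _ (IntermediateField.algebraMap_mem _ c)
  have hvW : algebraMap k C v ∈ W.nonunits := hW0.t_mem
  have huW : algebraMap k C u ∈ W := hconstW _ (IntermediateField.mem_adjoin_simple_self F u)
  -- the discriminant is a unit at `W`
  have hunitW : algebraMap k C (ev F v u Δ) ∉ W.nonunits := by
    let e : C ≃ₐ[k] kbar k k := IsAlgClosure.equiv k C (kbar k k)
    let W1 : ValuationSubring (kbar k k) := W.comap (e.symm : kbar k k →+* C)
    have hek : ∀ z : k, (e.symm : kbar k k →+* C) (algebraMap k (kbar k k) z) = algebraMap k C z :=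
      fun z => e.symm.commutes z
    have hW1 : AtZero F v u W1 := by
      refine ⟨fun c hc => ?_, ?_⟩
      · rw [ValuationSubring.mem_comap, hek]
        exact hconstW c hc
      · rw [nonunits_comap_iff, hek]
        exact hvW
    have h1 := atZero_unit hvu hΔ hW1
    rw [nonunits_comap_iff, hek] at h1
    exact h1
  have hinW := hgoodE W hFW (ValuationSubring.nonunits_subset hvW) huW hunitW
  -- the inertia groups fix the conjugates of `k`
  have hconj : ∀ W' : ValuationSubring C,
      (∀ c : F, algebraMap k C (algebraMap F k c) ∈ W') →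
      algebraMap k C v ∈ W' → algebraMap k C u ∈ W' →
      algebraMap k C (ev F v u Δ) ∉ W'.nonunits →
      ∀ τ : C ≃ₐ[k0 F v u] C, InInert W' τ → τ ∈ stab54 F v u W := by
    intro W' h1 h2 h3 h4 τ hτ g a
    have hg : ∀ z ∈ k0 F v u, g (algebraMap k C z) = algebraMap k C z := fun z hz =>
      g.commutes ⟨z, hz⟩
    have hF0 : ∀ c : F, algebraMap F k c ∈ k0 F v u := fun c => IntermediateField.algebraMap_mem _ c
    have hv' : v ∈ k0 F v u := IntermediateField.subset_adjoin _ _ (Or.inl rfl)
    have hu' : u ∈ k0 F v u := IntermediateField.subset_adjoin _ _ (Or.inr rfl)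
    have hmem : ∀ z, z ∈ W'.comap (g : C →+* C) ↔ g z ∈ W' := fun z => Iff.rfl
    have h5 : (g⁻¹ * τ * g) (algebraMap k C a) = algebraMap k C a := by
      refine hgoodE (W'.comap (g : C →+* C)) (fun c => ?_) ?_ ?_ ?_ _ ⟨fun z => ?_, fun z hz => ?_⟩ a
      · rw [hmem, hg _ (hF0 c)]
        exact h1 c
      · rw [hmem, hg _ hv']
        exact h2
      · rw [hmem, hg _ hu']
        exact h3
      · rw [nonunits_comap_iff]
        have h6 : (g : C →+* C) (algebraMap k C (ev F v u Δ)) = algebraMap k C (ev F v u Δ) :=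
          hg _ (ev_mem_field hv' hu' _)
        rw [h6]
        exact h4
      · rw [hmem, hmem]
        have h6 : g ((g⁻¹ * τ * g) z) = τ (g z) := g.apply_symm_apply _
        rw [h6]
        exact hτ.1 (g z)
      · rw [nonunits_comap_iff]
        have h6 : (g : C →+* C) ((g⁻¹ * τ * g) z - z) = τ (g z) - g z := by
          rw [map_sub]
          congr 1
          exact g.apply_symm_apply _
        rw [h6]
        exact hτ.2 (g z) hz
    have h6 : τ (g (algebraMap k C a)) = g (algebraMap k C a) := by
      have h7 := congrArg g h5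
      exact (g.apply_symm_apply _).symm.trans h7
    rw [h6]
  have hH : stab54 F v u W = (⊥ : IntermediateField (k0 F v u) C).fixingSubgroup := by
    refine lefschetz_gen hF (t0 F v u) (u0 F v u) htu0 (top0 v u) hΔ ⊥ (stab54 F v u W)
      (isClosed_stab54 halg0 W) ?_ ?_ ?_ ?_ hW0 ?_
    · rw [IntermediateField.fixingSubgroup_bot]
      exact le_top
    · intro τ
      refine ⟨τ, ?_, fun _ _ => rfl⟩
      rw [IntermediateField.fixingSubgroup_bot]
      exact Subgroup.mem_top τ
    · intro W' hW' τ hτ
      have hconst : ∀ c ∈ IntermediateField.adjoin F {v}, algebraMap k C c ∈ W' := by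
        intro c hc
        obtain ⟨c', rfl, hc'⟩ := mem_adjoin0 (F := F) (t := v) (u := u) (v := v)
          (v' := t0 F v u) rfl hc
        exact hW'.const c' hc'
      exact hconj W' (fun c => hconst _ (IntermediateField.algebraMap_mem _ c))
        (hconst _ (IntermediateField.mem_adjoin_simple_self F v)) hW'.u_mem (hunit0 W' hW'.unit) τ hτ
    · intro W' hW' τ hτ
      have hconst : ∀ c ∈ IntermediateField.adjoin F {u}, algebraMap k C c ∈ W' := by
        intro c hc
        obtain ⟨c', rfl, hc'⟩ := mem_adjoin0 (F := F) (t := v) (u := u) (v := u)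
          (v' := u0 F v u) rfl hc
        exact hW'.const c' hc'
      exact hconj W' (fun c => hconst _ (IntermediateField.algebraMap_mem _ c))
        hW'.t_mem (hconst _ (IntermediateField.mem_adjoin_simple_self F u)) (hunit0 W' hW'.unit) τ hτ
    · intro τ _ hτW g a
      exact hτW _
  have htopH : ∀ τ : C ≃ₐ[k0 F v u] C, ∀ a : k, τ (algebraMap k C a) ∈ W ↔ algebraMap k C a ∈ W := by
    intro τ a
    have h1 : τ ∈ stab54 F v u W := by
      rw [hH, IntermediateField.fixingSubgroup_bot]
      exact Subgroup.mem_top τ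
    exact h1 1 a
  refine ⟨fun z hz => ?_, fun O₂ hO₂ hv₂ z => ?_⟩
  · have hz' : algebraMap k C z ≠ 0 := (_root_.map_ne_zero (algebraMap k C)).2 hz
    obtain ⟨i, hi⟩ := vals_of_inert (k := k0 F v u) (t0 F v u) (u0 F v u) htu0 (top0 v u) hW0
      hz' (fun τ hτ => hinW τ hτ z)
    have hi' : W.valuation (algebraMap k C z) = W.valuation (algebraMap k C v) ^ i := hi
    have hv1 : W.valuation (algebraMap k C v) ≠ 0 :=
      (Valuation.ne_zero_iff _).2 ((_root_.map_ne_zero _).2 hv0)
    have h1 : W.valuation (algebraMap k C (z * v ^ (-i))) = 1 := by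
      rw [map_mul, map_mul, map_zpow₀, map_zpow₀, hi', ← zpow_add₀ hv1, add_neg_cancel, zpow_zero]
    refine ⟨-i, (hWO _).1 ((W.valuation_le_one_iff _).1 h1.le), (hWO _).1
      ((W.valuation_le_one_iff _).1 ?_)⟩
    rw [map_inv₀, map_inv₀, h1, inv_one]
  · obtain ⟨W₂, hWO₂, hW₂⟩ := hext O₂ hO₂ hv₂
    have hθ : ∀ V : ValuationSubring C, AtZero F (t0 F v u) (u0 F v u) V →
        V.valuation (algebraMap k C v) < 1 := fun V hV => V.mem_nonunits_iff.1 hV.t_mem
    let L := IntermediateField.adjoin F {u}
    have hL : ∀ V : ValuationSubring C, AtZero F (t0 F v u) (u0 F v u) V →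
        ∀ c : L, algebraMap L C c ∈ V := by
      intro V hV c
      obtain ⟨c', hc'1, hc'⟩ := mem_adjoin0 (F := F) (t := v) (u := u) (v := u)
          (v' := u0 F v u) rfl c.2
      have h1 := hV.const c' hc'
      have h2 : algebraMap (k0 F v u) C c' = algebraMap L C c := by
        change algebraMap k C (c' : k) = algebraMap k C (c : k)
        rw [hc'1]
      rwa [h2] at h1
    have hmemk0 : ∀ c : k0 F v u, algebraMap (k0 F v u) C c ∈
        IntermediateField.adjoin L {algebraMap k C v} := by
      let T : IntermediateField F k :=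
        { (IntermediateField.adjoin L {algebraMap k C v}).toSubfield.comap (algebraMap k C) with
          algebraMap_mem' := fun c => by
            change algebraMap k C (algebraMap F k c) ∈ IntermediateField.adjoin L {algebraMap k C v}
            exact (IntermediateField.adjoin L {algebraMap k C v}).algebraMap_mem (algebraMap F L c) }
      have hT : k0 F v u ≤ T := by
        unfold k0
        rw [IntermediateField.adjoin_le_iff]
        rintro x (hx | hx)
        · rw [hx]
          exact IntermediateField.mem_adjoin_simple_self L _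
        · rw [Set.mem_singleton_iff.1 hx]
          exact (IntermediateField.adjoin L {algebraMap k C v}).algebraMap_mem
            ⟨u, IntermediateField.mem_adjoin_simple_self F u⟩
      exact fun c => hT c.2
    obtain ⟨σ, hσ⟩ := exists_conj_val (L := k0 F v u) W W₂ (fun c =>
      mem_iff_mem (L := L) ((_root_.map_ne_zero (algebraMap k C)).2 hv0) (hmemk0 c) (hL W hW0)
        (hθ W hW0) (hL W₂ hW₂) (hθ W₂ hW₂))
    have h1 := htopH σ⁻¹ z
    have h2 := hσ (σ⁻¹ (algebraMap k C z))
    have h3 : σ (σ⁻¹ (algebraMap k C z)) = algebraMap k C z := σ.apply_symm_apply _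
    rw [h3] at h2
    rw [← hWO, ← hWO₂, h2, h1]

end A

end PartA

section PartB

open Polynomial IsDedekindDomain

/-- a polynomial with a unique zero, which is simple, is irreducible -/
theorem irred_of_unique54 {k K : Type u} [Field k] [Field K] [Algebra k[X] K] [IsFractionRing k[X] K]
    {f : k[X]} (hf0 : f ≠ 0) (hfu : ¬ IsUnit f)
    (h : ∀ O₁ : ValuationSubring K, (∀ p : k[X], algebraMap k[X] K p ∈ O₁) →
      algebraMap k[X] K f ∈ O₁.nonunits →
      (∀ z : K, z ≠ 0 → ∃ i : ℤ, z * (algebraMap k[X] K f) ^ i ∈ O₁ ∧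
        (z * (algebraMap k[X] K f) ^ i)⁻¹ ∈ O₁) ∧
      ∀ O₂ : ValuationSubring K, (∀ p : k[X], algebraMap k[X] K p ∈ O₂) →
        algebraMap k[X] K f ∈ O₂.nonunits → ∀ z, z ∈ O₁ ↔ z ∈ O₂) :
    Irreducible f := by
  classical
  have hinj : Function.Injective (algebraMap k[X] K) := IsFractionRing.injective k[X] K
  let P : ∀ p : k[X], Irreducible p → HeightOneSpectrum k[X] := fun p hp =>
    ⟨Ideal.span {p}, (Ideal.span_singleton_prime hp.ne_zero).2 hp.prime, by
      rw [Ne, Ideal.span_singleton_eq_bot]; exact hp.ne_zero⟩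
  have hlt : ∀ (p : k[X]) (hp : Irreducible p) (q : k[X]),
      (P p hp).valuation K (algebraMap k[X] K q) < 1 ↔ p ∣ q := by
    intro p hp q
    rw [HeightOneSpectrum.valuation_lt_one_iff_mem]
    exact Ideal.mem_span_singleton
  let O : ∀ p : k[X], Irreducible p → ValuationSubring K := fun p hp =>
    ((P p hp).valuation K).valuationSubring
  have hO : ∀ (p : k[X]) (hp : Irreducible p) (z : K), z ∈ O p hp ↔ (P p hp).valuation K z ≤ 1 :=
    fun p hp z => Iff.rfl
  have hOp : ∀ (p : k[X]) (hp : Irreducible p) (q : k[X]), algebraMap k[X] K q ∈ O p hp :=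
    fun p hp q => (P p hp).valuation_le_one q
  have hnon : ∀ (p : k[X]) (hp : Irreducible p) (z : K), z ∈ (O p hp).nonunits ↔
      (P p hp).valuation K z < 1 := by
    intro p hp z
    rw [ValuationSubring.mem_nonunits_iff_or, hO p hp, map_inv₀]
    by_cases hz : z = 0
    · simp [hz]
    · have h1 : (P p hp).valuation K z ≠ 0 := (Valuation.ne_zero_iff _).2 hz
      rw [inv_le_one₀ (zero_lt_iff.2 h1), not_le]
      simp [hz]
  obtain ⟨p, hp, hpf⟩ := WfDvdMonoid.exists_irreducible_factor hfu hf0
  have hfin : FiniteMultiplicity p f := FiniteMultiplicity.of_prime_left hp.prime hf0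
  obtain ⟨g, hg, hpg⟩ := hfin.exists_eq_pow_mul_and_not_dvd
  set n := multiplicity p f with hn
  obtain ⟨hval, huni⟩ := h (O p hp) (hOp p hp) ((hnon p hp _).2 ((hlt p hp f).2 hpf))
  -- `g` is a unit
  have hg0 : g ≠ 0 := by
    rintro rfl
    exact hf0 (by rw [hg, mul_zero])
  have hgu : IsUnit g := by
    by_contra hgu
    obtain ⟨q, hq, hqg⟩ := WfDvdMonoid.exists_irreducible_factor hgu hg0
    have hqf : q ∣ f := by
      rw [hg]
      exact hqg.mul_left _
    have h1 := huni (O q hq) (hOp q hq) ((hnon q hq _).2 ((hlt q hq f).2 hqf))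
      (algebraMap k[X] K p)⁻¹
    have h2 : (algebraMap k[X] K p)⁻¹ ∉ O p hp := by
      have h3 : algebraMap k[X] K p ∈ (O p hp).nonunits := (hnon p hp _).2 ((hlt p hp p).2 dvd_rfl)
      rw [ValuationSubring.mem_nonunits_iff_or] at h3
      refine h3.resolve_left ?_
      exact (map_ne_zero_iff _ hinj).2 hp.ne_zero
    rw [h1] at h2
    have h4 : algebraMap k[X] K p ∈ (O q hq).nonunits := by
      rw [ValuationSubring.mem_nonunits_iff_or]
      exact Or.inr h2
    rw [hnon q hq, hlt q hq] at h4
    exact hpg (((hq.associated_of_dvd hp h4).symm.dvd).trans hqg)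
  -- the exponent is one
  have hw : (P p hp).valuation K (algebraMap k[X] K g) = 1 := by
    refine le_antisymm ((P p hp).valuation_le_one g) (not_lt.1 fun h1 => hpg ((hlt p hp g).1 h1))
  have hp0 : algebraMap k[X] K p ≠ 0 := (map_ne_zero_iff _ hinj).2 hp.ne_zero
  have hvp : (P p hp).valuation K (algebraMap k[X] K p) ≠ 0 := (Valuation.ne_zero_iff _).2 hp0
  have hvp1 : (P p hp).valuation K (algebraMap k[X] K p) < 1 := (hlt p hp p).2 dvd_rfl
  obtain ⟨i, hi1, hi2⟩ := hval (algebraMap k[X] K p) hp0
  rw [hO p hp] at hi1 hi2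
  have hvf : (P p hp).valuation K (algebraMap k[X] K f) =
      (P p hp).valuation K (algebraMap k[X] K p) ^ n := by
    rw [hg, map_mul, map_mul, hw, mul_one, map_pow, map_pow]
  have hvf0 : (P p hp).valuation K (algebraMap k[X] K f) ≠ 0 := by
    rw [hvf]; exact pow_ne_zero _ hvp
  have h3 : (P p hp).valuation K (algebraMap k[X] K p * algebraMap k[X] K f ^ i) = 1 := by
    refine le_antisymm hi1 ?_
    rw [map_inv₀] at hi2
    refine (inv_le_one₀ (zero_lt_iff.2 ?_)).1 hi2
    rw [map_mul, map_zpow₀]
    exact mul_ne_zero hvp (zpow_ne_zero _ hvf0)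
  rw [map_mul, map_zpow₀, hvf, ← zpow_natCast, ← zpow_mul, ← zpow_one_add₀ hvp] at h3
  have h4 : (1 : ℤ) + n * i = 0 := by
    refine zpow_right_injective₀ (zero_lt_iff.2 hvp) hvp1.ne ?_
    simp only
    rw [h3, zpow_zero]
  have h5 : n = 1 := by
    have h6 : (n : ℤ) ∣ 1 := ⟨-i, by linarith⟩
    have h7 := Int.natCast_dvd_natCast.1 (by simpa using h6 : (n : ℤ) ∣ ((1 : ℕ) : ℤ))
    exact Nat.dvd_one.1 h7
  rw [hg, h5, pow_one]
  exact (irreducible_mul_isUnit hgu).2 hp

end PartB

section PartC

open Polynomial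

/-- descent of a hypersurface from `k₀(X)` to `k₀` -/
theorem exists_coeff54 {k₀ K₀ : Type u} [Field k₀] [Field K₀] [Algebra k₀[X] K₀]
    [IsFractionRing k₀[X] K₀] {ι : Type} {Ψ : MvPolynomial ι K₀} (hΨ : Ψ ≠ 0) :
    ∃ Φ : MvPolynomial ι k₀, Φ ≠ 0 ∧ ∀ (k K : Type u) [Field k] [Field K] [Algebra k₀ k]
      [Algebra k[X] K] [IsFractionRing k[X] K] [Algebra K₀ K],
      (∀ p : k₀[X], algebraMap K₀ K (algebraMap k₀[X] K₀ p) =
        algebraMap k[X] K (p.map (algebraMap k₀ k))) →
      ∀ a : ι → k, MvPolynomial.eval₂ (algebraMap k₀ k) a Φ ≠ 0 →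
        MvPolynomial.eval₂ (algebraMap K₀ K) (fun e => algebraMap k[X] K (C (a e))) Ψ ≠ 0 := by
  classical
  have halg : Algebra.IsAlgebraic k₀[X] K₀ := IsLocalization.isAlgebraic K₀ (nonZeroDivisors k₀[X])
  obtain ⟨g, hg0, hg⟩ := MvPolynomial.exists_dvd_map_of_isAlgebraic (R := k₀[X]) hΨ
  obtain ⟨μ, hμ⟩ := MvPolynomial.ne_zero_iff.1 hg0
  obtain ⟨j, hj⟩ : ∃ j, (MvPolynomial.coeff μ g).coeff j ≠ 0 := by
    by_contra hcon
    push Not at hcon
    exact hμ (Polynomial.ext fun j => by rw [hcon j, coeff_zero])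
  let Φ : MvPolynomial ι k₀ :=
    ∑ m ∈ g.support, MvPolynomial.monomial m ((MvPolynomial.coeff m g).coeff j)
  refine ⟨Φ, ?_, ?_⟩
  · intro h0
    apply hj
    have h1 : MvPolynomial.coeff μ Φ = (MvPolynomial.coeff μ g).coeff j := by
      simp only [Φ, MvPolynomial.coeff_sum, MvPolynomial.coeff_monomial]
      rw [Finset.sum_eq_single μ]
      · rw [if_pos rfl]
      · intro b _ hb
        rw [if_neg hb]
      · intro h
        exact absurd (MvPolynomial.mem_support_iff.mpr hμ) h
    rw [← h1, h0, MvPolynomial.coeff_zero]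
  · intro k K _ _ _ _ _ _ hcomp a ha h0
    apply ha
    have hinj : Function.Injective (algebraMap k[X] K) := IsFractionRing.injective k[X] K
    have h1 : MvPolynomial.eval₂ (algebraMap K₀ K) (fun e => algebraMap k[X] K (C (a e)))
        (MvPolynomial.map (algebraMap k₀[X] K₀) g) = 0 := by
      obtain ⟨g', hg'⟩ := hg
      rw [hg', MvPolynomial.eval₂_mul, h0, zero_mul]
    have h2 : MvPolynomial.eval₂ (mapRingHom (algebraMap k₀ k)) (fun e => C (a e)) g = 0 := by
      apply hinj
      rw [map_zero, ← h1, MvPolynomial.eval₂_map, MvPolynomial.eval₂_comp_left]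
      have h3 : (algebraMap k[X] K).comp (mapRingHom (algebraMap k₀ k)) =
          (algebraMap K₀ K).comp (algebraMap k₀[X] K₀) := by
        refine RingHom.ext fun p => ?_
        rw [RingHom.comp_apply, RingHom.comp_apply, hcomp, coe_mapRingHom]
      rw [h3]
      rfl
    have h3 := congrArg (fun p : k[X] => p.coeff j) h2
    simp only [coeff_zero] at h3
    rw [← h3]
    simp only [Φ]
    rw [MvPolynomial.eval₂_sum, MvPolynomial.eval₂_eq, finsetSum_coeff]
    refine Finset.sum_congr rfl fun m _ => ?_
    rw [MvPolynomial.eval₂_monomial, Finsupp.prod]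
    have h4 : (∏ i ∈ m.support, C (a i) ^ m i : k[X]) = C (∏ i ∈ m.support, a i ^ m i) := by
      rw [map_prod]
      refine Finset.prod_congr rfl fun i _ => ?_
      rw [map_pow]
    rw [h4, coeff_mul_C, coe_mapRingHom, coeff_map]

end PartC

section PartD

open Pool.Agent.LT Pool.Agent.TWU

/-- independence over the field generated by the other elements -/
theorem transc_of_append54 {F k : Type u} [Field F] [Field k] [Algebra F k] {u : k} {n : ℕ}
    {s : Fin n → k} (h : AlgebraicIndependent F (Sum.elim ![u] s)) :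
    Transcendental (IntermediateField.adjoin F (Set.range s)) u := by
  have h4 := (AlgebraicIndependent.sumElim_iff.1 h).2
  have h5 := IntermediateField.algebraicIndependent_adjoin_iff.2 h4
  exact algebraicIndependent_unique_type_iff.1 h5

/-- **The base fields** for one element. -/
theorem exists_base54 {F₀ k₀ : Type u} [Field F₀] [Field k₀] [Algebra F₀ k₀]
    (hk₀ : ∃ S : Finset k₀, Subfield.closure (S : Set k₀) = ⊤) {u : k₀}
    (hu : Transcendental F₀ u) :
    ∃ F₁ : IntermediateField F₀ k₀, Transcendental F₁ u ∧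
      (∀ z : k₀, IsAlgebraic (IntermediateField.adjoin F₁ {u}) z) ∧
      ∀ (F k : Type u) [Field F] [Field k] [Algebra F₀ F] [Algebra F k] [Algebra k₀ k]
        [Algebra F₀ k] [IsScalarTower F₀ F k] [IsScalarTower F₀ k₀ k],
        (∃ S : Finset F, Subfield.closure (S : Set F) = ⊤) →
        IntermediateField.adjoin F (Set.range (algebraMap k₀ k)) = ⊤ →
        (∀ {n : ℕ} {x : Fin n → k₀}, AlgebraicIndependent F₀ x →
          AlgebraicIndependent F (algebraMap k₀ k ∘ x)) →
        ∃ F' : IntermediateField F k, (∃ S : Finset F', Subfield.closure (S : Set F') = ⊤) ∧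
          Transcendental F' (algebraMap k₀ k u) ∧
          (∀ z : k, IsAlgebraic (IntermediateField.adjoin F' {algebraMap k₀ k u}) z) ∧
          ∀ z ∈ F₁, algebraMap k₀ k z ∈ F' := by
  classical
  have hrange : Set.range ![u] = {u} := by
    simp only [Matrix.range_cons, Matrix.range_empty, Set.union_empty]
  have hu1 : AlgebraicIndependent F₀ ![u] := algebraicIndependent_unique_type_iff.2 hu
  -- `k₀` is essentially of finite type over `F₀`
  have hess : Algebra.EssFiniteType F₀ k₀ := by
    obtain ⟨S, hS⟩ := hk₀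
    rw [← IntermediateField.fg_top_iff]
    refine ⟨S, ?_⟩
    rw [eq_top_iff]
    intro z _
    have hz : z ∈ Subfield.closure (S : Set k₀) := by rw [hS]; trivial
    exact (Subfield.closure_le (t := (IntermediateField.adjoin F₀ (S : Set k₀)).toSubfield)).2
      (IntermediateField.subset_adjoin F₀ (S : Set k₀)) hz
  set L := IntermediateField.adjoin F₀ ({u} : Set k₀) with hL
  have hessL : Algebra.EssFiniteType L k₀ := Algebra.EssFiniteType.of_comp F₀ L k₀
  obtain ⟨s₀, hs₀⟩ := exists_finset_isTranscendenceBasis L k₀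
  obtain ⟨n, s, hs⟩ : ∃ (n : ℕ) (s : Fin n → k₀), IsTranscendenceBasis L s := by
    let e := s₀.equivFin
    exact ⟨s₀.card, fun i => ((e.symm i : s₀) : k₀), hs₀.comp_equiv e.symm⟩
  have hind : AlgebraicIndependent F₀ (Sum.elim ![u] s) := by
    have h1 : AlgebraicIndependent (Algebra.adjoin F₀ (Set.range ![u])) s := by
      rw [hrange]
      exact IntermediateField.algebraicIndependent_adjoin_iff.1 hs.1
    have h2 := hu1.sumElim h1
    refine (algebraicIndependent_equiv' (Equiv.sumComm _ _) ?_).1 h2
    ext i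
    rcases i with i | i <;> rfl
  -- `k₀` is algebraic over every subfield containing `u`, `s`
  have halg : ∀ (M : Subfield k₀), (∀ c : F₀, algebraMap F₀ k₀ c ∈ M) → u ∈ M →
      (∀ i, s i ∈ M) → ∀ z : k₀, IsAlgebraic M z := by
    intro M hFM hu hsM z
    have h1 : Algebra.IsAlgebraic (Algebra.adjoin L (Set.range s)) k₀ := hs.isAlgebraic
    have hLM : L.toSubfield ≤ M := by
      have : L ≤ (Subfield.toIntermediateField M hFM) := by
        rw [hL, IntermediateField.adjoin_le_iff]
        intro z hz
        rw [Set.mem_singleton_iff.1 hz]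
        exact hu
      exact this
    have hAM : ∀ z ∈ Algebra.adjoin L (Set.range s), z ∈ M := by
      intro z hz
      induction hz using Algebra.adjoin_induction with
      | mem x hx =>
        obtain ⟨i, rfl⟩ := hx
        exact hsM i
      | algebraMap r => exact hLM r.2
      | add x y _ _ hx hy => exact M.add_mem hx hy
      | mul x y _ _ hx hy => exact M.mul_mem hx hy
    obtain ⟨p, hp0, hp⟩ := h1.isAlgebraic z
    let f : Algebra.adjoin L (Set.range s) →+* M :=
      { toFun := fun z => ⟨z, hAM z z.2⟩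
        map_one' := rfl
        map_mul' := fun _ _ => rfl
        map_zero' := rfl
        map_add' := fun _ _ => rfl }
    have hf : Function.Injective f := by
      intro a b hab
      exact Subtype.ext (congrArg (fun z : M => (z : k₀)) hab)
    refine ⟨p.map f, ?_, ?_⟩
    · rw [Ne, Polynomial.map_eq_zero_iff hf]
      exact hp0
    · rw [Polynomial.aeval_def, Polynomial.eval₂_map]
      rw [Polynomial.aeval_def] at hp
      exact hp
  refine ⟨IntermediateField.adjoin F₀ (Set.range s), transc_of_append54 hind, ?_, ?_⟩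
  · intro z
    refine halg (IntermediateField.adjoin (IntermediateField.adjoin F₀ (Set.range s))
      {u}).toSubfield ?_ ?_ ?_ z
    · exact fun c => IntermediateField.algebraMap_mem _
        (algebraMap F₀ (IntermediateField.adjoin F₀ (Set.range s)) c)
    · exact IntermediateField.mem_adjoin_simple_self _ _
    · intro i
      exact IntermediateField.algebraMap_mem _ (⟨s i, IntermediateField.subset_adjoin F₀ _ ⟨i, rfl⟩⟩ :
        IntermediateField.adjoin F₀ (Set.range s))
  intro F k _ _ _ _ _ _ _ _ hF hgen hfree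
  have hind' : AlgebraicIndependent F (Sum.elim ![algebraMap k₀ k u] (algebraMap k₀ k ∘ s)) := by
    let e : Fin (1 + n) ≃ Fin 1 ⊕ Fin n := finSumFinEquiv.symm
    have h1 : AlgebraicIndependent F₀ (Sum.elim ![u] s ∘ e) := hind.comp e e.injective
    have h2 := hfree h1
    have h3 := h2.comp e.symm e.symm.injective
    have h4 : (algebraMap k₀ k ∘ Sum.elim ![u] s ∘ e) ∘ e.symm =
        Sum.elim ![algebraMap k₀ k u] (algebraMap k₀ k ∘ s) := by
      funext x
      simp only [Function.comp_apply, Equiv.apply_symm_apply]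
      rcases x with x | x
      · fin_cases x; rfl
      · rfl
    rwa [h4] at h3
  have hF'1 : ∀ i, algebraMap k₀ k (s i) ∈
      IntermediateField.adjoin F (Set.range (algebraMap k₀ k ∘ s)) := fun i =>
    IntermediateField.subset_adjoin F _ ⟨i, rfl⟩
  refine ⟨IntermediateField.adjoin F (Set.range (algebraMap k₀ k ∘ s)), RR.fg_adjoin hF _,
    transc_of_append54 hind', ?_, ?_⟩
  · set F' := IntermediateField.adjoin F (Set.range (algebraMap k₀ k ∘ s)) with hF'
    set M : Subfield k := (IntermediateField.adjoin F' {algebraMap k₀ k u}).toSubfield with hM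
    have hFM : ∀ c : F, algebraMap F k c ∈ M := fun c =>
      (IntermediateField.adjoin F' {algebraMap k₀ k u}).algebraMap_mem (algebraMap F F' c)
    -- the elements of `k₀` are algebraic over `M`
    have h6 : ∀ z : k₀, IsAlgebraic M (algebraMap k₀ k z) := by
      intro z
      have h7 := halg (M.comap (algebraMap k₀ k)) (fun c => by
        change algebraMap k₀ k (algebraMap F₀ k₀ c) ∈ M
        rw [← IsScalarTower.algebraMap_apply, IsScalarTower.algebraMap_apply F₀ F k]
        exact hFM _) (by
          change algebraMap k₀ k u ∈ IntermediateField.adjoin F' {algebraMap k₀ k u}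
          exact IntermediateField.mem_adjoin_simple_self _ _) (fun i => by
          change algebraMap k₀ k (s i) ∈ IntermediateField.adjoin F' {algebraMap k₀ k u}
          exact IntermediateField.algebraMap_mem _ (⟨_, hF'1 i⟩ : F')) z
      obtain ⟨p, hp0, hp⟩ := h7
      let f : M.comap (algebraMap k₀ k) →+* M :=
        ((algebraMap k₀ k).comp (M.comap (algebraMap k₀ k)).subtype).codRestrict M fun y => y.2
      refine ⟨p.map f, ?_, ?_⟩
      · rw [Ne, Polynomial.map_eq_zero]
        exact hp0
      · rw [Polynomial.aeval_def, Polynomial.eval₂_map]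
        have h8 := congrArg (algebraMap k₀ k) hp
        rw [map_zero, Polynomial.aeval_def, Polynomial.hom_eval₂] at h8
        exact h8
    have h7 : ∀ c : F, algebraMap F k c ∈ algebraicClosure M k := fun c =>
      (algebraicClosure M k).algebraMap_mem ⟨_, hFM c⟩
    have h8 : IntermediateField.adjoin F (Set.range (algebraMap k₀ k)) ≤
        (algebraicClosure M k).toSubfield.toIntermediateField h7 := by
      rw [IntermediateField.adjoin_le_iff]
      rintro _ ⟨c, rfl⟩
      exact mem_algebraicClosure_iff.2 (h6 c)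
    rw [hgen] at h8
    exact fun z => mem_algebraicClosure_iff.1 (h8 (IntermediateField.mem_top (x := z)))
  · intro z hz
    have h6 : (IntermediateField.adjoin F₀ (Set.range s)).toSubfield ≤
        (IntermediateField.adjoin F (Set.range (algebraMap k₀ k ∘ s))).toSubfield.comap
          (algebraMap k₀ k) := by
      rw [IntermediateField.adjoin_toSubfield, Subfield.closure_le]
      rintro _ (⟨c, rfl⟩ | ⟨i, rfl⟩)
      · change algebraMap k₀ k (algebraMap F₀ k₀ c) ∈ IntermediateField.adjoin F _
        rw [← IsScalarTower.algebraMap_apply, IsScalarTower.algebraMap_apply F₀ F k]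
        exact IntermediateField.algebraMap_mem _ _
      · exact hF'1 i
    exact h6 hz

end PartD

end Pool.Agent.SE
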