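import Mathlib

/-!
# Project SE, version 4: Bezout identities for families of plane curves
-/

universe u

set_option linter.unusedSectionVars false

namespace Pool.Agent.SE

open Polynomial

/-- clearing the denominators of a Bezout identity -/
theorem exists_bezout_of_isCoprime {R : Type u} [CommRing R] [IsDomain R] {M P : R[X]}
    (h : IsCoprime (M.map (algebraMap R (FractionRing R))) (P.map (algebraMap R (FractionRing R)))) :
    ∃ (A B : R[X]) (n : R), n ≠ 0 ∧ A * M + B * P = C n := by
  classical
  obtain ⟨a, b, hab⟩ := h
  obtain ⟨n₁, hn₁, ha⟩ := IsLocalization.integerNormalization_spec (nonZeroDivisors R) a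
  obtain ⟨n₂, hn₂, hb⟩ := IsLocalization.integerNormalization_spec (nonZeroDivisors R) b
  set A := IsLocalization.integerNormalization (nonZeroDivisors R) a with hA
  set B := IsLocalization.integerNormalization (nonZeroDivisors R) b with hB
  have hinj : Function.Injective (algebraMap R (FractionRing R)) := IsFractionRing.injective _ _
  refine ⟨C n₂ * A, C n₁ * B, n₁ * n₂, mul_ne_zero (nonZeroDivisors.ne_zero hn₁)
    (nonZeroDivisors.ne_zero hn₂), ?_⟩
  apply Polynomial.map_injective _ hinj
  rw [Polynomial.map_add, Polynomial.map_mul, Polynomial.map_mul, Polynomial.map_mul,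
    Polynomial.map_mul, map_C, map_C, map_C, ha, hb, map_mul, C_mul]
  have e1 : n₁ • a = C (algebraMap R (FractionRing R) n₁) * a := by
    rw [← Polynomial.smul_eq_C_mul, algebraMap_smul]
  have e2 : n₂ • b = C (algebraMap R (FractionRing R) n₂) * b := by
    rw [← Polynomial.smul_eq_C_mul, algebraMap_smul]
  rw [e1, e2]
  linear_combination (C (algebraMap R (FractionRing R) n₁) * C (algebraMap R (FractionRing R) n₂)) * hab

/-- an irreducible polynomial is prime to the polynomials which it does not divide -/
theorem exists_bezout {R : Type u} [CommRing R] [IsDomain R] [UniqueFactorizationMonoid R]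
    {M P : R[X]} (hM : Irreducible M) (hM0 : 0 < M.natDegree) (hP : ¬ M ∣ P) :
    ∃ (A B : R[X]) (n : R), n ≠ 0 ∧ A * M + B * P = C n := by
  classical
  obtain ⟨hgcd⟩ : Nonempty (NormalizedGCDMonoid R) := inferInstance
  have hMp : M.IsPrimitive := hM.isPrimitive hM0.ne'
  have hMi : Irreducible (M.map (algebraMap R (FractionRing R))) :=
    (hMp.irreducible_iff_irreducible_map_fraction_map).1 hM
  apply exists_bezout_of_isCoprime
  rw [hMi.coprime_iff_not_dvd]
  intro h
  apply hP
  have hP0 : P ≠ 0 := by
    rintro rfl
    exact hP (dvd_zero _)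
  have h1 : P = C P.content * P.primPart := P.eq_C_content_mul_primPart
  have h2 : M.map (algebraMap R (FractionRing R)) ∣ P.primPart.map (algebraMap R (FractionRing R)) := by
    rw [h1, Polynomial.map_mul, map_C] at h
    have hu : IsUnit (C (algebraMap R (FractionRing R) P.content)) := by
      rw [isUnit_C, isUnit_iff_ne_zero, Ne, map_eq_zero_iff _ (IsFractionRing.injective _ _),
        content_eq_zero_iff]
      exact hP0
    exact (hu.dvd_mul_left).1 h
  have h3 := hMp.dvd_of_fraction_map_dvd_fraction_map h2
  rw [h1]
  exact h3.mul_left _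

/-- an irreducible polynomial is prime to its derivative -/
theorem exists_bezout_derivative {R : Type u} [CommRing R] [IsDomain R] [UniqueFactorizationMonoid R]
    [CharZero R] {M : R[X]} (hM : Irreducible M) (hM0 : 0 < M.natDegree) :
    ∃ (A B : R[X]) (n : R), n ≠ 0 ∧ A * M + B * derivative M = C n := by
  classical
  obtain ⟨hgcd⟩ : Nonempty (NormalizedGCDMonoid R) := inferInstance
  have hMp : M.IsPrimitive := hM.isPrimitive hM0.ne'
  have hMi : Irreducible (M.map (algebraMap R (FractionRing R))) :=
    (hMp.irreducible_iff_irreducible_map_fraction_map).1 hM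
  have h0 : CharZero (FractionRing R) :=
    charZero_of_injective_algebraMap (IsFractionRing.injective R (FractionRing R))
  apply exists_bezout_of_isCoprime
  have h1 := hMi.separable
  unfold Separable at h1
  rwa [derivative_map] at h1

end Pool.Agent.SE
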