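import Pool.Agent.Helper10.SE.M2

/-!
# Project SE, version 4: valuations and plane equations
-/

universe u

set_option linter.unusedSectionVars false

namespace Pool.Agent.SE

open Polynomial

section val

variable {Ω : Type u} [Field Ω] (P : ValuationSubring Ω)

theorem eval_mem_vs {p : Polynomial Ω} (hp : ∀ i, p.coeff i ∈ P) {z : Ω} (hz : z ∈ P) : p.eval z ∈ P := by
  rw [eval_eq_sum_range]
  exact P.toSubring.sum_mem fun i _ => P.mul_mem _ _ (hp i) (P.toSubring.pow_mem hz i)

/-- a root of a polynomial with integral coefficients and a leading unit is integral -/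
theorem mem_vs_of_root {p : Polynomial Ω} (hp : ∀ i, p.coeff i ∈ P)
    (hl : P.valuation p.leadingCoeff = 1) {z : Ω} (hz : p.eval z = 0) : z ∈ P := by
  classical
  by_contra hzP
  have h1 : 1 < P.valuation z := by
    rw [← not_le, ValuationSubring.valuation_le_one_iff]
    exact hzP
  have h0 : P.valuation z ≠ 0 := (zero_lt_one.trans h1).ne'
  rw [eval_eq_sum_range, Finset.sum_range_succ] at hz
  have h2 : p.coeff p.natDegree * z ^ p.natDegree =
      -∑ i ∈ Finset.range p.natDegree, p.coeff i * z ^ i := by linear_combination hz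
  have h3 : P.valuation (∑ i ∈ Finset.range p.natDegree, p.coeff i * z ^ i) <
      P.valuation z ^ p.natDegree := by
    refine Valuation.map_sum_lt _ (pow_ne_zero _ h0) fun i hi => ?_
    rw [map_mul, map_pow]
    have h4 : P.valuation (p.coeff i) ≤ 1 := (ValuationSubring.valuation_le_one_iff P _).2 (hp i)
    calc P.valuation (p.coeff i) * P.valuation z ^ i ≤ P.valuation z ^ i := mul_le_of_le_one_left' h4
      _ < P.valuation z ^ p.natDegree := pow_lt_pow_right₀ h1 (Finset.mem_range.1 hi)
  have h5 := congrArg P.valuation h2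
  rw [Valuation.map_neg, map_mul, map_pow] at h5
  change P.valuation p.leadingCoeff * _ = _ at h5
  rw [hl, one_mul] at h5
  rw [← h5] at h3
  exact lt_irrefl _ h3

/-- two congruent simple roots are equal -/
theorem eq_of_congr_root {p : Polynomial Ω} (hp : ∀ i, p.coeff i ∈ P) {z z' : Ω} (hz : z ∈ P)
    (h0 : p.eval z = 0) (h0' : p.eval z' = 0) (hd : P.valuation (p.derivative.eval z) = 1)
    (h : z' - z ∈ P.nonunits) : z' = z := by
  classical
  have hz' : z' - z ∈ P := ValuationSubring.nonunits_le h
  set q : P.toSubring[X] := p.toSubring P.toSubring (by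
    intro c hc
    obtain ⟨i, -, rfl⟩ := mem_coeffs_iff.1 (by exact_mod_cast hc)
    exact hp i) with hq
  have hqm : q.map P.toSubring.subtype = p := Polynomial.map_toSubring _ _ _
  have hev : ∀ (c : P.toSubring), P.toSubring.subtype (q.eval c) = p.eval (c : Ω) := by
    intro c
    rw [← hqm, eval_map, ← eval₂_at_apply]
    rfl
  have hev' : ∀ (c : P.toSubring), P.toSubring.subtype (q.derivative.eval c) =
      p.derivative.eval (c : Ω) := by
    intro c
    rw [← hqm, derivative_map, eval_map, ← eval₂_at_apply]
    rfl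
  let y : P.toSubring := ⟨z' - z, hz'⟩
  let x : P.toSubring := ⟨z, hz⟩
  obtain ⟨c, hc⟩ := q.binomExpansion x y
  have h1 := congrArg P.toSubring.subtype hc
  rw [map_add, map_add, map_mul, map_mul, hev, hev, hev', map_pow] at h1
  have e1 : ((x + y : P.toSubring) : Ω) = z' := by
    change z + (z' - z) = z'
    ring
  rw [e1, h0'] at h1
  change 0 = p.eval z + p.derivative.eval z * (z' - z) + (c : Ω) * (z' - z) ^ 2 at h1
  rw [h0, zero_add] at h1
  by_contra hne
  have hne' : z' - z ≠ 0 := sub_ne_zero.2 hne
  have h2 : p.derivative.eval z = -((c : Ω) * (z' - z)) := by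
    apply mul_right_cancel₀ hne'
    linear_combination -h1
  rw [h2, Valuation.map_neg, map_mul] at hd
  have h3 : P.valuation (c : Ω) ≤ 1 := (ValuationSubring.valuation_le_one_iff P _).2 c.2
  have h4 : P.valuation (z' - z) < 1 := (ValuationSubring.mem_nonunits_iff P).1 h
  have h5 : P.valuation (c : Ω) * P.valuation (z' - z) ≤ P.valuation (z' - z) :=
    mul_le_of_le_one_left' h3
  rw [hd] at h5
  exact absurd h4 (not_lt.2 h5)

end val

end Pool.Agent.SE
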