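import Pool.Agent.Helper10.SE.Defs8
import Pool.Agent.Helper10.SE.R1

/-!
# Project SE: good coordinates for families of curves
-/

universe u

set_option linter.unusedSectionVars false

namespace Pool.Agent.SE

open VC Polynomial Pool.Agent.LT Pool.Agent.SC Pool.Agent.GC Pool.Agent.Helper91.Sect Pool.Agent
  Pool.Agent.TWH Pool.Agent.TWU

section ev

variable {k₀ k K : Type u} [Field k₀] [Field k] [Field K] [Algebra k K] {N : ℕ} (ι : k₀ →+* k)
  (a : Fin N → k) (x z : K)

/-- the value of a polynomial in one variable of the family -/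
noncomputable def ev3x (ι : k₀ →+* k) (a : Fin N → k) (x : K) : (MvPolynomial (Fin N) k₀)[X] →+* K :=
  (aeval x : k[X] →ₐ[k] K).toRingHom.comp (mapRingHom (evp ι a))

theorem ev3x_apply (p : (MvPolynomial (Fin N) k₀)[X]) :
    ev3x ι a x p = aeval x (p.map (evp ι a)) := rfl

theorem ev3_eq (p : (MvPolynomial (Fin N) k₀)[X][X]) : ev3 ι a x z p = (p.map (ev3x ι a x)).eval z := by
  unfold ev3 ev2
  rw [RingHom.comp_apply, coe_eval₂RingHom, coe_mapRingHom, eval₂_map, eval_map]
  rfl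

theorem ev3_C (p : (MvPolynomial (Fin N) k₀)[X]) : ev3 ι a x z (C p) = aeval x (p.map (evp ι a)) := by
  rw [ev3_eq, map_C, eval_C]
  rfl

theorem ev3_X : ev3 ι a x z X = z := by
  rw [ev3_eq, map_X, eval_X]

end ev

/-- the field generated by `x` and a root of a polynomial over `k[x]` is a function field -/
theorem isFunctionField_of_root {k K : Type u} [Field k] [Field K] [Algebra k K] {x z : K}
    (hx : Transcendental k x) (hgen : IntermediateField.adjoin k {x, z} = ⊤)
    {p : k[X][X]} (hp : p ≠ 0) (h0 : ev2 x z p = 0) : IsFunctionField k K := by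
  refine ⟨x, hx, ?_⟩
  set E := IntermediateField.adjoin k {x} with hE
  have hxE : x ∈ E := IntermediateField.mem_adjoin_simple_self k x
  let ρ : k[X] →+* E := (aeval (⟨x, hxE⟩ : E) : k[X] →ₐ[k] E).toRingHom
  have hρ : (algebraMap E K).comp ρ = (aeval x : k[X] →ₐ[k] K).toRingHom := by
    apply Polynomial.ringHom_ext
    · intro c
      change algebraMap E K (aeval (⟨x, hxE⟩ : E) (C c)) = aeval x (C c)
      rw [aeval_C, aeval_C]
      rfl
    · change algebraMap E K (aeval (⟨x, hxE⟩ : E) X) = aeval x X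
      rw [aeval_X, aeval_X]
      rfl
  have hinj : Function.Injective ρ := by
    intro a b hab
    have h1 : aeval x a = aeval x b := by
      have h2 := congrArg (algebraMap E K) hab
      have h3 := fun c => congrArg (fun f : k[X] →+* K => f c) hρ
      exact (h3 a).symm.trans (h2.trans (h3 b))
    have h4 : aeval x (a - b) = 0 := by rw [map_sub, h1, sub_self]
    exact sub_eq_zero.1 ((transcendental_iff.1 hx) _ h4)
  have hz : IsAlgebraic E z := by
    refine ⟨p.map ρ, (Polynomial.map_ne_zero_iff hinj).2 hp, ?_⟩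
    rw [aeval_def, eval₂_map, hρ]
    exact h0
  have h1 : IntermediateField.adjoin E {z} = ⊤ := by
    have h2 := IntermediateField.adjoin_simple_adjoin_simple k x z
    rw [← IntermediateField.restrictScalars_eq_top_iff (K := k), h2]
    exact hgen
  have h3 := IntermediateField.adjoin.finiteDimensional hz.isIntegral
  rw [h1] at h3
  exact (IntermediateField.topEquiv (F := E) (E := K)).toLinearEquiv.finiteDimensional

/-- **Good coordinates for families of curves.** -/
theorem exists_coordM {k₀ : Type u} [Field k₀] [CharZero k₀] {N r : ℕ}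
    {M : (MvPolynomial (Fin N) k₀)[X][X]} (hM : Irreducible M) (hM0 : 0 < M.natDegree)
    {P : Fin r → (MvPolynomial (Fin N) k₀)[X][X]} (hP : ∀ s, ¬ M ∣ P s) :
    ∃ (ff : (MvPolynomial (Fin N) k₀)[X]) (E U : Finset (MvPolynomial (Fin N) k₀)),
      U ⊆ E ∧ 0 ∉ U ∧ 1 ≤ ff.natDegree ∧ ff.leadingCoeff ∈ U ∧ ff.discr ∈ U ∧
      (∀ i, ff.coeff i ∈ E) ∧
      ∀ (k K₁ : Type u) [Field k] [DecidableEq k] [Field K₁] [Algebra k K₁] (ι : k₀ →+* k)
        (x z : K₁), Transcendental k x → IntermediateField.adjoin k {x, z} = ⊤ →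
        ∀ a : Fin N → k, ev3 ι a x z M = 0 → (∀ h ∈ U, evp ι a h ≠ 0) → ∀ e : Fin r → ℤ,
        Coord (∏ s, ev3 ι a x z (P s) ^ e s) x z (ff.map (evp ι a))
          (E.image (evp ι a) ∪ U.image fun h => (evp ι a h)⁻¹) := by
  classical
  obtain ⟨A, B, δ, hδ, hAB⟩ := exists_bezout_derivative hM hM0
  choose Q G n hn hQG using fun s => exists_bezout hM hM0 (hP s)
  set ℓ := M.leadingCoeff with hℓ
  have hℓ0 : ℓ ≠ 0 := leadingCoeff_ne_zero.2 hM.ne_zero
  have hprod : ℓ * δ * ∏ s, n s ≠ 0 :=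
    mul_ne_zero (mul_ne_zero hℓ0 hδ) (Finset.prod_ne_zero_iff.2 fun s _ => hn s)
  obtain ⟨ff, R, b, m, hb, hffd, hdisc, hrad⟩ := exists_rad (Q := X * (ℓ * δ * ∏ s, n s)) (by
    rw [natDegree_X_mul hprod]
    omega)
  have hlc : ff.leadingCoeff ≠ 0 :=
    leadingCoeff_ne_zero.2 (ne_zero_of_natDegree_gt (n := 0) (by omega))
  -- the finite sets
  set cf : (MvPolynomial (Fin N) k₀)[X] → Finset (MvPolynomial (Fin N) k₀) := fun p =>
    insert 0 (p.support.image p.coeff) with hcf
  have hcf' : ∀ p i, p.coeff i ∈ cf p := by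
    intro p i
    by_cases h0 : p.coeff i = 0
    · rw [h0]
      exact Finset.mem_insert_self _ _
    · exact Finset.mem_insert_of_mem (Finset.mem_image_of_mem _ (mem_support_iff.2 h0))
  set cf2 : (MvPolynomial (Fin N) k₀)[X][X] → Finset (MvPolynomial (Fin N) k₀) := fun p =>
    insert 0 (p.support.biUnion fun i => cf (p.coeff i)) with hcf2
  have hcf2' : ∀ p i j, (p.coeff i).coeff j ∈ cf2 p := by
    intro p i j
    by_cases h0 : p.coeff i = 0
    · rw [h0, coeff_zero]
      exact Finset.mem_insert_self _ _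
    · exact Finset.mem_insert_of_mem (Finset.mem_biUnion.2 ⟨i, mem_support_iff.2 h0, hcf' _ _⟩)
  set U : Finset (MvPolynomial (Fin N) k₀) := {b, ff.leadingCoeff, ff.discr} with hU
  set E : Finset (MvPolynomial (Fin N) k₀) := U ∪ (cf ff ∪ (cf R ∪ (cf ℓ ∪ (cf δ ∪
    ((Finset.univ.biUnion fun s => cf (n s)) ∪ (cf2 M ∪ (cf2 (derivative M) ∪ (cf2 A ∪ (cf2 B ∪
    ((Finset.univ.biUnion fun s => cf2 (G s)) ∪
      (Finset.univ.biUnion fun s => cf2 (P s)))))))))))) with hE
  have hEU : U ⊆ E := Finset.subset_union_left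
  have hEff : ∀ i, ff.coeff i ∈ E := fun i => by
    rw [hE]; simp only [Finset.mem_union]; exact Or.inr (Or.inl (hcf' _ _))
  have hER : ∀ i, R.coeff i ∈ E := fun i => by
    rw [hE]; simp only [Finset.mem_union]; exact Or.inr (Or.inr (Or.inl (hcf' _ _)))
  have hEℓ : ∀ i, ℓ.coeff i ∈ E := fun i => by
    rw [hE]; simp only [Finset.mem_union]; exact Or.inr (Or.inr (Or.inr (Or.inl (hcf' _ _))))
  have hEδ : ∀ i, δ.coeff i ∈ E := fun i => by
    rw [hE]; simp only [Finset.mem_union]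
    exact Or.inr (Or.inr (Or.inr (Or.inr (Or.inl (hcf' _ _)))))
  have hEn : ∀ s i, (n s).coeff i ∈ E := fun s i => by
    rw [hE]; simp only [Finset.mem_union]
    exact Or.inr (Or.inr (Or.inr (Or.inr (Or.inr (Or.inl
      (Finset.mem_biUnion.2 ⟨s, Finset.mem_univ _, hcf' _ _⟩))))))
  have hEM : ∀ i j, (M.coeff i).coeff j ∈ E := fun i j => by
    rw [hE]; simp only [Finset.mem_union]
    exact Or.inr (Or.inr (Or.inr (Or.inr (Or.inr (Or.inr (Or.inl (hcf2' _ _ _)))))))
  have hEM' : ∀ i j, ((derivative M).coeff i).coeff j ∈ E := fun i j => by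
    rw [hE]; simp only [Finset.mem_union]
    exact Or.inr (Or.inr (Or.inr (Or.inr (Or.inr (Or.inr (Or.inr (Or.inl (hcf2' _ _ _))))))))
  have hEB : ∀ i j, (B.coeff i).coeff j ∈ E := fun i j => by
    rw [hE]; simp only [Finset.mem_union]
    exact Or.inr (Or.inr (Or.inr (Or.inr (Or.inr (Or.inr (Or.inr (Or.inr (Or.inr
      (Or.inl (hcf2' _ _ _))))))))))
  have hEG : ∀ s i j, ((G s).coeff i).coeff j ∈ E := fun s i j => by
    rw [hE]; simp only [Finset.mem_union]
    exact Or.inr (Or.inr (Or.inr (Or.inr (Or.inr (Or.inr (Or.inr (Or.inr (Or.inr (Or.inr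
      (Or.inl (Finset.mem_biUnion.2 ⟨s, Finset.mem_univ _, hcf2' _ _ _⟩)))))))))))
  have hEP : ∀ s i j, ((P s).coeff i).coeff j ∈ E := fun s i j => by
    rw [hE]; simp only [Finset.mem_union]
    exact Or.inr (Or.inr (Or.inr (Or.inr (Or.inr (Or.inr (Or.inr (Or.inr (Or.inr (Or.inr
      (Or.inr (Finset.mem_biUnion.2 ⟨s, Finset.mem_univ _, hcf2' _ _ _⟩)))))))))))
  refine ⟨ff, E, U, hEU, ?_, hffd, by rw [hU]; simp, by rw [hU]; simp, hEff, ?_⟩
  · rw [hU]
    simp only [Finset.mem_insert, Finset.mem_singleton, not_or]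
    exact ⟨hb.symm, hlc.symm, hdisc.symm⟩
  intro k K₁ _ _ _ _ ι x z hx hgen a hMa hcU e
  have hk0 : CharZero k := charZero_of_injective_ringHom ι.injective
  set ev := evp ι a with hev
  have hbU : b ∈ U := by rw [hU]; simp
  have hb0 : ev b ≠ 0 := hcU b hbU
  have hff0 : ff.map ev ≠ 0 := by
    intro h0
    apply hcU ff.leadingCoeff (by rw [hU]; simp)
    have h1 : (ff.map ev).coeff ff.natDegree = 0 := by rw [h0, coeff_zero]
    rw [coeff_map] at h1
    exact h1
  have hrad' : (X * (ℓ * δ * ∏ s, n s) * R).map ev = (C b * ff ^ m).map ev := by rw [hrad]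
  have hne : (X * (ℓ * δ * ∏ s, n s) * R).map ev ≠ 0 := by
    rw [hrad', Polynomial.map_mul, Polynomial.map_pow, map_C]
    exact mul_ne_zero (C_ne_zero.2 hb0) (pow_ne_zero _ hff0)
  rw [Polynomial.map_mul, Polynomial.map_mul, Polynomial.map_mul, Polynomial.map_mul,
    Polynomial.map_prod] at hne
  have hne1 := right_ne_zero_of_mul (left_ne_zero_of_mul hne)
  have hns : ∀ s, (n s).map ev ≠ 0 := fun s =>
    Finset.prod_ne_zero_iff.1 (right_ne_zero_of_mul hne1) s (Finset.mem_univ _)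
  have hℓne : ℓ.map ev ≠ 0 := left_ne_zero_of_mul (left_ne_zero_of_mul hne1)
  have haev : ∀ p : k[X], p ≠ 0 → aeval x p ≠ 0 := fun p hp h0 => hp ((transcendental_iff.1 hx) p h0)
  have hPs : ∀ s, ev3 ι a x z (P s) ≠ 0 := by
    intro s h0
    have h1 := congrArg (ev3 ι a x z) (hQG s)
    rw [map_add, map_mul, map_mul, hMa, h0, mul_zero, mul_zero, add_zero, ev3_C] at h1
    exact haev _ (hns s) h1.symm
  have hgne : ∏ s, ev3 ι a x z (P s) ^ e s ≠ 0 :=
    Finset.prod_ne_zero_iff.2 fun s _ => zpow_ne_zero _ (hPs s)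
  have hMne : M.map (mapRingHom ev) ≠ 0 := by
    intro h0
    apply hℓne
    have h1 : (M.map (mapRingHom ev)).coeff M.natDegree = 0 := by rw [h0, coeff_zero]
    rw [coeff_map] at h1
    exact h1
  have hKF : IsFunctionField k K₁ := isFunctionField_of_root hx hgen hMne hMa
  refine ⟨hgne, hKF, hx, hgen, ?_, ?_, ?_⟩
  · rw [natDegree_map_of_leadingCoeff_ne_zero ev (hcU _ (by rw [hU]; simp))]
    exact hffd
  · exact separable_map_of_discr ev ff (by omega) (hcU _ (by rw [hU]; simp)) (hcU _ (by rw [hU]; simp))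
  -- the good places
  intro Ω _ _ P' hP' hxP hfP
  set φ : K₁ →+* Ω := algebraMap K₁ Ω with hφ
  have hPE : ∀ h ∈ E, φ (algebraMap k K₁ (ev h)) ∈ P' := fun h hh =>
    hP' _ (Finset.mem_union_left _ (Finset.mem_image_of_mem _ hh))
  have hPU : ∀ h ∈ U, φ (algebraMap k K₁ (ev h)⁻¹) ∈ P' := fun h hh =>
    hP' _ (Finset.mem_union_right _ (Finset.mem_image_of_mem (fun h => (ev h)⁻¹) hh))
  -- polynomials with coefficients in `E`
  have hval : ∀ p : (MvPolynomial (Fin N) k₀)[X], (∀ i, p.coeff i ∈ E) →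
      φ (aeval x (p.map ev)) ∈ P' := by
    intro p hp
    rw [aeval_eq_sum_range, map_sum]
    refine P'.toSubring.sum_mem fun i _ => ?_
    rw [Algebra.smul_def, map_mul, map_pow, coeff_map]
    exact P'.toSubring.mul_mem (hPE _ (hp i)) (P'.toSubring.pow_mem hxP i)
  have hle : ∀ {z : Ω}, z ∈ P' ↔ P'.valuation z ≤ 1 := fun {z} => (P'.valuation_le_one_iff z).symm
  have hff1 : P'.valuation (φ (aeval x (ff.map ev))) = 1 := by
    have h1 := hle.1 (hval ff hEff)
    rw [ValuationSubring.mem_nonunits_iff, not_lt] at hfP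
    exact le_antisymm h1 hfP
  have hb1 : P'.valuation (φ (algebraMap k K₁ (ev b))) = 1 := by
    have h1 := hle.1 (hPE b (hEU hbU))
    have h2 := hle.1 (hPU b hbU)
    rw [map_inv₀, map_inv₀, map_inv₀] at h2
    have h3 : P'.valuation (φ (algebraMap k K₁ (ev b))) ≠ 0 :=
      (Valuation.ne_zero_iff _).2 ((_root_.map_ne_zero _).2 ((_root_.map_ne_zero _).2 hb0))
    exact le_antisymm h1 ((inv_le_one₀ (zero_lt_iff.2 h3)).1 h2)
  have hx1 := hle.1 hxP
  have hvprod : P'.valuation (φ x) * (P'.valuation (φ (aeval x (ℓ.map ev))) *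
      P'.valuation (φ (aeval x (δ.map ev))) *
      (∏ s, P'.valuation (φ (aeval x ((n s).map ev))))) *
      P'.valuation (φ (aeval x (R.map ev))) = 1 := by
    have h1 := congrArg (fun p => P'.valuation (φ (aeval x p))) hrad'
    simp only [Polynomial.map_mul, Polynomial.map_pow, Polynomial.map_prod, map_mul, map_pow, map_prod,
      Polynomial.map_C, aeval_C, Polynomial.map_X, aeval_X] at h1
    rw [h1, hff1, hb1, one_pow, one_mul]
  have hleℓ := hle.1 (hval _ hEℓ)
  have hleδ := hle.1 (hval _ hEδ)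
  have hleR := hle.1 (hval _ hER)
  have hlen : ∀ s, P'.valuation (φ (aeval x ((n s).map ev))) ≤ 1 := fun s =>
    hle.1 (hval _ (hEn s))
  have hlep : ∏ s, P'.valuation (φ (aeval x ((n s).map ev))) ≤ 1 :=
    Finset.prod_le_one' fun s _ => hlen s
  have hval1 : ∀ {a b : P'.ValueGroup}, a ≤ 1 → b ≤ 1 → a * b = 1 → a = 1 ∧ b = 1 := by
    intro a b ha hb hab
    have h1 : a * b ≤ a := mul_le_of_le_one_right' hb
    have h2 : a * b ≤ b := mul_le_of_le_one_left' ha
    rw [hab] at h1 h2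
    exact ⟨le_antisymm ha h1, le_antisymm hb h2⟩
  obtain ⟨h1, -⟩ := hval1 (mul_le_one' hx1 (mul_le_one' (mul_le_one' hleℓ hleδ) hlep)) hleR hvprod
  obtain ⟨-, h2⟩ := hval1 hx1 (mul_le_one' (mul_le_one' hleℓ hleδ) hlep) h1
  obtain ⟨h3, hp1⟩ := hval1 (mul_le_one' hleℓ hleδ) hlep h2
  obtain ⟨hℓ1, hδ1⟩ := hval1 hleℓ hleδ h3
  have hn1 : ∀ s, P'.valuation (φ (aeval x ((n s).map ev))) = 1 := by
    intro s
    have h3 := hp1
    rw [← Finset.mul_prod_erase _ _ (Finset.mem_univ s)] at h3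
    exact (hval1 (hlen s) (Finset.prod_le_one' fun s _ => hlen s) h3).1
  -- polynomials in two variables
  set ρ : (MvPolynomial (Fin N) k₀)[X] →+* Ω := φ.comp (ev3x ι a x) with hρ
  have hρ3 : ∀ p : (MvPolynomial (Fin N) k₀)[X][X], φ (ev3 ι a x z p) = (p.map ρ).eval (φ z) := by
    intro p
    rw [ev3_eq, eval_map, eval_map, hom_eval₂]
  have hρE : ∀ p : (MvPolynomial (Fin N) k₀)[X][X], (∀ i j, (p.coeff i).coeff j ∈ E) →
      ∀ i, (p.map ρ).coeff i ∈ P' := by
    intro p hp i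
    rw [coeff_map]
    exact hval _ (hp i)
  have hℓρ : ρ ℓ ≠ 0 := by
    have h4 : P'.valuation (ρ ℓ) = 1 := hℓ1
    intro h0
    rw [h0, map_zero] at h4
    exact zero_ne_one h4
  have hzP : φ z ∈ P' := by
    refine mem_vs_of_root P' (p := M.map ρ) (hρE M hEM) ?_ ?_
    · rw [leadingCoeff_map_of_leadingCoeff_ne_zero ρ hℓρ]
      exact hℓ1
    · rw [← hρ3, hMa, map_zero]
  have hmem : ∀ p : (MvPolynomial (Fin N) k₀)[X][X], (∀ i j, (p.coeff i).coeff j ∈ E) →
      φ (ev3 ι a x z p) ∈ P' := by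
    intro p hp
    rw [hρ3]
    exact eval_mem_vs P' (hρE p hp) hzP
  have hPu : ∀ s, P'.valuation (φ (ev3 ι a x z (P s))) = 1 := by
    intro s
    have h4 := congrArg (fun p => P'.valuation (φ (ev3 ι a x z p))) (hQG s)
    simp only [map_add, map_mul] at h4
    rw [hMa, map_zero, mul_zero, zero_add, map_mul, ev3_C, hn1] at h4
    exact (hval1 (hle.1 (hmem _ (hEG s))) (hle.1 (hmem _ (hEP s))) h4).2
  have hgu' : P'.valuation (φ (∏ s, ev3 ι a x z (P s) ^ e s)) = 1 := by
    rw [map_prod, map_prod]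
    refine Finset.prod_eq_one fun s _ => ?_
    rw [map_zpow₀, map_zpow₀, hPu, one_zpow]
  have hder : P'.valuation (((M.map ρ).derivative).eval (φ z)) = 1 := by
    have h4 := congrArg (fun p => P'.valuation (φ (ev3 ι a x z p))) hAB
    simp only [map_add, map_mul] at h4
    rw [hMa, map_zero, mul_zero, zero_add, map_mul, ev3_C, hδ1] at h4
    have h5 := (hval1 (hle.1 (hmem _ hEB)) (hle.1 (hmem _ hEM')) h4).2
    rw [derivative_map, ← hρ3]
    exact h5
  refine ⟨hle.2 hgu'.le, ?_, hzP, fun σ hσk hσx hσz => ?_⟩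
  · rw [ValuationSubring.mem_nonunits_iff, hgu']
    exact lt_irrefl _
  · refine eq_of_congr_root P' (hρE M hEM) hzP ?_ ?_ hder hσz
    · rw [← hρ3, hMa, map_zero]
    · have h4 : σ.comp ρ = ρ := by
        apply Polynomial.ringHom_ext
        · intro c
          change σ (φ (aeval x ((C c).map ev))) = φ (aeval x ((C c).map ev))
          rw [map_C, aeval_C]
          exact hσk _
        · change σ (φ (aeval x (X.map ev))) = φ (aeval x (X.map ev))
          rw [map_X, aeval_X]
          exact hσx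
      have h5 : (M.map ρ).eval (σ (φ z)) = σ ((M.map ρ).eval (φ z)) := by
        rw [eval_map, eval_map, hom_eval₂, h4]
      rw [h5, ← hρ3, hMa, map_zero, map_zero]

end Pool.Agent.SE
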