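import Pool.Agent.Helper10.SE.M4
import Pool.Agent.Helper10.SE.G2
import Pool.Agent.Helper10.SE.M1

/-!
# Project SE: all sections of the members of a family of curves are geometric, outside a hypersurface
-/

universe u

set_option linter.unusedSectionVars false

namespace Pool.Agent.SE

open VC Polynomial Pool.Agent.LT Pool.Agent.SC Pool.Agent.GC Pool.Agent.Helper91.Sect Pool.Agent
  Pool.Agent.TWH Pool.Agent.TWU

/-- **All sections of the members of a family of curves are geometric, outside a hypersurface.** -/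
theorem twists_hypersurfaceM {F₀ k₀ : Type u} [Field F₀] [CharZero F₀] [Field k₀] [Algebra F₀ k₀]
    (hk₀ : ∃ S : Finset k₀, Subfield.closure (S : Set k₀) = ⊤) {m : ℕ} {w : Fin (m + 1) → k₀}
    {i j l : Fin (m + 1)} (hw : AlgebraicIndependent F₀ ![w i / w l, w j / w l])
    {N r : ℕ} {M : (MvPolynomial (Fin N) k₀)[X][X]} (hM : Irreducible M) (hM0 : 0 < M.natDegree)
    {P : Fin r → (MvPolynomial (Fin N) k₀)[X][X]} (hP : ∀ s, ¬ M ∣ P s) :
    ∃ Ψ : MvPolynomial (Fin N ⊕ Fin (m + 1)) F₀, Ψ ≠ 0 ∧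
      ∀ (F k K₁ : Type u) [Field F] [Field k] [Field K₁] [Algebra F₀ F] [Algebra F k] [Algebra k₀ k]
        [Algebra F₀ k] [IsScalarTower F₀ F k] [IsScalarTower F₀ k₀ k] [Algebra k K₁],
        (∃ S : Finset F, Subfield.closure (S : Set F) = ⊤) →
        IntermediateField.adjoin F (Set.range (algebraMap k₀ k)) = ⊤ →
        (∀ {n : ℕ} {x : Fin n → k₀}, AlgebraicIndependent F₀ x →
          AlgebraicIndependent F (algebraMap k₀ k ∘ x)) →
        ∀ x z : K₁, Transcendental k x → IntermediateField.adjoin k {x, z} = ⊤ →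
        ∀ a : Fin N ⊕ Fin (m + 1) → F, MvPolynomial.aeval a Ψ ≠ 0 →
          ev3 (algebraMap k₀ k) (fun q => algebraMap F k (a (Sum.inl q))) x z M = 0 →
          ∀ e : Fin r → ℤ,
          GoodTwist (∏ s, ev3 (algebraMap k₀ k) (fun q => algebraMap F k (a (Sum.inl q))) x z (P s) ^ e s)
            (∑ e, algebraMap F k (a (Sum.inr e)) * algebraMap k₀ k (w e)) := by
  classical
  have hk₀0 : CharZero k₀ := charZero_of_injective_algebraMap (algebraMap F₀ k₀).injective
  obtain ⟨ff, E, U, hUE, hU0, hdeg, hlc, hd, hcE, hcoord⟩ := exists_coordM hM hM0 hP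
  obtain ⟨Ψ, hΨ, h⟩ := exists_goodM hk₀ hw (insert 1 E) U (fun z hz =>
    Finset.mem_insert_of_mem (hUE hz)) hU0
  refine ⟨Ψ, hΨ, ?_⟩
  intro F k K₁ _ _ _ _ _ _ _ _ _ _ hF hgenk hfree x z hx hgen a ha hMa e
  have hF0 : CharZero F := charZero_of_injective_algebraMap (algebraMap F₀ F).injective
  have hk := fg_composite hF hk₀ hgenk
  obtain ⟨⟨F', v, u, b, Δ, E', hF', hvu, hfin', hreg, hΔ, hgood, hE1, hTE, hb0, hbE, hbiE, hc0⟩, hne⟩ :=
    h F k hF hgenk (fun hx => hfree hx) a ha
  have hc1 := hcoord k K₁ (algebraMap k₀ k) x z hx hgen _ hMa hne e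
  rw [hc0]
  refine goodTwist_of_goodAt hF' hk hvu hfin' hreg hc1 hb0 hΔ hE1 ?_ hgood
  refine Finset.union_subset ?_ (Finset.union_subset ?_ ?_)
  · exact (goodElts_evp hdeg hlc hd (fun i => Finset.mem_insert_of_mem (hcE i))
      (Finset.mem_insert_self _ _) hne).trans hTE
  · refine Finset.Subset.trans ?_ hTE
    exact Finset.union_subset_union (Finset.image_subset_image (Finset.subset_insert _ _))
      (Finset.Subset.refl _)
  · intro z hz
    rw [Finset.mem_insert, Finset.mem_singleton] at hz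
    rcases hz with rfl | rfl
    · exact hbE
    · exact hbiE

end Pool.Agent.SE
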