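import Pool.Agent.Helper10.SE.M4

/-!
# Project SE, version 5: the charts of a special member
-/

universe u

set_option linter.unusedSectionVars false

namespace Pool.Agent.SE

open Polynomial

/-- the covering certificate specialises -/
theorem spec_cover {κ L K₁ : Type u} [Field κ] [Field L] [Algebra κ L] [Field K₁] {n : ℕ}
    {y : Fin n → Fin 2 → L} (hy0 : ∀ i j, y i j ≠ 0) {B : Subring L} (hyB : ∀ i j, y i j ∈ B)
    (hyB' : ∀ i j, (y i j)⁻¹ ∈ B) {Q : (Fin n → Fin 2) → MvPolynomial (Fin n) κ}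
    (hQ0 : ∀ c, MvPolynomial.constantCoeff (Q c) = 0)
    (hQ : ∀ c, MvPolynomial.aeval (fun i => (y i (c i))⁻¹) (Q c) = 1) (sp : B →+* K₁)
    (O : ValuationSubring K₁)
    (hcoef : ∀ c ν, ∃ h : algebraMap κ L ((Q c).coeff ν) ∈ B, sp ⟨_, h⟩ ∈ O) :
    ∃ i, ∀ j, sp ⟨y i j, hyB i j⟩ ∈ O := by
  classical
  by_contra hcon
  push_neg at hcon
  choose c hc using hcon
  choose hB hspO using hcoef
  let t : (Fin n →₀ ℕ) → B := fun ν => ⟨algebraMap κ L ((Q c).coeff ν), hB c ν⟩ *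
    ∏ i, (⟨(y i (c i))⁻¹, hyB' i (c i)⟩ : B) ^ ν i
  have hsum : ∑ ν ∈ (Q c).support, t ν = 1 := by
    apply Subtype.ext
    have h1 := hQ c
    rw [MvPolynomial.aeval_def, MvPolynomial.eval₂_eq'] at h1
    change B.subtype (∑ ν ∈ (Q c).support, t ν) = 1
    rw [map_sum, ← h1]
    refine Finset.sum_congr rfl fun ν _ => ?_
    change B.subtype (_ * _) = _
    rw [map_mul, map_prod]
    rfl
  have hinv : ∀ i, O.valuation (sp ⟨(y i (c i))⁻¹, hyB' i (c i)⟩) < 1 := by
    intro i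
    have h1 : sp ⟨y i (c i), hyB i (c i)⟩ * sp ⟨(y i (c i))⁻¹, hyB' i (c i)⟩ = 1 := by
      rw [← map_mul, ← map_one sp]
      congr 1
      exact Subtype.ext (mul_inv_cancel₀ (hy0 i (c i)))
    have h2 : 1 < O.valuation (sp ⟨y i (c i), hyB i (c i)⟩) := by
      rw [← not_le, ValuationSubring.valuation_le_one_iff]
      exact hc i
    have h3 := congrArg O.valuation h1
    rw [map_mul, map_one] at h3
    by_contra h4
    rw [not_lt] at h4
    have h5 : 1 < O.valuation (sp ⟨y i (c i), hyB i (c i)⟩) *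
        O.valuation (sp ⟨(y i (c i))⁻¹, hyB' i (c i)⟩) := lt_of_lt_of_le h2 (le_mul_of_one_le_right' h4)
    rw [h3] at h5
    exact lt_irrefl _ h5
  have hterm : ∀ ν ∈ (Q c).support, O.valuation (sp (t ν)) < 1 := by
    intro ν hν
    have hν0 : ν ≠ 0 := by
      rintro rfl
      exact (MvPolynomial.mem_support_iff.1 hν) (hQ0 c)
    obtain ⟨i₀, hi₀⟩ := Finsupp.ne_iff.1 hν0
    change O.valuation (sp (_ * _)) < 1
    rw [map_mul, map_mul, map_prod, map_prod]
    have h1 : O.valuation (sp ⟨algebraMap κ L ((Q c).coeff ν), hB c ν⟩) ≤ 1 :=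
      (ValuationSubring.valuation_le_one_iff O _).2 (hspO c ν)
    refine lt_of_le_of_lt (mul_le_of_le_one_left' h1) ?_
    rw [← Finset.mul_prod_erase _ _ (Finset.mem_univ i₀)]
    have h2 : ∏ i ∈ Finset.univ.erase i₀,
        O.valuation (sp ((⟨(y i (c i))⁻¹, hyB' i (c i)⟩ : B) ^ ν i)) ≤ 1 := by
      refine Finset.prod_le_one' fun i _ => ?_
      rw [map_pow, map_pow]
      exact pow_le_one' (hinv i).le _
    refine lt_of_le_of_lt (mul_le_of_le_one_right' h2) ?_
    rw [map_pow, map_pow]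
    exact pow_lt_one' (hinv i₀) hi₀
  have h1 : O.valuation (∑ ν ∈ (Q c).support, sp (t ν)) < 1 :=
    Valuation.map_sum_lt _ one_ne_zero hterm
  rw [← map_sum, hsum, map_one, map_one] at h1
  exact lt_irrefl _ h1

end Pool.Agent.SE
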