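import Pool.Agent.Helper10.SE.M6
import Pool.Agent.Helper13.TW.P0

/-!
# Project SE, version 5: finitely many charts cover a curve
-/

universe u

set_option linter.unusedSectionVars false

namespace Pool.Agent.SE

open VC Polynomial Pool.Agent.LT Pool.Agent.SC Pool.Agent.GC Pool.Agent.Helper91.Sect Pool.Agent
  Pool.Agent.TW

/-- the places in which a nonzero element is not a unit -/
theorem finite_nonunits {κ L : Type u} [Field κ] [CharZero κ] [Field L] [Algebra κ L]
    (hF : IsFunctionField κ L) {d : L} (hd : d ≠ 0) :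
    {O : Place κ L | d ∈ O.ring.nonunits}.Finite := by
  by_cases h : Transcendental κ d
  · exact finite_zeros hF h
  · convert Set.finite_empty
    rw [Set.eq_empty_iff_forall_notMem]
    intro O hO
    have halg : IsAlgebraic κ d := not_not.1 h
    have h1 : IsIntegral κ d⁻¹ := (halg.inv).isIntegral
    rw [Set.mem_ofPred_eq, ValuationSubring.mem_nonunits_iff_or] at hO
    rcases hO with hO | hO
    · exact hd hO
    · apply hO
      obtain ⟨p, hp, hp0⟩ := h1
      refine mem_vs_of_root O.ring (p := p.map (algebraMap κ L)) (fun i => ?_) ?_ ?_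
      · rw [coeff_map]
        exact O.algebraMap_mem _
      · rw [(hp.map _).leadingCoeff, map_one]
      · rw [eval_map]
        exact hp0

/-- **Finitely many charts cover a curve.** -/
theorem exists_charts (hLC : StmtLC.{u}) {κ L : Type u} [Field κ] [CharZero κ] [Field L]
    [Algebra κ L] (hF : IsFunctionField κ L) :
    ∃ (n : ℕ) (x z : Fin n → L) (Φ : Fin n → κ[X][X]), (∀ i, Transcendental κ (x i)) ∧
      (∀ i, IntermediateField.adjoin κ {x i, z i} = ⊤) ∧ (∀ i, (Φ i).Monic) ∧
      (∀ i, Irreducible (Φ i)) ∧ (∀ i, ev2 (x i) (z i) (Φ i) = 0) ∧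
      (∀ i, ev2 (x i) (z i) (derivative (Φ i)) ≠ 0) ∧
      ∀ O : ValuationSubring L, (∀ c : κ, algebraMap κ L c ∈ O) →
        ∃ i, x i ∈ O ∧ (ev2 (x i) (z i) (derivative (Φ i)))⁻¹ ∈ O := by
  classical
  obtain ⟨t, ht, -⟩ := id hF
  obtain ⟨W, hW1, hW2⟩ := UL.exists_W (algebraicIndependent_unique_type_iff.2 ht :
    AlgebraicIndependent κ ![t]) ![0]
  have hW3 := hW2 0
  rw [Matrix.cons_val_zero, Matrix.cons_val_zero, map_zero, sub_zero] at hW3
  let P₀ : Place κ L := ⟨W, hW1, by
    intro htop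
    have h1 : t ∈ W.nonunits := (W.mem_nonunits_iff).2 hW3
    rw [ValuationSubring.mem_nonunits_iff_or] at h1
    rcases h1 with h1 | h1
    · exact ht (by rw [h1]; exact isAlgebraic_zero)
    · exact h1 (by rw [htop]; trivial)⟩
  choose x z Φ hx hgen hm hirr h0 hxP hd using fun P : Place κ L => hLC hF P
  have hd0 : ∀ P, ev2 (x P) (z P) (derivative (Φ P)) ≠ 0 := by
    intro P h
    apply hd P
    rw [h, ValuationSubring.mem_nonunits_iff_or]
    exact Or.inl rfl
  have hx0 : ∀ P, x P ≠ 0 := fun P h => hx P (by rw [h]; exact isAlgebraic_zero)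
  have hfin := (finite_nonunits hF (inv_ne_zero (hx0 P₀))).union (finite_nonunits hF (hd0 P₀))
  let S : Finset (Place κ L) := insert P₀ hfin.toFinset
  let σ : Fin S.card ≃ S := S.equivFin.symm
  refine ⟨S.card, fun i => x (σ i), fun i => z (σ i), fun i => Φ (σ i), fun i => hx _,
    fun i => hgen _, fun i => hm _, fun i => hirr _, fun i => h0 _, fun i => hd0 _, ?_⟩
  have hinv : ∀ (O : ValuationSubring L) {d : L}, d ∉ O.nonunits → d⁻¹ ∈ O := by
    intro O d hd
    by_contra h
    exact hd ((ValuationSubring.mem_nonunits_iff_or _).2 (Or.inr h))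
  have hmem : ∀ P ∈ S, ∀ O : ValuationSubring L, (x P ∈ O ∧
      (ev2 (x P) (z P) (derivative (Φ P)))⁻¹ ∈ O) → ∃ i : Fin S.card, x (σ i) ∈ O ∧
      (ev2 (x (σ i)) (z (σ i)) (derivative (Φ (σ i))))⁻¹ ∈ O := by
    intro P hP O h
    refine ⟨σ.symm ⟨P, hP⟩, ?_⟩
    rw [Equiv.apply_symm_apply]
    exact h
  intro O hO
  by_cases htop : O = ⊤
  · exact hmem P₀ (Finset.mem_insert_self _ _) O ⟨by rw [htop]; trivial, by rw [htop]; trivial⟩
  let P : Place κ L := ⟨O, hO, htop⟩
  by_cases hP : P ∈ S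
  · exact hmem P hP O ⟨hxP P, hinv O (hd P)⟩
  · refine hmem P₀ (Finset.mem_insert_self _ _) O ?_
    have h1 : P ∉ hfin.toFinset := fun h => hP (Finset.mem_insert_of_mem h)
    rw [Set.Finite.mem_toFinset, Set.mem_union, not_or] at h1
    refine ⟨?_, hinv O h1.2⟩
    have h2 := hinv O h1.1
    rwa [inv_inv] at h2

end Pool.Agent.SE
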