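import Pool.Agent.Helper10.SE.R1
import Pool.Agent.Helper13.GC.C4

/-!
# Project SE: good coordinates for finitely many functions
-/

universe u

namespace Pool.Agent.SE

open VC Polynomial Pool.Agent.LT Pool.Agent.SC Pool.Agent.GC Pool.Agent.Helper91.Sect Pool.Agent

/-- **Good coordinates for finitely many functions**, for a given `x`. -/
theorem exists_goodPolyG {k K₀ : Type u} [Field k] [CharZero k] [Field K₀] [Algebra k K₀]
    (hK₀ : IsFunctionField k K₀) {x : K₀} (hx : Transcendental k x) (G : Finset K₀) :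
    ∃ (z₀ : K₀) (f : k[X]) (S : Finset k),
      IntermediateField.adjoin k {x, z₀} = ⊤ ∧ 1 ≤ f.natDegree ∧ f.Separable ∧
      ∀ g ∈ G, g ≠ 0 → GoodPoly g x z₀ f S := by
  classical
  have hfin := hK₀.finiteDimensional hx
  have hA0 : CharZero (IntermediateField.adjoin k {x}) :=
    charZero_of_injective_algebraMap (algebraMap k (IntermediateField.adjoin k {x})).injective
  obtain ⟨z₀, hz₀⟩ := Field.exists_primitive_element (IntermediateField.adjoin k {x}) K₀
  have hgen : IntermediateField.adjoin k {x, z₀} = ⊤ := by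
    have h1 := IntermediateField.adjoin_adjoin_left k ({x} : Set K₀) ({z₀} : Set K₀)
    rw [hz₀, IntermediateField.restrictScalars_top] at h1
    rw [Set.insert_eq]
    exact h1.symm
  -- the polynomials
  set m : (IntermediateField.adjoin k {x})[X] := minpoly _ z₀ with hm
  have hmz : IsIntegral (IntermediateField.adjoin k {x}) z₀ := IsIntegral.of_finite _ z₀
  have hsep : m.Separable := Algebra.IsSeparable.isSeparable _ z₀
  obtain ⟨a, b, hab⟩ := hsep
  have hg1 : ∀ g : K₀, IsIntegral (IntermediateField.adjoin k {x}) g := fun g => IsIntegral.of_finite _ g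
  set cf : (IntermediateField.adjoin k {x})[X] → Finset K₀ := fun p =>
    p.support.image fun n => ((p.coeff n : IntermediateField.adjoin k {x}) : K₀) with hcf
  set T : Finset K₀ := cf m ∪ cf b ∪
    G.biUnion (fun g => cf (minpoly (IntermediateField.adjoin k {x}) g) ∪
      cf (minpoly (IntermediateField.adjoin k {x}) g⁻¹)) with hT
  have hTA : ∀ t ∈ T, t ∈ IntermediateField.adjoin k {x} := by
    intro t ht
    rw [hT] at ht
    simp only [Finset.mem_union, Finset.mem_biUnion, hcf, Finset.mem_image] at ht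
    rcases ht with (⟨n, -, rfl⟩ | ⟨n, -, rfl⟩) | ⟨g, -, ⟨n, -, rfl⟩ | ⟨n, -, rfl⟩⟩ <;>
      exact SetLike.coe_mem _
  obtain ⟨D, hD, hq⟩ := exists_common_denominator hx T hTA
  choose! q hq using hq
  have hDX : D * X ≠ 0 := mul_ne_zero hD X_ne_zero
  set f : k[X] := UniqueFactorizationMonoid.radical (D * X) with hf
  obtain ⟨N, hN⟩ := UniqueFactorizationMonoid.exists_dvd_radical_self_pow hDX
  obtain ⟨Q, hQ⟩ := (dvd_mul_right D X).trans hN
  have hXf : X ∣ f := (UniqueFactorizationMonoid.dvd_radical_iff_of_irreducible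
    irreducible_X hDX).2 (dvd_mul_left X D)
  have hf0 : f ≠ 0 := UniqueFactorizationMonoid.radical_ne_zero
  have hfdeg : 1 ≤ f.natDegree := by
    have := natDegree_le_of_dvd hXf hf0
    rwa [natDegree_X] at this
  have hfsep : f.Separable := by
    rw [PerfectField.separable_iff_squarefree]
    exact UniqueFactorizationMonoid.squarefree_radical
  set S : Finset k := Q.support.image Q.coeff ∪ T.biUnion (fun t => (q t).support.image (q t).coeff)
    with hS
  refine ⟨z₀, f, S, hgen, hfdeg, hfsep, ?_⟩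
  intro g hgG hg Ω _ _ P hSP hxP hfP
  set φ : K₀ →+* Ω := algebraMap K₀ Ω with hφ
  -- polynomials with coefficients in S have values in P
  have hval : ∀ r : k[X], (∀ n ∈ r.support, r.coeff n ∈ S) → φ (aeval x r) ∈ P := by
    intro r hr
    rw [aeval_eq_sum_range, map_sum]
    refine P.toSubring.sum_mem fun n hn => ?_
    rw [Algebra.smul_def, map_mul, map_pow]
    refine P.toSubring.mul_mem ?_ (P.toSubring.pow_mem hxP n)
    by_cases h0 : r.coeff n = 0
    · rw [h0, map_zero, map_zero]
      exact P.toSubring.zero_mem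
    · exact hSP _ (hr n (mem_support_iff.2 h0))
  have hfinv : (φ (aeval x f))⁻¹ ∈ P := by
    rw [P.mem_nonunits_iff, not_lt] at hfP
    rw [← P.valuation_le_one_iff, map_inv₀]
    exact inv_le_one_of_one_le₀ hfP
  have hfne : φ (aeval x f) ≠ 0 := by
    intro h0
    apply hfP
    rw [h0, P.mem_nonunits_iff, map_zero]
    exact zero_lt_one
  have hDinv : (φ (aeval x D))⁻¹ ∈ P := by
    have h1 : φ (aeval x D) * φ (aeval x Q) = φ (aeval x f) ^ N := by
      rw [← map_mul, ← map_mul, ← map_pow, ← map_pow, hQ]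
    have h2 : φ (aeval x Q) ∈ P := hval Q fun n hn => by
      rw [hS]
      exact Finset.mem_union_left _ (Finset.mem_image_of_mem _ hn)
    have h3 : φ (aeval x D) * (φ (aeval x Q) * (φ (aeval x f))⁻¹ ^ N) = 1 := by
      rw [← mul_assoc, h1, ← mul_pow, mul_inv_cancel₀ hfne, one_pow]
    rw [inv_eq_of_mul_eq_one_right h3]
    exact P.toSubring.mul_mem h2 (P.toSubring.pow_mem hfinv N)
  have hDne : φ (aeval x D) ≠ 0 := by
    intro h0
    have h1 : aeval x D = 0 := (map_eq_zero φ).1 h0
    exact hD ((transcendental_iff.1 hx) D h1)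
  have hTP : ∀ t ∈ T, φ t ∈ P := by
    intro t ht
    have h1 : φ t * φ (aeval x D) = φ (aeval x (q t)) := by rw [← map_mul, hq t ht]
    have h2 : φ (aeval x (q t)) ∈ P := hval _ fun n hn => by
      rw [hS]
      exact Finset.mem_union_right _ (Finset.mem_biUnion.2 ⟨t, ht, Finset.mem_image_of_mem _ hn⟩)
    have h3 : φ t = φ (aeval x (q t)) * (φ (aeval x D))⁻¹ := by
      rw [← h1, mul_assoc, mul_inv_cancel₀ hDne, mul_one]
    rw [h3]
    exact P.toSubring.mul_mem h2 hDinv
  set i : (IntermediateField.adjoin k {x}) →+* Ω :=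
    φ.comp (algebraMap (IntermediateField.adjoin k {x}) K₀) with hi
  have hcoef : ∀ p : (IntermediateField.adjoin k {x})[X], cf p ⊆ T → ∀ n, (p.map i).coeff n ∈ P := by
    intro p hp n
    rw [coeff_map]
    by_cases h0 : p.coeff n = 0
    · rw [h0, map_zero]
      exact P.toSubring.zero_mem
    · exact hTP _ (hp (Finset.mem_image.2 ⟨n, mem_support_iff.2 h0, rfl⟩))
  have hcm : cf m ⊆ T := fun t ht => by
    rw [hT]; simp only [Finset.mem_union]; exact Or.inl (Or.inl ht)
  have hcb : cf b ⊆ T := fun t ht => by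
    rw [hT]; simp only [Finset.mem_union]; exact Or.inl (Or.inr ht)
  have hc1 : cf (minpoly (IntermediateField.adjoin k {x}) g) ⊆ T := fun t ht => by
    rw [hT]; exact Finset.mem_union_right _ (Finset.mem_biUnion.2 ⟨g, hgG, Finset.mem_union_left _ ht⟩)
  have hc2 : cf (minpoly (IntermediateField.adjoin k {x}) g⁻¹) ⊆ T := fun t ht => by
    rw [hT]; exact Finset.mem_union_right _ (Finset.mem_biUnion.2 ⟨g, hgG, Finset.mem_union_right _ ht⟩)
  have heval : ∀ (p : (IntermediateField.adjoin k {x})[X]) (c : K₀),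
      (p.map i).eval (φ c) = φ (aeval c p) := by
    intro p c
    rw [hi, ← map_map, eval_map, eval₂_at_apply, eval_map, aeval_def]
  have hroot : ∀ (c : K₀), IsIntegral (IntermediateField.adjoin k {x}) c →
      cf (minpoly (IntermediateField.adjoin k {x}) c) ⊆ T → φ c ∈ P := by
    intro c hc hcT
    obtain ⟨r, hr1, hr2⟩ := exists_lift_monic P ((minpoly (IntermediateField.adjoin k {x}) c).map i)
      ((minpoly.monic hc).map i) (hcoef _ hcT)
    apply mem_of_root P hr2
    rw [hr1, heval, minpoly.aeval, map_zero]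
  have hzP : φ z₀ ∈ P := hroot z₀ hmz hcm
  have hgP : φ g ∈ P := hroot g (hg1 _) hc1
  have hgiP : φ g⁻¹ ∈ P := hroot g⁻¹ (hg1 _) hc2
  refine ⟨hgP, ?_, hzP, ?_⟩
  · intro hnon
    rw [P.mem_nonunits_iff] at hnon
    rw [map_inv₀, ← P.valuation_le_one_iff, map_inv₀] at hgiP
    have h1 : P.valuation (φ g) ≠ 0 := by
      rw [Ne, map_eq_zero, map_eq_zero]
      exact hg
    have h2 : 1 ≤ P.valuation (φ g) := by
      have := (inv_le_one₀ (zero_lt_iff.2 h1)).1 hgiP
      exact this
    exact absurd hnon (not_lt.2 h2)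
  · intro σ hσk hσx hσz
    have hσr : ∀ r : k[X], σ (φ (aeval x r)) = φ (aeval x r) := by
      intro r
      rw [aeval_eq_sum_range, map_sum, map_sum]
      refine Finset.sum_congr rfl fun n _ => ?_
      rw [Algebra.smul_def, map_mul, map_pow, map_mul, map_pow, hσk, hσx]
    have hσA : ∀ c : (IntermediateField.adjoin k {x}), σ (i c) = i c := by
      intro c
      obtain ⟨r, s, hrs⟩ := (IntermediateField.mem_adjoin_simple_iff k (c : K₀)).1 c.2
      change σ (φ (c : K₀)) = φ (c : K₀)
      rw [hrs, map_div₀, map_div₀, hσr, hσr]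
    obtain ⟨mP, hmP1, hmP2⟩ := exists_lift_monic P (m.map i) ((minpoly.monic hmz).map i)
      (hcoef m hcm)
    obtain ⟨bP, hbP⟩ := exists_lift P (b.map i) (hcoef b hcb)
    have hinj := IsFractionRing.injective P Ω
    have hup : ∀ (r : P[X]), algebraMap P Ω (r.eval ⟨φ z₀, hzP⟩) =
        (r.map (algebraMap P Ω)).eval (φ z₀) := by
      intro r
      rw [eval_map]
      exact (eval₂_at_apply (algebraMap P Ω) (⟨φ z₀, hzP⟩ : P)).symm
    have hmz0 : mP.eval ⟨φ z₀, hzP⟩ = 0 := by
      apply hinj
      rw [hup, hmP1, heval, minpoly.aeval, map_zero, map_zero]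
    have hbm : bP.eval ⟨φ z₀, hzP⟩ * mP.derivative.eval ⟨φ z₀, hzP⟩ = 1 := by
      apply hinj
      rw [map_mul, hup, hup, ← derivative_map, hmP1, hbP, derivative_map, heval, heval, ← map_mul,
        map_one]
      have h1 := congrArg (aeval z₀) hab
      rw [map_add, map_mul, map_mul, map_one, minpoly.aeval, mul_zero, zero_add] at h1
      rw [h1, map_one]
    refine root_fixed P (m := mP) (b := bP) ⟨φ z₀, hzP⟩ hmz0 hbm (σ (φ z₀)) ?_ hσz
    rw [hmP1]
    have h1 : (m.map i).map σ = m.map i := by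
      ext n
      rw [coeff_map, coeff_map, hσA]
    have h2 : (m.map i).eval (φ z₀) = 0 := by rw [heval, minpoly.aeval, map_zero]
    rw [← h1, eval_map, eval₂_at_apply, h2, map_zero]

end Pool.Agent.SE
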