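import Pool.Agent.Helper10.SE.R2
import Pool.Agent.Helper10.SE.Defs2

/-!
# Project SE: numerators and denominators of families
-/

universe u

namespace Pool.Agent.SE

open VC Polynomial Pool.Agent.LT Pool.Agent.SC Pool.Agent.GC Pool.Agent.Helper91.Sect Pool.Agent

section

variable {k₀ K₀ : Type u} [Field k₀] [Field K₀] [Algebra k₀ K₀]

/-- The ring homomorphism `k₀[C][X] → K₀[C]`, `X ↦ x`. -/
noncomputable def Th (x : K₀) (N : ℕ) : (MvPolynomial (Fin N) k₀)[X] →+* MvPolynomial (Fin N) K₀ :=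
  eval₂RingHom (MvPolynomial.map (algebraMap k₀ K₀)) (MvPolynomial.C x)

theorem Th_C (x : K₀) {N : ℕ} (p : MvPolynomial (Fin N) k₀) :
    Th x N (C p) = MvPolynomial.map (algebraMap k₀ K₀) p := eval₂_C _ _

theorem Th_X (x : K₀) {N : ℕ} : Th (k₀ := k₀) x N X = MvPolynomial.C x := eval₂_X _ _

theorem Th_map (x : K₀) {N : ℕ} (p : k₀[X]) :
    Th x N (p.map MvPolynomial.C) = MvPolynomial.C (aeval x p) := by
  change eval₂ (MvPolynomial.map (algebraMap k₀ K₀)) (MvPolynomial.C x) (p.map MvPolynomial.C) = _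
  rw [eval₂_map, aeval_def, hom_eval₂]
  congr 1
  ext c
  rw [RingHom.comp_apply, MvPolynomial.map_C]
  rfl

variable {k K₁ : Type u} [Field k] [Field K₁] [Algebra k K₁] [Algebra k₀ k] [Algebra K₀ K₁]
  [Algebra k₀ K₁] [IsScalarTower k₀ k K₁] [IsScalarTower k₀ K₀ K₁]

/-- the specialisation of a family -/
noncomputable def famH {N : ℕ} (K₀ K₁ : Type u) [Field K₀] [Field K₁] [Algebra K₀ K₁] [Algebra k K₁]
    (c : Option (Fin N) → k) : MvPolynomial (Fin N) K₀ →+* K₁ :=
  MvPolynomial.eval₂Hom (algebraMap K₀ K₁) fun q => algebraMap k K₁ (c (some q))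

theorem famH_apply {N : ℕ} (c : Option (Fin N) → k) (g : MvPolynomial (Fin N) K₀) :
    famH K₀ K₁ c g = fam c g := rfl

theorem famH_C {N : ℕ} (c : Option (Fin N) → k) (z : K₀) :
    famH K₀ K₁ c (MvPolynomial.C z) = algebraMap K₀ K₁ z := MvPolynomial.eval₂_C _ _ _

/-- the specialisation of a family -/
theorem famH_Th {N : ℕ} (c : Option (Fin N) → k) (x : K₀) (p : (MvPolynomial (Fin N) k₀)[X]) :
    famH K₀ K₁ c (Th x N p) = aeval (algebraMap K₀ K₁ x) (p.map (evc (algebraMap k₀ k) c)) := by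
  have h1 : (famH K₀ K₁ c).comp (Th x N) = eval₂RingHom ((algebraMap k K₁).comp
      (evc (algebraMap k₀ k) c)) (algebraMap K₀ K₁ x) := by
    apply Polynomial.ringHom_ext
    · intro a
      rw [RingHom.comp_apply, Th_C, coe_eval₂RingHom, eval₂_C]
      have h2 : (famH K₀ K₁ c).comp (MvPolynomial.map (algebraMap k₀ K₀)) =
          (algebraMap k K₁).comp (evc (algebraMap k₀ k) c) := by
        apply MvPolynomial.ringHom_ext
        · intro z
          rw [RingHom.comp_apply, MvPolynomial.map_C, famH_C, RingHom.comp_apply]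
          unfold evc
          rw [MvPolynomial.coe_eval₂Hom, MvPolynomial.eval₂_C,
            ← IsScalarTower.algebraMap_apply, ← IsScalarTower.algebraMap_apply]
        · intro q
          rw [RingHom.comp_apply, MvPolynomial.map_X, RingHom.comp_apply]
          unfold evc famH
          rw [MvPolynomial.coe_eval₂Hom, MvPolynomial.eval₂_X, MvPolynomial.coe_eval₂Hom,
            MvPolynomial.eval₂_X]
      exact congrArg (fun f : MvPolynomial (Fin N) k₀ →+* K₁ => f a) h2
    · rw [RingHom.comp_apply, Th_X, famH_C, coe_eval₂RingHom, eval₂_X]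
  have h3 := congrArg (fun f : (MvPolynomial (Fin N) k₀)[X] →+* K₁ => f p) h1
  change famH K₀ K₁ c (Th x N p) = _ at h3
  rw [h3, aeval_def, eval₂_map]
  rfl

/-- **Numerators and denominators.** -/
theorem exists_num {x : K₀} (hx : Transcendental k₀ x) {r N : ℕ} (G : Fin r → MvPolynomial (Fin N) K₀)
    (hG : ∀ s ν, (G s).coeff ν ∈ IntermediateField.adjoin k₀ {x}) :
    ∃ (D : k₀[X]) (n : Fin r → (MvPolynomial (Fin N) k₀)[X]), D ≠ 0 ∧
      ∀ s, Th x N (n s) = MvPolynomial.C (aeval x D) * G s := by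
  classical
  obtain ⟨D, hD, hq⟩ := exists_common_denominator hx
    (Finset.univ.biUnion fun s => (G s).support.image (G s).coeff) (by
      intro t ht
      obtain ⟨s, -, ht⟩ := Finset.mem_biUnion.1 ht
      obtain ⟨ν, -, rfl⟩ := Finset.mem_image.1 ht
      exact hG s ν)
  choose! q hq using hq
  refine ⟨D, fun s => ∑ ν ∈ (G s).support, (q ((G s).coeff ν)).map MvPolynomial.C *
    C (MvPolynomial.monomial ν 1), hD, fun s => ?_⟩
  rw [map_sum]
  conv_rhs => rw [← MvPolynomial.support_sum_monomial_coeff (G s)]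
  rw [Finset.mul_sum]
  refine Finset.sum_congr rfl fun ν hν => ?_
  rw [map_mul, Th_map, Th_C, MvPolynomial.map_monomial, map_one, MvPolynomial.C_mul_monomial,
    MvPolynomial.C_mul_monomial, mul_one, mul_comm, hq]
  exact Finset.mem_biUnion.2 ⟨s, Finset.mem_univ _, Finset.mem_image_of_mem _ hν⟩

end

end Pool.Agent.SE
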