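import Pool.Agent.Helper10.SE.R3
import Pool.Agent.Helper37.TWU.F

/-!
# Project SE: good coordinates for families
-/

universe u

set_option linter.unusedSectionVars false

namespace Pool.Agent.SE

open VC Polynomial Pool.Agent.LT Pool.Agent.SC Pool.Agent.GC Pool.Agent.Helper91.Sect Pool.Agent
  Pool.Agent.TWH Pool.Agent.TWU

/-- **Good coordinates for families.** -/
theorem exists_coordF {k₀ K₀ : Type u} [Field k₀] [CharZero k₀] [Field K₀] [Algebra k₀ K₀]
    (hK₀ : IsFunctionField k₀ K₀) {N r : ℕ} (g : Fin r → MvPolynomial (Fin N) K₀)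
    (hg : ∀ s, g s ≠ 0) :
    ∃ (x z₀ : K₀) (ff : (MvPolynomial (Fin N) k₀)[X]) (E U : Finset (MvPolynomial (Fin N) k₀)),
      U ⊆ E ∧ 0 ∉ U ∧ 1 ≤ ff.natDegree ∧ ff.leadingCoeff ∈ U ∧ ff.discr ∈ U ∧
      (∀ i, ff.coeff i ∈ E) ∧ Transcendental k₀ x ∧
      ∀ (k K₁ : Type u) [Field k] [DecidableEq k] [Field K₁] [Algebra k K₁] [Algebra k₀ k]
        [Algebra K₀ K₁] [Algebra k₀ K₁] [IsScalarTower k₀ k K₁] [IsScalarTower k₀ K₀ K₁],
        IntermediateField.adjoin k (Set.range (algebraMap K₀ K₁)) = ⊤ →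
        (∃ y : K₀, Transcendental k (algebraMap K₀ K₁ y)) → ∀ c : Option (Fin N) → k,
        (∀ h ∈ U, evc (algebraMap k₀ k) c h ≠ 0) → ∀ e : Fin r → ℤ,
        Coord (∏ s, fam c (g s) ^ e s) (algebraMap K₀ K₁ x) (algebraMap K₀ K₁ z₀)
          (ff.map (evc (algebraMap k₀ k) c))
          (E.image (evc (algebraMap k₀ k) c) ∪ U.image fun h => (evc (algebraMap k₀ k) c h)⁻¹) := by
  classical
  obtain ⟨x, hx, hfin⟩ := id hK₀
  -- the norms
  choose n₀ hn₀ hdvd using fun s => MvPolynomial.exists_dvd_map_of_isAlgebraic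
    (R := IntermediateField.adjoin k₀ {x}) (hg s)
  choose g' hg' using hdvd
  -- the base
  obtain ⟨z₀, f₀, S₀, hgen₀, hdeg₀, hsep₀, hgood₀⟩ := exists_goodPolyG hK₀ hx
    (insert 1 (Finset.univ.biUnion fun s => (g s).support.image (g s).coeff ∪
      (g' s).support.image (g' s).coeff))
  obtain ⟨D, n, hD, hn⟩ := exists_num hx (fun s => (n₀ s).map (algebraMap _ K₀)) (fun s ν => by
    rw [MvPolynomial.coeff_map]
    exact SetLike.coe_mem _)
  -- the polynomial
  have hTh0 : ∀ p : (MvPolynomial (Fin N) k₀)[X], Th x N p ≠ 0 → p ≠ 0 := by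
    rintro p hp rfl
    exact hp (map_zero _)
  have hn0 : ∀ s, n s ≠ 0 := by
    intro s
    apply hTh0
    rw [hn]
    refine mul_ne_zero ?_ ?_
    · rw [Ne, MvPolynomial.C_eq_zero]
      exact fun h0 => hD ((transcendental_iff.1 hx) D h0)
    · exact fun h0 => hn₀ s (MvPolynomial.map_injective _
        (algebraMap (IntermediateField.adjoin k₀ {x}) K₀).injective (by rw [h0, map_zero]))
  have hCinj : Function.Injective (MvPolynomial.C : k₀ →+* MvPolynomial (Fin N) k₀) :=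
    MvPolynomial.C_injective _ _
  have hf₀0 : f₀.map (MvPolynomial.C : k₀ →+* MvPolynomial (Fin N) k₀) ≠ 0 :=
    (Polynomial.map_ne_zero_iff hCinj).2 (ne_zero_of_natDegree_gt (n := 0) (by omega))
  have hD0 : D.map (MvPolynomial.C : k₀ →+* MvPolynomial (Fin N) k₀) ≠ 0 :=
    (Polynomial.map_ne_zero_iff hCinj).2 hD
  have hpr : (f₀.map (MvPolynomial.C : k₀ →+* MvPolynomial (Fin N) k₀)) * (D.map MvPolynomial.C) *
      ∏ s, n s ≠ 0 := mul_ne_zero (mul_ne_zero hf₀0 hD0) (Finset.prod_ne_zero_iff.2 fun s _ => hn0 s)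
  obtain ⟨ff, R, b, M, hb, hffd, hdisc, hrad⟩ := exists_rad
    (Q := (f₀.map (MvPolynomial.C : k₀ →+* MvPolynomial (Fin N) k₀)) * (D.map MvPolynomial.C) *
      ∏ s, n s) (by
    rw [natDegree_mul (mul_ne_zero hf₀0 hD0) (Finset.prod_ne_zero_iff.2 fun s _ => hn0 s),
      natDegree_mul hf₀0 hD0, natDegree_map_eq_of_injective hCinj]
    omega)
  have hlc : ff.leadingCoeff ≠ 0 := leadingCoeff_ne_zero.2 (ne_zero_of_natDegree_gt (n := 0) (by omega))
  -- the finite sets
  set cf : (MvPolynomial (Fin N) k₀)[X] → Finset (MvPolynomial (Fin N) k₀) := fun p =>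
    insert 0 (p.support.image p.coeff) with hcf
  have hcf' : ∀ p i, p.coeff i ∈ cf p := by
    intro p i
    by_cases h0 : p.coeff i = 0
    · rw [h0]
      exact Finset.mem_insert_self _ _
    · exact Finset.mem_insert_of_mem (Finset.mem_image_of_mem _ (mem_support_iff.2 h0))
  set U : Finset (MvPolynomial (Fin N) k₀) := {b, ff.leadingCoeff, ff.discr} with hU
  set E : Finset (MvPolynomial (Fin N) k₀) := U ∪ (cf ff ∪ cf R ∪ cf (f₀.map MvPolynomial.C) ∪
    cf (D.map MvPolynomial.C) ∪ (Finset.univ.biUnion fun s => cf (n s)) ∪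
    S₀.image MvPolynomial.C ∪ Finset.univ.image MvPolynomial.X) with hE
  have hEff : ∀ i, ff.coeff i ∈ E := fun i => by
    rw [hE]; simp only [Finset.mem_union]; exact Or.inr (Or.inl (Or.inl (Or.inl (Or.inl (Or.inl (Or.inl (hcf' _ _)))))))
  have hER : ∀ i, R.coeff i ∈ E := fun i => by
    rw [hE]; simp only [Finset.mem_union]; exact Or.inr (Or.inl (Or.inl (Or.inl (Or.inl (Or.inl (Or.inr (hcf' _ _)))))))
  have hEf₀ : ∀ i, (f₀.map (MvPolynomial.C : k₀ →+* MvPolynomial (Fin N) k₀)).coeff i ∈ E := fun i => by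
    rw [hE]; simp only [Finset.mem_union]; exact Or.inr (Or.inl (Or.inl (Or.inl (Or.inl (Or.inr (hcf' _ _))))))
  have hED : ∀ i, (D.map (MvPolynomial.C : k₀ →+* MvPolynomial (Fin N) k₀)).coeff i ∈ E := fun i => by
    rw [hE]; simp only [Finset.mem_union]; exact Or.inr (Or.inl (Or.inl (Or.inl (Or.inr (hcf' _ _)))))
  have hEn : ∀ s i, (n s).coeff i ∈ E := fun s i => by
    rw [hE]; simp only [Finset.mem_union]
    exact Or.inr (Or.inl (Or.inl (Or.inr (Finset.mem_biUnion.2 ⟨s, Finset.mem_univ _, hcf' _ _⟩))))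
  have hES : ∀ z ∈ S₀, MvPolynomial.C z ∈ E := fun z hz => by
    rw [hE]; simp only [Finset.mem_union]
    exact Or.inr (Or.inl (Or.inr (Finset.mem_image_of_mem _ hz)))
  have hEX : ∀ q, MvPolynomial.X q ∈ E := fun q => by
    rw [hE]; simp only [Finset.mem_union]
    exact Or.inr (Or.inr (Finset.mem_image_of_mem _ (Finset.mem_univ _)))
  have hbU : b ∈ U := by rw [hU]; simp
  refine ⟨x, z₀, ff, E, U, Finset.subset_union_left, ?_, hffd, by rw [hU]; simp, by rw [hU]; simp,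
    hEff, hx, ?_⟩
  · rw [hU]
    simp only [Finset.mem_insert, Finset.mem_singleton, not_or]
    exact ⟨hb.symm, hlc.symm, hdisc.symm⟩
  intro k K₁ _ _ _ _ _ _ _ _ _ hgen htr c hcU e
  have hk0 : CharZero k := charZero_of_injective_algebraMap (algebraMap k₀ k).injective
  have htx : Transcendental k (algebraMap K₀ K₁ x) := transc_map hK₀ hx htr
  have hc1 : Coord (1 : K₀) x z₀ f₀ S₀ := ⟨one_ne_zero, hK₀, hx, hgen₀, hdeg₀, hsep₀,
    hgood₀ 1 (Finset.mem_insert_self _ _) one_ne_zero⟩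
  have hc2 := coord_map (k := k) (K₁ := K₁) hc1 hgen htx
  set ev := evc (algebraMap k₀ k) c with hev
  set x' := algebraMap K₀ K₁ x with hx'
  set H := famH K₀ K₁ c with hH
  have hrad' : (((f₀.map (MvPolynomial.C : k₀ →+* MvPolynomial (Fin N) k₀)) * (D.map MvPolynomial.C) *
      ∏ s, n s) * R).map ev = (C b * ff ^ M).map ev := by rw [hrad]
  have hb0 : ev b ≠ 0 := hcU b hbU
  have hff0 : ff.map ev ≠ 0 := by
    intro h0
    apply hcU ff.leadingCoeff (by rw [hU]; simp)
    have h1 : (ff.map ev).coeff ff.natDegree = 0 := by rw [h0, coeff_zero]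
    rw [coeff_map] at h1
    exact h1
  have hne : (((f₀.map (MvPolynomial.C : k₀ →+* MvPolynomial (Fin N) k₀)) * (D.map MvPolynomial.C) *
      ∏ s, n s) * R).map ev ≠ 0 := by
    rw [hrad', Polynomial.map_mul, Polynomial.map_pow, map_C]
    exact mul_ne_zero (C_ne_zero.2 hb0) (pow_ne_zero _ hff0)
  rw [Polynomial.map_mul, Polynomial.map_mul, Polynomial.map_mul, Polynomial.map_prod] at hne
  have hns : ∀ s, (n s).map ev ≠ 0 := fun s =>
    Finset.prod_ne_zero_iff.1 (right_ne_zero_of_mul (left_ne_zero_of_mul hne)) s (Finset.mem_univ _)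
  have hDne : (D.map (MvPolynomial.C : k₀ →+* MvPolynomial (Fin N) k₀)).map ev ≠ 0 :=
    right_ne_zero_of_mul (left_ne_zero_of_mul (left_ne_zero_of_mul hne))
  -- the specialisation of the identities
  have hHn : ∀ s, H (g s) * H (g' s) * aeval x' ((D.map (MvPolynomial.C)).map ev) =
      aeval x' ((n s).map ev) := by
    intro s
    rw [← famH_Th, ← famH_Th, hn, hg', Th_map, map_mul, map_mul]
    ring
  have hgs : ∀ s, H (g s) ≠ 0 := by
    intro s h0
    have h1 := hHn s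
    rw [h0, zero_mul, zero_mul] at h1
    exact hns s ((transcendental_iff.1 htx) _ h1.symm)
  have hgne : ∏ s, fam (K₁ := K₁) c (g s) ^ e s ≠ 0 :=
    Finset.prod_ne_zero_iff.2 fun s _ => zpow_ne_zero _ (hgs s)
  refine ⟨hgne, hc2.ff, htx, hc2.gen₀, ?_, ?_, ?_⟩
  · rw [natDegree_map_of_leadingCoeff_ne_zero ev (hcU _ (by rw [hU]; simp))]
    exact hffd
  · exact separable_map_of_discr ev ff (by omega) (hcU _ (by rw [hU]; simp)) (hcU _ (by rw [hU]; simp))
  -- the good places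
  intro Ω _ _ P hP hxP hfP
  set φ : K₁ →+* Ω := algebraMap K₁ Ω with hφ
  let iΩ : Algebra K₀ Ω := (φ.comp (algebraMap K₀ K₁)).toAlgebra
  have hPE : ∀ h ∈ E, φ (algebraMap k K₁ (ev h)) ∈ P := fun h hh =>
    hP _ (Finset.mem_union_left _ (Finset.mem_image_of_mem _ hh))
  have hPU : ∀ h ∈ U, φ (algebraMap k K₁ (ev h)⁻¹) ∈ P := fun h hh =>
    hP _ (Finset.mem_union_right _ (Finset.mem_image_of_mem (fun h => (ev h)⁻¹) hh))
  -- polynomials with coefficients in `E`
  have hval : ∀ p : (MvPolynomial (Fin N) k₀)[X], (∀ i, p.coeff i ∈ E) →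
      φ (aeval x' (p.map ev)) ∈ P := by
    intro p hp
    rw [aeval_eq_sum_range, map_sum]
    refine P.toSubring.sum_mem fun i _ => ?_
    rw [Algebra.smul_def, map_mul, map_pow, coeff_map]
    exact P.toSubring.mul_mem (hPE _ (hp i)) (P.toSubring.pow_mem hxP i)
  have hle : ∀ {z : Ω}, z ∈ P ↔ P.valuation z ≤ 1 := fun {z} => (P.valuation_le_one_iff z).symm
  have hff1 : P.valuation (φ (aeval x' (ff.map ev))) = 1 := by
    have h1 := hle.1 (hval ff hEff)
    rw [ValuationSubring.mem_nonunits_iff, not_lt] at hfP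
    exact le_antisymm h1 hfP
  have hb1 : P.valuation (φ (algebraMap k K₁ (ev b))) = 1 := by
    have h1 := hle.1 (hPE b (by rw [hE]; exact Finset.mem_union_left _ hbU))
    have h2 := hle.1 (hPU b hbU)
    rw [map_inv₀, map_inv₀, map_inv₀] at h2
    have h3 : P.valuation (φ (algebraMap k K₁ (ev b))) ≠ 0 :=
      (Valuation.ne_zero_iff _).2 ((_root_.map_ne_zero _).2 ((_root_.map_ne_zero _).2 hb0))
    exact le_antisymm h1 ((inv_le_one₀ (zero_lt_iff.2 h3)).1 h2)
  have hprod : P.valuation (φ (aeval x' ((f₀.map MvPolynomial.C).map ev))) *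
      P.valuation (φ (aeval x' ((D.map MvPolynomial.C).map ev))) *
      (∏ s, P.valuation (φ (aeval x' ((n s).map ev)))) *
      P.valuation (φ (aeval x' (R.map ev))) = 1 := by
    have h1 := congrArg (fun p => P.valuation (φ (aeval x' p))) hrad'
    simp only [Polynomial.map_mul, Polynomial.map_pow, Polynomial.map_prod, map_mul, map_pow, map_prod,
      Polynomial.map_C, aeval_C] at h1
    rw [h1, hff1, hb1, one_pow, one_mul]
  have hle₀ := hle.1 (hval _ hEf₀)
  have hleD := hle.1 (hval _ hED)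
  have hleR := hle.1 (hval _ hER)
  have hlen : ∀ s, P.valuation (φ (aeval x' ((n s).map ev))) ≤ 1 := fun s =>
    hle.1 (hval _ (hEn s))
  have hlep : ∏ s, P.valuation (φ (aeval x' ((n s).map ev))) ≤ 1 :=
    Finset.prod_le_one' fun s _ => hlen s
  have hval1 : ∀ {a b : P.ValueGroup}, a ≤ 1 → b ≤ 1 → a * b = 1 → a = 1 ∧ b = 1 := by
    intro a b ha hb hab
    have h1 : a * b ≤ a := mul_le_of_le_one_right' hb
    have h2 : a * b ≤ b := mul_le_of_le_one_left' ha
    rw [hab] at h1 h2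
    exact ⟨le_antisymm ha h1, le_antisymm hb h2⟩
  obtain ⟨h1, -⟩ := hval1 (mul_le_one' (mul_le_one' hle₀ hleD) hlep) hleR hprod
  obtain ⟨h2, hp1⟩ := hval1 (mul_le_one' hle₀ hleD) hlep h1
  obtain ⟨hf1, hD1⟩ := hval1 hle₀ hleD h2
  have hn1 : ∀ s, P.valuation (φ (aeval x' ((n s).map ev))) = 1 := by
    intro s
    have h3 := hp1
    rw [← Finset.mul_prod_erase _ _ (Finset.mem_univ s)] at h3
    exact (hval1 (hlen s) (Finset.prod_le_one' fun s _ => hlen s) h3).1
  -- the base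
  have hev0 : ∀ z : k₀, ev (MvPolynomial.C z) = algebraMap k₀ k z := fun z => by
    rw [hev]
    exact MvPolynomial.eval₂_C _ _ _
  have hcomp : ∀ z : k₀, algebraMap K₀ Ω (algebraMap k₀ K₀ z) =
      φ (algebraMap k K₁ (ev (MvPolynomial.C z))) := by
    intro z
    rw [hev0]
    change φ (algebraMap K₀ K₁ (algebraMap k₀ K₀ z)) = _
    rw [← IsScalarTower.algebraMap_apply k₀ K₀ K₁, ← IsScalarTower.algebraMap_apply k₀ k K₁]
  have hfx : algebraMap K₀ Ω (aeval x f₀) = φ (aeval x' ((f₀.map MvPolynomial.C).map ev)) := by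
    rw [← famH_Th, Th_map, famH_C]
    rfl
  have hbase : ∀ a ∈ insert 1 (Finset.univ.biUnion fun s => (g s).support.image (g s).coeff ∪
      (g' s).support.image (g' s).coeff), a ≠ 0 → _ := fun a ha ha0 =>
    hgood₀ a ha ha0 Ω P (fun z hz => by
      rw [hcomp]
      exact hPE _ (hES z hz)) hxP (by
      rw [hfx, ValuationSubring.mem_nonunits_iff, hf1]
      exact lt_irrefl _)
  obtain ⟨-, -, hz₀, hσ⟩ := hbase 1 (Finset.mem_insert_self _ _) one_ne_zero
  have hcoef : ∀ G : MvPolynomial (Fin N) K₀, (∀ ν ∈ G.support, G.coeff ν ∈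
      insert 1 (Finset.univ.biUnion fun s => (g s).support.image (g s).coeff ∪
      (g' s).support.image (g' s).coeff)) → φ (H G) ∈ P := by
    intro G hG
    rw [hH, famH_apply]
    unfold fam
    rw [MvPolynomial.eval₂_eq, map_sum]
    refine P.toSubring.sum_mem fun ν hν => ?_
    rw [map_mul, map_prod]
    refine P.toSubring.mul_mem (hbase _ (hG ν hν) (MvPolynomial.mem_support_iff.1 hν)).1
      (P.toSubring.prod_mem fun q _ => ?_)
    rw [map_pow]
    refine P.toSubring.pow_mem ?_ _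
    have h3 := hPE _ (hEX q)
    rw [hev] at h3
    unfold evc at h3
    rwa [MvPolynomial.coe_eval₂Hom, MvPolynomial.eval₂_X] at h3
  have hg1 : ∀ s, φ (H (g s)) ∈ P := fun s => hcoef _ fun ν hν =>
    Finset.mem_insert_of_mem (Finset.mem_biUnion.2 ⟨s, Finset.mem_univ _,
      Finset.mem_union_left _ (Finset.mem_image_of_mem _ hν)⟩)
  have hg2 : ∀ s, φ (H (g' s)) ∈ P := fun s => hcoef _ fun ν hν =>
    Finset.mem_insert_of_mem (Finset.mem_biUnion.2 ⟨s, Finset.mem_univ _,
      Finset.mem_union_right _ (Finset.mem_image_of_mem _ hν)⟩)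
  have hgu : ∀ s, P.valuation (φ (H (g s))) = 1 := by
    intro s
    have h3 := congrArg (fun z => P.valuation (φ z)) (hHn s)
    simp only [map_mul] at h3
    rw [hD1, mul_one, hn1] at h3
    exact (hval1 (hle.1 (hg1 s)) (hle.1 (hg2 s)) h3).1
  have hgu' : P.valuation (φ (∏ s, fam (K₁ := K₁) c (g s) ^ e s)) = 1 := by
    rw [map_prod, map_prod]
    refine Finset.prod_eq_one fun s _ => ?_
    rw [map_zpow₀, map_zpow₀, ← famH_apply, hgu, one_zpow]
  refine ⟨hle.2 hgu'.le, ?_, hz₀, fun σ hσk hσx hσz => hσ σ (fun z => ?_) hσx hσz⟩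
  · rw [ValuationSubring.mem_nonunits_iff, hgu']
    exact lt_irrefl _
  · rw [hcomp]
    exact hσk _

end Pool.Agent.SE
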